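import Pool.Agent.J4.H97.Anosov.Defs

/-!
Linear algebra over `ℂ`: traces and eigenvalues, nil algebras, orthogonal projections.
-/

namespace Pool.Agent.J4.H97.Anosov

open Matrix Filter Topology Polynomial

/-- Complex `d × d` matrices. -/
abbrev Md (d : ℕ) := Matrix (Fin d) (Fin d) ℂ

theorem idem_trace {d : ℕ} (e : Md d) (he : e * e = e) (ht : e.trace = 0) : e = 0 := by
  have h1 : IsIdempotentElem (Matrix.toLin' e) := by
    unfold IsIdempotentElem
    rw [Module.End.mul_eq_comp, ← Matrix.toLin'_mul, he]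
  have h2 : LinearMap.trace ℂ _ (Matrix.toLin' e) = 0 := by
    rw [Matrix.trace_toLin'_eq, ht]
  have h3 := (LinearMap.IsIdempotentElem.trace_eq_zero_iff h1).mp h2
  exact (Matrix.toLin' (R := ℂ)).injective (by rw [h3, map_zero])

theorem poly_idem {R : Type*} [CommRing R] (u w s q t r : R) (hr : r = t * s)
    (h : u * t + w * (s * q) = 1) :
    (w * (s * q)) * (w * (s * q)) = w * (s * q) - w * q * u * r := by
  subst hr
  linear_combination (w * (s * q)) * h

theorem trace_aeval {d e : ℕ} (M : Md d) (N : Md e) (h : ∀ n : ℕ, (M ^ n).trace = (N ^ n).trace)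
    (p : ℂ[X]) : (aeval M p).trace = (aeval N p).trace := by
  rw [Polynomial.aeval_eq_sum_range, Polynomial.aeval_eq_sum_range]
  simp only [Matrix.trace_sum, Matrix.trace_smul, h]

theorem aeval_mulVec {d : ℕ} (M : Md d) (μ : ℂ) (v : Fin d → ℂ) (hM : M *ᵥ v = μ • v) (p : ℂ[X]) :
    (aeval M p) *ᵥ v = (p.eval μ) • v := by
  have hpow : ∀ n : ℕ, (M ^ n) *ᵥ v = μ ^ n • v := by
    intro n
    induction n with
    | zero => simp
    | succ n ih => rw [pow_succ, ← Matrix.mulVec_mulVec, hM, Matrix.mulVec_smul, ih, smul_smul,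
        pow_succ, mul_comm]
  rw [Polynomial.aeval_eq_sum_range, Matrix.sum_mulVec, Polynomial.eval_eq_sum_range,
    Finset.sum_smul]
  refine Finset.sum_congr rfl fun i _ => ?_
  rw [Matrix.smul_mulVec, hpow, smul_smul]

/-- If all power traces of `M` and `N` agree, eigenvalues of `M` are eigenvalues of `N`. -/
theorem eig_of_trace {d e : ℕ} (M : Md d) (N : Md e)
    (h : ∀ n : ℕ, (M ^ n).trace = (N ^ n).trace)
    (μ : ℂ) (v : Fin d → ℂ) (hv : v ≠ 0) (hM : M *ᵥ v = μ • v) :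
    ∃ w : Fin e → ℂ, w ≠ 0 ∧ N *ᵥ w = μ • w := by
  by_contra hcon
  push Not at hcon
  set q := N.charpoly with hq
  have hqμ : q.eval μ ≠ 0 := by
    intro h0
    rw [hq, Matrix.eval_charpoly] at h0
    obtain ⟨w, hw, hw'⟩ := Matrix.exists_mulVec_eq_zero_iff.mpr h0
    refine hcon w hw ?_
    rw [Matrix.sub_mulVec] at hw'
    have h2 : (Matrix.scalar (Fin e) μ) *ᵥ w = μ • w := by
      ext i; simp [Matrix.scalar_apply, Matrix.mulVec_diagonal]
    rw [h2] at hw'
    exact (sub_eq_zero.mp hw').symm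
  set r := M.charpoly with hr
  have hr0 : r ≠ 0 := (Matrix.charpoly_monic M).ne_zero
  obtain ⟨s, hs, hsd⟩ := Polynomial.exists_eq_pow_rootMultiplicity_mul_and_not_dvd r hr0 μ
  set a := r.rootMultiplicity μ with ha
  have hrM : aeval M r = 0 := Matrix.aeval_self_charpoly M
  have hrμ : r.eval μ = 0 := by
    have := aeval_mulVec M μ v hM r
    rw [hrM, Matrix.zero_mulVec] at this
    rcases smul_eq_zero.mp this.symm with h | h
    · exact h
    · exact absurd h hv
  have ha0 : a ≠ 0 := by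
    have := (Polynomial.rootMultiplicity_pos hr0).mpr hrμ
    omega
  have hcop : IsCoprime ((X - C μ) ^ a) (s * q) := by
    apply IsCoprime.pow_left
    rw [(Polynomial.irreducible_X_sub_C μ).coprime_iff_not_dvd]
    intro hd
    rcases (Polynomial.prime_X_sub_C μ).dvd_or_dvd hd with h | h
    · exact hsd h
    · exact hqμ (Polynomial.dvd_iff_isRoot.mp h)
  obtain ⟨u, w, huw⟩ := hcop
  set p := w * (s * q) with hp
  have hpN : aeval N p = 0 := by
    rw [hp, map_mul, map_mul, hq, Matrix.aeval_self_charpoly]; simp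
  have hpM : aeval M p * aeval M p = aeval M p := by
    have h1 : p * p = p - w * q * u * r := poly_idem u w s q _ r hs huw
    rw [← map_mul, h1, map_sub, map_mul _ (w * q * u) r, hrM, mul_zero, sub_zero]
  have htr : (aeval M p).trace = 0 := by rw [trace_aeval M N h, hpN]; simp
  have h0 := idem_trace _ hpM htr
  have h4 := aeval_mulVec M μ v hM p
  rw [h0, Matrix.zero_mulVec] at h4
  have h5 : p.eval μ = 1 := by
    have h2 : p = 1 - u * (X - C μ) ^ a := by rw [← huw]; ring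
    rw [h2]; simp [ha0]
  rw [h5, one_smul] at h4
  exact hv h4.symm

/-- If all traces `tr (a ^ n)`, `n ≥ 1`, vanish then `a v = v` forces `v = 0`. -/
theorem fix_zero_of_trace {d : ℕ} (a : Md d) (h : ∀ n : ℕ, 1 ≤ n → (a ^ n).trace = 0)
    (v : Fin d → ℂ) (hv : a *ᵥ v = v) : v = 0 := by
  by_contra hne
  have h1 : ∀ n : ℕ, (a ^ n).trace = ((0 : Md d) ^ n).trace := by
    intro n
    rcases Nat.eq_zero_or_pos n with hn | hn
    · subst hn; simp
    · rw [h n hn, zero_pow (by omega)]; simp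
  obtain ⟨w, hw, hw'⟩ := eig_of_trace a 0 h1 1 v hne (by simpa using hv)
  apply hw
  simpa using hw'.symm

/-- A nil algebra of matrices has a common kernel vector in every nonzero invariant subspace. -/
theorem common_kernel {d : ℕ} (N : Submodule ℂ (Md d)) (hmul : ∀ a ∈ N, ∀ b ∈ N, a * b ∈ N)
    (hnil : ∀ a ∈ N, ∀ v : Fin d → ℂ, a *ᵥ v = v → v = 0)
    (U : Submodule ℂ (Fin d → ℂ)) (hU : U ≠ ⊥) (hinv : ∀ a ∈ N, ∀ u ∈ U, a *ᵥ u ∈ U) :
    ∃ u ∈ U, u ≠ 0 ∧ ∀ a ∈ N, a *ᵥ u = 0 := by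
  obtain ⟨W, ⟨hW0, hWU, hWinv⟩, hmin⟩ := IsArtinian.set_has_minimal
    {W : Submodule ℂ (Fin d → ℂ) | W ≠ ⊥ ∧ W ≤ U ∧ ∀ a ∈ N, ∀ u ∈ W, a *ᵥ u ∈ W}
    ⟨U, hU, le_rfl, hinv⟩
  obtain ⟨w, hwW, hw0⟩ := Submodule.exists_mem_ne_zero_of_ne_bot hW0
  refine ⟨w, hWU hwW, hw0, ?_⟩
  by_contra hcon
  push Not at hcon
  obtain ⟨a, haN, haw⟩ := hcon
  let f : Md d →ₗ[ℂ] (Fin d → ℂ) :=
    { toFun := fun a => a *ᵥ w
      map_add' := fun a b => Matrix.add_mulVec a b w
      map_smul' := fun c a => Matrix.smul_mulVec c a w }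
  have hfa : ∀ b, f b = b *ᵥ w := fun b => rfl
  have hmem : N.map f ∈ {W : Submodule ℂ (Fin d → ℂ) | W ≠ ⊥ ∧ W ≤ U ∧
      ∀ a ∈ N, ∀ u ∈ W, a *ᵥ u ∈ W} := by
    refine ⟨?_, ?_, ?_⟩
    · intro h
      have : f a ∈ N.map f := Submodule.mem_map_of_mem haN
      rw [h, Submodule.mem_bot] at this
      exact haw this
    · rintro _ ⟨b, hb, rfl⟩
      exact hWU (hWinv b hb w hwW)
    · rintro b hb _ ⟨c, hc, rfl⟩
      refine ⟨b * c, hmul b hb c hc, ?_⟩
      rw [hfa, hfa, Matrix.mulVec_mulVec]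
  have hle : N.map f ≤ W := by
    rintro _ ⟨b, hb, rfl⟩
    exact hWinv b hb w hwW
  have heq : N.map f = W := by
    by_contra hne
    exact hmin _ hmem (lt_of_le_of_ne hle hne)
  rw [← heq] at hwW
  obtain ⟨b, hb, hbw⟩ := hwW
  exact hw0 (hnil b hb w hbw)

/-- Orthogonal projection matrices. -/
theorem exists_proj {d : ℕ} (W : Submodule ℂ (Fin d → ℂ)) :
    ∃ Q : Md d, Q * Q = Q ∧ Qᴴ = Q ∧ ∀ v, v ∈ W ↔ Q *ᵥ v = v := by
  let e := (WithLp.linearEquiv 2 ℂ (Fin d → ℂ))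
  let W' : Submodule ℂ (EuclideanSpace ℂ (Fin d)) := W.comap e.toLinearMap
  let T := Matrix.toEuclideanCLM (n := Fin d) (𝕜 := ℂ)
  refine ⟨T.symm W'.starProjection, ?_, ?_, ?_⟩
  · rw [← map_mul]
    congr 1
    exact W'.isIdempotentElem_starProjection
  · have h1 : star (T.symm W'.starProjection) = T.symm W'.starProjection := by
      have h2 : T (star (T.symm W'.starProjection)) = T (T.symm W'.starProjection) := by
        rw [map_star T, StarAlgEquiv.apply_symm_apply]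
        exact isSelfAdjoint_starProjection W'
      exact T.injective h2
    exact h1
  · intro v
    have h1 : T (T.symm W'.starProjection) (WithLp.toLp 2 v) = W'.starProjection (WithLp.toLp 2 v) := by
      rw [StarAlgEquiv.apply_symm_apply]
    have h2 : T (T.symm W'.starProjection) (WithLp.toLp 2 v) =
      WithLp.toLp 2 ((T.symm W'.starProjection) *ᵥ v) := Matrix.toEuclideanCLM_toLp _ _
    have h3 : v ∈ W ↔ WithLp.toLp 2 v ∈ W' := Iff.rfl
    rw [h3, ← Submodule.starProjection_eq_self_iff, ← h1, h2]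
    constructor
    · intro h; exact congrArg WithLp.ofLp h
    · intro h; rw [h]

/-- Let `A` be a set of matrices whose invariant subspaces have invariant orthogonal
complements.  Then a nil ideal vanishes. -/
theorem nil_zero {d : ℕ} (A : Set (Md d)) (N : Submodule ℂ (Md d))
    (hmul : ∀ a ∈ N, ∀ b ∈ N, a * b ∈ N)
    (hnil : ∀ a ∈ N, ∀ v : Fin d → ℂ, a *ᵥ v = v → v = 0)
    (hred : ∀ Q : Md d, Q * Q = Q → Qᴴ = Q → (∀ a ∈ A, a * Q = Q * a * Q) →
      ∀ a ∈ A, Q * a = Q * a * Q)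
    (hideal : ∀ n ∈ N, ∀ a ∈ A, n * a ∈ N)
    (hNA : ∀ n ∈ N, ∀ Q : Md d, (∀ a ∈ A, a * Q = Q * a * Q) → n * Q = Q * n * Q) :
    ∀ n ∈ N, n = 0 := by
  let W : Submodule ℂ (Fin d → ℂ) :=
    { carrier := {v | ∀ n ∈ N, n *ᵥ v = 0}
      add_mem' := by
        intro a b ha hb n hn
        rw [Matrix.mulVec_add, ha n hn, hb n hn, add_zero]
      zero_mem' := by intro n _; simp
      smul_mem' := by
        intro c a ha n hn
        rw [Matrix.mulVec_smul, ha n hn, smul_zero] }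
  have hWm : ∀ v, v ∈ W ↔ ∀ n ∈ N, n *ᵥ v = 0 := fun v => Iff.rfl
  obtain ⟨Q, hQQ, hQs, hQ⟩ := exists_proj W
  have hQW : ∀ v, Q *ᵥ v ∈ W := by
    intro v; rw [hQ, Matrix.mulVec_mulVec, hQQ]
  have hQinv : ∀ a ∈ A, a * Q = Q * a * Q := by
    intro a ha
    apply Matrix.mulVec_injective
    funext v
    have h1 : a *ᵥ (Q *ᵥ v) ∈ W := by
      rw [hWm]
      intro n hn
      rw [Matrix.mulVec_mulVec]
      exact (hWm _).mp (hQW v) _ (hideal n hn a ha)
    rw [hQ] at h1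
    rw [← Matrix.mulVec_mulVec, ← Matrix.mulVec_mulVec, ← Matrix.mulVec_mulVec, h1]
  have hQ2 := hred Q hQQ hQs hQinv
  set Q' : Md d := 1 - Q with hQ'
  have hQ'inv : ∀ a ∈ A, a * Q' = Q' * a * Q' := by
    intro a ha
    have h1 : Q * a * Q' = 0 := by
      rw [hQ', mul_sub, mul_one, hQ2 a ha]
      rw [mul_assoc (Q * a) Q Q, hQQ, sub_self]
    have h2 : Q' * a * Q' = a * Q' - Q * a * Q' := by
      conv_lhs => rw [hQ', sub_mul, one_mul, sub_mul]
    rw [h2, h1, sub_zero]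
  have hQ'Q' : Q' * Q' = Q' := by
    rw [hQ', mul_sub, mul_one, sub_mul, one_mul, hQQ, sub_self, sub_zero]
  let U : Submodule ℂ (Fin d → ℂ) := LinearMap.ker (Matrix.mulVecLin Q)
  have hUm : ∀ v, v ∈ U ↔ Q *ᵥ v = 0 := fun v => by
    simp [U, LinearMap.mem_ker]
  have hU : U = ⊥ := by
    by_contra hne
    obtain ⟨u, huU, hu0, hu⟩ := common_kernel N hmul hnil U hne (by
      intro n hn u hu
      rw [hUm] at hu ⊢
      have h1 : Q' *ᵥ u = u := by rw [hQ', Matrix.sub_mulVec, hu]; simp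
      have h2 := hNA n hn Q' hQ'inv
      have h3 : n *ᵥ u = Q' *ᵥ (n *ᵥ u) := by
        conv_lhs => rw [← h1, Matrix.mulVec_mulVec, h2, ← Matrix.mulVec_mulVec,
          ← Matrix.mulVec_mulVec, h1]
      rw [h3, Matrix.mulVec_mulVec]
      have h4 : Q * Q' = 0 := by rw [hQ', mul_sub, mul_one, hQQ, sub_self]
      rw [h4, Matrix.zero_mulVec])
    have h5 : u ∈ W := (hWm u).mpr hu
    rw [hQ] at h5
    rw [hUm] at huU
    exact hu0 (h5.symm.trans huU)
  have hQ1 : Q = 1 := by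
    have h1 : Q' = 0 := by
      apply Matrix.mulVec_injective
      funext v
      have h2 : Q' *ᵥ v ∈ U := by
        rw [hUm, Matrix.mulVec_mulVec]
        have h4 : Q * Q' = 0 := by rw [hQ', mul_sub, mul_one, hQQ, sub_self]
        rw [h4, Matrix.zero_mulVec]
      rw [hU, Submodule.mem_bot] at h2
      rw [h2]; simp
    rw [hQ', sub_eq_zero] at h1
    exact h1.symm
  intro n hn
  apply Matrix.mulVec_injective
  funext v
  have h1 : v ∈ W := by rw [hQ, hQ1]; simp
  rw [(hWm v).mp h1 n hn]; simp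

end Pool.Agent.J4.H97.Anosov
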