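import Pool.Agent.J4.H97.Anosov.OutFin

/-!
Integer matrices preserving `x ^ 2 + y ^ 2 - 3 z ^ 2` and their action on the hyperboloid.
-/

namespace Pool.Agent.J4.H97.Anosov

open Matrix Filter Topology

/-- Integer `3 × 3` matrices. -/
abbrev MZ := Matrix (Fin 3) (Fin 3) ℤ

/-- The form. -/
def FZ : MZ := !![1, 0, 0; 0, 1, 0; 0, 0, -3]

theorem s3pos : 0 < Real.sqrt 3 := Real.sqrt_pos.mpr (by norm_num)
theorem s3sq : Real.sqrt 3 * Real.sqrt 3 = 3 := Real.mul_self_sqrt (by norm_num)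
theorem s3lt : Real.sqrt 3 < 2 := by
  rw [Real.sqrt_lt' (by norm_num)]; norm_num
theorem s3gt : 1 < Real.sqrt 3 := by
  rw [Real.lt_sqrt (by norm_num)]; norm_num

/-- Diagonal change of coordinates. -/
noncomputable def Dm : M3 := !![1, 0, 0; 0, 1, 0; 0, 0, Real.sqrt 3]
/-- Its inverse. -/
noncomputable def Dm' : M3 := !![1, 0, 0; 0, 1, 0; 0, 0, (Real.sqrt 3)⁻¹]

theorem Dm_mul : Dm * Dm' = 1 := by
  have := s3pos.ne'
  ext i j
  fin_cases i <;> fin_cases j <;> simp [Dm, Dm', Matrix.mul_apply, Fin.sum_univ_three, this]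

theorem Dm'_mul : Dm' * Dm = 1 := mul_eq_one_comm.mp Dm_mul

/-- Real matrix of an integer matrix. -/
def toR (w : MZ) : M3 := w.map (fun x : ℤ => (x : ℝ))

theorem toR_mul (a b : MZ) : toR (a * b) = toR a * toR b := by
  unfold toR
  ext i j
  simp [Matrix.mul_apply]

theorem toR_one : toR 1 = 1 := by
  unfold toR
  ext i j
  simp [Matrix.one_apply]

/-- The representation of integer matrices on Minkowski space. -/
noncomputable def cj (w : MZ) : M3 := Dm * toR w * Dm'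

theorem cj_one : cj 1 = 1 := by
  unfold cj; rw [toR_one, mul_one, Dm_mul]

theorem cj_mul (a b : MZ) : cj (a * b) = cj a * cj b := by
  unfold cj
  rw [toR_mul]
  calc Dm * (toR a * toR b) * Dm' = Dm * toR a * 1 * toR b * Dm' := by
        rw [mul_one]; simp only [mul_assoc]
    _ = Dm * toR a * (Dm' * Dm) * toR b * Dm' := by rw [Dm'_mul]
    _ = _ := by simp only [mul_assoc]

/-- Scaling factors. -/
noncomputable def sc (i : Fin 3) : ℝ := if i = 2 then Real.sqrt 3 else 1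

theorem sc_pos (i : Fin 3) : 0 < sc i := by
  unfold sc; split_ifs
  · exact s3pos
  · exact one_pos

theorem cj_apply (w : MZ) (i j : Fin 3) : cj w i j = sc i * (w i j : ℝ) / sc j := by
  unfold cj
  have h3 := s3pos.ne'
  fin_cases i <;> fin_cases j <;>
    simp [Dm, Dm', toR, sc, Matrix.mul_apply, Fin.sum_univ_three, Matrix.vecMul, dotProduct] <;>
    field_simp

theorem cj_inj {a b : MZ} (h : cj a = cj b) : a = b := by
  ext i j
  have h1 := congrFun (congrFun h i) j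
  rw [cj_apply, cj_apply] at h1
  have hi := sc_pos i
  have hj := sc_pos j
  field_simp at h1
  exact_mod_cast h1

theorem sc_ratio (i j : Fin 3) : sc j / sc i < 2 := by
  unfold sc
  have h1 := s3lt
  have h2 := s3gt
  split_ifs <;> (rw [div_lt_iff₀ (by linarith)]; linarith)

theorem entry_le_two (w : MZ) (i j : Fin 3) : |(w i j : ℝ)| ≤ 2 * |cj w i j| := by
  have h1 : (w i j : ℝ) = (sc j / sc i) * cj w i j := by
    rw [cj_apply]
    have hi := sc_pos i
    have hj := sc_pos j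
    field_simp
  rw [h1, abs_mul]
  refine mul_le_mul_of_nonneg_right ?_ (abs_nonneg _)
  have hi := sc_pos i
  have hj := sc_pos j
  rw [abs_of_pos (by positivity)]
  exact (sc_ratio i j).le

theorem det_cj (w : MZ) : (cj w).det = (w.det : ℝ) := by
  unfold cj
  rw [Matrix.det_mul, Matrix.det_mul, mul_comm (Dm.det), mul_assoc, ← Matrix.det_mul, Dm_mul,
    Matrix.det_one, mul_one]
  unfold toR
  exact (Int.cast_det w).symm

theorem trace_cj (w : MZ) : (cj w).trace = ((w.trace : ℤ) : ℝ) := by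
  unfold cj
  rw [Matrix.trace_mul_comm, ← mul_assoc, Dm'_mul, one_mul]
  simp [toR, Matrix.trace, Fin.sum_univ_three]

theorem cj_22 (w : MZ) : cj w 2 2 = (w 2 2 : ℝ) := by
  rw [cj_apply]
  have := sc_pos 2
  field_simp

theorem form_cj {w : MZ} (h : wᵀ * FZ * w = FZ) : (cj w)ᵀ * J * cj w = J := by
  have hDJ : Dm * J * Dm = toR FZ := by
    have := s3sq
    ext i j
    fin_cases i <;> fin_cases j <;>
      simp [Dm, J, FZ, toR, Matrix.mul_apply, Fin.sum_univ_three, this]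
  have hDJ' : Dm' * toR FZ * Dm' = J := by
    rw [← hDJ]
    calc Dm' * (Dm * J * Dm) * Dm' = (Dm' * Dm) * J * (Dm * Dm') := by simp only [mul_assoc]
      _ = J := by rw [Dm'_mul, Dm_mul, one_mul, mul_one]
  have hDt : Dmᵀ = Dm := by
    ext i j; fin_cases i <;> fin_cases j <;> simp [Dm]
  have hDt' : Dm'ᵀ = Dm' := by
    ext i j; fin_cases i <;> fin_cases j <;> simp [Dm']
  have ht : (toR w)ᵀ = toR wᵀ := by
    ext i j; simp [toR]
  unfold cj
  rw [Matrix.transpose_mul, Matrix.transpose_mul, hDt, hDt', ht]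
  calc Dm' * (toR wᵀ * Dm) * J * (Dm * toR w * Dm') =
      Dm' * (toR wᵀ * (Dm * J * Dm) * toR w) * Dm' := by simp only [mul_assoc]
    _ = Dm' * toR (wᵀ * FZ * w) * Dm' := by rw [hDJ, toR_mul, toR_mul]
    _ = J := by rw [h, hDJ']

/-! ### Time-orientation preserving isometries -/

/-- Orthochronous Lorentz matrices. -/
def IsOp (g : M3) : Prop := gᵀ * J * g = J ∧ 0 < g 2 2

theorem IsOp.linv_o {g : M3} (hg : IsOp g) : Hyp (linv g *ᵥ o) := by
  have h := row_eqs hg.1 2 2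
  have h22 := hg.2
  have e : linv g *ᵥ o = ![- g 2 0, - g 2 1, g 2 2] := by
    rw [linv_eq]
    ext i; fin_cases i <;>
      simp [o, Matrix.mulVec, dotProduct, Fin.sum_univ_three]
  rw [e]
  simp [J] at h
  refine ⟨?_, ?_⟩
  · simp [B]; linarith
  · simpa using h22

theorem IsOp.hyp {g : M3} (hg : IsOp g) {x : V3} (hx : Hyp x) : Hyp (g *ᵥ x) := by
  refine ⟨by rw [B_pres hg.1]; exact hx.1, ?_⟩
  have h1 : B (g *ᵥ x) o = B x (linv g *ᵥ o) := by
    rw [← B_pres hg.1 x (linv g *ᵥ o), Matrix.mulVec_mulVec, mul_linv hg.1, Matrix.one_mulVec]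
  have h2 := B_le hx hg.linv_o
  rw [← h1] at h2
  simp [B, o] at h2
  linarith

theorem IsOp.mul {g h : M3} (hg : IsOp g) (hh : IsOp h) : IsOp (g * h) := by
  refine ⟨?_, ?_⟩
  · rw [Matrix.transpose_mul]
    calc hᵀ * gᵀ * J * (g * h) = hᵀ * (gᵀ * J * g) * h := by simp only [mul_assoc]
      _ = J := by rw [hg.1, hh.1]
  · have h1 := (hg.hyp (hh.hyp hyp_o)).2
    rw [Matrix.mulVec_mulVec, mulVec_o_two] at h1
    exact h1

theorem op_entry_le {g : M3} (hg : IsOp g) (i j : Fin 3) : |g i j| ≤ g 2 2 := by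
  have h22 := hg.2
  apply abs_le_of_sq_le_sq _ h22.le
  have c2 := col_eqs hg.1 2 2
  have r2 := row_eqs hg.1 2 2
  have r0 := row_eqs hg.1 0 0
  have r1 := row_eqs hg.1 1 1
  simp [J] at c2 r2 r0 r1
  fin_cases i <;> fin_cases j <;> simp <;>
    nlinarith [sq_nonneg (g 0 2), sq_nonneg (g 1 2), sq_nonneg (g 0 0), sq_nonneg (g 0 1),
      sq_nonneg (g 1 0), sq_nonneg (g 1 1), sq_nonneg (g 2 0), sq_nonneg (g 2 1)]

theorem op_mulVec_le {g : M3} (hg : IsOp g) {x : V3} (hx : Hyp x) :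
    (g *ᵥ x) 2 ≤ 3 * (g 2 2 * x 2) := by
  have hx2 := hx.2
  have hxi : ∀ i, |x i| ≤ x 2 := by
    intro i
    apply abs_le_of_sq_le_sq _ hx2.le
    have := hx.1
    simp only [B] at this
    fin_cases i <;> simp <;> nlinarith [sq_nonneg (x 0), sq_nonneg (x 1)]
  have h1 : (g *ᵥ x) 2 = g 2 0 * x 0 + g 2 1 * x 1 + g 2 2 * x 2 := by
    simp [Matrix.mulVec, dotProduct, Fin.sum_univ_three]
  have h2 : ∀ i, g 2 i * x i ≤ g 2 2 * x 2 := by
    intro i
    calc g 2 i * x i ≤ |g 2 i * x i| := le_abs_self _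
      _ = |g 2 i| * |x i| := abs_mul _ _
      _ ≤ g 2 2 * x 2 := mul_le_mul (op_entry_le hg 2 i) (hxi i) (abs_nonneg _) hg.2.le
  have := h2 0
  have := h2 1
  rw [h1]; linarith

/-! ### Anisotropy -/

theorem aniso_aux (n : ℕ) : ∀ x y z : ℤ, x.natAbs + y.natAbs + z.natAbs ≤ n →
    x ^ 2 + y ^ 2 = 3 * z ^ 2 → x = 0 ∧ y = 0 ∧ z = 0 := by
  induction n using Nat.strong_induction_on with
  | _ n ih =>
    intro x y z hn h
    have hx : (3 : ℤ) ∣ x ∧ (3 : ℤ) ∣ y := by
      have h1 : (x ^ 2 + y ^ 2) % 3 = 0 := by rw [h]; omega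
      have hx3 : x % 3 = 0 ∨ x % 3 = 1 ∨ x % 3 = 2 := by omega
      have hy3 : y % 3 = 0 ∨ y % 3 = 1 ∨ y % 3 = 2 := by omega
      have e : (x ^ 2 + y ^ 2) % 3 = ((x % 3) ^ 2 + (y % 3) ^ 2) % 3 := by
        rw [Int.add_emod, pow_two, pow_two, Int.mul_emod, Int.mul_emod y y]
        simp [pow_two, Int.add_emod, Int.mul_emod]
      rw [e] at h1
      rcases hx3 with h2 | h2 | h2 <;> rcases hy3 with h3 | h3 | h3 <;> rw [h2, h3] at h1 <;>
        first
          | exact ⟨Int.dvd_of_emod_eq_zero h2, Int.dvd_of_emod_eq_zero h3⟩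
          | (exfalso; norm_num at h1)
    obtain ⟨⟨x', rfl⟩, ⟨y', rfl⟩⟩ := hx
    have h1 : z ^ 2 = 3 * (x' ^ 2 + y' ^ 2) := by nlinarith
    have hz : (3 : ℤ) ∣ z := by
      have : (3 : ℤ) ∣ z ^ 2 := ⟨_, h1⟩
      exact Int.prime_three.dvd_of_dvd_pow this
    obtain ⟨z', rfl⟩ := hz
    have h2 : x' ^ 2 + y' ^ 2 = 3 * z' ^ 2 := by nlinarith
    by_cases h0 : x' = 0 ∧ y' = 0 ∧ z' = 0
    · obtain ⟨rfl, rfl, rfl⟩ := h0; simp
    · have hlt : x'.natAbs + y'.natAbs + z'.natAbs < n := by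
        have e1 : (3 * x').natAbs = 3 * x'.natAbs := by rw [Int.natAbs_mul]; rfl
        have e2 : (3 * y').natAbs = 3 * y'.natAbs := by rw [Int.natAbs_mul]; rfl
        have e3 : (3 * z').natAbs = 3 * z'.natAbs := by rw [Int.natAbs_mul]; rfl
        rw [e1, e2, e3] at hn
        have : x'.natAbs ≠ 0 ∨ y'.natAbs ≠ 0 ∨ z'.natAbs ≠ 0 := by
          by_contra hcon
          push Not at hcon
          exact h0 ⟨Int.natAbs_eq_zero.mp hcon.1, Int.natAbs_eq_zero.mp hcon.2.1,
            Int.natAbs_eq_zero.mp hcon.2.2⟩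
        omega
      obtain ⟨a, b, c⟩ := ih _ hlt x' y' z' le_rfl h2
      exact absurd ⟨a, b, c⟩ h0

theorem aniso (u : Fin 3 → ℤ) (h : u 0 ^ 2 + u 1 ^ 2 - 3 * u 2 ^ 2 = 0) : u = 0 := by
  obtain ⟨a, b, c⟩ := aniso_aux _ (u 0) (u 1) (u 2) le_rfl (by linarith)
  ext i; fin_cases i
  · exact a
  · exact b
  · exact c

/-- Embedding of integer vectors. -/
noncomputable def em (u : Fin 3 → ℤ) : V3 := ![(u 0 : ℝ), (u 1 : ℝ), Real.sqrt 3 * (u 2 : ℝ)]

/-- The integer form. -/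
def fz (u v : Fin 3 → ℤ) : ℤ := u 0 * v 0 + u 1 * v 1 - 3 * (u 2 * v 2)

theorem B_em (u v : Fin 3 → ℤ) : B (em u) (em v) = (fz u v : ℝ) := by
  have := s3sq
  simp only [B, em, fz, Matrix.cons_val_zero, Matrix.cons_val_one, Matrix.cons_val]
  push_cast
  linear_combination (-((u 2 : ℝ) * (v 2 : ℝ))) * this

theorem cj_em (w : MZ) (u : Fin 3 → ℤ) : cj w *ᵥ em u = em (w *ᵥ u) := by
  have h3 := s3pos.ne'
  have hs := s3sq
  ext i
  fin_cases i
  · simp [em, Matrix.mulVec, dotProduct, Fin.sum_univ_three, cj_apply, sc]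
    field_simp
  · simp [em, Matrix.mulVec, dotProduct, Fin.sum_univ_three, cj_apply, sc]
    field_simp
  · simp [em, Matrix.mulVec, dotProduct, Fin.sum_univ_three, cj_apply, sc]
    field_simp

/-! ### Rotations -/

theorem rot_trace {k : M3} (hk : IsLor k) {p : V3} (hp : Hyp p) (h : k *ᵥ p = p) :
    -1 ≤ k.trace ∧ k.trace ≤ 3 ∧ (k.trace = 3 → k = 1) := by
  obtain ⟨g, hg, hgp⟩ := exists_frame_p hp
  set q : M3 := linv g * k * g with hq
  have hql : IsLor q := (hg.linv.mul hk).mul hg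
  have hqo : q *ᵥ o = o := by
    rw [hq, ← Matrix.mulVec_mulVec, ← Matrix.mulVec_mulVec, hgp, h, ← hgp, lin_lin' hg]
  have htr : k.trace = q.trace := by
    rw [hq, Matrix.trace_mul_comm, ← mul_assoc, mul_linv hg.1, one_mul]
  have q02 : q 0 2 = 0 := by
    have := congrFun hqo 0; simpa [o, Matrix.mulVec, dotProduct, Fin.sum_univ_three] using this
  have q12 : q 1 2 = 0 := by
    have := congrFun hqo 1; simpa [o, Matrix.mulVec, dotProduct, Fin.sum_univ_three] using this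
  have q22 : q 2 2 = 1 := by
    have := congrFun hqo 2; simpa [o, Matrix.mulVec, dotProduct, Fin.sum_univ_three] using this
  have r2 := row_eqs hql.1 2 2
  have c00 := col_eqs hql.1 0 0
  have c11 := col_eqs hql.1 1 1
  have c01 := col_eqs hql.1 0 1
  simp [J, q22] at r2 c00 c11 c01
  have q20 : q 2 0 = 0 := by nlinarith [sq_nonneg (q 2 0), sq_nonneg (q 2 1)]
  have q21 : q 2 1 = 0 := by nlinarith [sq_nonneg (q 2 0), sq_nonneg (q 2 1)]
  rw [q20] at c00 c01
  rw [q21] at c11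
  have hdet := hql.2.1
  rw [Matrix.det_fin_three] at hdet
  simp [q02, q12, q22, q20, q21] at hdet
  have hq00 : q 0 0 ^ 2 ≤ 1 := by nlinarith [sq_nonneg (q 1 0)]
  have e11 : q 1 1 = q 0 0 := by
    have : q 1 1 * (q 0 0 * q 0 0 + q 1 0 * q 1 0) =
        q 0 0 * (q 0 0 * q 1 1 - q 0 1 * q 1 0) := by
      linear_combination (q 1 0) * c01
    rw [hdet] at this
    have h5 : q 0 0 * q 0 0 + q 1 0 * q 1 0 = 1 := by linarith
    rw [h5] at this
    linarith
  have hab := abs_le_of_sq_le_sq' (show q 0 0 ^ 2 ≤ 1 ^ 2 by linarith) one_pos.le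
  have htq : q.trace = 1 + 2 * q 0 0 := by
    simp [Matrix.trace, Fin.sum_univ_three, q22, e11]; ring
  refine ⟨?_, ?_, ?_⟩
  · rw [htr, htq]; linarith [hab.1]
  · rw [htr, htq]; linarith [hab.2]
  · intro h3
    rw [htr, htq] at h3
    have q00 : q 0 0 = 1 := by linarith
    have q10 : q 1 0 = 0 := by rw [q00] at c00; nlinarith
    have q01 : q 0 1 = 0 := by
      rw [e11, q00] at c11; nlinarith
    have hq1 : q = 1 := by
      ext i j
      fin_cases i <;> fin_cases j <;>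
        simp [q00, q10, q01, q02, q12, q22, q20, q21, e11]
    calc k = (g * linv g) * k * (g * linv g) := by rw [mul_linv hg.1, one_mul, mul_one]
      _ = g * (linv g * k * g) * linv g := by simp only [mul_assoc]
      _ = 1 := by rw [← hq, hq1, mul_one, mul_linv hg.1]

/-- Fixed unit vectors of a nontrivial translation are unique up to sign. -/
theorem fixed_unique_mat {y : M3} (hy : IsLor y) (hy1 : y ≠ 1) {n m : V3} (hn : B n n = 1)
    (hm : B m m = 1) (hyn : y *ᵥ n = n) (hym : y *ᵥ m = m) : m = n ∨ m = -n := by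
  obtain ⟨g, hg, hge⟩ := exists_frame_n hn
  obtain ⟨t, hyg⟩ := axis_form hy hg (by rw [hge, hyn])
  have ht : t ≠ 0 := by
    intro h0
    rw [h0, flow_zero, mul_one] at hyg
    apply hy1
    calc y = y * (g * linv g) := by rw [mul_linv hg.1, mul_one]
      _ = 1 := by rw [← mul_assoc, hyg, mul_linv hg.1]
  set m' := linv g *ᵥ m with hm'
  have h1 : flow t *ᵥ m' = m' := by
    have h2 : y *ᵥ (g *ᵥ m') = g *ᵥ m' := by rw [hm', lin_lin hg, hym]
    rw [Matrix.mulVec_mulVec, hyg, ← Matrix.mulVec_mulVec] at h2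
    have h3 := congrArg (fun x => linv g *ᵥ x) h2
    simpa only [lin_lin' hg] using h3
  rw [flow_mulVec] at h1
  have h10 := congrFun h1 0
  have h12 := congrFun h1 2
  simp at h10 h12
  have hc : 1 < Real.cosh t := Real.one_lt_cosh.mpr ht
  have hcs := Real.cosh_sq t
  have hdet : (Real.cosh t - 1) * (Real.cosh t - 1) - Real.sinh t * Real.sinh t =
      2 - 2 * Real.cosh t := by nlinarith
  have e0 : m' 0 * (2 - 2 * Real.cosh t) = 0 := by
    rw [← hdet]; linear_combination (Real.cosh t - 1) * h10 - (Real.sinh t) * h12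
  have e2 : m' 2 * (2 - 2 * Real.cosh t) = 0 := by
    rw [← hdet]; linear_combination (Real.cosh t - 1) * h12 - (Real.sinh t) * h10
  have hne : 2 - 2 * Real.cosh t ≠ 0 := by linarith
  have m0 : m' 0 = 0 := (mul_eq_zero.mp e0).resolve_right hne
  have m2 : m' 2 = 0 := (mul_eq_zero.mp e2).resolve_right hne
  have hmm : B m' m' = 1 := by rw [hm', hg.linv.B, hm]
  simp only [B, m0, m2] at hmm
  have hm1 : m' 1 = 1 ∨ m' 1 = -1 := sq_eq_one_iff_of_side (by nlinarith)
  have hmg : m = g *ᵥ m' := (lin_lin hg m).symm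
  rcases hm1 with h | h
  · have : m' = e1 := by ext i; fin_cases i <;> simp [e1, m0, m2, h]
    rw [hmg, this]
    left; exact hge
  · have : m' = -e1 := by ext i; fin_cases i <;> simp [e1, m0, m2, h]
    rw [hmg, this, Matrix.mulVec_neg]
    right; rw [hge]

end Pool.Agent.J4.H97.Anosov
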