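import Pool.Agent.J4.H97.Anosov.Good

/-!
An algebraic characterisation of crossing axes.
-/

namespace Pool.Agent.J4.H97.Anosov

open Matrix Filter Topology

/-- Algebraic crossing. -/
def CrossAlg {G : Type*} [Group G] (a b : G) : Prop :=
  ∃ A : Set G, (∀ x, a * x ∈ A ↔ x ∈ A) ∧
    (∀ g, ∃ F : Set G, F.Finite ∧ ∀ x, x ∈ A → x * g ∉ A → ∃ k : ℤ, ∃ f ∈ F, x = a ^ k * f) ∧
    (∃ N : ℕ, ∀ n ≥ N, b ^ n ∈ A) ∧ (∃ N : ℕ, ∀ n ≥ N, (b ^ n)⁻¹ ∉ A)

theorem CrossAlg.map {G : Type*} [Group G] {a b : G} (h : CrossAlg a b) (φ : MulAut G) :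
    CrossAlg (φ a) (φ b) := by
  obtain ⟨A, h1, h2, ⟨N, h3⟩, ⟨N', h4⟩⟩ := h
  refine ⟨{x | φ.symm x ∈ A}, ?_, ?_, ⟨N, ?_⟩, ⟨N', ?_⟩⟩
  · intro x
    change φ.symm (φ a * x) ∈ A ↔ φ.symm x ∈ A
    rw [map_mul, MulEquiv.symm_apply_apply]
    exact h1 _
  · intro g
    obtain ⟨F, hF, hF'⟩ := h2 (φ.symm g)
    refine ⟨φ '' F, hF.image _, ?_⟩
    intro x hx hxg
    change φ.symm x ∈ A at hx
    have hxg' : φ.symm x * φ.symm g ∉ A := by
      intro hc
      apply hxg
      change φ.symm (x * g) ∈ A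
      rw [map_mul]; exact hc
    obtain ⟨k, f, hf, hk⟩ := hF' _ hx hxg'
    refine ⟨k, φ f, ⟨f, hf, rfl⟩, ?_⟩
    have := congrArg φ hk
    rw [MulEquiv.apply_symm_apply, map_mul, map_zpow] at this
    exact this
  · intro n hn
    change φ.symm ((φ b) ^ n) ∈ A
    rw [← map_pow, MulEquiv.symm_apply_apply]
    exact h3 n hn
  · intro n hn hc
    apply h4 n hn
    change φ.symm (((φ b) ^ n)⁻¹) ∈ A at hc
    rw [← map_pow, ← map_inv, MulEquiv.symm_apply_apply] at hc
    exact hc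

variable {Γ : Subgroup SL3}

theorem pow_act {b : Γ} {h : M3} (hh : IsLor h) {t : ℝ} (hb : mat b * h = h * flow t) (n : ℕ)
    (q : V3) : mat (b ^ n) *ᵥ q = (h * flow (n * t)) *ᵥ (linv h *ᵥ q) := by
  rw [← mat_pow_frame hb, Matrix.mulVec_mulVec, mul_assoc, mul_linv hh.1, mul_one]

theorem pow_inv_act {b : Γ} {h : M3} (hh : IsLor h) {t : ℝ} (hb : mat b * h = h * flow t) (n : ℕ)
    (q : V3) : mat (b ^ n)⁻¹ *ᵥ q = (h * flow (-(n * t))) *ᵥ (linv h *ᵥ q) := by
  rw [← mat_inv_frame (mat_pow_frame hb n), Matrix.mulVec_mulVec, mul_assoc, mul_linv hh.1, mul_one]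

theorem tendsto_nat_mul {t : ℝ} (ht : 0 < t) : Tendsto (fun n : ℕ => (n : ℝ) * t) atTop atTop :=
  tendsto_natCast_atTop_atTop.atTop_mul_const ht

/-- Crossing axes cross algebraically. -/
theorem cross_imp (hG : Good Γ) {a b : Γ} (ha : a ≠ 1) (hb : b ≠ 1) {n m : V3}
    (hn : B n n = 1) (hm : B m m = 1) (han : mat a *ᵥ n = n) (hbm : mat b *ᵥ m = m)
    (hc : |B n m| < 1) : CrossAlg a b := by
  obtain ⟨h, t, hh, ht, hbh, hhe⟩ := hG.frame_n hb hm hbm
  -- choose the sign of the normal of `a`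
  have key : ∀ n : V3, B n n = 1 → mat a *ᵥ n = n →
      (linv h *ᵥ n) 2 < (linv h *ᵥ n) 0 → (linv h *ᵥ (-n)) 0 + (linv h *ᵥ (-n)) 2 < 0 →
      CrossAlg a b := by
    intro n hn han h1 h2
    refine ⟨{x | 0 < B (mat x *ᵥ o) n}, ?_, ?_, ?_, ?_⟩
    · intro x
      change 0 < B (mat (a * x) *ᵥ o) n ↔ 0 < B (mat x *ᵥ o) n
      rw [mat_mul, ← Matrix.mulVec_mulVec]
      nth_rewrite 1 [← han]
      rw [(hG.lor a).B]
    · intro g
      obtain ⟨ga, s, hga, hs, hag, hgae⟩ := hG.frame_n ha hn han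
      obtain ⟨F, hF, hF'⟩ := hG.mod_axis hga hs hag (mat g 2 2)
      refine ⟨F, hF, fun x hx hxg => ?_⟩
      apply hF'
      change 0 < B (mat x *ᵥ o) n at hx
      have hxg' : B (mat (x * g) *ᵥ o) n ≤ 0 := le_of_not_gt hxg
      have hb1 := side_bound ((hG.lor x).hyp hyp_o) ((hG.lor (x * g)).hyp hyp_o) hn hx hxg'
      rw [mat_mul, ← Matrix.mulVec_mulVec, (hG.lor x).B, B_o_mulVec] at hb1
      rcases hgae with h | h
      · rw [h]; exact hb1
      · rw [h, B_neg_right, abs_neg]; exact hb1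
    · have h3 := (height_top hh hyp_o h1).comp (tendsto_nat_mul ht)
      obtain ⟨N, hN⟩ := (h3.eventually_gt_atTop 0).exists_forall_of_atTop
      refine ⟨N, fun k hk => ?_⟩
      change 0 < B (mat (b ^ k) *ᵥ o) n
      rw [pow_act hh hbh]
      exact hN k hk
    · have h3 := (height_bot hh hyp_o h2).comp (tendsto_nat_mul ht)
      obtain ⟨N, hN⟩ := (h3.eventually_gt_atTop 0).exists_forall_of_atTop
      refine ⟨N, fun k hk hcon => ?_⟩
      change 0 < B (mat (b ^ k)⁻¹ *ᵥ o) n at hcon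
      rw [pow_inv_act hh hbh] at hcon
      have h4 := hN k hk
      simp only [Function.comp_apply, B_neg_right] at h4
      linarith
  set n' := linv h *ᵥ n with hn'
  have hn1 : B n' n' = 1 := by rw [hn', hh.linv.B, hn]
  have hn11 : |n' 1| < 1 := by
    have h1 : n' 1 = B n (h *ᵥ e1) := by rw [← B_linv hh, ← hn']; simp [B, e1]
    rw [h1]
    rcases hhe with h2 | h2
    · rw [h2]; exact hc
    · rw [h2, B_neg_right, abs_neg]; exact hc
  have hsq := (sq_lt_one_iff_abs_lt_one (n' 1)).mpr hn11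
  simp only [B] at hn1
  have hlt : |n' 2| < |n' 0| := by
    rw [← sq_lt_sq]
    nlinarith
  have hneg : linv h *ᵥ (-n) = - n' := by rw [Matrix.mulVec_neg]
  rcases le_or_gt 0 (n' 0) with h0 | h0
  · rw [abs_of_nonneg h0] at hlt
    have := abs_lt.mp hlt
    refine key n hn han ?_ ?_
    · rw [← hn']; linarith
    · rw [hneg]; simp only [Pi.neg_apply]; linarith
  · rw [abs_of_neg h0] at hlt
    have := abs_lt.mp hlt
    refine key (-n) ?_ ?_ ?_ ?_
    · rw [B_neg_left, B_neg_right, neg_neg, hn]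
    · rw [Matrix.mulVec_neg, han]
    · rw [hneg]; simp only [Pi.neg_apply]; linarith
    · rw [neg_neg, ← hn']; linarith

/-- Elements with the same axis are commensurable. -/
theorem commensurable (hG : Good Γ) {a b : Γ} (ha : a ≠ 1) {n : V3}
    (hn : B n n = 1) (han : mat a *ᵥ n = n) (hbn : mat b *ᵥ n = n) :
    ∃ i : ℤ, ∃ j : ℕ, 0 < j ∧ a ^ i = b ^ j := by
  obtain ⟨g, t, hg, ht, hag, hge⟩ := hG.frame_n ha hn han
  obtain ⟨s, hs⟩ := axis_form (hG.lor b) hg (by
    rcases hge with h | h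
    · rw [h, hbn]
    · rw [h, Matrix.mulVec_neg, hbn])
  -- `c j = a ^ (- ⌊ j s / t ⌋) * b ^ j`
  let c : ℕ → Γ := fun j => a ^ (-⌊(j : ℝ) * s / t⌋) * b ^ j
  have hfin : (Set.range c).Finite := by
    refine (hG.fin (3 * (3 * (g 2 2 * Real.cosh t) * g 2 2))).subset ?_
    rintro _ ⟨j, rfl⟩
    have h1 : mat (c j) * g = g * flow (((-⌊(j : ℝ) * s / t⌋ : ℤ) : ℝ) * t + j * s) := by
      change mat (a ^ (-⌊(j : ℝ) * s / t⌋) * b ^ j) * g = _
      rw [mat_mul, mul_assoc, mat_pow_frame hs, ← mul_assoc, mat_zpow_frame hag, mul_assoc,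
        flow_add]
    set u := ((-⌊(j : ℝ) * s / t⌋ : ℤ) : ℝ) * t + j * s with hu
    have hu' : |u| ≤ |t| := by
      have k1 := Int.floor_le ((j : ℝ) * s / t)
      have k2 := Int.lt_floor_add_one ((j : ℝ) * s / t)
      rw [le_div_iff₀ ht] at k1
      rw [div_lt_iff₀ ht] at k2
      rw [abs_of_pos ht, hu]
      push_cast
      rw [abs_of_nonneg (by linarith)]
      linarith
    have h2 : mat (c j) = g * flow u * linv g := by
      rw [← h1, mul_assoc, mul_linv hg.1, mul_one]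
    change mat (c j) 2 2 ≤ _
    rw [h2]
    have hfl : (flow u) 2 2 = Real.cosh u := by simp [flow]
    have h3 : (g * flow u * linv g) 2 2 ≤ 3 * ((g * flow u) 2 2 * (linv g) 2 2) :=
      mul22 (hg.mul (flow_lor u)) hg.linv
    have h4 : (g * flow u) 2 2 ≤ 3 * (g 2 2 * (flow u) 2 2) := mul22 hg (flow_lor u)
    rw [hfl] at h4
    rw [linv22] at h3
    have h5 : Real.cosh u ≤ Real.cosh t := Real.cosh_le_cosh.mpr hu'
    have hg22 := hg.2.2
    have h6 : g 2 2 * Real.cosh u ≤ g 2 2 * Real.cosh t := mul_le_mul_of_nonneg_left h5 hg22.le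
    have h7 : (g * flow u) 2 2 * g 2 2 ≤ 3 * (g 2 2 * Real.cosh t) * g 2 2 :=
      mul_le_mul_of_nonneg_right (by linarith) hg22.le
    linarith
  obtain ⟨j, j', hjj, hcc⟩ : ∃ j j' : ℕ, j < j' ∧ c j = c j' := by
    by_contra hcon
    push Not at hcon
    have hinj : Function.Injective c := by
      intro x y hxy
      rcases lt_trichotomy x y with h | h | h
      · exact absurd hxy (hcon x y h)
      · exact h
      · exact absurd hxy.symm (hcon y x h)
    exact Set.infinite_range_of_injective hinj hfin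
  refine ⟨⌊(j' : ℝ) * s / t⌋ - ⌊(j : ℝ) * s / t⌋, j' - j, by omega, ?_⟩
  change a ^ (-⌊(j : ℝ) * s / t⌋) * b ^ j = a ^ (-⌊(j' : ℝ) * s / t⌋) * b ^ j' at hcc
  have h1 : a ^ (⌊(j' : ℝ) * s / t⌋ - ⌊(j : ℝ) * s / t⌋) * b ^ j = b ^ j' := by
    rw [_root_.zpow_sub, mul_assoc, ← _root_.zpow_neg, hcc, ← mul_assoc, ← _root_.zpow_add]
    simp
  have h2 : b ^ j' = b ^ (j' - j) * b ^ j := by rw [← pow_add]; congr 1; omega
  rw [h2] at h1
  exact mul_right_cancel h1

theorem zpow_mem_iff {G : Type*} [Group G] {a : G} {A : Set G} (h : ∀ x, a * x ∈ A ↔ x ∈ A)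
    (k : ℤ) (x : G) : a ^ k * x ∈ A ↔ x ∈ A := by
  have hn : ∀ n : ℕ, ∀ x, a ^ n * x ∈ A ↔ x ∈ A := by
    intro n
    induction n with
    | zero => simp
    | succ n ih => intro x; rw [pow_succ', mul_assoc, h, ih]
  obtain ⟨n, rfl | rfl⟩ := k.eq_nat_or_neg
  · simpa using hn n x
  · have := hn n ((a ^ n)⁻¹ * x)
    rw [← mul_assoc, mul_inv_cancel, one_mul] at this
    rw [_root_.zpow_neg, zpow_natCast]
    exact this.symm

/-- The half space of points at height more than `m`. -/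
noncomputable def Psi (g : M3) (p : ℝ × ℝ) : V3 :=
  g *ᵥ ![Real.sqrt (1 + p.1 ^ 2) * Real.sinh p.2, p.1, Real.sqrt (1 + p.1 ^ 2) * Real.cosh p.2]

theorem Psi_hyp {g : M3} (hg : IsLor g) (p : ℝ × ℝ) : Hyp (Psi g p) := by
  apply hg.hyp
  have h1 : 0 < Real.sqrt (1 + p.1 ^ 2) := Real.sqrt_pos.mpr (by positivity)
  have h2 := Real.sq_sqrt (show 0 ≤ 1 + p.1 ^ 2 by positivity)
  have h3 := Real.cosh_sq p.2
  refine ⟨?_, ?_⟩
  · simp [B]
    nlinarith
  · simp
    exact mul_pos h1 (Real.cosh_pos _)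

theorem Psi_B {g : M3} (hg : IsLor g) (p : ℝ × ℝ) : B (Psi g p) (g *ᵥ e1) = p.1 := by
  unfold Psi
  rw [hg.B]; simp [B, e1]

theorem continuous_Psi (g : M3) : Continuous (Psi g) := by
  unfold Psi
  refine Continuous.matrix_mulVec continuous_const ?_
  refine continuous_pi fun i => ?_
  fin_cases i
  · simp only [Fin.zero_eta, Matrix.cons_val_zero]
    exact (Real.continuous_sqrt.comp (by fun_prop)).mul (Real.continuous_sinh.comp continuous_snd)
  · simp only [Fin.mk_one, Matrix.cons_val_one]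
    exact continuous_fst
  · simp only [Fin.reduceFinMk, Matrix.cons_val]
    exact (Real.continuous_sqrt.comp (by fun_prop)).mul (Real.continuous_cosh.comp continuous_snd)

theorem Psi_surj {g : M3} (hg : IsLor g) {y : V3} (hy : Hyp y) :
    ∃ p : ℝ × ℝ, p.1 = B y (g *ᵥ e1) ∧ Psi g p = y := by
  set q := linv g *ᵥ y with hq
  have hqH : Hyp q := hg.linv.hyp hy
  have hq1 : q 1 = B y (g *ᵥ e1) := by rw [← B_linv hg, ← hq]; simp [B, e1]
  obtain ⟨a1, a2⟩ := hqH
  simp only [B] at a1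
  have h1 : 0 < Real.sqrt (1 + q 1 ^ 2) := Real.sqrt_pos.mpr (by positivity)
  have h2 := Real.sq_sqrt (show 0 ≤ 1 + q 1 ^ 2 by positivity)
  refine ⟨(q 1, Real.arsinh (q 0 / Real.sqrt (1 + q 1 ^ 2))), hq1, ?_⟩
  unfold Psi
  have hcosh : Real.cosh (Real.arsinh (q 0 / Real.sqrt (1 + q 1 ^ 2))) =
      q 2 / Real.sqrt (1 + q 1 ^ 2) := by
    rw [Real.cosh_arsinh, Real.sqrt_eq_iff_mul_self_eq_of_pos (by positivity)]
    field_simp
    nlinarith
  have h3 : (![Real.sqrt (1 + q 1 ^ 2) * Real.sinh (Real.arsinh (q 0 / Real.sqrt (1 + q 1 ^ 2))),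
      q 1, Real.sqrt (1 + q 1 ^ 2) * Real.cosh (Real.arsinh (q 0 / Real.sqrt (1 + q 1 ^ 2)))] : V3)
      = q := by
    ext i
    fin_cases i
    · simp [Real.sinh_arsinh]
      field_simp
    · simp
    · simp only [hcosh]
      simp
      field_simp
  simp only
  rw [h3, hq, lin_lin hg]

/-- Algebraic crossing implies crossing axes. -/
theorem imp_cross (hG : Good Γ) {a b : Γ} (ha : a ≠ 1) (hb : b ≠ 1) {n m : V3}
    (hn : B n n = 1) (hm : B m m = 1) (han : mat a *ᵥ n = n) (hbm : mat b *ᵥ m = m)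
    (hc : CrossAlg a b) : |B n m| < 1 := by
  by_contra hcon
  push Not at hcon
  obtain ⟨A, hA1, hA2, ⟨N, hA3⟩, ⟨N', hA4⟩⟩ := hc
  rcases eq_or_lt_of_le hcon with heq | hlt
  · -- same axis
    have hmn := hG.sep a b ha hb n m hn hm han hbm heq.symm
    have hbn : mat b *ᵥ n = n := by
      rcases hmn with h | h
      · rw [← h]; exact hbm
      · have : n = -m := by rw [h, neg_neg]
        rw [this, Matrix.mulVec_neg, hbm]
    obtain ⟨i, j, hj, hij⟩ := commensurable hG ha hn han hbn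
    have h1 : (1 : Γ) ∈ A := by
      have h2 := hA3 (j * N) (by nlinarith)
      rw [pow_mul, ← hij, ← zpow_natCast, ← _root_.zpow_mul] at h2
      have h3 := (zpow_mem_iff hA1 (i * N) 1).mp (by rw [mul_one]; exact h2)
      exact h3
    have h2 := hA4 (j * N') (by nlinarith)
    rw [pow_mul, ← hij, ← zpow_natCast, ← _root_.zpow_mul, ← _root_.zpow_neg] at h2
    apply h2
    have h3 := (zpow_mem_iff hA1 (-(i * N')) 1).mpr h1
    rwa [mul_one] at h3
  · -- disjoint axes
    obtain ⟨h, t, hh, ht, hbh, hhe⟩ := hG.frame_n hb hm hbm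
    have key : ∀ n : V3, B n n = 1 → mat a *ᵥ n = n →
        (linv h *ᵥ n) 2 < (linv h *ᵥ n) 0 → (linv h *ᵥ n) 0 + (linv h *ᵥ n) 2 < 0 → False := by
      intro n hn han h1 h2
      obtain ⟨C0, hC0⟩ := hG.cocpt
      set C1 : ℝ := max C0 1 with hC1
      have hC1pos : 1 ≤ C1 := le_max_right _ _
      -- the relation between group elements and points
      let R : Γ → V3 → Prop := fun γ y => - B (mat γ *ᵥ o) y ≤ C1
      have hR : ∀ y, Hyp y → ∃ γ, R γ y := by
        intro y hy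
        obtain ⟨g, hg, rfl⟩ := exists_frame_p hy
        obtain ⟨γ, hγ⟩ := hC0 g hg
        refine ⟨γ⁻¹, ?_⟩
        change - B (mat γ⁻¹ *ᵥ o) (g *ᵥ o) ≤ C1
        rw [hG.mat_inv, B_linv (hG.lor γ), Matrix.mulVec_mulVec, B_o_mulVec]
        exact hγ.trans (le_max_left _ _)
      -- finitely many transition elements
      let S : Set Γ := {s | mat s 2 2 ≤ 8 * C1 * C1}
      have hSfin : S.Finite := hG.fin _
      have hS : ∀ γ γ' y y', Hyp y → Hyp y' → R γ y → R γ' y' → - B y y' ≤ 2 → γ⁻¹ * γ' ∈ S := by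
        intro γ γ' y y' hy hy' hγ hγ' hyy
        change mat (γ⁻¹ * γ') 2 2 ≤ _
        rw [mat_mul, ← B_o_mulVec (mat γ⁻¹ * mat γ'), ← Matrix.mulVec_mulVec, hG.mat_inv,
          B_linv' (hG.lor γ)]
        have hγo := (hG.lor γ).hyp hyp_o
        have hγ'o := (hG.lor γ').hyp hyp_o
        have t1 := tri hγo hy hγ'o
        have t2 := tri hy hy' hγ'o
        have b1 := B_le hγo hy
        have b2 := B_le hy hγ'o
        have b3 := B_le hy hy'
        have b4 := B_le hy' hγ'o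
        have r1 : - B (mat γ *ᵥ o) y ≤ C1 := hγ
        have r2 : - B y' (mat γ' *ᵥ o) ≤ C1 := by rw [B_comm]; exact hγ'
        have p1 : B y y' * B y' (mat γ' *ᵥ o) ≤ 2 * C1 := by
          have : (- B y y') * (- B y' (mat γ' *ᵥ o)) ≤ 2 * C1 :=
            mul_le_mul hyy r2 (by linarith) (by linarith)
          linarith
        have p2 : - B y (mat γ' *ᵥ o) ≤ 4 * C1 := by linarith
        have p3 : B (mat γ *ᵥ o) y * B y (mat γ' *ᵥ o) ≤ C1 * (4 * C1) := by
          have : (- B (mat γ *ᵥ o) y) * (- B y (mat γ' *ᵥ o)) ≤ C1 * (4 * C1) :=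
            mul_le_mul r1 p2 (by linarith) (by linarith)
          linarith
        linarith
      choose F hF hF' using hA2
      have hFs : (⋃ s ∈ S, F s).Finite := hSfin.biUnion fun s _ => hF s
      obtain ⟨c1, hc1⟩ : ∃ c1 : ℝ, ∀ f ∈ ⋃ s ∈ S, F s, |B (mat f *ᵥ o) n| ≤ c1 := by
        obtain ⟨c, hc⟩ := (hFs.image fun f => |B (mat f *ᵥ o) n|).bddAbove
        exact ⟨c, fun f hf => hc ⟨f, hf, rfl⟩⟩
      set m' : ℝ := C1 * (1 + 2 * c1) with hm'
      have hcross : ∀ γ s y, s ∈ S → Hyp y → R γ y → γ ∈ A → γ * s ∉ A → B y n ≤ m' := by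
        intro γ s y hs hy hγ hγA hγs
        obtain ⟨k, f, hf, hk⟩ := hF' s γ hγA hγs
        have hf' : f ∈ ⋃ s ∈ S, F s := Set.mem_biUnion hs hf
        have e1 : B (mat γ *ᵥ o) n = B (mat f *ᵥ o) n := by
          have hk' : ∀ (k : ℤ), mat (a ^ k) *ᵥ n = n := by
            intro k
            obtain ⟨g, u, hg, hu, hag, hge⟩ := hG.frame_n ha hn han
            have h3 := mat_zpow_frame hag k
            have h4 : mat (a ^ k) *ᵥ (g *ᵥ e1) = g *ᵥ e1 := by
              rw [Matrix.mulVec_mulVec, h3, ← Matrix.mulVec_mulVec, flow_e1]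
            rcases hge with h5 | h5
            · rwa [h5] at h4
            · rw [h5, Matrix.mulVec_neg] at h4
              exact neg_injective h4
          rw [hk, mat_mul, ← Matrix.mulVec_mulVec]
          nth_rewrite 1 [← hk' k]
          rw [(hG.lor _).B]
        have hb1 := B_normal_le ((hG.lor γ).hyp hyp_o) hy hn
        rw [e1] at hb1
        have hf1 := hc1 f hf'
        have r1 : - B (mat γ *ᵥ o) y ≤ C1 := hγ
        calc B y n ≤ |B y n| := le_abs_self _
          _ ≤ _ := hb1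
          _ ≤ m' := mul_le_mul r1 (by linarith) (by positivity) (by linarith)
      -- local constancy
      have hloc : ∀ y y' γ γ', Hyp y → Hyp y' → m' < B y n → m' < B y' n → - B y y' ≤ 2 →
          R γ y → R γ' y' → (γ ∈ A → γ' ∈ A) := by
        intro y y' γ γ' hy hy' hyn hyn' hyy hγ hγ' hγA
        by_contra hγ'A
        have hs := hS γ γ' y y' hy hy' hγ hγ' hyy
        have := hcross γ (γ⁻¹ * γ') y hs hy hγ hγA (by rwa [mul_inv_cancel_left])
        linarith
      obtain ⟨g, u, hg, hu, hag, hge⟩ := hG.frame_n ha hn han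
      obtain ⟨g, hg, hge⟩ := exists_frame_n hn
      let s : Set (ℝ × ℝ) := Set.Ioi m' ×ˢ Set.univ
      have hs : IsPreconnected s := isPreconnected_Ioi.prod isPreconnected_univ
      have hsn : ∀ p ∈ s, m' < B (Psi g p) n := by
        intro p hp
        rw [← hge, Psi_B hg]
        exact hp.1
      let P : ℝ × ℝ → ℝ × ℝ → Prop := fun p q =>
        ∀ γ γ', R γ (Psi g p) → R γ' (Psi g q) → (γ ∈ A ↔ γ' ∈ A)
      have hP : ∀ x ∈ s, ∀ y ∈ s, P x y := by
        intro x hx y hy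
        refine hs.induction₂ P ?_ ?_ ?_ hx hy
        · intro p hp
          have hcont : Continuous fun q => - B (Psi g p) (Psi g q) := by
            have h3 := continuous_Psi g
            have h4 : ∀ i, Continuous fun q => Psi g q i := fun i => (continuous_apply i).comp h3
            unfold B
            exact (((continuous_const.mul (h4 0)).add (continuous_const.mul (h4 1))).sub
              (continuous_const.mul (h4 2))).neg
          have h3 : - B (Psi g p) (Psi g p) < 2 := by rw [(Psi_hyp hg p).1]; norm_num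
          have h4 := (hcont.tendsto p).eventually (gt_mem_nhds h3)
          filter_upwards [nhdsWithin_le_nhds h4, self_mem_nhdsWithin] with q hq hqs
          intro γ γ' hγ hγ'
          constructor
          · exact hloc _ _ γ γ' (Psi_hyp hg p) (Psi_hyp hg q) (hsn p hp) (hsn q hqs) hq.le hγ hγ'
          · exact hloc _ _ γ' γ (Psi_hyp hg q) (Psi_hyp hg p) (hsn q hqs) (hsn p hp)
              (by rw [B_comm]; exact hq.le) hγ' hγ
        · intro x y z hx hy hz hxy hyz γ γ' hγ hγ'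
          obtain ⟨δ, hδ⟩ := hR _ (Psi_hyp hg y)
          exact (hxy γ δ hγ hδ).trans (hyz δ γ' hδ hγ')
        · intro x y hx hy hxy γ γ' hγ hγ'
          exact (hxy γ' γ hγ' hγ).symm
      -- large powers of `b`
      have k1 := (height_top hh hyp_o h1).comp (tendsto_nat_mul ht)
      have k2 := (height_bot hh hyp_o h2).comp (tendsto_nat_mul ht)
      obtain ⟨k, ⟨hk1, hk2⟩, hk3⟩ := (((k1.eventually_gt_atTop m').and
        (k2.eventually_gt_atTop m')).and (eventually_ge_atTop (max N N'))).exists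
      simp only [Function.comp_apply] at hk1 hk2
      rw [← pow_act hh hbh] at hk1
      rw [← pow_inv_act hh hbh] at hk2
      have hy1 : Hyp (mat (b ^ k) *ᵥ o) := (hG.lor _).hyp hyp_o
      have hy2 : Hyp (mat (b ^ k)⁻¹ *ᵥ o) := (hG.lor _).hyp hyp_o
      obtain ⟨p1, hp1, hp1'⟩ := Psi_surj hg hy1
      obtain ⟨p2, hp2, hp2'⟩ := Psi_surj hg hy2
      have hps1 : p1 ∈ s := ⟨by change m' < p1.1; rw [hp1, hge]; exact hk1, trivial⟩
      have hps2 : p2 ∈ s := ⟨by change m' < p2.1; rw [hp2, hge]; exact hk2, trivial⟩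
      have hR1 : R (b ^ k) (Psi g p1) := by
        change - B _ _ ≤ C1
        rw [hp1', hy1.1]; linarith
      have hR2 : R (b ^ k)⁻¹ (Psi g p2) := by
        change - B _ _ ≤ C1
        rw [hp2', hy2.1]; linarith
      have hfinal := (hP p1 hps1 p2 hps2 _ _ hR1 hR2).mp
        (hA3 k ((le_max_left _ _).trans hk3))
      exact hA4 k ((le_max_right _ _).trans hk3) hfinal
    set n' := linv h *ᵥ n with hn'
    have hn1 : B n' n' = 1 := by rw [hn', hh.linv.B, hn]
    have hn11 : 1 < |n' 1| := by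
      have h1 : n' 1 = B n (h *ᵥ e1) := by rw [← B_linv hh, ← hn']; simp [B, e1]
      rw [h1]
      rcases hhe with h2 | h2
      · rw [h2]; exact hlt
      · rw [h2, B_neg_right, abs_neg]; exact hlt
    have hsq : 1 < n' 1 ^ 2 := (one_lt_sq_iff_one_lt_abs (n' 1)).mpr hn11
    simp only [B] at hn1
    have hlt2 : |n' 0| < |n' 2| := by
      rw [← sq_lt_sq]
      nlinarith
    have hneg : linv h *ᵥ (-n) = - n' := by rw [Matrix.mulVec_neg]
    rcases le_or_gt 0 (n' 2) with h0 | h0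
    · rw [abs_of_nonneg h0] at hlt2
      have := abs_lt.mp hlt2
      refine key (-n) ?_ ?_ ?_ ?_
      · rw [B_neg_left, B_neg_right, neg_neg, hn]
      · rw [Matrix.mulVec_neg, han]
      · rw [hneg]; simp only [Pi.neg_apply]; linarith
      · rw [hneg]; simp only [Pi.neg_apply]; linarith
    · rw [abs_of_neg h0] at hlt2
      have := abs_lt.mp hlt2
      refine key n hn han ?_ ?_
      · rw [← hn']; linarith
      · rw [← hn']; linarith

end Pool.Agent.J4.H97.Anosov
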