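import Mathlib

/-!
Definitions for simple Anosov representations of a closed hyperbolic surface group.
The hyperbolic plane is the hyperboloid `x 0 ^ 2 + x 1 ^ 2 - x 2 ^ 2 = -1`, `0 < x 2`,
its unit tangent bundle is identified with the group `SO₀(2,1)` (predicate `IsLor`).
-/

namespace Pool.Agent.J4.H97.Anosov

open Matrix
open scoped ComplexOrder

/-- Real `3 × 3` matrices. -/
abbrev M3 := Matrix (Fin 3) (Fin 3) ℝ

/-- Vectors of `ℝ³`. -/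
abbrev V3 := Fin 3 → ℝ

/-- The matrix of the Lorentz form `x 0 ^ 2 + x 1 ^ 2 - x 2 ^ 2`. -/
def J : M3 := !![1, 0, 0; 0, 1, 0; 0, 0, -1]

/-- `g` lies in `SO₀(2,1)`. -/
def IsLor (g : M3) : Prop := gᵀ * J * g = J ∧ g.det = 1 ∧ 0 < g 2 2

/-- The one-parameter group whose right translations are the geodesic flow. -/
noncomputable def flow (t : ℝ) : M3 :=
  !![Real.cosh t, 0, Real.sinh t; 0, 1, 0; Real.sinh t, 0, Real.cosh t]

/-- The geodesic of the frame `g`, as a subset of the hyperboloid: its point at time `t` is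
the third column of `g * flow t`. -/
def line (g : M3) : Set V3 := Set.range fun t : ℝ => (g * flow t) *ᵥ ![0, 0, 1]

/-- The group `SL(3, ℝ)`. -/
abbrev SL3 := Matrix.SpecialLinearGroup (Fin 3) ℝ

/-- `Γ` is the group of a closed oriented hyperbolic surface `Γ \ ℍ²`: a torsion-free discrete
cocompact subgroup of `SO₀(2,1)`. -/
structure IsSurfaceGroup (Γ : Subgroup SL3) : Prop where
  lorentz : ∀ γ ∈ Γ, IsLor (γ : M3)
  torsionFree : ∀ γ ∈ Γ, ∀ n : ℕ, 0 < n → γ ^ n = 1 → γ = 1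
  discrete : ∃ ε > 0, ∀ γ ∈ Γ, (∀ i j, |(γ : M3) i j - (1 : M3) i j| < ε) → γ = 1
  cocompact : ∃ K : Set M3, IsCompact K ∧ ∀ g, IsLor g → ∃ γ ∈ Γ, ∃ k ∈ K, g = (γ : M3) * k

/-- The frame `g` is tangent to a simple closed geodesic of `Γ \ ℍ²`. -/
def IsSimpleClosed (Γ : Subgroup SL3) (g : M3) : Prop :=
  IsLor g ∧ (∃ γ ∈ Γ, ∃ L : ℝ, 0 < L ∧ (γ : M3) * g = g * flow L) ∧
    ∀ γ ∈ Γ, line ((γ : M3) * g) = line g ∨ Disjoint (line ((γ : M3) * g)) (line g)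

/-- The preimage in `T¹ℍ² = SO₀(2,1)` of the Birman-Series set of `Γ \ ℍ²`. -/
def F0 (Γ : Subgroup SL3) : Set M3 := closure {g | IsSimpleClosed Γ g}

/-- The length of `v` in the Hermitian form with matrix `A`. -/
noncomputable def hnorm {d : ℕ} (A : Matrix (Fin d) (Fin d) ℂ) (v : Fin d → ℂ) : ℝ :=
  Real.sqrt (star v ⬝ᵥ (A *ᵥ v)).re

/-- `ρ` is simple `k`-Anosov.  The flat bundle is the quotient of `SO₀(2,1) × ℂᵈ` by
`(g, v) ∼ (γ g, ρ γ v)`; its flow sends `(g, v)` to `(g * flow t, v)`.  `P g` is the projection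
onto `Eᵘ` with kernel `Eˢ`, `H g` is the Hermitian metric at `g`. -/
def IsSimpleAnosov (Γ : Subgroup SL3) {d : ℕ} (k : ℕ)
    (ρ : Γ →* Matrix.SpecialLinearGroup (Fin d) ℂ) : Prop :=
  ∃ (P H : M3 → Matrix (Fin d) (Fin d) ℂ),
    ContinuousOn P (F0 Γ) ∧ ContinuousOn H (F0 Γ) ∧
    (∀ g ∈ F0 Γ, P g * P g = P g ∧ (P g).rank = k ∧ (H g).PosDef) ∧
    (∀ g ∈ F0 Γ, ∀ t : ℝ, P (g * flow t) = P g) ∧
    (∀ g ∈ F0 Γ, ∀ γ : Γ, P (((γ : SL3) : M3) * g) =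
      (ρ γ : Matrix (Fin d) (Fin d) ℂ) * P g * ((ρ γ⁻¹ : Matrix.SpecialLinearGroup (Fin d) ℂ) :
        Matrix (Fin d) (Fin d) ℂ)) ∧
    (∀ g ∈ F0 Γ, ∀ γ : Γ, ∀ v : Fin d → ℂ,
      hnorm (H (((γ : SL3) : M3) * g)) ((ρ γ : Matrix (Fin d) (Fin d) ℂ) *ᵥ v) =
        hnorm (H g) v) ∧
    ∃ C c : ℝ, 0 < C ∧ 0 < c ∧ ∀ g ∈ F0 Γ, ∀ v w : Fin d → ℂ, v ≠ 0 → w ≠ 0 →
      P g *ᵥ v = v → P g *ᵥ w = 0 → ∀ t : ℝ, 0 ≤ t →
        hnorm (H (g * flow t)) w / hnorm (H g) w ≤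
          C * Real.exp (-(c * t)) * (hnorm (H (g * flow t)) v / hnorm (H g) v)

/-- The character of a representation. -/
def character {Γ : Subgroup SL3} {d : ℕ} (ρ : Γ →* Matrix.SpecialLinearGroup (Fin d) ℂ) : Γ → ℂ :=
  fun γ => (ρ γ : Matrix (Fin d) (Fin d) ℂ).trace

/-- The `SL(d, ℂ)` character variety of `Γ`, as the set of characters. -/
def CharVar (Γ : Subgroup SL3) (d : ℕ) : Set (Γ → ℂ) :=
  {χ | ∃ ρ : Γ →* Matrix.SpecialLinearGroup (Fin d) ℂ, character ρ = χ}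

/-- The simple `k`-Anosov domain. -/
def SimpleAnosovDomain (Γ : Subgroup SL3) (d k : ℕ) : Set (Γ → ℂ) :=
  {χ | ∃ ρ : Γ →* Matrix.SpecialLinearGroup (Fin d) ℂ, IsSimpleAnosov Γ k ρ ∧ character ρ = χ}

/-- The action of automorphisms on characters. -/
def modAct {Γ : Subgroup SL3} (φ : MulAut Γ) (χ : Γ → ℂ) : Γ → ℂ := fun γ => χ (φ⁻¹ γ)

/-- The mapping class group `Out(Γ)` (as a set of cosets of inner automorphisms). -/
abbrev OutGrp (Γ : Subgroup SL3) := MulAut Γ ⧸ (MulAut.conj : Γ →* MulAut Γ).range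

/-- `Ω` is a domain of discontinuity of `Out(Γ)` on the character variety. -/
structure IsDomainOfDiscontinuity (Γ : Subgroup SL3) (d : ℕ) (Ω : Set (Γ → ℂ)) : Prop where
  subset : Ω ⊆ CharVar Γ d
  isOpen : ∃ U : Set (Γ → ℂ), IsOpen U ∧ Ω = U ∩ CharVar Γ d
  invariant : ∀ φ : MulAut Γ, ∀ χ ∈ Ω, modAct φ χ ∈ Ω
  proper : ∀ K ⊆ Ω, IsCompact K →
    {c : OutGrp Γ | ∃ φ : MulAut Γ, (φ : OutGrp Γ) = c ∧ (modAct φ '' K ∩ K).Nonempty}.Finite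

end Pool.Agent.J4.H97.Anosov
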