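import Pool.Agent.J4.H97.Anosov.Theta

/-!
Persistence of domination: the cone lemma and eigenvalue gaps.
-/

namespace Pool.Agent.J4.H97.Anosov

open Matrix Filter Topology Polynomial
open scoped Matrix.Norms.Operator

variable {d : ℕ}

theorem mulVec_le (A : Md d) (v : Fin d → ℂ) : ‖A *ᵥ v‖ ≤ ‖A‖ * ‖v‖ :=
  Matrix.linfty_opNorm_mulVec A v

/-- The adapted norm. -/
noncomputable def nP (P : Md d) (v : Fin d → ℂ) : ℝ := max ‖P *ᵥ v‖ ‖(1 - P) *ᵥ v‖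

/-- The cone. -/
def InC (P : Md d) (v : Fin d → ℂ) : Prop := ‖(1 - P) *ᵥ v‖ ≤ ‖P *ᵥ v‖

theorem nP_of_InC {P : Md d} {v : Fin d → ℂ} (h : InC P v) : nP P v = ‖P *ᵥ v‖ := max_eq_left h

theorem nP_of_not_InC {P : Md d} {v : Fin d → ℂ} (h : ¬ InC P v) : nP P v = ‖(1 - P) *ᵥ v‖ :=
  max_eq_right (le_of_not_ge h)

/-- Data of one step: `A` intertwines `P` and `P'`, dominates, and `B` is close to `A`. -/
structure Step (M κ : ℝ) (P P' A B : Md d) : Prop where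
  idem : P * P = P
  inter : A * P = P' * A
  pos : 0 < κ
  hM : 0 ≤ M
  grow : ∀ v, P *ᵥ v = v → κ * ‖v‖ ≤ ‖A *ᵥ v‖
  shrink : ∀ w, P *ᵥ w = 0 → ‖A *ᵥ w‖ ≤ κ / 16 * ‖w‖
  nP1 : ‖P'‖ ≤ M
  nP2 : ‖1 - P'‖ ≤ M
  close : 2 * M * ‖B - A‖ ≤ κ / 16

theorem Step.cone {M κ : ℝ} {P P' A B : Md d} (h : Step M κ P P' A B) {v : Fin d → ℂ}
    (hv : InC P v) : InC P' (B *ᵥ v) ∧ 15 / 16 * κ * nP P v ≤ nP P' (B *ᵥ v) := by
  have hκ := h.pos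
  have hM := h.hM
  have hsplit : v = P *ᵥ v + (1 - P) *ᵥ v := by
    rw [← Matrix.add_mulVec]; simp
  have hnv : ‖v‖ ≤ 2 * ‖P *ᵥ v‖ := by
    have h1 : ‖v‖ ≤ ‖P *ᵥ v‖ + ‖(1 - P) *ᵥ v‖ := by
      conv_lhs => rw [hsplit]
      exact norm_add_le _ _
    have h2 : ‖(1 - P) *ᵥ v‖ ≤ ‖P *ᵥ v‖ := hv
    linarith
  have hB : B = A + (B - A) := by abel
  have hPA : P' *ᵥ (A *ᵥ v) = A *ᵥ (P *ᵥ v) := by
    rw [Matrix.mulVec_mulVec, ← h.inter, ← Matrix.mulVec_mulVec]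
  have hPA' : (1 - P') *ᵥ (A *ᵥ v) = A *ᵥ ((1 - P) *ᵥ v) := by
    rw [Matrix.mulVec_mulVec, sub_mul, one_mul, ← h.inter, Matrix.mulVec_mulVec, mul_sub, mul_one]
  have e1 : P' *ᵥ (B *ᵥ v) = A *ᵥ (P *ᵥ v) + P' *ᵥ ((B - A) *ᵥ v) := by
    conv_lhs => rw [hB, Matrix.add_mulVec, Matrix.mulVec_add, hPA]
  have e2 : (1 - P') *ᵥ (B *ᵥ v) = A *ᵥ ((1 - P) *ᵥ v) + (1 - P') *ᵥ ((B - A) *ᵥ v) := by
    conv_lhs => rw [hB, Matrix.add_mulVec, Matrix.mulVec_add, hPA']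
  have err1 : ‖P' *ᵥ ((B - A) *ᵥ v)‖ ≤ κ / 16 * ‖P *ᵥ v‖ := by
    calc ‖P' *ᵥ ((B - A) *ᵥ v)‖ ≤ ‖P'‖ * (‖B - A‖ * ‖v‖) :=
          (mulVec_le _ _).trans (mul_le_mul_of_nonneg_left (mulVec_le _ _) (norm_nonneg _))
      _ ≤ M * (‖B - A‖ * (2 * ‖P *ᵥ v‖)) := by
          refine mul_le_mul h.nP1 ?_ (by positivity) hM
          exact mul_le_mul_of_nonneg_left hnv (norm_nonneg _)
      _ = (2 * M * ‖B - A‖) * ‖P *ᵥ v‖ := by ring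
      _ ≤ κ / 16 * ‖P *ᵥ v‖ := mul_le_mul_of_nonneg_right h.close (norm_nonneg _)
  have err2 : ‖(1 - P') *ᵥ ((B - A) *ᵥ v)‖ ≤ κ / 16 * ‖P *ᵥ v‖ := by
    calc ‖(1 - P') *ᵥ ((B - A) *ᵥ v)‖ ≤ ‖1 - P'‖ * (‖B - A‖ * ‖v‖) :=
          (mulVec_le _ _).trans (mul_le_mul_of_nonneg_left (mulVec_le _ _) (norm_nonneg _))
      _ ≤ M * (‖B - A‖ * (2 * ‖P *ᵥ v‖)) := by
          refine mul_le_mul h.nP2 ?_ (by positivity) hM
          exact mul_le_mul_of_nonneg_left hnv (norm_nonneg _)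
      _ = (2 * M * ‖B - A‖) * ‖P *ᵥ v‖ := by ring
      _ ≤ κ / 16 * ‖P *ᵥ v‖ := mul_le_mul_of_nonneg_right h.close (norm_nonneg _)
  have g1 : κ * ‖P *ᵥ v‖ ≤ ‖A *ᵥ (P *ᵥ v)‖ := h.grow _ (by rw [Matrix.mulVec_mulVec, h.idem])
  have g2 : ‖A *ᵥ ((1 - P) *ᵥ v)‖ ≤ κ / 16 * ‖(1 - P) *ᵥ v‖ := h.shrink _ (by
    rw [Matrix.mulVec_mulVec, mul_sub, mul_one, h.idem, sub_self, Matrix.zero_mulVec])
  have g3 : ‖A *ᵥ ((1 - P) *ᵥ v)‖ ≤ κ / 16 * ‖P *ᵥ v‖ :=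
    g2.trans (mul_le_mul_of_nonneg_left hv (by positivity))
  have l1 : 15 / 16 * κ * ‖P *ᵥ v‖ ≤ ‖P' *ᵥ (B *ᵥ v)‖ := by
    rw [e1]
    have := norm_sub_le_norm_add (A *ᵥ (P *ᵥ v)) (P' *ᵥ ((B - A) *ᵥ v))
    linarith
  have l2 : ‖(1 - P') *ᵥ (B *ᵥ v)‖ ≤ κ / 8 * ‖P *ᵥ v‖ := by
    rw [e2]
    have := norm_add_le (A *ᵥ ((1 - P) *ᵥ v)) ((1 - P') *ᵥ ((B - A) *ᵥ v))
    linarith
  have hpos : 0 ≤ κ * ‖P *ᵥ v‖ := by positivity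
  have hin : InC P' (B *ᵥ v) := by
    unfold InC
    linarith
  refine ⟨hin, ?_⟩
  rw [nP_of_InC hin, nP_of_InC hv]
  exact l1

theorem Step.out {M κ : ℝ} {P P' A B : Md d} (h : Step M κ P P' A B) {w : Fin d → ℂ}
    (hw : ¬ InC P' (B *ᵥ w)) : ¬ InC P w ∧ nP P' (B *ᵥ w) ≤ κ / 8 * nP P w := by
  have hκ := h.pos
  have hM := h.hM
  have hw' : ¬ InC P w := fun hc => hw (h.cone hc).1
  refine ⟨hw', ?_⟩
  rw [nP_of_not_InC hw, nP_of_not_InC hw']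
  have hlt : ‖P *ᵥ w‖ < ‖(1 - P) *ᵥ w‖ := lt_of_not_ge hw'
  have hsplit : w = P *ᵥ w + (1 - P) *ᵥ w := by
    rw [← Matrix.add_mulVec]; simp
  have hnw : ‖w‖ ≤ 2 * ‖(1 - P) *ᵥ w‖ := by
    have h1 : ‖w‖ ≤ ‖P *ᵥ w‖ + ‖(1 - P) *ᵥ w‖ := by
      conv_lhs => rw [hsplit]
      exact norm_add_le _ _
    linarith
  have hB : B = A + (B - A) := by abel
  have hPA' : (1 - P') *ᵥ (A *ᵥ w) = A *ᵥ ((1 - P) *ᵥ w) := by
    rw [Matrix.mulVec_mulVec, sub_mul, one_mul, ← h.inter, Matrix.mulVec_mulVec, mul_sub, mul_one]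
  have e2 : (1 - P') *ᵥ (B *ᵥ w) = A *ᵥ ((1 - P) *ᵥ w) + (1 - P') *ᵥ ((B - A) *ᵥ w) := by
    conv_lhs => rw [hB, Matrix.add_mulVec, Matrix.mulVec_add, hPA']
  have err2 : ‖(1 - P') *ᵥ ((B - A) *ᵥ w)‖ ≤ κ / 16 * ‖(1 - P) *ᵥ w‖ := by
    calc ‖(1 - P') *ᵥ ((B - A) *ᵥ w)‖ ≤ ‖1 - P'‖ * (‖B - A‖ * ‖w‖) :=
          (mulVec_le _ _).trans (mul_le_mul_of_nonneg_left (mulVec_le _ _) (norm_nonneg _))
      _ ≤ M * (‖B - A‖ * (2 * ‖(1 - P) *ᵥ w‖)) := by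
          refine mul_le_mul h.nP2 ?_ (by positivity) hM
          exact mul_le_mul_of_nonneg_left hnw (norm_nonneg _)
      _ = (2 * M * ‖B - A‖) * ‖(1 - P) *ᵥ w‖ := by ring
      _ ≤ κ / 16 * ‖(1 - P) *ᵥ w‖ := mul_le_mul_of_nonneg_right h.close (norm_nonneg _)
  have g2 : ‖A *ᵥ ((1 - P) *ᵥ w)‖ ≤ κ / 16 * ‖(1 - P) *ᵥ w‖ := h.shrink _ (by
    rw [Matrix.mulVec_mulVec, mul_sub, mul_one, h.idem, sub_self, Matrix.zero_mulVec])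
  rw [e2]
  have := norm_add_le (A *ᵥ ((1 - P) *ᵥ w)) ((1 - P') *ᵥ ((B - A) *ᵥ w))
  linarith

/-- Products of a sequence of matrices. -/
def prodB (B : ℕ → Md d) : ℕ → Md d
  | 0 => 1
  | m + 1 => B m * prodB B m

theorem chain {M : ℝ} (κ : ℕ → ℝ) (P A B : ℕ → Md d) (m : ℕ)
    (h : ∀ i < m, Step M (κ i) (P i) (P (i + 1)) (A i) (B i)) :
    (∀ v, InC (P 0) v → InC (P m) (prodB B m *ᵥ v)) ∧
    (∀ v w, InC (P 0) v → ¬ InC (P m) (prodB B m *ᵥ w) →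
      ¬ InC (P 0) w ∧
      2 ^ m * nP (P 0) v * nP (P m) (prodB B m *ᵥ w) ≤
        nP (P m) (prodB B m *ᵥ v) * nP (P 0) w) := by
  induction m with
  | zero =>
    refine ⟨fun v hv => by simpa [prodB] using hv, fun v w hv hw => ?_⟩
    simp only [prodB, Matrix.one_mulVec] at hw ⊢
    exact ⟨hw, by rw [pow_zero, one_mul]⟩
  | succ m ih =>
    obtain ⟨ih1, ih2⟩ := ih fun i hi => h i (by omega)
    have hs := h m (by omega)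
    refine ⟨fun v hv => ?_, fun v w hv hw => ?_⟩
    · rw [prodB, ← Matrix.mulVec_mulVec]
      exact (hs.cone (ih1 v hv)).1
    · rw [prodB, ← Matrix.mulVec_mulVec] at hw ⊢
      rw [← Matrix.mulVec_mulVec]
      obtain ⟨c1, c2⟩ := hs.cone (ih1 v hv)
      obtain ⟨o1, o2⟩ := hs.out hw
      obtain ⟨i1, i2⟩ := ih2 v w hv o1
      refine ⟨i1, ?_⟩
      have hκ := hs.pos
      have n0 : ∀ (Q : Md d) (x : Fin d → ℂ), 0 ≤ nP Q x := fun Q x =>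
        le_max_of_le_left (norm_nonneg _)
      have n1 := n0 (P 0) v
      have n2 := n0 (P 0) w
      have n3 := n0 (P m) (prodB B m *ᵥ v)
      have n4 := n0 (P m) (prodB B m *ᵥ w)
      calc 2 ^ (m + 1) * nP (P 0) v * nP (P (m + 1)) (B m *ᵥ prodB B m *ᵥ w)
          ≤ 2 ^ (m + 1) * nP (P 0) v * (κ m / 8 * nP (P m) (prodB B m *ᵥ w)) :=
            mul_le_mul_of_nonneg_left o2 (by positivity)
        _ = κ m / 4 * (2 ^ m * nP (P 0) v * nP (P m) (prodB B m *ᵥ w)) := by ring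
        _ ≤ κ m / 4 * (nP (P m) (prodB B m *ᵥ v) * nP (P 0) w) :=
            mul_le_mul_of_nonneg_left i2 (by positivity)
        _ ≤ (15 / 16 * κ m * nP (P m) (prodB B m *ᵥ v)) * nP (P 0) w := by
            have : 0 ≤ κ m * (nP (P m) (prodB B m *ᵥ v) * nP (P 0) w) := by positivity
            linarith
        _ ≤ nP (P (m + 1)) (B m *ᵥ prodB B m *ᵥ v) * nP (P 0) w :=
            mul_le_mul_of_nonneg_right c2 n2

theorem iter_chain (P T : Md d) (c : ℝ) (hc : 0 ≤ c)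
    (h1 : ∀ v, InC P v → InC P (T *ᵥ v))
    (h2 : ∀ v w, InC P v → ¬ InC P (T *ᵥ w) → ¬ InC P w ∧
      c * nP P v * nP P (T *ᵥ w) ≤ nP P (T *ᵥ v) * nP P w) (q : ℕ) :
    (∀ v, InC P v → InC P (T ^ q *ᵥ v)) ∧
    (∀ v w, InC P v → ¬ InC P (T ^ q *ᵥ w) → ¬ InC P w ∧
      c ^ q * nP P v * nP P (T ^ q *ᵥ w) ≤ nP P (T ^ q *ᵥ v) * nP P w) := by
  have n0 : ∀ (Q : Md d) (x : Fin d → ℂ), 0 ≤ nP Q x := fun Q x =>
    le_max_of_le_left (norm_nonneg _)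
  induction q with
  | zero =>
    refine ⟨fun v hv => by simpa using hv, fun v w hv hw => ?_⟩
    simp only [pow_zero, Matrix.one_mulVec] at hw ⊢
    exact ⟨hw, by rw [one_mul]⟩
  | succ q ih =>
    obtain ⟨ih1, ih2⟩ := ih
    refine ⟨fun v hv => ?_, fun v w hv hw => ?_⟩
    · rw [pow_succ', ← Matrix.mulVec_mulVec]
      exact h1 _ (ih1 v hv)
    · rw [pow_succ', ← Matrix.mulVec_mulVec] at hw
      rw [pow_succ' T, ← Matrix.mulVec_mulVec, ← Matrix.mulVec_mulVec]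
      have hvq := ih1 v hv
      obtain ⟨a1, a2⟩ := h2 _ _ hvq hw
      obtain ⟨b1, b2⟩ := ih2 v w hv a1
      refine ⟨b1, ?_⟩
      -- a2 : c * n(T^q v) * n(T T^q w) ≤ n(T T^q v) * n(T^q w)
      -- b2 : c^q * n v * n(T^q w) ≤ n(T^q v) * n w
      rcases eq_or_lt_of_le (n0 P (T ^ q *ᵥ w)) with hz | hz
      · exfalso
        apply a1
        unfold InC
        have h3 : ‖(1 - P) *ᵥ (T ^ q *ᵥ w)‖ ≤ nP P (T ^ q *ᵥ w) := le_max_right _ _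
        rw [← hz] at h3
        exact h3.trans (norm_nonneg _)
      · have h5 : c ^ (q + 1) * nP P v * nP P (T *ᵥ T ^ q *ᵥ w) * nP P (T ^ q *ᵥ w) ≤
            nP P (T *ᵥ T ^ q *ᵥ v) * nP P w * nP P (T ^ q *ᵥ w) := by
          calc c ^ (q + 1) * nP P v * nP P (T *ᵥ T ^ q *ᵥ w) * nP P (T ^ q *ᵥ w)
              = (c ^ q * nP P v * nP P (T ^ q *ᵥ w)) * (c * nP P (T *ᵥ T ^ q *ᵥ w)) := by ring
            _ ≤ (nP P (T ^ q *ᵥ v) * nP P w) * (c * nP P (T *ᵥ T ^ q *ᵥ w)) :=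
                mul_le_mul_of_nonneg_right b2 (mul_nonneg hc (n0 _ _))
            _ = (c * nP P (T ^ q *ᵥ v) * nP P (T *ᵥ T ^ q *ᵥ w)) * nP P w := by ring
            _ ≤ (nP P (T *ᵥ T ^ q *ᵥ v) * nP P (T ^ q *ᵥ w)) * nP P w :=
                mul_le_mul_of_nonneg_right a2 (n0 _ _)
            _ = nP P (T *ᵥ T ^ q *ᵥ v) * nP P w * nP P (T ^ q *ᵥ w) := by ring
        exact le_of_mul_le_mul_right h5 hz

/-- Eigenvectors from the spectrum. -/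
theorem exists_eigvec (T : Md d) (μ : ℂ) (h : μ ∈ spectrum ℂ T) :
    ∃ v : Fin d → ℂ, v ≠ 0 ∧ T *ᵥ v = μ • v := by
  rw [spectrum.mem_iff, Matrix.isUnit_iff_isUnit_det, isUnit_iff_ne_zero, not_not] at h
  obtain ⟨v, hv, hv'⟩ := Matrix.exists_mulVec_eq_zero_iff.mpr h
  refine ⟨v, hv, ?_⟩
  rw [Matrix.sub_mulVec, Algebra.algebraMap_eq_smul_one, Matrix.smul_mulVec, Matrix.one_mulVec,
    sub_eq_zero] at hv'
  exact hv'.symm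

/-- From exponential growth of `‖T ^ q‖ * ‖T⁻¹ ^ q‖` to a gap between eigenvalues. -/
theorem gap_of_growth [Nontrivial (Md d)] (T T' : Md d) (hT : T * T' = 1) (c K : ℝ) (hc : 0 < c)
    (hK : 0 < K) (h : ∀ q : ℕ, c ^ q ≤ K * (‖T ^ q‖ * ‖T' ^ q‖)) :
    ∃ (μ ν : ℂ) (v w : Fin d → ℂ), v ≠ 0 ∧ w ≠ 0 ∧ T *ᵥ v = μ • v ∧ T *ᵥ w = ν • w ∧
      c * ‖ν‖ ≤ ‖μ‖ := by
  have hT' : T' * T = 1 := mul_eq_one_comm.mp hT
  obtain ⟨μ, hμ, hμr⟩ := spectrum.exists_nnnorm_eq_spectralRadius T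
  obtain ⟨ν, hν, hνr⟩ := spectrum.exists_nnnorm_eq_spectralRadius T'
  obtain ⟨v, hv, hv'⟩ := exists_eigvec T μ hμ
  obtain ⟨w, hw, hw'⟩ := exists_eigvec T' ν hν
  have hν0 : ν ≠ 0 := by
    intro h0
    rw [h0, zero_smul] at hw'
    have : T *ᵥ (T' *ᵥ w) = 0 := by rw [hw', Matrix.mulVec_zero]
    rw [Matrix.mulVec_mulVec, hT, Matrix.one_mulVec] at this
    exact hw this
  have hTw : T *ᵥ w = ν⁻¹ • w := by
    have h1 : T *ᵥ (T' *ᵥ w) = w := by rw [Matrix.mulVec_mulVec, hT, Matrix.one_mulVec]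
    rw [hw', Matrix.mulVec_smul] at h1
    rw [← h1, smul_smul, inv_mul_cancel₀ hν0, one_smul, h1]
  refine ⟨μ, ν⁻¹, v, w, hv, hw, hv', hTw, ?_⟩
  have key : ∀ (X : Md d) (x : ℂ), (‖x‖₊ : ENNReal) = spectralRadius ℂ X → ∀ r : ℝ, ‖x‖ < r →
      ∀ᶠ q : ℕ in atTop, ‖X ^ q‖ ≤ r ^ q := by
    intro X x hx r hr
    have hr0 : 0 < r := lt_of_le_of_lt (norm_nonneg _) hr
    have h1 := spectrum.pow_norm_pow_one_div_tendsto_nhds_spectralRadius X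
    rw [← hx] at h1
    have h2 : (‖x‖₊ : ENNReal) < ENNReal.ofReal r := by
      rw [← ENNReal.ofReal_coe_nnreal, coe_nnnorm]
      exact (ENNReal.ofReal_lt_ofReal_iff hr0).mpr hr
    filter_upwards [h1.eventually (gt_mem_nhds h2), eventually_gt_atTop 0] with q hq hq0
    rw [ENNReal.ofReal_lt_ofReal_iff hr0] at hq
    have h3 : ‖X ^ q‖ = (‖X ^ q‖ ^ (1 / q : ℝ)) ^ q := by
      rw [← Real.rpow_natCast, ← Real.rpow_mul (norm_nonneg _), one_div,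
        inv_mul_cancel₀ (by positivity), Real.rpow_one]
    rw [h3]
    exact pow_le_pow_left₀ (Real.rpow_nonneg (norm_nonneg _) _) hq.le q
  have key2 : ∀ ε : ℝ, 0 < ε → c ≤ (‖μ‖ + ε) * (‖ν‖ + ε) := by
    intro ε hε
    by_contra hcon
    push Not at hcon
    set t := (‖μ‖ + ε) * (‖ν‖ + ε) with ht
    have ht0 : 0 < t := by positivity
    have h1 := key T μ hμr (‖μ‖ + ε) (by linarith)
    have h2 := key T' ν hνr (‖ν‖ + ε) (by linarith)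
    have h3 : ∀ᶠ q : ℕ in atTop, (c / t) ^ q ≤ K := by
      filter_upwards [h1, h2] with q hq1 hq2
      rw [div_pow, div_le_iff₀ (by positivity)]
      calc c ^ q ≤ K * (‖T ^ q‖ * ‖T' ^ q‖) := h q
        _ ≤ K * ((‖μ‖ + ε) ^ q * (‖ν‖ + ε) ^ q) := by
            refine mul_le_mul_of_nonneg_left ?_ hK.le
            exact mul_le_mul hq1 hq2 (norm_nonneg _) (by positivity)
        _ = K * t ^ q := by rw [ht, mul_pow]
    have h4 : Tendsto (fun q : ℕ => (c / t) ^ q) atTop atTop :=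
      tendsto_pow_atTop_atTop_of_one_lt ((one_lt_div ht0).mpr hcon)
    obtain ⟨q, hq1, hq2⟩ := (h3.and (h4.eventually_gt_atTop K)).exists
    exact absurd hq1 (not_le.mpr hq2)
  have hlim : c ≤ ‖μ‖ * ‖ν‖ := by
    have h1 : Tendsto (fun ε : ℝ => (‖μ‖ + ε) * (‖ν‖ + ε)) (𝓝[>] 0) (𝓝 ((‖μ‖ + 0) * (‖ν‖ + 0))) := by
      apply Tendsto.mono_left _ nhdsWithin_le_nhds
      exact ((continuous_const.add continuous_id).mul (continuous_const.add continuous_id)).tendsto 0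
    rw [add_zero, add_zero] at h1
    refine ge_of_tendsto h1 ?_
    filter_upwards [self_mem_nhdsWithin] with ε hε using key2 ε hε
  rw [norm_inv]
  have hνpos : 0 < ‖ν‖ := norm_pos_iff.mpr hν0
  rw [← div_eq_mul_inv, div_le_iff₀ hνpos]
  exact hlim

/-- The main persistence statement. -/
theorem persist {M : ℝ} (κ : ℕ → ℝ) (P A B : ℕ → Md d) (m : ℕ)
    (h : ∀ i < m, Step M (κ i) (P i) (P (i + 1)) (A i) (B i)) (hcyc : P m = P 0)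
    (hidem : P 0 * P 0 = P 0) (hM : 1 ≤ M) (hM1 : ‖P 0‖ ≤ M) (hM2 : ‖1 - P 0‖ ≤ M)
    (hP0 : P 0 ≠ 0) (hP1 : P 0 ≠ 1) (T' : Md d) (hT' : prodB B m * T' = 1) :
    ∃ (μ ν : ℂ) (v w : Fin d → ℂ), v ≠ 0 ∧ w ≠ 0 ∧ prodB B m *ᵥ v = μ • v ∧
      prodB B m *ᵥ w = ν • w ∧ 2 ^ m * ‖ν‖ ≤ ‖μ‖ := by
  haveI : Nontrivial (Md d) := ⟨⟨P 0, 0, hP0⟩⟩
  obtain ⟨c1, c2⟩ := chain κ P A B m h
  rw [hcyc] at c1 c2
  set T := prodB B m with hT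
  have hex : ∀ Q : Md d, Q ≠ 0 → ∃ x : Fin d → ℂ, Q *ᵥ x ≠ 0 := by
    intro Q hQ
    by_contra hcon
    push Not at hcon
    exact hQ (Matrix.mulVec_injective (by funext x; rw [hcon x]; simp))
  obtain ⟨x, hx⟩ := hex _ hP0
  obtain ⟨y, hy⟩ := hex (1 - P 0) (sub_ne_zero.mpr (Ne.symm hP1))
  set v := P 0 *ᵥ x with hv
  set w := (1 - P 0) *ᵥ y with hw
  have hPv : P 0 *ᵥ v = v := by rw [hv, Matrix.mulVec_mulVec, hidem]
  have hPw : P 0 *ᵥ w = 0 := by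
    rw [hw, Matrix.mulVec_mulVec, mul_sub, mul_one, hidem, sub_self, Matrix.zero_mulVec]
  have hPv' : (1 - P 0) *ᵥ v = 0 := by rw [Matrix.sub_mulVec, hPv, Matrix.one_mulVec, sub_self]
  have hPw' : (1 - P 0) *ᵥ w = w := by rw [Matrix.sub_mulVec, hPw, Matrix.one_mulVec, sub_zero]
  have hvC : InC (P 0) v := by unfold InC; rw [hPv', norm_zero]; exact norm_nonneg _
  have hwC : ¬ InC (P 0) w := by
    unfold InC
    rw [hPw', hPw, norm_zero]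
    exact not_le.mpr (norm_pos_iff.mpr hy)
  have hTq : ∀ q : ℕ, T ^ q * T' ^ q = 1 := by
    intro q
    have hcomm : Commute T T' := by
      have := mul_eq_one_comm.mp hT'
      unfold Commute SemiconjBy
      rw [hT', this]
    rw [← hcomm.mul_pow, hT', one_pow]
  have hvpos : 0 < ‖v‖ := norm_pos_iff.mpr hx
  have hwpos : 0 < ‖w‖ := norm_pos_iff.mpr hy
  refine gap_of_growth T T' hT' (2 ^ m) (M * M) (by positivity) (by positivity) ?_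
  intro q
  obtain ⟨-, d2⟩ := iter_chain (P 0) T (2 ^ m) (by positivity) c1 c2 q
  have hback : T ^ q *ᵥ (T' ^ q *ᵥ w) = w := by
    rw [Matrix.mulVec_mulVec, hTq, Matrix.one_mulVec]
  obtain ⟨-, e⟩ := d2 v (T' ^ q *ᵥ w) hvC (by rw [hback]; exact hwC)
  rw [hback, nP_of_InC hvC, nP_of_not_InC hwC, hPv, hPw'] at e
  have nle : ∀ u : Fin d → ℂ, nP (P 0) u ≤ M * ‖u‖ := by
    intro u
    refine max_le ?_ ?_
    · exact (mulVec_le _ _).trans (mul_le_mul_of_nonneg_right hM1 (norm_nonneg _))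
    · exact (mulVec_le _ _).trans (mul_le_mul_of_nonneg_right hM2 (norm_nonneg _))
  have n0 : ∀ (Q : Md d) (x : Fin d → ℂ), 0 ≤ nP Q x := fun Q x =>
    le_max_of_le_left (norm_nonneg _)
  have f1 : nP (P 0) (T ^ q *ᵥ v) ≤ M * (‖T ^ q‖ * ‖v‖) :=
    (nle _).trans (mul_le_mul_of_nonneg_left (mulVec_le _ _) (by linarith))
  have f2 : nP (P 0) (T' ^ q *ᵥ w) ≤ M * (‖T' ^ q‖ * ‖w‖) :=
    (nle _).trans (mul_le_mul_of_nonneg_left (mulVec_le _ _) (by linarith))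
  have f3 : (2 ^ m) ^ q * ‖v‖ * ‖w‖ ≤ (M * (‖T ^ q‖ * ‖v‖)) * (M * (‖T' ^ q‖ * ‖w‖)) :=
    e.trans (mul_le_mul f1 f2 (n0 _ _) (by positivity))
  have f4 : (2 ^ m) ^ q * (‖v‖ * ‖w‖) ≤ (M * M * (‖T ^ q‖ * ‖T' ^ q‖)) * (‖v‖ * ‖w‖) := by
    calc (2 ^ m) ^ q * (‖v‖ * ‖w‖) = (2 ^ m) ^ q * ‖v‖ * ‖w‖ := by ring
      _ ≤ _ := f3
      _ = _ := by ring
  exact le_of_mul_le_mul_right f4 (by positivity)

end Pool.Agent.J4.H97.Anosov
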