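import Pool.Agent.J4.H97.Anosov.HNorm
import Pool.Agent.J4.H97.Anosov.Persist

/-!
Uniform domination estimates for simple Anosov representations.
-/

namespace Pool.Agent.J4.H97.Anosov

open Matrix Filter Topology Polynomial
open scoped Matrix.Norms.Operator ComplexOrder

variable {Γ : Subgroup SL3} {d : ℕ}

/-- Uniform domination data for a representation. -/
structure DomData (Γ : Subgroup SL3) {d : ℕ} (ρ : Γ →* SLd d) (C0 : ℝ) (P : M3 → Md d)
    (C c M : ℝ) : Prop where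
  idem : ∀ g ∈ F0 Γ, P g * P g = P g
  equiv : ∀ g ∈ F0 Γ, ∀ a : Γ, P (mat a * g) = (ρ a : Md d) * P g * (ρ a⁻¹ : Md d)
  flow : ∀ g ∈ F0 Γ, ∀ t : ℝ, P (g * flow t) = P g
  bdd : ∀ g ∈ F0 Γ, g 2 2 ≤ C0 → ‖P g‖ ≤ M
  ne0 : ∀ g ∈ F0 Γ, P g ≠ 0
  ne1 : ∀ g ∈ F0 Γ, P g ≠ 1
  cpos : 0 < c
  Cpos : 0 < C
  dom : ∀ g ∈ F0 Γ, ∀ g' ∈ F0 Γ, g 2 2 ≤ C0 → g' 2 2 ≤ C0 → ∀ h : Γ, ∀ t : ℝ, 0 ≤ t →
    g * Pool.Agent.J4.H97.Anosov.flow t = mat h * g' →
    ‖(ρ h⁻¹ : Md d) * (1 - P g)‖ * ‖P g * (ρ h : Md d)‖ ≤ C * Real.exp (-(c * t))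

theorem rep_inv_mul (ρ : Γ →* SLd d) (a : Γ) : (ρ a⁻¹ : Md d) * (ρ a : Md d) = 1 := by
  rw [← Matrix.SpecialLinearGroup.coe_mul, ← map_mul]; simp

theorem rep_mul_inv (ρ : Γ →* SLd d) (a : Γ) : (ρ a : Md d) * (ρ a⁻¹ : Md d) = 1 := by
  rw [← Matrix.SpecialLinearGroup.coe_mul, ← map_mul]; simp

theorem norm_mul_norm_le {X Y : Md d} {c : ℝ} (hc : 0 ≤ c)
    (h : ∀ x y : Fin d → ℂ, ‖X *ᵥ x‖ * ‖Y *ᵥ y‖ ≤ c * (‖x‖ * ‖y‖)) : ‖X‖ * ‖Y‖ ≤ c := by
  have key : ∀ (Z : Md d) (b e : ℝ), 0 ≤ b → 0 ≤ e → (∀ x, ‖Z *ᵥ x‖ * b ≤ e * ‖x‖) →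
      ‖Z‖ * b ≤ e := by
    intro Z b e hb he hZ
    rcases eq_or_lt_of_le hb with h0 | hb
    · rw [← h0, mul_zero]; exact he
    · rw [← le_div_iff₀ hb, Matrix.linfty_opNorm_eq_opNorm]
      refine ContinuousLinearMap.opNorm_le_bound _ (by positivity) fun x => ?_
      have h1 := hZ x
      have h2 : ‖Z *ᵥ x‖ ≤ e / b * ‖x‖ := by
        rw [div_mul_eq_mul_div, le_div_iff₀ hb]; exact h1
      exact h2
  rw [mul_comm]
  refine key Y ‖X‖ c (norm_nonneg _) hc fun y => ?_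
  rw [mul_comm]
  have h2 := key X ‖Y *ᵥ y‖ (c * ‖y‖) (norm_nonneg _) (by positivity) (fun x => by
    have := h x y
    calc ‖X *ᵥ x‖ * ‖Y *ᵥ y‖ ≤ c * (‖x‖ * ‖y‖) := this
      _ = c * ‖y‖ * ‖x‖ := by ring)
  exact h2

theorem dom_of_anosov (hG : Good Γ) {k : ℕ} (hk : 1 ≤ k) (hkd : k < d) (ρ : Γ →* SLd d)
    (h : IsSimpleAnosov Γ k ρ) (C0 : ℝ) :
    ∃ (P : M3 → Md d) (C c M : ℝ), DomData Γ ρ C0 P C c M ∧ ∀ g ∈ F0 Γ, P g ∈ spn ρ := by
  obtain ⟨P, H, hPc, hHc, hPH, hPf, hPe, hHe, C, c, hC, hc, hdom⟩ := h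
  set K : Set M3 := F0 Γ ∩ {g : M3 | IsLor g ∧ g 2 2 ≤ C0} with hK
  have hKc : IsCompact K := (isCompact_ball C0).inter_left F0_closed
  have hKm : ∀ g ∈ F0 Γ, g 2 2 ≤ C0 → g ∈ K := fun g hg h2 => ⟨hg, F0_lor hg, h2⟩
  obtain ⟨m, M, hm, hM, hmM⟩ := hnorm_bounds hKc H (hHc.mono Set.inter_subset_left)
    (fun g hg => (hPH g hg.1).2.2)
  obtain ⟨M1, hM1⟩ := hKc.exists_bound_of_continuousOn (hPc.mono Set.inter_subset_left)
  set M2 : ℝ := max M1 0 with hM2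
  have hM20 : 0 ≤ M2 := le_max_right _ _
  have hPM : ∀ g ∈ K, ‖P g‖ ≤ M2 := fun g hg => (hM1 g hg).trans (le_max_left _ _)
  have hPM' : ∀ g ∈ K, ‖1 - P g‖ ≤ ‖(1 : Md d)‖ + M2 := fun g hg =>
    (norm_sub_le _ _).trans (by have := hPM g hg; linarith)
  have hne0 : ∀ g ∈ F0 Γ, P g ≠ 0 := by
    intro g hg h0
    have := (hPH g hg).2.1
    rw [h0, Matrix.rank_zero] at this
    omega
  have hne1 : ∀ g ∈ F0 Γ, P g ≠ 1 := by
    intro g hg h0
    have := (hPH g hg).2.1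
    rw [h0, Matrix.rank_one, Fintype.card_fin] at this
    omega
  set C' : ℝ := M ^ 2 / m ^ 2 * C * (M2 * (‖(1 : Md d)‖ + M2)) + 1 with hC'
  refine ⟨P, C', c, M2, ⟨fun g hg => (hPH g hg).1, hPe, hPf, fun g hg h2 => hPM g (hKm g hg h2),
    hne0, hne1, hc, by positivity, ?_⟩, ?_⟩
  · intro g hg g' hg' hg2 hg'2 h t ht hgt
    have hgK := hKm g hg hg2
    have hg'K := hKm g' hg' hg'2
    set A : Md d := (ρ h⁻¹ : Md d) with hA
    set A' : Md d := (ρ h : Md d) with hA'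
    have hAA' : A * A' = 1 := rep_inv_mul ρ h
    have hA'A : A' * A = 1 := rep_mul_inv ρ h
    -- transformation of `P` and of the metric
    have hP' : A * P g * A' = P g' := by
      have h1 := hPf g hg t
      rw [hgt] at h1
      have h2 := hPe g' hg' h
      change P (mat h * g') = A' * P g' * A at h2
      rw [h2] at h1
      rw [← h1]
      calc A * (A' * P g' * A) * A' = (A * A') * P g' * (A * A') := by noncomm_ring
        _ = P g' := by rw [hAA', one_mul, mul_one]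
    have hH' : ∀ v : Fin d → ℂ, hnorm (H (g * Pool.Agent.J4.H97.Anosov.flow t)) v =
        hnorm (H g') (A *ᵥ v) := by
      intro v
      have h1 := hHe g' hg' h (A *ᵥ v)
      change hnorm (H (mat h * g')) (A' *ᵥ (A *ᵥ v)) = _ at h1
      rw [Matrix.mulVec_mulVec, hA'A, Matrix.one_mulVec] at h1
      rw [hgt, h1]
    have hker : ∀ x : Fin d → ℂ, P g *ᵥ ((1 - P g) *ᵥ x) = 0 := by
      intro x
      rw [Matrix.mulVec_mulVec, mul_sub, mul_one, (hPH g hg).1, sub_self, Matrix.zero_mulVec]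
    have hrange : ∀ x : Fin d → ℂ, P g *ᵥ (P g *ᵥ x) = P g *ᵥ x := by
      intro x
      rw [Matrix.mulVec_mulVec, (hPH g hg).1]
    set E := Real.exp (-(c * t)) with hE
    have hEpos : 0 < E := Real.exp_pos _
    -- vector estimate
    have hvec : ∀ v w : Fin d → ℂ, P g *ᵥ v = v → P g *ᵥ w = 0 →
        ‖A *ᵥ w‖ * ‖v‖ ≤ M ^ 2 / m ^ 2 * C * E * (‖A *ᵥ v‖ * ‖w‖) := by
      intro v w hv hw
      by_cases hv0 : v = 0
      · rw [hv0]; simp
      by_cases hw0 : w = 0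
      · rw [hw0]; simp
      have h1 := hdom g hg v w hv0 hw0 hv hw t ht
      rw [hH', hH'] at h1
      have hAw := (hmM g' hg'K (A *ᵥ w)).1
      have hAv := (hmM g' hg'K (A *ᵥ v)).2
      have hgw := (hmM g hgK w).2
      have hgv := (hmM g hgK v).1
      have hw' : 0 < ‖w‖ := norm_pos_iff.mpr hw0
      have hv' : 0 < ‖v‖ := norm_pos_iff.mpr hv0
      have hhw : 0 < hnorm (H g) w := hnorm_pos (hPH g hg).2.2 hw0
      have hhv : 0 < hnorm (H g) v := hnorm_pos (hPH g hg).2.2 hv0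
      have h2 : m * ‖A *ᵥ w‖ / (M * ‖w‖) ≤ C * E * (M * ‖A *ᵥ v‖ / (m * ‖v‖)) := by
        calc m * ‖A *ᵥ w‖ / (M * ‖w‖) ≤ hnorm (H g') (A *ᵥ w) / hnorm (H g) w := by
              refine div_le_div₀ ?_ hAw hhw hgw
              exact le_trans (by positivity) hAw
          _ ≤ C * E * (hnorm (H g') (A *ᵥ v) / hnorm (H g) v) := h1
          _ ≤ C * E * (M * ‖A *ᵥ v‖ / (m * ‖v‖)) := by
              refine mul_le_mul_of_nonneg_left ?_ (by positivity)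
              exact div_le_div₀ (by positivity) hAv (by positivity) hgv
      rw [div_le_iff₀ (by positivity)] at h2
      have h3 : m * ‖A *ᵥ w‖ * (m * ‖v‖) ≤
          C * E * (M * ‖A *ᵥ v‖ / (m * ‖v‖)) * (M * ‖w‖) * (m * ‖v‖) :=
        mul_le_mul_of_nonneg_right h2 (by positivity)
      have h4 : C * E * (M * ‖A *ᵥ v‖ / (m * ‖v‖)) * (M * ‖w‖) * (m * ‖v‖) =
          C * E * (M * ‖A *ᵥ v‖) * (M * ‖w‖) := by
        field_simp
      rw [h4] at h3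
      have h5 : m ^ 2 * (‖A *ᵥ w‖ * ‖v‖) ≤ m ^ 2 * (M ^ 2 / m ^ 2 * C * E * (‖A *ᵥ v‖ * ‖w‖)) := by
        calc m ^ 2 * (‖A *ᵥ w‖ * ‖v‖) = m * ‖A *ᵥ w‖ * (m * ‖v‖) := by ring
          _ ≤ _ := h3
          _ = m ^ 2 * (M ^ 2 / m ^ 2 * C * E * (‖A *ᵥ v‖ * ‖w‖)) := by field_simp
      exact le_of_mul_le_mul_left h5 (by positivity)
    have hfin : ‖A * (1 - P g)‖ * ‖P g * A'‖ ≤
        (M ^ 2 / m ^ 2 * C * E) * (M2 * (‖(1 : Md d)‖ + M2)) := by
      refine norm_mul_norm_le (by positivity) fun x y => ?_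
      rw [← Matrix.mulVec_mulVec, ← Matrix.mulVec_mulVec]
      have h1 := hvec (P g *ᵥ (A' *ᵥ y)) ((1 - P g) *ᵥ x) (hrange _) (hker _)
      have h2 : A *ᵥ (P g *ᵥ (A' *ᵥ y)) = P g' *ᵥ y := by
        rw [← hP', Matrix.mulVec_mulVec, Matrix.mulVec_mulVec, mul_assoc]
      rw [h2] at h1
      refine h1.trans ?_
      have h3 : ‖P g' *ᵥ y‖ ≤ M2 * ‖y‖ :=
        (mulVec_le _ _).trans (mul_le_mul_of_nonneg_right (hPM g' hg'K) (norm_nonneg _))
      have h4 : ‖(1 - P g) *ᵥ x‖ ≤ (‖(1 : Md d)‖ + M2) * ‖x‖ :=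
        (mulVec_le _ _).trans (mul_le_mul_of_nonneg_right (hPM' g hgK) (norm_nonneg _))
      calc M ^ 2 / m ^ 2 * C * E * (‖P g' *ᵥ y‖ * ‖(1 - P g) *ᵥ x‖)
          ≤ M ^ 2 / m ^ 2 * C * E * ((M2 * ‖y‖) * ((‖(1 : Md d)‖ + M2) * ‖x‖)) := by
            refine mul_le_mul_of_nonneg_left ?_ (by positivity)
            exact mul_le_mul h3 h4 (norm_nonneg _) (by positivity)
        _ = _ := by ring
    refine hfin.trans ?_
    have : (M ^ 2 / m ^ 2 * C * E) * (M2 * (‖(1 : Md d)‖ + M2)) = (C' - 1) * E := by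
      rw [hC']; ring
    rw [this]
    nlinarith
  · -- `P g` lies in the span
    have hsimple : ∀ g, IsSimpleClosed Γ g → P g ∈ spn ρ := by
      intro g hgs
      have hg : g ∈ F0 Γ := subset_closure hgs
      have hgs' := (simple_iff hG g).mp hgs
      obtain ⟨hgl, ⟨γ, L, hL, hγ⟩, -⟩ := hgs'
      have hcomm : (ρ γ : Md d) * P g = P g * (ρ γ : Md d) := by
        have h1 := hPe g hg γ
        change P (mat γ * g) = _ at h1
        rw [hγ, hPf g hg] at h1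
        calc (ρ γ : Md d) * P g = (ρ γ : Md d) * P g * ((ρ γ⁻¹ : Md d) * (ρ γ : Md d)) := by
              rw [rep_inv_mul, mul_one]
          _ = ((ρ γ : Md d) * P g * (ρ γ⁻¹ : Md d)) * (ρ γ : Md d) := by
              simp only [mul_assoc]
          _ = P g * (ρ γ : Md d) := by rw [← h1]
      obtain ⟨b, hb⟩ := proj_poly (ρ γ : Md d) (P g) hcomm (hPH g hg).1 (by
        intro μ v w hv hw hPv hPw hAv hAw
        -- contradiction from domination
        have hμ0 : μ ≠ 0 := by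
          intro h0
          rw [h0, zero_smul] at hAv
          apply hv
          have : (ρ γ⁻¹ : Md d) *ᵥ ((ρ γ : Md d) *ᵥ v) = v := by
            rw [Matrix.mulVec_mulVec, rep_inv_mul, Matrix.one_mulVec]
          rw [← this, hAv, Matrix.mulVec_zero]
        have hpow : ∀ (j : ℕ) (u : Fin d → ℂ), (ρ γ : Md d) *ᵥ u = μ • u →
            hnorm (H (g * Pool.Agent.J4.H97.Anosov.flow (j * L))) u = ‖μ⁻¹‖ ^ j * hnorm (H g) u := by
          intro j u hu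
          have h2 : ∀ j : ℕ, (ρ (γ ^ j) : Md d) *ᵥ u = μ ^ j • u := by
            intro j
            induction j with
            | zero => simp
            | succ j ih =>
              rw [pow_succ, map_mul, Matrix.SpecialLinearGroup.coe_mul, ← Matrix.mulVec_mulVec, hu,
                Matrix.mulVec_smul, ih, smul_smul, pow_succ, mul_comm]
          have h3 := hHe g hg (γ ^ j) ((μ⁻¹) ^ j • u)
          change hnorm (H (mat (γ ^ j) * g)) _ = _ at h3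
          rw [mat_pow_frame hγ, Matrix.mulVec_smul, h2, smul_smul, ← mul_pow,
            inv_mul_cancel₀ hμ0, one_pow, one_smul, hnorm_smul, norm_pow] at h3
          exact h3
        have hhw : 0 < hnorm (H g) w := hnorm_pos (hPH g hg).2.2 hw
        have hhv : 0 < hnorm (H g) v := hnorm_pos (hPH g hg).2.2 hv
        have hμ' : 0 < ‖μ⁻¹‖ := norm_pos_iff.mpr (inv_ne_zero hμ0)
        have hineq : ∀ j : ℕ, 1 ≤ C * Real.exp (-(c * (j * L))) := by
          intro j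
          have h4 := hdom g hg v w hv hw hPv hPw (j * L) (by positivity)
          rw [hpow j v hAv, hpow j w hAw, mul_div_assoc, mul_div_assoc, div_self hhw.ne',
            div_self hhv.ne', mul_one] at h4
          have h5 : 0 < ‖μ⁻¹‖ ^ j := by positivity
          have h6 : 1 * ‖μ⁻¹‖ ^ j ≤ C * Real.exp (-(c * (j * L))) * ‖μ⁻¹‖ ^ j := by
            rw [one_mul]; exact h4
          exact le_of_mul_le_mul_right h6 h5
        have hlim : Tendsto (fun j : ℕ => C * Real.exp (-(c * (j * L)))) atTop (𝓝 (C * 0)) := by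
          have h7 := Real.tendsto_exp_neg_atTop_nhds_zero.comp
            ((tendsto_nat_mul hL).const_mul_atTop hc)
          exact h7.const_mul C
        rw [mul_zero] at hlim
        obtain ⟨j, hj⟩ := (hlim.eventually (gt_mem_nhds (zero_lt_one))).exists
        exact absurd (hineq j) (not_le.mpr hj))
      rw [hb, Polynomial.aeval_eq_sum_range]
      exact Submodule.sum_mem _ fun i _ => Submodule.smul_mem _ _
        (pow_mem_spn ρ (rep_mem_spn ρ γ) i)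
    intro g hg
    have hcl : IsClosed (spn ρ : Set (Md d)) := Submodule.closed_of_finiteDimensional _
    have h1 : ContinuousWithinAt P {g | IsSimpleClosed Γ g} g :=
      (hPc g hg).mono subset_closure
    have h2 := h1.mem_closure_image hg
    refine (closure_minimal ?_ hcl) h2
    rintro _ ⟨g, hg, rfl⟩
    exact hsimple g hg

/-- Transfer of the domination estimate to a minimal representation with the same character. -/
theorem dom_transfer (S : Finset Γ) (hS : Subgroup.closure (S : Set Γ) = ⊤)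
    (ρ₀ ρ₁ : Γ →* SLd d) (htr : ∀ γ, (ρ₀ γ : Md d).trace = (ρ₁ γ : Md d).trace)
    (hmin : MinT S (mrep ρ₁)) {C0 : ℝ} {P : M3 → Md d} {C c M : ℝ}
    (hD : DomData Γ ρ₀ C0 P C c M) (hP : ∀ g ∈ F0 Γ, P g ∈ spn ρ₀) :
    ∃ (P' : M3 → Md d) (C' M' : ℝ), DomData Γ ρ₁ C0 P' C' c M' := by
  obtain ⟨θ, hθ, hθm, hθt⟩ := exists_theta S hS ρ₀ ρ₁ htr hmin
  have hθ1 : θ 1 = 1 := by
    have := hθ 1
    simpa using this
  obtain ⟨N, hN0, hN⟩ : ∃ N : ℝ, 0 < N ∧ ∀ x, ‖θ x‖ ≤ N * ‖x‖ := by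
    obtain ⟨N, hN0, hN⟩ := (LinearMap.toContinuousLinearMap θ).bound
    exact ⟨N, hN0, hN⟩
  have h1P : ∀ g ∈ F0 Γ, 1 - P g ∈ spn ρ₀ := fun g hg =>
    Submodule.sub_mem _ (one_mem_spn ρ₀) (hP g hg)
  refine ⟨fun g => θ (P g), N * N * C, N * |M|, ⟨?_, ?_, ?_, ?_, ?_, ?_, hD.cpos, ?_, ?_⟩⟩
  · intro g hg
    rw [← hθm _ (hP g hg) _ (hP g hg), hD.idem g hg]
  · intro g hg a
    rw [hD.equiv g hg a, hθm _ (mul_mem_spn ρ₀ (rep_mem_spn ρ₀ a) (hP g hg)) _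
      (rep_mem_spn ρ₀ a⁻¹), hθm _ (rep_mem_spn ρ₀ a) _ (hP g hg), hθ, hθ]
  · intro g hg t
    rw [hD.flow g hg t]
  · intro g hg h2
    refine (hN _).trans (mul_le_mul_of_nonneg_left ?_ hN0.le)
    exact (hD.bdd g hg h2).trans (le_abs_self _)
  · intro g hg h0
    apply hD.ne0 g hg
    apply idem_trace _ (hD.idem g hg)
    rw [← hθt _ (hP g hg), h0, Matrix.trace_zero]
  · intro g hg h0
    apply hD.ne1 g hg
    have h1 : (1 - P g) = 0 := by
      apply idem_trace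
      · rw [mul_sub, sub_mul, sub_mul, hD.idem g hg]; simp
      · rw [← hθt _ (h1P g hg), map_sub, hθ1, h0, sub_self, Matrix.trace_zero]
    exact (sub_eq_zero.mp h1).symm
  · have := hD.Cpos
    positivity
  · intro g hg g' hg' hg2 hg'2 h t ht hgt
    have h1 := hD.dom g hg g' hg' hg2 hg'2 h t ht hgt
    have e1 : θ ((ρ₀ h⁻¹ : Md d) * (1 - P g)) = (ρ₁ h⁻¹ : Md d) * (1 - θ (P g)) := by
      rw [hθm _ (rep_mem_spn ρ₀ h⁻¹) _ (h1P g hg), hθ, map_sub, hθ1]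
    have e2 : θ (P g * (ρ₀ h : Md d)) = θ (P g) * (ρ₁ h : Md d) := by
      rw [hθm _ (hP g hg) _ (rep_mem_spn ρ₀ h), hθ]
    rw [← e1, ← e2]
    calc ‖θ ((ρ₀ h⁻¹ : Md d) * (1 - P g))‖ * ‖θ (P g * (ρ₀ h : Md d))‖
        ≤ (N * ‖(ρ₀ h⁻¹ : Md d) * (1 - P g)‖) * (N * ‖P g * (ρ₀ h : Md d)‖) :=
          mul_le_mul (hN _) (hN _) (norm_nonneg _) (by positivity)
      _ = N * N * (‖(ρ₀ h⁻¹ : Md d) * (1 - P g)‖ * ‖P g * (ρ₀ h : Md d)‖) := by ring
      _ ≤ N * N * (C * Real.exp (-(c * t))) := mul_le_mul_of_nonneg_left h1 (by positivity)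
      _ = N * N * C * Real.exp (-(c * t)) := by ring

end Pool.Agent.J4.H97.Anosov
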