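import Pool.Agent.J4.H97.Anosov.Strict

/-!
The representation `γ ↦ γ ⊕ 1` is simple `1`-Anosov.
-/

namespace Pool.Agent.J4.H97.Anosov

open Matrix Filter Topology Polynomial
open scoped ComplexOrder

variable {Γ : Subgroup SL3} {e : ℕ}

/-- Block matrices. -/
noncomputable def blk (e : ℕ) (g : M3) (D : Matrix (Fin e) (Fin e) ℂ) : Md (3 + e) :=
  (Matrix.fromBlocks (g.map (Complex.ofRealHom : ℝ →+* ℂ)) 0 0 D).submatrix
    finSumFinEquiv.symm finSumFinEquiv.symm

theorem blk_mul (g h : M3) (D D' : Matrix (Fin e) (Fin e) ℂ) :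
    blk e g D * blk e h D' = blk e (g * h) (D * D') := by
  unfold blk
  rw [Matrix.submatrix_mul_equiv, Matrix.fromBlocks_multiply]
  simp [Matrix.map_mul]

theorem blk_one : blk e 1 1 = 1 := by
  unfold blk
  rw [Matrix.map_one _ (map_zero _) (map_one _), Matrix.fromBlocks_one,
    Matrix.submatrix_one_equiv]

theorem blk_det (g : M3) (D : Matrix (Fin e) (Fin e) ℂ) :
    (blk e g D).det = (g.det : ℂ) * D.det := by
  unfold blk
  rw [Matrix.det_submatrix_equiv_self, Matrix.det_fromBlocks_zero₂₁]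
  congr 1
  exact (RingHom.map_det Complex.ofRealHom g).symm

theorem blk_trace (g : M3) (D : Matrix (Fin e) (Fin e) ℂ) :
    (blk e g D).trace = (g.trace : ℂ) + D.trace := by
  unfold blk
  rw [Matrix.trace, ← Equiv.sum_comp finSumFinEquiv]
  simp [Matrix.trace, Fintype.sum_sum_type]

theorem blk_left (g : M3) (D : Matrix (Fin e) (Fin e) ℂ) (y : Fin (3 + e) → ℂ) (i : Fin 3) :
    (blk e g D *ᵥ y) (Fin.castAdd e i) = ∑ j, (g i j : ℂ) * y (Fin.castAdd e j) := by
  unfold blk
  rw [Matrix.mulVec, dotProduct, ← Equiv.sum_comp finSumFinEquiv]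
  simp [Fintype.sum_sum_type]

theorem blk_right (g : M3) (D : Matrix (Fin e) (Fin e) ℂ) (y : Fin (3 + e) → ℂ) (i : Fin e) :
    (blk e g D *ᵥ y) (Fin.natAdd 3 i) = ∑ j, D i j * y (Fin.natAdd 3 j) := by
  unfold blk
  rw [Matrix.mulVec, dotProduct, ← Equiv.sum_comp finSumFinEquiv]
  simp [Fintype.sum_sum_type]

theorem blk_continuous (D : Matrix (Fin e) (Fin e) ℂ) : Continuous fun g : M3 => blk e g D := by
  unfold blk
  refine Continuous.matrix_submatrix ?_ _ _
  refine Continuous.matrix_fromBlocks ?_ continuous_const continuous_const continuous_const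
  exact Continuous.matrix_map continuous_id Complex.continuous_ofReal

/-- The representation `γ ⊕ 1`. -/
noncomputable def rho0 (hG : Good Γ) (e : ℕ) : Γ →* SLd (3 + e) where
  toFun γ := ⟨blk e (mat γ) 1, by rw [blk_det, (hG.lor γ).2.1]; simp⟩
  map_one' := by
    apply Subtype.ext
    change blk e (mat 1) 1 = 1
    rw [mat_one, blk_one]
  map_mul' a b := by
    apply Subtype.ext
    change blk e (mat (a * b)) 1 = blk e (mat a) 1 * blk e (mat b) 1
    rw [mat_mul, blk_mul, mul_one]

theorem rho0_coe (hG : Good Γ) (γ : Γ) : (rho0 hG e γ : Md (3 + e)) = blk e (mat γ) 1 := rfl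

/-- The projection onto the contracted isotropic line. -/
noncomputable def Eu : M3 := !![1/2, 0, -1/2; 0, 0, 0; -1/2, 0, 1/2]

theorem Eu_mul : Eu * Eu = Eu := by
  ext i j
  fin_cases i <;> fin_cases j <;> simp [Eu, Matrix.mul_apply, Fin.sum_univ_three] <;> norm_num

theorem Eu_trace : Eu.trace = 1 := by
  simp [Eu, Matrix.trace, Fin.sum_univ_three]; norm_num

theorem flow_Eu (t : ℝ) : flow t * Eu * linv (flow t) = Eu := by
  rw [linv_eq]
  have h := Real.cosh_sq t
  ext i j
  fin_cases i <;> fin_cases j <;>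
    simp [Eu, flow, Matrix.mul_apply, Fin.sum_univ_three] <;> nlinarith

theorem linv_mul_rev (g h : M3) : linv (g * h) = linv h * linv g := by
  unfold linv
  rw [Matrix.transpose_mul]
  calc J * (hᵀ * gᵀ) * J = J * hᵀ * 1 * gᵀ * J := by simp only [mul_assoc, one_mul]
    _ = J * hᵀ * (J * J) * gᵀ * J := by rw [JJ]
    _ = J * hᵀ * J * (J * gᵀ * J) := by simp only [mul_assoc]

theorem linv_continuous : Continuous linv := by
  unfold linv
  exact (continuous_const.mul (Continuous.matrix_transpose continuous_id)).mul continuous_const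

/-- The projection `P`. -/
noncomputable def P0 (e : ℕ) (g : M3) : Md (3 + e) := blk e (g * Eu * linv g) 0

/-- The metric `H`. -/
noncomputable def H0 (e : ℕ) (g : M3) : Md (3 + e) := (blk e (linv g) 1)ᴴ * blk e (linv g) 1

/-- The Euclidean length. -/
noncomputable def en {d : ℕ} (y : Fin d → ℂ) : ℝ := Real.sqrt (∑ i, ‖y i‖ ^ 2)

theorem hnorm_sq {d : ℕ} (M : Md d) (v : Fin d → ℂ) : hnorm (Mᴴ * M) v = en (M *ᵥ v) := by
  unfold hnorm en
  congr 1
  rw [← Matrix.mulVec_mulVec, Matrix.dotProduct_mulVec, Matrix.vecMul_conjTranspose, star_star]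
  rw [dotProduct, Complex.re_sum]
  refine Finset.sum_congr rfl fun i _ => ?_
  rw [Pi.star_apply, ← starRingEnd_apply, mul_comm, Complex.mul_conj, Complex.normSq_eq_norm_sq,
    Complex.ofReal_re]

theorem en_split (y : Fin (3 + e) → ℂ) : en y ^ 2 = ∑ i : Fin 3, ‖y (Fin.castAdd e i)‖ ^ 2 +
    ∑ i : Fin e, ‖y (Fin.natAdd 3 i)‖ ^ 2 := by
  unfold en
  rw [Real.sq_sqrt (by positivity), Fin.sum_univ_add]

theorem en_nonneg {d : ℕ} (y : Fin d → ℂ) : 0 ≤ en y := Real.sqrt_nonneg _

theorem en_pos {d : ℕ} {y : Fin d → ℂ} (hy : y ≠ 0) : 0 < en y := by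
  unfold en
  apply Real.sqrt_pos.mpr
  obtain ⟨i, hi⟩ := Function.ne_iff.mp hy
  exact Finset.sum_pos' (fun _ _ => by positivity) ⟨i, Finset.mem_univ i, by
    have : 0 < ‖y i‖ := norm_pos_iff.mpr hi
    positivity⟩

/-- Expansion on the range of `P`. -/
theorem en_range {y : Fin (3 + e) → ℂ} (hy : blk e Eu 0 *ᵥ y = y) (t : ℝ) :
    en (blk e (linv (flow t)) 1 *ᵥ y) = Real.exp t * en y := by
  have h0 := congrFun hy (Fin.castAdd e 0)
  have h1 := congrFun hy (Fin.castAdd e 1)
  have h2 := congrFun hy (Fin.castAdd e 2)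
  rw [blk_left] at h0 h1 h2
  simp only [Fin.sum_univ_three] at h0 h1 h2
  have k1 : y (Fin.castAdd e 1) = 0 := by rw [← h1]; simp [Eu]
  have k2 : y (Fin.castAdd e 2) = - y (Fin.castAdd e 0) := by
    simp [Eu] at h0
    linear_combination -2 * h0
  have kr : ∀ i, y (Fin.natAdd 3 i) = 0 := by
    intro i
    rw [← hy, blk_right]
    simp
  have hmain : blk e (linv (flow t)) 1 *ᵥ y = ((Real.exp t : ℝ) : ℂ) • y := by
    ext i
    refine Fin.addCases (fun i => ?_) (fun i => ?_) i
    · rw [blk_left, Fin.sum_univ_three, Pi.smul_apply, k1, k2, linv_eq, smul_eq_mul,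
        ← Real.cosh_add_sinh]
      have hx : Complex.exp (t : ℂ) = Complex.cosh t + Complex.sinh t :=
        (Complex.cosh_add_sinh _).symm
      fin_cases i
      · simp [flow]; rw [hx]; ring
      · simp [flow, k1]
      · simp [flow, k2]; rw [hx]; ring
    · rw [blk_right, Pi.smul_apply, kr]
      simp [kr]
  rw [hmain]
  unfold en
  have : ∀ i, ‖(((Real.exp t : ℝ) : ℂ) • y) i‖ ^ 2 = (Real.exp t) ^ 2 * ‖y i‖ ^ 2 := by
    intro i
    rw [Pi.smul_apply, norm_smul, Complex.norm_real, Real.norm_eq_abs, abs_of_pos (Real.exp_pos t),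
      mul_pow]
  simp only [this]
  rw [← Finset.mul_sum, Real.sqrt_mul (by positivity), Real.sqrt_sq (Real.exp_pos t).le]

/-- No expansion on the kernel of `P`. -/
theorem en_ker {y : Fin (3 + e) → ℂ} (hy : blk e Eu 0 *ᵥ y = 0) {t : ℝ} (ht : 0 ≤ t) :
    en (blk e (linv (flow t)) 1 *ᵥ y) ≤ en y := by
  have h0 := congrFun hy (Fin.castAdd e 0)
  rw [blk_left] at h0
  simp only [Fin.sum_univ_three] at h0
  have k2 : y (Fin.castAdd e 2) = y (Fin.castAdd e 0) := by
    simp [Eu] at h0
    linear_combination -2 * h0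
  have hle : Real.exp (-t) ≤ 1 := by
    have := Real.exp_le_exp.mpr (show -t ≤ 0 by linarith)
    simpa using this
  unfold en
  refine Real.sqrt_le_sqrt ?_
  refine Finset.sum_le_sum fun i _ => ?_
  refine pow_le_pow_left₀ (norm_nonneg _) ?_ 2
  have hc : ∀ z : ℂ, ‖((Real.exp (-t) : ℝ) : ℂ) * z‖ ≤ ‖z‖ := by
    intro z
    rw [norm_mul, Complex.norm_real, Real.norm_eq_abs, abs_of_pos (Real.exp_pos _)]
    exact mul_le_of_le_one_left (norm_nonneg _) hle
  refine Fin.addCases (fun i => ?_) (fun i => ?_) i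
  · rw [blk_left, Fin.sum_univ_three, k2, linv_eq]
    have hx : Complex.exp (-(t : ℂ)) = Complex.cosh t - Complex.sinh t :=
      (Complex.cosh_sub_sinh _).symm
    fin_cases i
    · refine le_of_eq_of_le (congrArg norm ?_) (hc (y (Fin.castAdd e 0)))
      simp [flow]; rw [hx]; ring
    · simp [flow]
    · refine le_of_eq_of_le (congrArg norm ?_) ((hc (y (Fin.castAdd e 0))).trans ?_)
      · simp [flow]; rw [hx]; ring
      · exact le_of_eq (congrArg norm k2.symm)
  · rw [blk_right]
    simp [Matrix.one_apply]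

theorem rho0_anosov (hG : Good Γ) (e : ℕ) : IsSimpleAnosov Γ 1 (rho0 hG e) := by
  have hlor : ∀ g ∈ F0 Γ, IsLor g := fun g hg => F0_lor hg
  have hinv : ∀ g : M3, IsLor g → blk e (linv g) 1 * blk e g 1 = 1 := by
    intro g hg
    rw [blk_mul, linv_mul hg.1, mul_one, blk_one]
  have hinv' : ∀ g : M3, IsLor g → blk e g 1 * blk e (linv g) 1 = 1 := by
    intro g hg
    rw [blk_mul, mul_linv hg.1, mul_one, blk_one]
  refine ⟨P0 e, H0 e, ?_, ?_, ?_, ?_, ?_, ?_, 1, 1, one_pos, one_pos, ?_⟩
  · refine Continuous.continuousOn ?_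
    exact (blk_continuous 0).comp ((continuous_id.mul continuous_const).mul linv_continuous)
  · refine Continuous.continuousOn ?_
    have h1 : Continuous fun g : M3 => blk e (linv g) 1 := (blk_continuous 1).comp linv_continuous
    exact (Continuous.matrix_conjTranspose h1).mul h1
  · intro g hg
    have hP : P0 e g * P0 e g = P0 e g := by
      unfold P0
      rw [blk_mul, mul_zero]
      congr 1
      calc g * Eu * linv g * (g * Eu * linv g) = g * Eu * (linv g * g) * Eu * linv g := by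
            simp only [mul_assoc]
        _ = g * (Eu * Eu) * linv g := by rw [linv_mul (hlor g hg).1]; simp only [mul_assoc, one_mul]
        _ = g * Eu * linv g := by rw [Eu_mul]
    refine ⟨hP, ?_, ?_⟩
    · have h1 := idem_rank (P0 e g) hP
      have h2 : (P0 e g).trace = 1 := by
        unfold P0
        rw [blk_trace, Matrix.trace_mul_comm, ← mul_assoc, linv_mul (hlor g hg).1, one_mul,
          Eu_trace]
        simp
      rw [h2] at h1
      exact_mod_cast h1
    · unfold H0
      refine Matrix.PosDef.conjTranspose_mul_self _ ?_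
      intro x y hxy
      have := congrArg (fun z => blk e g 1 *ᵥ z) hxy
      simpa [Matrix.mulVec_mulVec, hinv' g (hlor g hg)] using this
  · intro g hg t
    unfold P0
    congr 1
    rw [linv_mul_rev]
    calc g * flow t * Eu * (linv (flow t) * linv g) = g * (flow t * Eu * linv (flow t)) * linv g := by
          simp only [mul_assoc]
      _ = g * Eu * linv g := by rw [flow_Eu]
  · intro g hg γ
    change P0 e (mat γ * g) = blk e (mat γ) 1 * P0 e g * blk e (mat γ⁻¹) 1
    unfold P0
    rw [hG.mat_inv, blk_mul, blk_mul, linv_mul_rev]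
    congr 1
    · simp only [mul_assoc]
    · simp
  · intro g hg γ v
    change hnorm (H0 e (mat γ * g)) (blk e (mat γ) 1 *ᵥ v) = _
    unfold H0
    rw [hnorm_sq, hnorm_sq, linv_mul_rev, Matrix.mulVec_mulVec, blk_mul, mul_assoc,
      linv_mul (hG.lor γ).1, mul_one, mul_one]
  · intro g hg v w hv hw hPv hPw t ht
    have key : ∀ u : Fin (3 + e) → ℂ, blk e Eu 0 *ᵥ (blk e (linv g) 1 *ᵥ u) =
        blk e (linv g) 1 *ᵥ (P0 e g *ᵥ u) := by
      intro u
      unfold P0
      rw [Matrix.mulVec_mulVec, Matrix.mulVec_mulVec, blk_mul, blk_mul]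
      congr 2
      · calc Eu * linv g = linv g * g * Eu * linv g := by rw [linv_mul (hlor g hg).1, one_mul]
          _ = _ := by simp only [mul_assoc]
      · simp
    have hH : ∀ u : Fin (3 + e) → ℂ, hnorm (H0 e (g * flow t)) u =
        en (blk e (linv (flow t)) 1 *ᵥ (blk e (linv g) 1 *ᵥ u)) := by
      intro u
      unfold H0
      rw [hnorm_sq, linv_mul_rev, Matrix.mulVec_mulVec, blk_mul, mul_one]
    have hH0 : ∀ u : Fin (3 + e) → ℂ, hnorm (H0 e g) u = en (blk e (linv g) 1 *ᵥ u) := by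
      intro u
      unfold H0
      rw [hnorm_sq]
    have hne : ∀ u : Fin (3 + e) → ℂ, u ≠ 0 → blk e (linv g) 1 *ᵥ u ≠ 0 := by
      intro u hu h0
      apply hu
      have := congrArg (fun z => blk e g 1 *ᵥ z) h0
      simpa [Matrix.mulVec_mulVec, hinv' g (hlor g hg)] using this
    have hvr := en_range (e := e) (y := blk e (linv g) 1 *ᵥ v) (by rw [key, hPv]) t
    have hwk := en_ker (e := e) (y := blk e (linv g) 1 *ᵥ w)
      (by rw [key, hPw, Matrix.mulVec_zero]) ht
    rw [hH, hH, hH0, hH0, hvr, one_mul, one_mul, mul_div_assoc,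
      div_self (en_pos (hne v hv)).ne', mul_one, ← Real.exp_add, neg_add_cancel, Real.exp_zero]
    exact div_le_one_of_le₀ hwk (en_nonneg _)

theorem rho0_trace (hG : Good Γ) (e : ℕ) {a : Γ} {g : M3} (hg : IsLor g) {L : ℝ}
    (h : mat a * g = g * flow L) (n : ℕ) : (rho0 hG e (a ^ n) : Md (3 + e)).trace =
      Complex.exp (L) ^ n + Complex.exp (-(L : ℂ)) ^ n + ((1 + e : ℕ) : ℂ) := by
  rw [rho0_coe, blk_trace, trace_form hg (mat_pow_frame h n), Matrix.trace_one, Fintype.card_fin]
  rw [← Complex.exp_nat_mul, ← Complex.exp_nat_mul]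
  push_cast
  rw [Complex.cosh]
  ring_nf

end Pool.Agent.J4.H97.Anosov
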