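import Pool.Agent.J4.H97.Anosov.Simple

/-!
Finiteness of outer automorphisms which send each simple element into finitely many classes.
-/

namespace Pool.Agent.J4.H97.Anosov

open Matrix Filter Topology

variable {Γ : Subgroup SL3}

theorem fixed_unique (hG : Good Γ) {b : Γ} (hb : b ≠ 1) {n m : V3} (hn : B n n = 1)
    (hm : B m m = 1) (hbn : mat b *ᵥ n = n) (hbm : mat b *ᵥ m = m) : m = n ∨ m = -n := by
  obtain ⟨g, t, hg, ht, hbg, hge⟩ := hG.frame_n hb hn hbn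
  set m' := linv g *ᵥ m with hm'
  have h1 : flow t *ᵥ m' = m' := by
    have h2 : mat b *ᵥ (g *ᵥ m') = g *ᵥ m' := by rw [hm', lin_lin hg, hbm]
    rw [Matrix.mulVec_mulVec, hbg, ← Matrix.mulVec_mulVec] at h2
    have h3 := congrArg (fun x => linv g *ᵥ x) h2
    simpa only [lin_lin' hg] using h3
  rw [flow_mulVec] at h1
  have h10 := congrFun h1 0
  have h12 := congrFun h1 2
  simp at h10 h12
  have hc : 1 < Real.cosh t := Real.one_lt_cosh.mpr ht.ne'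
  have hcs := Real.cosh_sq t
  have hs0 : 0 < Real.sinh t := Real.sinh_pos_iff.mpr ht
  -- (m0, m2) (cosh - 1, sinh; sinh, cosh - 1) = 0 with determinant 2 - 2 cosh
  have hdet : (Real.cosh t - 1) * (Real.cosh t - 1) - Real.sinh t * Real.sinh t =
      2 - 2 * Real.cosh t := by nlinarith
  have e0 : m' 0 * (2 - 2 * Real.cosh t) = 0 := by
    rw [← hdet]; linear_combination (Real.cosh t - 1) * h10 - (Real.sinh t) * h12
  have e2 : m' 2 * (2 - 2 * Real.cosh t) = 0 := by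
    rw [← hdet]; linear_combination (Real.cosh t - 1) * h12 - (Real.sinh t) * h10
  have hne : 2 - 2 * Real.cosh t ≠ 0 := by linarith
  have m0 : m' 0 = 0 := (mul_eq_zero.mp e0).resolve_right hne
  have m2 : m' 2 = 0 := (mul_eq_zero.mp e2).resolve_right hne
  have hmm : B m' m' = 1 := by rw [hm', hg.linv.B, hm]
  simp only [B, m0, m2] at hmm
  have hm1 : m' 1 = 1 ∨ m' 1 = -1 := sq_eq_one_iff_of_side (by nlinarith)
  have hmg : m = g *ᵥ m' := (lin_lin hg m).symm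
  rcases hm1 with h | h
  · have : m' = e1 := by ext i; fin_cases i <;> simp [e1, m0, m2, h]
    rw [hmg, this]
    rcases hge with h3 | h3
    · left; exact h3
    · right; exact h3
  · have : m' = -e1 := by ext i; fin_cases i <;> simp [e1, m0, m2, h]
    rw [hmg, this, Matrix.mulVec_neg]
    rcases hge with h3 | h3
    · right; rw [h3]
    · left; rw [h3, neg_neg]

/-- The crossing data of two elements. -/
theorem cross_data (hG : Good Γ) {a b : Γ} (ha : a ≠ 1) (hb : b ≠ 1) (h : CrossAlg a b) :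
    ∃ n m p, B n n = 1 ∧ B m m = 1 ∧ mat a *ᵥ n = n ∧ mat b *ᵥ m = m ∧ |B n m| < 1 ∧ Hyp p ∧
      B p n = 0 ∧ B p m = 0 := by
  obtain ⟨n, hn, han⟩ := hG.normal a ha
  obtain ⟨m, hm, hbm⟩ := hG.normal b hb
  have h1 := imp_cross hG ha hb hn hm han hbm h
  obtain ⟨p, hp, hpn, hpm⟩ := exists_meet hn hm h1
  exact ⟨n, m, p, hn, hm, han, hbm, h1, hp, hpn, hpm⟩

/-- Coordinates in a frame at the crossing point. -/
theorem cross_coords {n m p : V3} (hn : B n n = 1) (hm : B m m = 1) (hp : Hyp p)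
    (hpn : B p n = 0) (hpm : B p m = 0) (h : |B n m| < 1) (x : V3) :
    ∃ g, IsLor g ∧ g *ᵥ o = p ∧ (linv g *ᵥ n) 2 = 0 ∧ (linv g *ᵥ m) 2 = 0 ∧
      B x n = (linv g *ᵥ x) 0 * (linv g *ᵥ n) 0 + (linv g *ᵥ x) 1 * (linv g *ᵥ n) 1 ∧
      B x m = (linv g *ᵥ x) 0 * (linv g *ᵥ m) 0 + (linv g *ᵥ x) 1 * (linv g *ᵥ m) 1 ∧
      ((linv g *ᵥ n) 0 * (linv g *ᵥ m) 1 - (linv g *ᵥ n) 1 * (linv g *ᵥ m) 0) ^ 2 =
        1 - (B n m) ^ 2 ∧ (linv g *ᵥ n) 0 ^ 2 + (linv g *ᵥ n) 1 ^ 2 = 1 ∧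
      (linv g *ᵥ m) 0 ^ 2 + (linv g *ᵥ m) 1 ^ 2 = 1 ∧ 0 < 1 - (B n m) ^ 2 := by
  obtain ⟨g, hg, hgp⟩ := exists_frame_p hp
  have hn2 : (linv g *ᵥ n) 2 = 0 := by
    have h1 : B (linv g *ᵥ n) o = 0 := by rw [B_linv hg, hgp, B_comm, hpn]
    simpa [B, o] using h1
  have hm2 : (linv g *ᵥ m) 2 = 0 := by
    have h1 : B (linv g *ᵥ m) o = 0 := by rw [B_linv hg, hgp, B_comm, hpm]
    simpa [B, o] using h1
  have hnn : B (linv g *ᵥ n) (linv g *ᵥ n) = 1 := by rw [hg.linv.B, hn]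
  have hmm : B (linv g *ᵥ m) (linv g *ᵥ m) = 1 := by rw [hg.linv.B, hm]
  have hnm : B (linv g *ᵥ n) (linv g *ᵥ m) = B n m := by rw [hg.linv.B]
  have hxn : B (linv g *ᵥ x) (linv g *ᵥ n) = B x n := by rw [hg.linv.B]
  have hxm : B (linv g *ᵥ x) (linv g *ᵥ m) = B x m := by rw [hg.linv.B]
  simp only [B, hn2, hm2, mul_zero, sub_zero] at hnn hmm
  refine ⟨g, hg, hgp, hn2, hm2, ?_, ?_, ?_, by linarith, by linarith, ?_⟩
  · rw [← hxn]; simp only [B, hn2, mul_zero, sub_zero]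
  · rw [← hxm]; simp only [B, hm2, mul_zero, sub_zero]
  · rw [← hnm]
    simp only [B, hn2, hm2, mul_zero, sub_zero]
    linear_combination (linv g *ᵥ m) 0 ^ 2 * hnn + (linv g *ᵥ m) 1 ^ 2 * hnn + hmm
  · have := (sq_lt_one_iff_abs_lt_one (B n m)).mpr h
    linarith

/-- The crossing point is unique. -/
theorem cross_pt_unique {n m p q : V3} (hn : B n n = 1) (hm : B m m = 1) (hp : Hyp p)
    (hpn : B p n = 0) (hpm : B p m = 0) (h : |B n m| < 1) (hq : Hyp q) (hqn : B q n = 0)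
    (hqm : B q m = 0) : q = p := by
  obtain ⟨g, hg, hgp, hn2, hm2, e1, e2, e3, -, -, hpos⟩ := cross_coords hn hm hp hpn hpm h q
  rw [hqn] at e1
  rw [hqm] at e2
  set n' := linv g *ᵥ n
  set m' := linv g *ᵥ m
  set q' := linv g *ᵥ q with hq'
  have hD : n' 0 * m' 1 - n' 1 * m' 0 ≠ 0 := by
    intro h0; rw [h0] at e3; norm_num at e3; linarith
  have q0 : q' 0 = 0 := by
    have : q' 0 * (n' 0 * m' 1 - n' 1 * m' 0) = 0 := by
      linear_combination (-(m' 1)) * e1 + (n' 1) * e2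
    exact (mul_eq_zero.mp this).resolve_right hD
  have q1 : q' 1 = 0 := by
    have : q' 1 * (n' 0 * m' 1 - n' 1 * m' 0) = 0 := by
      linear_combination (m' 0) * e1 - (n' 0) * e2
    exact (mul_eq_zero.mp this).resolve_right hD
  have hq'H : Hyp q' := hg.linv.hyp hq
  obtain ⟨a1, a2⟩ := hq'H
  simp only [B, q0, q1] at a1
  have q2 : q' 2 = 1 := by nlinarith
  have : q' = o := by ext i; fin_cases i <;> simp [o, q0, q1, q2]
  rw [← hgp, ← this, hq', lin_lin hg]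

/-- The centraliser of a crossing pair is trivial. -/
theorem centralizer_trivial (hG : Good Γ) {a b u : Γ} (ha : a ≠ 1) (hb : b ≠ 1)
    (h : CrossAlg a b) (hua : u * a = a * u) (hub : u * b = b * u) : u = 1 := by
  obtain ⟨n, m, p, hn, hm, han, hbm, hc, hp, hpn, hpm⟩ := cross_data hG ha hb h
  have hu : ∀ (a : Γ) (n : V3), a ≠ 1 → u * a = a * u → B n n = 1 → mat a *ᵥ n = n →
      mat u *ᵥ n = n ∨ mat u *ᵥ n = -n := by
    intro a n ha hua hn han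
    refine fixed_unique hG ha hn ?_ han ?_
    · rw [(hG.lor u).B, hn]
    · rw [Matrix.mulVec_mulVec, ← mat_mul, ← hua, mat_mul, ← Matrix.mulVec_mulVec, han]
  have key : ∀ n : V3, B p n = 0 → (mat u *ᵥ n = n ∨ mat u *ᵥ n = -n) → B (mat u *ᵥ p) n = 0 := by
    intro n hpn h1
    rcases h1 with h1 | h1
    · nth_rewrite 1 [← h1]; rw [(hG.lor u).B, hpn]
    · have : n = - (mat u *ᵥ n) := by rw [h1, neg_neg]
      rw [this, B_neg_right, (hG.lor u).B, hpn, neg_zero]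
  have hup : mat u *ᵥ p = p := cross_pt_unique hn hm hp hpn hpm hc ((hG.lor u).hyp hp)
    (key n hpn (hu a n ha hua hn han)) (key m hpm (hu b m hb hub hm hbm))
  exact hG.noFix hp hup

theorem trace_conj_eq {a b : Γ} (h : IsConj a b) : (mat a).trace = (mat b).trace := by
  obtain ⟨c, hc⟩ := isConj_iff.mp h
  rw [← hc, mat_mul, mat_mul, Matrix.trace_mul_comm, ← mul_assoc, ← mat_mul]
  simp [mat_one]

theorem trace_bound {F : Set (ConjClasses Γ)} (hF : F.Finite) :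
    ∃ τ : ℝ, ∀ b : Γ, ConjClasses.mk b ∈ F → (mat b).trace ≤ τ := by
  obtain ⟨τ, hτ⟩ := (hF.image fun c : ConjClasses Γ => (mat (Quotient.out c)).trace).bddAbove
  refine ⟨τ, fun b hb => ?_⟩
  have h1 := hτ ⟨_, hb, rfl⟩
  have h2 : IsConj b (Quotient.out (ConjClasses.mk b)) := by
    rw [← ConjClasses.mk_eq_mk_iff_isConj]
    exact (Quotient.out_eq (ConjClasses.mk b)).symm
  rw [trace_conj_eq h2]
  exact h1

/-- An element with bounded displacement at a point near `o`. -/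
theorem small_of_disp (hG : Good Γ) (b : Γ) {p : V3} (hp : Hyp p) {c D : ℝ} (hpc : - B o p ≤ c)
    (hD : - B p (mat b *ᵥ p) ≤ D) : mat b 2 2 ≤ 4 * c * D * c := by
  rw [← B_o_mulVec (mat b)]
  have hb := hG.lor b
  have hbo := hb.hyp hyp_o
  have hbp := hb.hyp hp
  have t1 := tri hyp_o hp hbo
  have t2 := tri hp hbp hbo
  have e1 : B (mat b *ᵥ p) (mat b *ᵥ o) = B o p := by rw [hb.B, B_comm]
  rw [e1] at t2
  have l1 := B_le hyp_o hp
  have l2 := B_le hp hbp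
  have l3 := B_le hp hbo
  have p1 : B p (mat b *ᵥ p) * B o p ≤ D * c := by
    have : (- B p (mat b *ᵥ p)) * (- B o p) ≤ D * c := mul_le_mul hD hpc (by linarith) (by linarith)
    linarith
  have p2 : B o p * B p (mat b *ᵥ o) ≤ c * (2 * (D * c)) := by
    have : (- B o p) * (- B p (mat b *ᵥ o)) ≤ c * (2 * (D * c)) :=
      mul_le_mul hpc (by linarith) (by linarith) (by linarith)
    linarith
  linarith

/-- Finitely many pairs up to conjugation. -/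
theorem pairs_finite (hG : Good Γ) (τ : ℝ) : ∃ F : Set Γ, F.Finite ∧ ∀ a b : Γ, a ≠ 1 → b ≠ 1 →
    CrossAlg a b → (mat a).trace ≤ τ → (mat b).trace ≤ τ →
    ∃ γ : Γ, γ * a * γ⁻¹ ∈ F ∧ γ * b * γ⁻¹ ∈ F := by
  obtain ⟨C0, hC0⟩ := hG.cocpt
  refine ⟨{y : Γ | mat y 2 2 ≤ 4 * C0 * ((τ - 1) / 2) * C0}, hG.fin _, ?_⟩
  intro a b ha hb hab hta htb
  obtain ⟨n, m, p, hn, hm, han, hbm, hc, hp, hpn, hpm⟩ := cross_data hG ha hb hab
  obtain ⟨g, hg, hgp⟩ := exists_frame_p hp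
  obtain ⟨γ, hγ⟩ := hC0 g hg
  have hγp : - B o (mat γ *ᵥ p) ≤ C0 := by
    rw [← hgp, Matrix.mulVec_mulVec, B_o_mulVec]; exact hγ
  have hγpH : Hyp (mat γ *ᵥ p) := (hG.lor γ).hyp hp
  have key : ∀ (a : Γ) (n : V3), a ≠ 1 → B n n = 1 → mat a *ᵥ n = n → B p n = 0 →
      (mat a).trace ≤ τ → mat (γ * a * γ⁻¹) 2 2 ≤ 4 * C0 * ((τ - 1) / 2) * C0 := by
    intro a n ha hn han hpn hta
    refine small_of_disp hG _ hγpH hγp ?_
    have eq1 : mat (γ * a * γ⁻¹) *ᵥ (mat γ *ᵥ p) = mat γ *ᵥ (mat a *ᵥ p) := by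
      rw [mat_mul, mat_mul, hG.mat_inv, ← Matrix.mulVec_mulVec, ← Matrix.mulVec_mulVec,
        lin_lin' (hG.lor γ)]
    rw [eq1, (hG.lor γ).B]
    obtain ⟨h, t, hh, ht, hah, hhe⟩ := hG.frame_n ha hn han
    have h0 : B (h *ᵥ e1) p = 0 := by
      rcases hhe with h1 | h1
      · rw [h1, B_comm, hpn]
      · rw [h1, B_neg_left, B_comm, hpn, neg_zero]
    rw [displacement hh hah hp, h0]
    have := trace_form hh hah
    nlinarith
  exact ⟨γ, key a n ha hn han hpn hta, key b m hb hm hbm hpm htb⟩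

/-- Finitely many elements crossing both members of a crossing pair. -/
theorem third_finite (hG : Good Γ) (τ : ℝ) {a b : Γ} (ha : a ≠ 1) (hb : b ≠ 1)
    (hab : CrossAlg a b) : {y : Γ | y ≠ 1 ∧ CrossAlg a y ∧ CrossAlg b y ∧
      (mat y).trace ≤ τ}.Finite := by
  obtain ⟨n, m, p, hn, hm, han, hbm, hc, hp, hpn, hpm⟩ := cross_data hG ha hb hab
  set q := 1 - (B n m) ^ 2 with hq
  refine (hG.fin (4 * (- B o p) * ((1 + 4 / q) * ((|τ| + 1) / 2)) * (- B o p))).subset ?_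
  rintro y ⟨hy, hay, hby, hty⟩
  obtain ⟨x, hx, hyx⟩ := hG.normal y hy
  have c1 := imp_cross hG ha hy hn hx han hyx hay
  have c2 := imp_cross hG hb hy hm hx hbm hyx hby
  obtain ⟨g, hg, hgp, hn2, hm2, eq1, eq2, eq3, hnn, hmm, hpos⟩ := cross_coords hn hm hp hpn hpm hc x
  rw [B_comm] at c1 c2
  have hxp : B x p = - (linv g *ᵥ x) 2 := by
    rw [← hgp, ← B_linv hg]; simp [B, o]
  have hxx : B (linv g *ᵥ x) (linv g *ᵥ x) = 1 := by rw [hg.linv.B, hx]
  rw [← hq] at eq3 hpos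
  set x' := linv g *ᵥ x
  set n' := linv g *ᵥ n
  set m' := linv g *ᵥ m
  have hx2 : (B x p) ^ 2 ≤ 4 / q := by
    rw [hxp, neg_sq, le_div_iff₀ hpos]
    have k1 : (x' 0 ^ 2 + x' 1 ^ 2) * q ≤ 4 := by
      have s1 := (sq_lt_one_iff_abs_lt_one _).mpr c1
      have s2 := (sq_lt_one_iff_abs_lt_one _).mpr c2
      have id0 : x' 0 * (n' 0 * m' 1 - n' 1 * m' 0) = (B x n) * m' 1 - (B x m) * n' 1 := by
        rw [eq1, eq2]; ring
      have id1 : x' 1 * (n' 0 * m' 1 - n' 1 * m' 0) = (B x m) * n' 0 - (B x n) * m' 0 := by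
        rw [eq1, eq2]; ring
      have id2 : (x' 0 ^ 2 + x' 1 ^ 2) * q =
          ((B x n) * m' 1 - (B x m) * n' 1) ^ 2 + ((B x m) * n' 0 - (B x n) * m' 0) ^ 2 := by
        rw [← eq3, ← id0, ← id1]; ring
      rw [id2]
      have j1 : ((B x n) * m' 1 - (B x m) * n' 1) ^ 2 ≤ 2 * ((B x n) * m' 1) ^ 2 +
          2 * ((B x m) * n' 1) ^ 2 := by nlinarith [sq_nonneg ((B x n) * m' 1 + (B x m) * n' 1)]
      have j2 : ((B x m) * n' 0 - (B x n) * m' 0) ^ 2 ≤ 2 * ((B x m) * n' 0) ^ 2 +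
          2 * ((B x n) * m' 0) ^ 2 := by nlinarith [sq_nonneg ((B x m) * n' 0 + (B x n) * m' 0)]
      have j3 : ((B x n) * m' 1) ^ 2 + ((B x n) * m' 0) ^ 2 = (B x n) ^ 2 := by
        linear_combination (B x n) ^ 2 * hmm
      have j4 : ((B x m) * n' 1) ^ 2 + ((B x m) * n' 0) ^ 2 = (B x m) ^ 2 := by
        linear_combination (B x m) ^ 2 * hnn
      linarith
    simp only [B] at hxx
    nlinarith
  refine small_of_disp hG y hp le_rfl ?_
  obtain ⟨h, t, hh, ht, hyh, hhe⟩ := hG.frame_n hy hx hyx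
  have h0 : (B (h *ᵥ e1) p) ^ 2 = (B x p) ^ 2 := by
    rcases hhe with h1 | h1
    · rw [h1]
    · rw [h1, B_neg_left, neg_sq]
  rw [displacement hh hyh hp, h0]
  have htr := trace_form hh hyh
  have hch : 1 ≤ Real.cosh t := Real.one_le_cosh t
  have hτ := le_abs_self τ
  have l1 : Real.cosh t ≤ (|τ| + 1) / 2 := by linarith
  have l2 : (1 + (B x p) ^ 2) * Real.cosh t ≤ (1 + 4 / q) * ((|τ| + 1) / 2) :=
    mul_le_mul (by linarith) l1 (by linarith) (by positivity)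
  nlinarith [sq_nonneg (B x p)]

/-- Elements whose images are determined up to finitely many choices. -/
inductive Reach (x1 x2 : Γ) : Γ → Prop
  | base1 : Reach x1 x2 x1
  | base2 : Reach x1 x2 x2
  | inv {a : Γ} : Reach x1 x2 a → Reach x1 x2 a⁻¹
  | step {a b y : Γ} : Reach x1 x2 a → Reach x1 x2 b → a ≠ 1 → b ≠ 1 → CrossAlg a b →
      SimpleElt y → CrossAlg a y → CrossAlg b y → Reach x1 x2 y

theorem out_finite (hG : Good Γ) (S : Finset Γ) (hS : Subgroup.closure (S : Set Γ) = ⊤)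
    {x1 x2 : Γ} (h1 : SimpleElt x1) (h2 : SimpleElt x2) (h12 : CrossAlg x1 x2)
    (hreach1 : ∀ s ∈ S, Reach x1 x2 (s * x1 * s⁻¹)) (hreach2 : ∀ s ∈ S, Reach x1 x2 (s * x2 * s⁻¹))
    (F : Γ → Set (ConjClasses Γ)) (hF : ∀ a, SimpleElt a → (F a).Finite) :
    {c : OutGrp Γ | ∃ φ : MulAut Γ, (φ : OutGrp Γ) = c ∧
      ∀ a, SimpleElt a → ConjClasses.mk (φ a) ∈ F a}.Finite := by
  classical
  obtain ⟨τ1, hτ1⟩ := trace_bound (hF x1 h1)
  obtain ⟨τ2, hτ2⟩ := trace_bound (hF x2 h2)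
  obtain ⟨Fp, hFp, hFp'⟩ := pairs_finite hG (max τ1 τ2)
  let Φ : Set (MulAut Γ) := {φ | (∀ a, SimpleElt a → ConjClasses.mk (φ a) ∈ F a) ∧
    φ x1 ∈ Fp ∧ φ x2 ∈ Fp}
  have hne : ∀ (φ : MulAut Γ) {a : Γ}, a ≠ 1 → φ a ≠ 1 := by
    intro φ a ha h
    exact ha (by simpa using h)
  -- finitely many values on reachable elements
  have hD : ∀ y, Reach x1 x2 y → {z : Γ | ∃ φ ∈ Φ, φ y = z}.Finite := by
    intro y hy
    induction hy with
    | base1 => exact hFp.subset (by rintro _ ⟨φ, hφ, rfl⟩; exact hφ.2.1)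
    | base2 => exact hFp.subset (by rintro _ ⟨φ, hφ, rfl⟩; exact hφ.2.2)
    | @inv a _ ih =>
      refine (ih.image fun z => z⁻¹).subset ?_
      rintro _ ⟨φ, hφ, rfl⟩
      exact ⟨φ a, ⟨φ, hφ, rfl⟩, by simp⟩
    | @step a b y _ _ ha hb hab hy hay hby iha ihb =>
      obtain ⟨τ, hτ⟩ := trace_bound (hF y hy)
      have hfin : (⋃ p ∈ ({z : Γ | ∃ φ ∈ Φ, φ a = z} ×ˢ {z : Γ | ∃ φ ∈ Φ, φ b = z}),
          {y : Γ | (p.1 ≠ 1 ∧ p.2 ≠ 1 ∧ CrossAlg p.1 p.2) ∧ y ≠ 1 ∧ CrossAlg p.1 y ∧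
            CrossAlg p.2 y ∧ (mat y).trace ≤ τ}).Finite := by
        refine (iha.prod ihb).biUnion fun p _ => ?_
        by_cases hp : p.1 ≠ 1 ∧ p.2 ≠ 1 ∧ CrossAlg p.1 p.2
        · refine (third_finite hG τ hp.1 hp.2.1 hp.2.2).subset ?_
          rintro y ⟨-, hy⟩
          exact hy
        · refine Set.finite_empty.subset ?_
          rintro y ⟨hy, -⟩
          exact hp hy
      refine hfin.subset ?_
      rintro _ ⟨φ, hφ, rfl⟩
      refine Set.mem_biUnion (x := (φ a, φ b)) ⟨⟨φ, hφ, rfl⟩, ⟨φ, hφ, rfl⟩⟩ ?_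
      exact ⟨⟨hne φ ha, hne φ hb, hab.map φ⟩, hne φ hy.1, hay.map φ, hby.map φ,
        hτ _ (hφ.1 y hy)⟩
  -- `Φ` is finite
  let E : Finset Γ := {x1, x2} ∪ S.image (fun s => s * x1 * s⁻¹) ∪ S.image (fun s => s * x2 * s⁻¹)
  have hEr : ∀ e ∈ E, Reach x1 x2 e := by
    intro e he
    simp only [E, Finset.mem_union, Finset.mem_insert, Finset.mem_singleton,
      Finset.mem_image] at he
    rcases he with ((h | h) | ⟨s, hs, rfl⟩) | ⟨s, hs, rfl⟩
    · rw [h]; exact Reach.base1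
    · rw [h]; exact Reach.base2
    · exact hreach1 s hs
    · exact hreach2 s hs
  let ev : MulAut Γ → (E → Γ) := fun φ e => φ e
  have hΦ : Φ.Finite := by
    refine Set.Finite.of_finite_image (f := ev) ?_ ?_
    · refine (Set.Finite.pi' (t := fun e : E => {z : Γ | ∃ φ ∈ Φ, φ e = z})
        (fun e => hD e (hEr e e.2))).subset ?_
      rintro _ ⟨φ, hφ, rfl⟩ e
      exact ⟨φ, hφ, rfl⟩
    · intro φ hφ ψ hψ hev
      have hval : ∀ e ∈ E, φ e = ψ e := fun e he => congrFun hev ⟨e, he⟩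
      have hx1 : φ x1 = ψ x1 := hval x1 (by simp [E])
      have hx2 : φ x2 = ψ x2 := hval x2 (by simp [E])
      have hgen : ∀ s ∈ S, φ s = ψ s := by
        intro s hs
        have hs1 : φ (s * x1 * s⁻¹) = ψ (s * x1 * s⁻¹) := hval _ (by
          simp only [E, Finset.mem_union, Finset.mem_image]
          exact Or.inl (Or.inr ⟨s, hs, rfl⟩))
        have hs2 : φ (s * x2 * s⁻¹) = ψ (s * x2 * s⁻¹) := hval _ (by
          simp only [E, Finset.mem_union, Finset.mem_image]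
          exact Or.inr ⟨s, hs, rfl⟩)
        simp only [map_mul, map_inv] at hs1 hs2
        rw [← hx1] at hs1
        rw [← hx2] at hs2
        have hu : (ψ s)⁻¹ * φ s = 1 := by
          refine centralizer_trivial hG (hne φ h1.1) (hne φ h2.1) (h12.map φ) ?_ ?_
          · calc (ψ s)⁻¹ * φ s * φ x1 = (ψ s)⁻¹ * (φ s * φ x1 * (φ s)⁻¹) * φ s := by group
              _ = (ψ s)⁻¹ * (ψ s * φ x1 * (ψ s)⁻¹) * φ s := by rw [hs1]
              _ = φ x1 * ((ψ s)⁻¹ * φ s) := by group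
          · calc (ψ s)⁻¹ * φ s * φ x2 = (ψ s)⁻¹ * (φ s * φ x2 * (φ s)⁻¹) * φ s := by group
              _ = (ψ s)⁻¹ * (ψ s * φ x2 * (ψ s)⁻¹) * φ s := by rw [hs2]
              _ = φ x2 * ((ψ s)⁻¹ * φ s) := by group
        exact (inv_mul_eq_one.mp hu).symm
      have hhom : (φ.toMonoidHom) = (ψ.toMonoidHom) := by
        refine MonoidHom.eq_of_eqOn_dense hS ?_
        intro s hs
        exact hgen s hs
      exact MulEquiv.toMonoidHom_injective hhom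
  refine (hΦ.image (fun φ : MulAut Γ => (QuotientGroup.mk φ : OutGrp Γ))).subset ?_
  rintro _ ⟨φ, rfl, hφ⟩
  obtain ⟨γ, hγ1, hγ2⟩ := hFp' (φ x1) (φ x2) (hne φ h1.1) (hne φ h2.1) (h12.map φ)
    ((hτ1 _ (hφ x1 h1)).trans (le_max_left _ _)) ((hτ2 _ (hφ x2 h2)).trans (le_max_right _ _))
  refine ⟨MulAut.conj γ * φ, ⟨fun a ha => ?_, ?_, ?_⟩, ?_⟩
  · have : ConjClasses.mk ((MulAut.conj γ * φ) a) = ConjClasses.mk (φ a) := by
      rw [ConjClasses.mk_eq_mk_iff_isConj]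
      refine (isConj_iff.mpr ⟨γ, ?_⟩).symm
      rw [MulAut.mul_apply, MulAut.conj_apply]
    rw [this]; exact hφ a ha
  · rw [MulAut.mul_apply, MulAut.conj_apply]; exact hγ1
  · rw [MulAut.mul_apply, MulAut.conj_apply]; exact hγ2
  · change ((MulAut.conj γ * φ : MulAut Γ) : OutGrp Γ) = (φ : OutGrp Γ)
    rw [eq_comm, QuotientGroup.eq]
    refine ⟨φ⁻¹ γ, ?_⟩
    ext x
    simp [MulAut.mul_apply, MulAut.conj_apply, mul_assoc]

end Pool.Agent.J4.H97.Anosov
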