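import Pool.Agent.J4.H97.Anosov.Omega
import Pool.Agent.J4.H97.Anosov.OutFin

/-!
Proper discontinuity on `Om`.
-/

namespace Pool.Agent.J4.H97.Anosov

open Matrix Filter Topology Polynomial

variable {Γ : Subgroup SL3}

theorem SmallGap.mono {χ : Γ → ℂ} {d : ℕ} {a : Γ} {R R' : ℝ} (h : SmallGap χ d a R)
    (hR : R ≤ R') : SmallGap χ d a R' := by
  obtain ⟨ρ, hρ, h2⟩ := h
  exact ⟨ρ, hρ, fun μ ν v w hv hw h3 h4 =>
    (h2 μ ν v w hv hw h3 h4).trans (mul_le_mul_of_nonneg_right hR (norm_nonneg _))⟩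

open scoped Matrix.Norms.Operator in
/-- The eigenvalue ratio is bounded by operator norms. -/
theorem ratio_le {d : ℕ} (ρ : Γ →* SLd d) (a : Γ) {N : ℝ} (h1 : ‖(ρ a : Md d)‖ ≤ N)
    (h2 : ‖(ρ a⁻¹ : Md d)‖ ≤ N) {μ ν : ℂ} {v w : Fin d → ℂ} (hv : v ≠ 0) (hw : w ≠ 0)
    (hμ : (ρ a : Md d) *ᵥ v = μ • v) (hν : (ρ a : Md d) *ᵥ w = ν • w) :
    ‖μ‖ ≤ (N * N) * ‖ν‖ := by
  have hN : 0 ≤ N := (norm_nonneg _).trans h1
  have hv' : 0 < ‖v‖ := norm_pos_iff.mpr hv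
  have hw' : 0 < ‖w‖ := norm_pos_iff.mpr hw
  have e1 : ‖μ‖ ≤ N := by
    have h3 := mulVec_le (ρ a : Md d) v
    rw [hμ, norm_smul] at h3
    have h4 : ‖μ‖ * ‖v‖ ≤ N * ‖v‖ := h3.trans (mul_le_mul_of_nonneg_right h1 hv'.le)
    exact le_of_mul_le_mul_right h4 hv'
  have e2 : 1 ≤ N * ‖ν‖ := by
    have h3 : (ρ a⁻¹ : Md d) *ᵥ ((ρ a : Md d) *ᵥ w) = w := by
      rw [Matrix.mulVec_mulVec, rep_inv_mul, Matrix.one_mulVec]
    have h4 := mulVec_le (ρ a⁻¹ : Md d) ((ρ a : Md d) *ᵥ w)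
    rw [h3, hν, norm_smul] at h4
    have h5 : 1 * ‖w‖ ≤ (N * ‖ν‖) * ‖w‖ := by
      calc 1 * ‖w‖ = ‖w‖ := one_mul _
        _ ≤ ‖(ρ a⁻¹ : Md d)‖ * (‖ν‖ * ‖w‖) := h4
        _ ≤ N * (‖ν‖ * ‖w‖) := mul_le_mul_of_nonneg_right h2 (by positivity)
        _ = _ := by ring
    exact le_of_mul_le_mul_right h5 hw'
  calc ‖μ‖ ≤ N * 1 := by rw [mul_one]; exact e1
    _ ≤ N * (N * ‖ν‖) := mul_le_mul_of_nonneg_left e2 hN
    _ = _ := by ring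

open scoped Matrix.Norms.Operator in
theorem norm_lim_bdd {d : ℕ} {α : Type*} {𝒰 : Filter α} {f : α → Md d} {X : Md d}
    (h : Tendsto f 𝒰 (𝓝 X)) : ∀ᶠ n in 𝒰, ‖f n‖ ≤ ‖X‖ + 1 := by
  filter_upwards [norm_lim h one_pos] with n hn
  have := norm_sub_norm_le (f n) X
  linarith

open scoped Matrix.Norms.Operator in
/-- On compact sets of characters the gap of a fixed element is bounded. -/
theorem gap_bdd (S : Finset Γ) (hS : Subgroup.closure (S : Set Γ) = ⊤) {d : ℕ}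
    {K : Set (Γ → ℂ)} (hKc : IsCompact K) (hK : K ⊆ CharVar Γ d) (a : Γ) :
    ∃ R : ℝ, ∀ χ ∈ K, SmallGap χ d a R := by
  by_contra hcon
  push Not at hcon
  have hseq : ∀ n : ℕ, ∃ χ ∈ K, ¬ SmallGap χ d a (n : ℝ) := fun n => hcon n
  choose χ hχK hχ using hseq
  let 𝒰 : Ultrafilter ℕ := Filter.hyperfilter ℕ
  obtain ⟨χ₀, hχ₀, hlim⟩ := hKc.ultrafilter_le_nhds' (𝒰.map χ) (by
    rw [Ultrafilter.mem_map]
    exact Filter.Eventually.of_forall hχK)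
  have hlim' : Tendsto χ (𝒰 : Filter ℕ) (𝓝 χ₀) := hlim
  have hρ : ∀ n, ∃ ρ : Γ →* SLd d, character ρ = χ n := fun n => hK (hχK n)
  choose ρ hρ using hρ
  have hmin : ∀ n, ∃ r : Γ →* SLd d, (∀ γ, (r γ : Md d).trace = (ρ n γ : Md d).trace) ∧
      MinT S (mrep r) := fun n => exists_min S hS (ρ n)
  choose r hr hrmin using hmin
  have hl : ∀ γ, Tendsto (fun n => (r n γ : Md d).trace) (𝒰 : Filter ℕ) (𝓝 (χ₀ γ)) := by
    intro γ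
    have h1 := (tendsto_pi_nhds.mp hlim') γ
    refine h1.congr fun n => ?_
    rw [hr n γ, ← hρ n]; rfl
  obtain ⟨ρ₁, hρ₁, -, -⟩ := kn_limit 𝒰 S hS r hrmin χ₀ hl
  set N : ℝ := max (‖(ρ₁ a : Md d)‖ + 1) (‖(ρ₁ a⁻¹ : Md d)‖ + 1) with hN
  obtain ⟨m, hm⟩ := exists_nat_ge (N * N)
  have hlarge : ∀ᶠ n : ℕ in (𝒰 : Filter ℕ), m ≤ n :=
    Nat.hyperfilter_le_atTop (eventually_ge_atTop m)
  obtain ⟨n, ⟨h1, h2⟩, h3⟩ := (((norm_lim_bdd (hρ₁ a)).and (norm_lim_bdd (hρ₁ a⁻¹))).and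
    hlarge).exists
  apply hχ n
  refine SmallGap.mono (R := N * N) ?_ (hm.trans (by exact_mod_cast h3))
  refine ⟨r n, ?_, fun μ ν v w hv hw hμ hν => ?_⟩
  · rw [← hρ n]; funext γ; exact hr n γ
  · exact ratio_le (r n) a (h1.trans (le_max_left _ _)) (h2.trans (le_max_right _ _)) hv hw hμ hν

theorem om_proper (hG : Good Γ) (S : Finset Γ) (hS : Subgroup.closure (S : Set Γ) = ⊤)
    {x1 x2 : Γ} (h1 : SimpleElt x1) (h2 : SimpleElt x2) (h12 : CrossAlg x1 x2)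
    (hreach1 : ∀ s ∈ S, Reach x1 x2 (s * x1 * s⁻¹)) (hreach2 : ∀ s ∈ S, Reach x1 x2 (s * x2 * s⁻¹))
    {d : ℕ} (K : Set (Γ → ℂ)) (hK : K ⊆ Om Γ d) (hKc : IsCompact K) :
    {c : OutGrp Γ | ∃ φ : MulAut Γ, (φ : OutGrp Γ) = c ∧ (modAct φ '' K ∩ K).Nonempty}.Finite := by
  -- uniform finiteness on `K`
  have hcover : ∀ R : ℝ, {c : ConjClasses Γ | ∃ a : Γ, ConjClasses.mk a = c ∧ SimpleElt a ∧
      ∃ χ ∈ K, SmallGap χ d a R}.Finite := by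
    intro R
    have hc : ∀ χ ∈ K, ∃ U : Set (Γ → ℂ), GoodNbhd d U ∧ χ ∈ U := fun χ hχ => (hK hχ).2
    choose! U hU hχU using hc
    obtain ⟨t, ht, htK⟩ := hKc.elim_nhds_subcover U (fun χ hχ => (hU χ hχ).1.mem_nhds (hχU χ hχ))
    refine ((t.finite_toSet).biUnion (t := fun χ => {c : ConjClasses Γ | ∃ a : Γ,
      ConjClasses.mk a = c ∧ SimpleElt a ∧ ∃ χ' ∈ U χ, SmallGap χ' d a R})
      (fun χ hχ => (hU χ (ht χ hχ)).2 R)).subset ?_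
    rintro c ⟨a, hac, ha, χ, hχ, hgap⟩
    obtain ⟨χ', hχ', hχU'⟩ := Set.mem_iUnion₂.mp (htK hχ)
    exact Set.mem_biUnion (x := χ') hχ' ⟨a, hac, ha, χ, hχU', hgap⟩
  have hbdd : ∀ a : Γ, ∃ R : ℝ, ∀ χ ∈ K, SmallGap χ d a R := fun a =>
    gap_bdd S hS hKc (hK.trans (om_subset d)) a
  choose R hR using hbdd
  refine (out_finite hG S hS h1 h2 h12 hreach1 hreach2 (fun a => {c : ConjClasses Γ | ∃ b : Γ,
    ConjClasses.mk b = c ∧ SimpleElt b ∧ ∃ χ ∈ K, SmallGap χ d b (R a)})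
    (fun a _ => hcover (R a))).subset ?_
  rintro c ⟨φ, hφ, χ', ⟨χ, hχ, rfl⟩, hχ'⟩
  refine ⟨φ, hφ, fun a ha => ⟨φ a, rfl, ha.map φ, modAct φ χ, hχ', ?_⟩⟩
  have h3 := (hR a χ hχ).map φ⁻¹
  rw [inv_inv] at h3
  exact h3

theorem om_domain (hG : Good Γ) (S : Finset Γ) (hS : Subgroup.closure (S : Set Γ) = ⊤)
    {x1 x2 : Γ} (h1 : SimpleElt x1) (h2 : SimpleElt x2) (h12 : CrossAlg x1 x2)
    (hreach1 : ∀ s ∈ S, Reach x1 x2 (s * x1 * s⁻¹)) (hreach2 : ∀ s ∈ S, Reach x1 x2 (s * x2 * s⁻¹))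
    (d : ℕ) : IsDomainOfDiscontinuity Γ d (Om Γ d) :=
  ⟨om_subset d, om_open d, fun φ _ hχ => om_inv d φ hχ,
    fun K hK hKc => om_proper hG S hS h1 h2 h12 hreach1 hreach2 K hK hKc⟩

end Pool.Agent.J4.H97.Anosov
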