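import Pool.Agent.J4.H97.Anosov.Walls

/-!
Reachability of all wall elements, and simple elements of the congruence subgroup.
-/

namespace Pool.Agent.J4.H97.Anosov

open Matrix Filter Topology

theorem refl1 (y : V3) : cj ((s1 : MZˣ) : MZ) *ᵥ y = y - (2 * B y (em v1) / fz v1 v1) • em v1 := by
  have hf : fz v1 v1 = 2 := by decide
  have h3 := s3pos.ne'
  change cj R1 *ᵥ y = _
  rw [hf]
  ext i
  fin_cases i
  · simp [Matrix.mulVec, dotProduct, Fin.sum_univ_three, cj_apply, sc, R1, em, v1, B]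
  · simp [Matrix.mulVec, dotProduct, Fin.sum_univ_three, cj_apply, sc, R1, em, v1, B]
  · simp [Matrix.mulVec, dotProduct, Fin.sum_univ_three, cj_apply, sc, R1, em, v1, B]
    try field_simp

theorem refl2 (y : V3) : cj ((s2 : MZˣ) : MZ) *ᵥ y = y - (2 * B y (em v2) / fz v2 v2) • em v2 := by
  have hf : fz v2 v2 = 1 := by decide
  have h3 := s3pos.ne'
  change cj R2 *ᵥ y = _
  rw [hf]
  ext i
  fin_cases i
  · simp [Matrix.mulVec, dotProduct, Fin.sum_univ_three, cj_apply, sc, R2, em, v2, B]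
  · simp [Matrix.mulVec, dotProduct, Fin.sum_univ_three, cj_apply, sc, R2, em, v2, B]
    try ring
  · simp [Matrix.mulVec, dotProduct, Fin.sum_univ_three, cj_apply, sc, R2, em, v2, B]
    try field_simp

theorem refl3 (y : V3) : cj ((s3 : MZˣ) : MZ) *ᵥ y = y - (2 * B y (em v3) / fz v3 v3) • em v3 := by
  have hf : fz v3 v3 = 6 := by decide
  have h3 := s3pos.ne'
  have hs := s3sq
  change cj R3 *ᵥ y = _
  rw [hf]
  ext i
  fin_cases i
  · simp [Matrix.mulVec, dotProduct, Fin.sum_univ_three, cj_apply, sc, R3, em, v3, B]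
    field_simp
    nlinarith
  · simp [Matrix.mulVec, dotProduct, Fin.sum_univ_three, cj_apply, sc, R3, em, v3, B]
  · simp [Matrix.mulVec, dotProduct, Fin.sum_univ_three, cj_apply, sc, R3, em, v3, B]
    field_simp
    linear_combination (-2 * y 2) * hs

theorem ne_one_of_wz {a : ↥Gam} {X : MZ} (h : wz a = X) (hX : X ≠ 1) : a ≠ 1 := by
  intro h1
  rw [h1, wz_one] at h
  exact hX h.symm

theorem x1_ne : x1 ≠ 1 := ne_one_of_wz wz_x1 (by decide)
theorem x2_ne : x2 ≠ 1 := ne_one_of_wz wz_x2 (by decide)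
theorem x3_ne : x3 ≠ 1 := ne_one_of_wz wz_x3 (by decide)

theorem x1_fix : wz x1 *ᵥ v1 = v1 := by rw [wz_x1]; decide
theorem x2_fix : wz x2 *ᵥ v2 = v2 := by rw [wz_x2]; decide
theorem x3_fix : wz x3 *ᵥ v3 = v3 := by rw [wz_x3]; decide

theorem x1_simple : SimpleElt x1 := wall_simple s1 v1 (by decide) refl1 x1_ne x1_fix
theorem x2_simple : SimpleElt x2 := wall_simple s2 v2 (by decide) refl2 x2_ne x2_fix
theorem x3_simple : SimpleElt x3 := wall_simple s3 v3 (by decide) refl3 x3_ne x3_fix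

theorem c12 : CrossAlg x1 x2 := cross_z x1_ne x2_ne v1 v2 (by decide) (by decide) x1_fix x2_fix
  (by decide)
theorem c21 : CrossAlg x2 x1 := cross_z x2_ne x1_ne v2 v1 (by decide) (by decide) x2_fix x1_fix
  (by decide)
theorem c13 : CrossAlg x1 x3 := cross_z x1_ne x3_ne v1 v3 (by decide) (by decide) x1_fix x3_fix
  (by decide)
theorem c31 : CrossAlg x3 x1 := cross_z x3_ne x1_ne v3 v1 (by decide) (by decide) x3_fix x1_fix
  (by decide)
theorem c23 : CrossAlg x2 x3 := cross_z x2_ne x3_ne v2 v3 (by decide) (by decide) x2_fix x3_fix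
  (by decide)

theorem act11 : act s1 x1 = x1 := wz_inj (by rw [wz_act1, wz_x1]; decide)
theorem act22 : act s2 x2 = x2 := wz_inj (by rw [wz_act2, wz_x2]; decide)
theorem act33 : act s3 x3 = x3 := wz_inj (by rw [wz_act3, wz_x3]; decide)

theorem act23 : act s2 x3 = x3⁻¹ := by
  rw [eq_inv_iff_mul_eq_one]
  exact wz_inj (by rw [wz_mul, wz_act2, wz_x3, wz_one]; decide)
theorem act32 : act s3 x2 = x2⁻¹ := by
  rw [eq_inv_iff_mul_eq_one]
  exact wz_inj (by rw [wz_mul, wz_act3, wz_x2, wz_one]; decide)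

theorem act_ne {a : ↥Gam} (φ : MulAut ↥Gam) (h : a ≠ 1) : φ a ≠ 1 := fun hc => h (by simpa using hc)

/-- Data of the four nontrivial moves. -/
theorem mv12 : CrossAlg x1 (act s2 x1) ∧ CrossAlg x2 (act s2 x1) := by
  have h : wz (act s2 x1) *ᵥ (R2 *ᵥ v1) = R2 *ᵥ v1 := by rw [wz_act2, wz_x1]; decide
  exact ⟨cross_z x1_ne (act_ne _ x1_ne) v1 _ (by decide) (by decide) x1_fix h (by decide),
    cross_z x2_ne (act_ne _ x1_ne) v2 _ (by decide) (by decide) x2_fix h (by decide)⟩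

theorem mv21 : CrossAlg x2 (act s1 x2) ∧ CrossAlg x1 (act s1 x2) := by
  have h : wz (act s1 x2) *ᵥ (R1 *ᵥ v2) = R1 *ᵥ v2 := by rw [wz_act1, wz_x2]; decide
  exact ⟨cross_z x2_ne (act_ne _ x2_ne) v2 _ (by decide) (by decide) x2_fix h (by decide),
    cross_z x1_ne (act_ne _ x2_ne) v1 _ (by decide) (by decide) x1_fix h (by decide)⟩

theorem mv13 : CrossAlg x1 (act s3 x1) ∧ CrossAlg x3 (act s3 x1) := by
  have h : wz (act s3 x1) *ᵥ (R3 *ᵥ v1) = R3 *ᵥ v1 := by rw [wz_act3, wz_x1]; decide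
  exact ⟨cross_z x1_ne (act_ne _ x1_ne) v1 _ (by decide) (by decide) x1_fix h (by decide),
    cross_z x3_ne (act_ne _ x1_ne) v3 _ (by decide) (by decide) x3_fix h (by decide)⟩

theorem mv31 : CrossAlg x3 (act s1 x3) ∧ CrossAlg x1 (act s1 x3) := by
  have h : wz (act s1 x3) *ᵥ (R1 *ᵥ v3) = R1 *ᵥ v3 := by rw [wz_act1, wz_x3]; decide
  exact ⟨cross_z x3_ne (act_ne _ x3_ne) v3 _ (by decide) (by decide) x3_fix h (by decide),
    cross_z x1_ne (act_ne _ x3_ne) v1 _ (by decide) (by decide) x1_fix h (by decide)⟩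

/-- All three wall elements of a chamber are reachable. -/
def RR (φ : MulAut ↥Gam) : Prop := Reach x1 x2 (φ x1) ∧ Reach x1 x2 (φ x2) ∧ Reach x1 x2 (φ x3)

theorem rr_one : RR 1 := by
  refine ⟨Reach.base1, Reach.base2, ?_⟩
  exact Reach.step Reach.base1 Reach.base2 x1_ne x2_ne c12 x3_simple c13 c23

theorem rr_step1 {φ : MulAut ↥Gam} (h : RR φ) : RR (φ * act s1) := by
  obtain ⟨h1, h2, h3⟩ := h
  refine ⟨?_, ?_, ?_⟩
  · rw [MulAut.mul_apply, act11]; exact h1
  · rw [MulAut.mul_apply]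
    exact Reach.step h2 h1 (act_ne _ x2_ne) (act_ne _ x1_ne) (c21.map φ)
      ((x2_simple.map (act s1)).map φ) (mv21.1.map φ) (mv21.2.map φ)
  · rw [MulAut.mul_apply]
    exact Reach.step h3 h1 (act_ne _ x3_ne) (act_ne _ x1_ne) (c31.map φ)
      ((x3_simple.map (act s1)).map φ) (mv31.1.map φ) (mv31.2.map φ)

theorem rr_step2 {φ : MulAut ↥Gam} (h : RR φ) : RR (φ * act s2) := by
  obtain ⟨h1, h2, h3⟩ := h
  refine ⟨?_, ?_, ?_⟩
  · rw [MulAut.mul_apply]
    exact Reach.step h1 h2 (act_ne _ x1_ne) (act_ne _ x2_ne) (c12.map φ)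
      ((x1_simple.map (act s2)).map φ) (mv12.1.map φ) (mv12.2.map φ)
  · rw [MulAut.mul_apply, act22]; exact h2
  · rw [MulAut.mul_apply, act23, map_inv]; exact Reach.inv h3

theorem rr_step3 {φ : MulAut ↥Gam} (h : RR φ) : RR (φ * act s3) := by
  obtain ⟨h1, h2, h3⟩ := h
  refine ⟨?_, ?_, ?_⟩
  · rw [MulAut.mul_apply]
    exact Reach.step h1 h3 (act_ne _ x1_ne) (act_ne _ x3_ne) (c13.map φ)
      ((x1_simple.map (act s3)).map φ) (mv13.1.map φ) (mv13.2.map φ)
  · rw [MulAut.mul_apply, act32, map_inv]; exact Reach.inv h2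
  · rw [MulAut.mul_apply, act33]; exact h3

theorem rr_all (w : MZˣ) (hw : w ∈ W) : RR (act ⟨w, hw⟩) := by
  unfold W at hw
  induction hw using Subgroup.closure_induction_right with
  | one =>
    have : act ⟨1, one_mem _⟩ = 1 := map_one act
    exact this ▸ rr_one
  | mul_right x hx y hy ih =>
    have e : act ⟨x * y, mul_mem hx (Subgroup.subset_closure hy)⟩ =
      act ⟨x, hx⟩ * act ⟨y, Subgroup.subset_closure hy⟩ := by rw [← map_mul]; rfl
    rw [e]
    simp only [Set.mem_insert_iff, Set.mem_singleton_iff] at hy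
    rcases hy with rfl | rfl | rfl
    · exact rr_step1 ih
    · exact rr_step2 ih
    · exact rr_step3 ih
  | mul_inv_cancel x hx y hy ih =>
    have hyy : y⁻¹ = y := by
      have hy' := hy
      simp only [Set.mem_insert_iff, Set.mem_singleton_iff] at hy'
      rcases hy' with rfl | rfl | rfl
      · rfl
      · rfl
      · rfl
    have e : act ⟨x * y⁻¹, mul_mem hx (inv_mem (Subgroup.subset_closure hy))⟩ =
      act ⟨x, hx⟩ * act ⟨y, Subgroup.subset_closure hy⟩ := by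
      rw [← map_mul]
      congr 1
      apply Subtype.ext
      change x * y⁻¹ = x * y
      rw [hyy]
    rw [e]
    simp only [Set.mem_insert_iff, Set.mem_singleton_iff] at hy
    rcases hy with rfl | rfl | rfl
    · exact rr_step1 ih
    · exact rr_step2 ih
    · exact rr_step3 ih

theorem conj_act (a y : ↥Gam) : act ((eG.symm a : ↥GZ) : ↥W) y = a * y * a⁻¹ := by
  apply wz_inj
  rw [wz_act, wz_mul, wz_mul]
  have h1 : wz a⁻¹ = ((((eG.symm a : ↥GZ) : ↥W)⁻¹ : ↥W) : MZˣ) := by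
    unfold wz
    rw [map_inv]; rfl
  rw [h1]; rfl

theorem reach1 (a : ↥Gam) : Reach x1 x2 (a * x1 * a⁻¹) := by
  rw [← conj_act]
  exact (rr_all _ ((eG.symm a : ↥GZ) : ↥W).2).1

theorem reach2 (a : ↥Gam) : Reach x1 x2 (a * x2 * a⁻¹) := by
  rw [← conj_act]
  exact (rr_all _ ((eG.symm a : ↥GZ) : ↥W).2).2.1

end Pool.Agent.J4.H97.Anosov
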