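import Pool.Agent.J4.H97.Anosov.Example
import Pool.Agent.J4.H97.Anosov.Proper
import Pool.Agent.J4.H97.Anosov.Walls2

/-!
The domain `Om Gam d` is strictly larger than the simple `k`-Anosov domain.
-/

namespace Pool.Agent.J4.H97.Anosov

open Matrix Filter Topology Polynomial

theorem exists_rho0 {Γ : Subgroup SL3} (hG : Good Γ) {d : ℕ} (hd : 3 ≤ d) :
    ∃ ρ : Γ →* SLd d, IsSimpleAnosov Γ 1 ρ ∧ ∀ (a : Γ) (g : M3) (L : ℝ), IsLor g →
      mat a * g = g * flow L → ∀ n : ℕ, (ρ (a ^ n) : Md d).trace =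
        Complex.exp (L) ^ n + Complex.exp (-(L : ℂ)) ^ n + ((d - 2 : ℕ) : ℂ) := by
  obtain ⟨e, rfl⟩ := Nat.exists_eq_add_of_le hd
  refine ⟨rho0 hG e, rho0_anosov hG e, fun a g L hg h n => ?_⟩
  rw [rho0_trace hG e hg h n]
  congr 2
  omega

theorem gam_domain (d : ℕ) : IsDomainOfDiscontinuity Gam d (Om Gam d) := by
  obtain ⟨S, hS⟩ := gam_fg
  exact om_domain gam_good S hS x1_simple x2_simple c12 (fun s _ => reach1 s)
    (fun s _ => reach2 s) d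

theorem gam_contain {d j : ℕ} (hj : 1 ≤ j) (hjd : j < d) :
    SimpleAnosovDomain Gam d j ⊆ Om Gam d := by
  obtain ⟨S, hS⟩ := gam_fg
  exact contain gam_good S hS hj hjd

theorem gam_strict {d k : ℕ} (hk : 2 ≤ k) (hkd : k + 2 ≤ d) :
    ∃ χ ∈ SimpleAnosovDomain Gam d 1, χ ∉ SimpleAnosovDomain Gam d k := by
  obtain ⟨f, rfl⟩ : ∃ f, d = f + 2 := ⟨d - 2, by omega⟩
  obtain ⟨ρ0, h0, htr⟩ := exists_rho0 gam_good (d := f + 2) (by omega)
  refine ⟨character ρ0, ⟨ρ0, h0, rfl⟩, ?_⟩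
  rintro ⟨ρ, hρ, hchar⟩
  obtain ⟨g, L, hg, hL, hγ⟩ := gam_good.frame x1_ne
  have hF : g ∈ F0 Gam := subset_closure (x1_simple.frame gam_good hg hL hγ)
  refine not_anosov hk (by omega) ρ hρ hF hL hγ fun n => ?_
  have h1 := congrFun hchar (x1 ^ n)
  change (ρ (x1 ^ n) : Md (f + 2)).trace = (ρ0 (x1 ^ n) : Md (f + 2)).trace at h1
  rw [h1, htr x1 g L hg hγ n]
  rfl

end Pool.Agent.J4.H97.Anosov
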