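import Pool.Agent.J4.H97.Anosov.Dom

/-!
Persistence of the eigenvalue gap along simple closed geodesics.
-/

namespace Pool.Agent.J4.H97.Anosov

open Matrix Filter Topology Polynomial
open scoped Matrix.Norms.Operator

variable {Γ : Subgroup SL3} {d : ℕ}

theorem eig_ne_zero (ρ : Γ →* SLd d) (a : Γ) {μ : ℂ} {v : Fin d → ℂ} (hv : v ≠ 0)
    (h : (ρ a : Md d) *ᵥ v = μ • v) : μ ≠ 0 := by
  intro h0
  rw [h0, zero_smul] at h
  apply hv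
  have : (ρ a⁻¹ : Md d) *ᵥ ((ρ a : Md d) *ᵥ v) = v := by
    rw [Matrix.mulVec_mulVec, rep_inv_mul, Matrix.one_mulVec]
  rw [← this, h, Matrix.mulVec_zero]

theorem eig_inv (ρ : Γ →* SLd d) (a : Γ) {μ : ℂ} {v : Fin d → ℂ} (hμ : μ ≠ 0)
    (h : (ρ a⁻¹ : Md d) *ᵥ v = μ • v) : (ρ a : Md d) *ᵥ v = μ⁻¹ • v := by
  have h1 : (ρ a : Md d) *ᵥ ((ρ a⁻¹ : Md d) *ᵥ v) = v := by
    rw [Matrix.mulVec_mulVec, rep_mul_inv, Matrix.one_mulVec]
  rw [h, Matrix.mulVec_smul] at h1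
  calc (ρ a : Md d) *ᵥ v = μ⁻¹ • (μ • ((ρ a : Md d) *ᵥ v)) := by
        rw [smul_smul, inv_mul_cancel₀ hμ, one_smul]
    _ = μ⁻¹ • v := by rw [h1]

theorem geo_gap (hG : Good Γ) {C0 : ℝ} (hC0 : ∀ g, IsLor g → ∃ a : Γ, (mat a * g) 2 2 ≤ C0)
    (ρ₁ : Γ →* SLd d) {P : M3 → Md d} {C c M : ℝ} (hD : DomData Γ ρ₁ C0 P C c M) :
    ∃ T : ℝ, 0 < T ∧ ∃ S : Set Γ, S.Finite ∧ ∃ δ : ℝ, 0 < δ ∧ ∀ ρ' : Γ →* SLd d,
      (∀ s ∈ S, ‖(ρ' s⁻¹ : Md d) - (ρ₁ s⁻¹ : Md d)‖ ≤ δ) →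
      ∀ (a : Γ) (g : M3) (L : ℝ), g ∈ F0 Γ → T ≤ L → mat a * g = g * flow L →
      ∃ (μ ν : ℂ) (v w : Fin d → ℂ), v ≠ 0 ∧ w ≠ 0 ∧ (ρ' a : Md d) *ᵥ v = μ • v ∧
        (ρ' a : Md d) *ᵥ w = ν • w ∧ 2 ^ ⌊L / T⌋₊ * ‖ν‖ ≤ ‖μ‖ := by
  -- constants
  set M' : ℝ := max (max M (‖(1 : Md d)‖ + |M|)) 1 with hM'
  have hM'1 : 1 ≤ M' := le_max_right _ _
  have hMM' : M ≤ M' := (le_max_left _ _).trans (le_max_left _ _)
  have hMM'2 : ‖(1 : Md d)‖ + |M| ≤ M' := (le_max_right _ _).trans (le_max_left _ _)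
  obtain ⟨T, hT, hTC⟩ : ∃ T : ℝ, 0 < T ∧ C * Real.exp (-(c * T)) ≤ 1 / 16 := by
    have h1 : Tendsto (fun T : ℝ => C * Real.exp (-(c * T))) atTop (𝓝 (C * 0)) := by
      have h2 := Real.tendsto_exp_neg_atTop_nhds_zero.comp (tendsto_id.const_mul_atTop hD.cpos)
      exact h2.const_mul C
    rw [mul_zero] at h1
    obtain ⟨T, hT1, hT2⟩ := ((h1.eventually (gt_mem_nhds (show (0 : ℝ) < 1 / 16 by norm_num))).and
      (eventually_gt_atTop 0)).exists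
    exact ⟨T, hT2, hT1.le⟩
  set C2 : ℝ := 3 * (3 * (C0 * Real.cosh (2 * T)) * C0) with hC2
  set S : Set Γ := {s : Γ | mat s 2 2 ≤ C2} with hS
  have hSfin : S.Finite := hG.fin C2
  obtain ⟨N1, hN1pos, hN1⟩ : ∃ N1 : ℝ, 0 < N1 ∧ ∀ s ∈ S, ‖(ρ₁ s : Md d)‖ ≤ N1 := by
    obtain ⟨N, hN⟩ := (hSfin.image fun s => ‖(ρ₁ s : Md d)‖).bddAbove
    exact ⟨max N 1, lt_of_lt_of_le one_pos (le_max_right _ _),
      fun s hs => (hN ⟨s, hs, rfl⟩).trans (le_max_left _ _)⟩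
  set δ : ℝ := 1 / (32 * M' * M' * N1) with hδ
  have hδpos : 0 < δ := by positivity
  refine ⟨T, hT, S, hSfin, δ, hδpos, ?_⟩
  intro ρ' hρ' a g L hg hTL hag
  have hL : 0 < L := lt_of_lt_of_le hT hTL
  have hgl := F0_lor hg
  set m : ℕ := ⌊L / T⌋₊ with hm
  have hm1 : 1 ≤ m := by
    rw [hm]; apply Nat.le_floor
    rw [le_div_iff₀ hT]; simpa using hTL
  have hmR : (1 : ℝ) ≤ m := by exact_mod_cast hm1
  have hmpos : (0 : ℝ) < m := by linarith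
  set T' : ℝ := L / m with hT'
  have hT'1 : T ≤ T' := by
    rw [hT', le_div_iff₀ hmpos]
    have h1 : (m : ℝ) ≤ L / T := Nat.floor_le (by positivity)
    rw [le_div_iff₀ hT] at h1
    linarith
  have hT'2 : T' ≤ 2 * T := by
    rw [hT', div_le_iff₀ hmpos]
    have h1 : L / T < m + 1 := Nat.lt_floor_add_one _
    rw [div_lt_iff₀ hT] at h1
    nlinarith
  have hT'0 : 0 < T' := lt_of_lt_of_le hT hT'1
  have hmT' : (m : ℝ) * T' = L := by rw [hT']; field_simp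
  -- the group elements
  have hη : ∀ t : ℝ, ∃ b : Γ, (mat b * (g * flow t)) 2 2 ≤ C0 :=
    fun t => hC0 _ (hgl.mul (flow_lor t))
  choose η hη using hη
  let h : ℕ → Γ := fun i => if i = m then a * (η 0)⁻¹ else (η (i * T'))⁻¹
  let k : ℕ → M3 := fun i => mat (h i)⁻¹ * (g * flow (i * T'))
  have hm0 : (0 : ℕ) ≠ m := by omega
  have hh0 : h 0 = (η 0)⁻¹ := by
    simp only [h, if_neg hm0]
    simp
  have hhm : h m = a * (η 0)⁻¹ := by simp only [h, if_true]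
  have hk0 : k 0 = mat (η 0) * g := by
    simp only [k, hh0, inv_inv]
    simp [flow_zero]
  have hkm : k m = mat (η 0) * g := by
    have e1 : (a * (η 0)⁻¹)⁻¹ = η 0 * a⁻¹ := by group
    simp only [k, hhm, hmT', e1]
    rw [mat_mul, mul_assoc, ← hag, ← mul_assoc (mat a⁻¹), ← mat_mul]
    simp [mat_one]
  have hk22 : ∀ i ≤ m, (k i) 2 2 ≤ C0 := by
    intro i hi
    by_cases him : i = m
    · rw [him, hkm]
      have := hη 0
      rwa [flow_zero, mul_one] at this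
    · simp only [k, h, if_neg him, inv_inv]
      exact hη _
  have hkF : ∀ i, k i ∈ F0 Γ := fun i => F0_act hG (F0_flow hG hg _) _
  let s : ℕ → Γ := fun i => (h i)⁻¹ * h (i + 1)
  have hstep : ∀ i, k i * flow T' = mat (s i) * k (i + 1) := by
    intro i
    simp only [k, s]
    rw [mat_mul]
    have e : mat (h (i + 1)) * mat (h (i + 1))⁻¹ = 1 := by rw [← mat_mul]; simp [mat_one]
    calc mat (h i)⁻¹ * (g * flow (i * T')) * flow T'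
        = mat (h i)⁻¹ * (g * (flow (i * T') * flow T')) := by simp only [mul_assoc]
      _ = mat (h i)⁻¹ * (g * flow ((i + 1 : ℕ) * T')) := by
          rw [flow_add]; congr 3; push_cast; ring
      _ = mat (h i)⁻¹ * ((mat (h (i + 1)) * mat (h (i + 1))⁻¹) * (g * flow ((i + 1 : ℕ) * T'))) := by
          rw [e, one_mul]
      _ = _ := by simp only [mul_assoc]
  have hsS : ∀ i < m, s i ∈ S := by
    intro i hi
    have hki := F0_lor (hkF i)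
    have hki1 := F0_lor (hkF (i + 1))
    have h1 : mat (s i) = k i * flow T' * linv (k (i + 1)) := by
      rw [hstep, mul_assoc, mul_linv hki1.1, mul_one]
    change mat (s i) 2 2 ≤ C2
    rw [h1]
    have hfl : (flow T') 2 2 = Real.cosh T' := by simp [flow]
    have h3 : (k i * flow T' * linv (k (i + 1))) 2 2 ≤
        3 * ((k i * flow T') 2 2 * (linv (k (i + 1))) 2 2) :=
      mul22 (hki.mul (flow_lor T')) hki1.linv
    have h4 : (k i * flow T') 2 2 ≤ 3 * ((k i) 2 2 * (flow T') 2 2) := mul22 hki (flow_lor T')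
    rw [hfl] at h4
    rw [linv22] at h3
    have h5 : Real.cosh T' ≤ Real.cosh (2 * T) := Real.cosh_le_cosh.mpr (by
      rw [abs_of_pos hT'0, abs_of_pos (by linarith)]; exact hT'2)
    have hk1 := hk22 i hi.le
    have hk2 := hk22 (i + 1) hi
    have p1 := hki.2.2
    have p2 := hki1.2.2
    have hch := Real.cosh_pos T'
    have h6 : (k i) 2 2 * Real.cosh T' ≤ C0 * Real.cosh (2 * T) :=
      mul_le_mul hk1 h5 hch.le (by linarith)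
    have h7 : (k i * flow T') 2 2 * (k (i + 1)) 2 2 ≤ 3 * (C0 * Real.cosh (2 * T)) * C0 := by
      refine mul_le_mul (by linarith) hk2 p2.le ?_
      have : 0 ≤ C0 * Real.cosh (2 * T) := le_trans (by positivity) h6
      linarith
    linarith
  -- steps
  have hPbd : ∀ i ≤ m, ‖P (k i)‖ ≤ M' := fun i hi => (hD.bdd _ (hkF i) (hk22 i hi)).trans hMM'
  have hPbd' : ∀ i ≤ m, ‖1 - P (k i)‖ ≤ M' := by
    intro i hi
    have h1 := hD.bdd _ (hkF i) (hk22 i hi)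
    have h2 := norm_sub_le (1 : Md d) (P (k i))
    have h3 := le_abs_self M
    linarith
  have hne : ∀ i, P (k i) * (ρ₁ (s i) : Md d) ≠ 0 := by
    intro i h0
    apply hD.ne0 _ (hkF i)
    calc P (k i) = P (k i) * ((ρ₁ (s i) : Md d) * (ρ₁ (s i)⁻¹ : Md d)) := by
          rw [rep_mul_inv, mul_one]
      _ = P (k i) * (ρ₁ (s i) : Md d) * (ρ₁ (s i)⁻¹ : Md d) := by simp only [mul_assoc]
      _ = 0 := by rw [h0, zero_mul]
  have hPs : ∀ i, P (k (i + 1)) = (ρ₁ (s i)⁻¹ : Md d) * P (k i) * (ρ₁ (s i) : Md d) := by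
    intro i
    have h1 := hD.flow _ (hkF i) T'
    rw [hstep] at h1
    have h2 := hD.equiv _ (hkF (i + 1)) (s i)
    rw [h1] at h2
    rw [h2]
    calc P (k (i + 1)) = 1 * P (k (i + 1)) * 1 := by rw [one_mul, mul_one]
      _ = ((ρ₁ (s i)⁻¹ : Md d) * (ρ₁ (s i) : Md d)) * P (k (i + 1)) *
          ((ρ₁ (s i)⁻¹ : Md d) * (ρ₁ (s i) : Md d)) := by rw [rep_inv_mul]
      _ = _ := by simp only [mul_assoc]
  let A : ℕ → Md d := fun i => (ρ₁ (s i)⁻¹ : Md d)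
  let Bs : ℕ → Md d := fun i => (ρ' (s i)⁻¹ : Md d)
  let κ : ℕ → ℝ := fun i => 1 / ‖P (k i) * (ρ₁ (s i) : Md d)‖
  have hstepdata : ∀ i < m, Step M' (κ i) (P (k i)) (P (k (i + 1))) (A i) (Bs i) := by
    intro i hi
    have hnpos : 0 < ‖P (k i) * (ρ₁ (s i) : Md d)‖ := norm_pos_iff.mpr (hne i)
    have hκpos : 0 < κ i := by
      change 0 < 1 / _
      positivity
    refine ⟨hD.idem _ (hkF i), ?_, hκpos, by linarith, ?_, ?_, hPbd (i + 1) hi,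
      hPbd' (i + 1) hi, ?_⟩
    · rw [hPs i]
      change (ρ₁ (s i)⁻¹ : Md d) * P (k i) = (ρ₁ (s i)⁻¹ : Md d) * P (k i) * (ρ₁ (s i) : Md d) *
        (ρ₁ (s i)⁻¹ : Md d)
      rw [mul_assoc _ (ρ₁ (s i) : Md d), rep_mul_inv, mul_one]
    · intro v hv
      change 1 / _ * ‖v‖ ≤ ‖(ρ₁ (s i)⁻¹ : Md d) *ᵥ v‖
      rw [one_div, inv_mul_le_iff₀ hnpos]
      have h1 : (P (k i) * (ρ₁ (s i) : Md d)) *ᵥ ((ρ₁ (s i)⁻¹ : Md d) *ᵥ v) = v := by
        rw [Matrix.mulVec_mulVec, mul_assoc, rep_mul_inv, mul_one, hv]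
      calc ‖v‖ = ‖(P (k i) * (ρ₁ (s i) : Md d)) *ᵥ ((ρ₁ (s i)⁻¹ : Md d) *ᵥ v)‖ := by rw [h1]
        _ ≤ _ := mulVec_le _ _
    · intro w hw
      have h1 : (ρ₁ (s i)⁻¹ : Md d) *ᵥ w = ((ρ₁ (s i)⁻¹ : Md d) * (1 - P (k i))) *ᵥ w := by
        rw [← Matrix.mulVec_mulVec, Matrix.sub_mulVec, hw, Matrix.one_mulVec, sub_zero]
      change ‖(ρ₁ (s i)⁻¹ : Md d) *ᵥ w‖ ≤ _
      rw [h1]
      refine (mulVec_le _ _).trans (mul_le_mul_of_nonneg_right ?_ (norm_nonneg _))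
      have h2 := hD.dom _ (hkF i) _ (hkF (i + 1)) (hk22 i hi.le) (hk22 (i + 1) hi) (s i) T'
        hT'0.le (hstep i)
      change _ ≤ 1 / ‖P (k i) * (ρ₁ (s i) : Md d)‖ / 16
      rw [div_div, le_div_iff₀ (by positivity)]
      have h3 : C * Real.exp (-(c * T')) ≤ C * Real.exp (-(c * T)) := by
        refine mul_le_mul_of_nonneg_left ?_ hD.Cpos.le
        apply Real.exp_le_exp.mpr
        have := mul_le_mul_of_nonneg_left hT'1 hD.cpos.le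
        linarith
      calc _ = (‖(ρ₁ (s i)⁻¹ : Md d) * (1 - P (k i))‖ * ‖P (k i) * (ρ₁ (s i) : Md d)‖) * 16 := by
            ring
        _ ≤ 1 / 16 * 16 := mul_le_mul_of_nonneg_right (h2.trans (h3.trans hTC)) (by norm_num)
        _ = 1 := by norm_num
    · have h1 := hρ' (s i) (hsS i hi)
      have h2 : ‖P (k i) * (ρ₁ (s i) : Md d)‖ ≤ M' * N1 :=
        (norm_mul_le _ _).trans (mul_le_mul (hPbd i hi.le) (hN1 _ (hsS i hi)) (norm_nonneg _)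
          (by linarith))
      change 2 * M' * ‖(ρ' (s i)⁻¹ : Md d) - (ρ₁ (s i)⁻¹ : Md d)‖ ≤
        1 / ‖P (k i) * (ρ₁ (s i) : Md d)‖ / 16
      calc 2 * M' * ‖(ρ' (s i)⁻¹ : Md d) - (ρ₁ (s i)⁻¹ : Md d)‖ ≤ 2 * M' * δ :=
            mul_le_mul_of_nonneg_left h1 (by linarith)
        _ = 1 / (M' * N1) / 16 := by rw [hδ]; field_simp; norm_num
        _ ≤ 1 / ‖P (k i) * (ρ₁ (s i) : Md d)‖ / 16 := by
            apply div_le_div_of_nonneg_right _ (by norm_num)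
            exact one_div_le_one_div_of_le hnpos h2
  have hprod : ∀ i, prodB Bs i = (ρ' ((h i)⁻¹ * h 0) : Md d) := by
    intro i
    induction i with
    | zero => simp [prodB]
    | succ i ih =>
      rw [prodB, ih]
      change (ρ' (s i)⁻¹ : Md d) * _ = _
      rw [← Matrix.SpecialLinearGroup.coe_mul, ← map_mul]
      congr 2
      simp only [s]
      group
  have hcyc : P (k m) = P (k 0) := by rw [hkm, hk0]
  obtain ⟨μ, ν, v, w, hv, hw, hμ, hν, hgap⟩ := persist κ (fun i => P (k i)) A Bs m hstepdata hcyc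
    (hD.idem _ (hkF 0)) hM'1 (hPbd 0 (by omega)) (hPbd' 0 (by omega)) (hD.ne0 _ (hkF 0))
    (hD.ne1 _ (hkF 0)) (ρ' ((h 0)⁻¹ * h m) : Md d) (by
      rw [hprod, ← Matrix.SpecialLinearGroup.coe_mul, ← map_mul]
      have : (h m)⁻¹ * h 0 * ((h 0)⁻¹ * h m) = 1 := by group
      rw [this]; simp)
  rw [hprod, hhm, hh0] at hμ hν
  have hbm : (a * (η 0)⁻¹)⁻¹ * (η 0)⁻¹ = (η 0) * a⁻¹ * (η 0)⁻¹ := by group
  rw [hbm] at hμ hν
  have hconv : ∀ (μ : ℂ) (v : Fin d → ℂ), v ≠ 0 →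
      (ρ' (η 0 * a⁻¹ * (η 0)⁻¹) : Md d) *ᵥ v = μ • v →
      μ ≠ 0 ∧ (ρ' (η 0)⁻¹ : Md d) *ᵥ v ≠ 0 ∧
      (ρ' a : Md d) *ᵥ ((ρ' (η 0)⁻¹ : Md d) *ᵥ v) = μ⁻¹ • ((ρ' (η 0)⁻¹ : Md d) *ᵥ v) := by
    intro μ v hv h1
    have hμ0 := eig_ne_zero ρ' _ hv h1
    refine ⟨hμ0, ?_, ?_⟩
    · intro h0
      apply hv
      have : (ρ' (η 0) : Md d) *ᵥ ((ρ' (η 0)⁻¹ : Md d) *ᵥ v) = v := by
        rw [Matrix.mulVec_mulVec, rep_mul_inv, Matrix.one_mulVec]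
      rw [← this, h0, Matrix.mulVec_zero]
    · apply eig_inv ρ' a hμ0
      have h2 : (ρ' (η 0)⁻¹ : Md d) *ᵥ ((ρ' (η 0 * a⁻¹ * (η 0)⁻¹) : Md d) *ᵥ v) =
          μ • ((ρ' (η 0)⁻¹ : Md d) *ᵥ v) := by rw [h1, Matrix.mulVec_smul]
      rw [← h2]
      rw [map_mul, map_mul, Matrix.SpecialLinearGroup.coe_mul, Matrix.SpecialLinearGroup.coe_mul,
        Matrix.mulVec_mulVec, Matrix.mulVec_mulVec, ← mul_assoc, ← mul_assoc, rep_inv_mul, one_mul]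
  obtain ⟨hμ0, hv0, hμ'⟩ := hconv μ v hv hμ
  obtain ⟨hν0, hw0, hν'⟩ := hconv ν w hw hν
  refine ⟨ν⁻¹, μ⁻¹, _, _, hw0, hv0, hν', hμ', ?_⟩
  rw [norm_inv, norm_inv]
  have hμp : 0 < ‖μ‖ := norm_pos_iff.mpr hμ0
  have hνp : 0 < ‖ν‖ := norm_pos_iff.mpr hν0
  rw [← div_eq_mul_inv, div_le_iff₀ hμp, ← div_eq_inv_mul, le_div_iff₀ hνp]
  exact hgap

end Pool.Agent.J4.H97.Anosov
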