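import Pool.Agent.J4.H97.Anosov.Lor3

/-!
Cocompact torsion-free groups: consequences of a short list of axioms.
-/

namespace Pool.Agent.J4.H97.Anosov

open Matrix Filter Topology

/-- The matrix of a group element. -/
def mat {Γ : Subgroup SL3} (a : Γ) : M3 := ((a : SL3) : M3)

theorem mat_mul {Γ : Subgroup SL3} (a b : Γ) : mat (a * b) = mat a * mat b := by
  simp [mat]

theorem mat_one {Γ : Subgroup SL3} : mat (1 : Γ) = 1 := by simp [mat]

theorem mat_inj {Γ : Subgroup SL3} {a b : Γ} (h : mat a = mat b) : a = b := by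
  apply Subtype.ext
  apply Subtype.ext
  exact h

/-- The properties of our surface groups which are used below. -/
structure Good (Γ : Subgroup SL3) : Prop where
  lor : ∀ a : Γ, IsLor (mat a)
  fin : ∀ C : ℝ, {a : Γ | mat a 2 2 ≤ C}.Finite
  cocpt : ∃ C0 : ℝ, ∀ g, IsLor g → ∃ a : Γ, (mat a * g) 2 2 ≤ C0
  normal : ∀ a : Γ, a ≠ 1 → ∃ n, B n n = 1 ∧ mat a *ᵥ n = n
  sep : ∀ a b : Γ, a ≠ 1 → b ≠ 1 → ∀ n m, B n n = 1 → B m m = 1 → mat a *ᵥ n = n →
    mat b *ᵥ m = m → |B n m| = 1 → m = n ∨ m = -n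

variable {Γ : Subgroup SL3}

theorem Good.mat_inv (h : Good Γ) (a : Γ) : mat a⁻¹ = linv (mat a) := by
  have h1 : mat a⁻¹ * mat a = 1 := by rw [← mat_mul]; simp [mat_one]
  calc mat a⁻¹ = mat a⁻¹ * (mat a * linv (mat a)) := by rw [mul_linv (h.lor a).1, mul_one]
    _ = linv (mat a) := by rw [← mul_assoc, h1, one_mul]

/-- Half turn. -/
def rot : M3 := !![-1, 0, 0; 0, -1, 0; 0, 0, 1]

theorem rot_lor : IsLor rot := by
  refine ⟨?_, ?_, ?_⟩
  · ext i j
    fin_cases i <;> fin_cases j <;> simp [rot, J, Matrix.mul_apply, Fin.sum_univ_three]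
  · rw [Matrix.det_fin_three]; simp [rot]
  · simp [rot]

theorem flow_rot (t : ℝ) : flow t * rot = rot * flow (-t) := by
  ext i j
  fin_cases i <;> fin_cases j <;> simp [rot, flow, Matrix.mul_apply, Fin.sum_univ_three]

theorem rot_e1 : rot *ᵥ e1 = -e1 := by
  ext i
  fin_cases i <;> simp [rot, e1, Matrix.mulVec, dotProduct, Fin.sum_univ_three]

/-- Frames along the axis. -/
theorem Good.frame_n (h : Good Γ) {a : Γ} (ha : a ≠ 1) {n : V3} (hn : B n n = 1)
    (han : mat a *ᵥ n = n) : ∃ g t, IsLor g ∧ 0 < t ∧ mat a * g = g * flow t ∧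
      (g *ᵥ e1 = n ∨ g *ᵥ e1 = -n) := by
  obtain ⟨g, hg, hge⟩ := exists_frame_n hn
  obtain ⟨t, ht⟩ := axis_form (h.lor a) hg (by rw [hge, han])
  have ht0 : t ≠ 0 := by
    intro h0
    rw [h0, flow_zero, mul_one] at ht
    apply ha
    apply mat_inj
    rw [mat_one]
    calc mat a = mat a * (g * linv g) := by rw [mul_linv hg.1, mul_one]
      _ = 1 := by rw [← mul_assoc, ht, mul_linv hg.1]
  rcases lt_or_gt_of_ne ht0 with hneg | hpos
  · refine ⟨g * rot, -t, hg.mul rot_lor, by linarith, ?_, Or.inr ?_⟩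
    · rw [← mul_assoc, ht, mul_assoc, flow_rot, ← mul_assoc]
    · rw [← Matrix.mulVec_mulVec, rot_e1, Matrix.mulVec_neg, hge]
  · exact ⟨g, t, hg, hpos, ht, Or.inl hge⟩

theorem Good.frame (h : Good Γ) {a : Γ} (ha : a ≠ 1) : ∃ g t, IsLor g ∧ 0 < t ∧
    mat a * g = g * flow t := by
  obtain ⟨n, hn, han⟩ := h.normal a ha
  obtain ⟨g, t, h1, h2, h3, -⟩ := h.frame_n ha hn han
  exact ⟨g, t, h1, h2, h3⟩

theorem mat_pow_frame {a : Γ} {g : M3} {t : ℝ} (h : mat a * g = g * flow t) (k : ℕ) :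
    mat (a ^ k) * g = g * flow (k * t) := by
  induction k with
  | zero => simp [mat_one, flow_zero]
  | succ k ih =>
    rw [pow_succ, mat_mul, mul_assoc, h, ← mul_assoc, ih, mul_assoc, flow_add]
    congr 2; push_cast; ring

theorem mat_inv_frame {a : Γ} {g : M3} {t : ℝ} (h : mat a * g = g * flow t) :
    mat a⁻¹ * g = g * flow (-t) := by
  have h1 : mat a⁻¹ * (mat a * g) = g := by rw [← mul_assoc, ← mat_mul]; simp [mat_one]
  calc mat a⁻¹ * g = mat a⁻¹ * (g * (flow t * flow (-t))) := by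
        rw [flow_add]; simp [flow_zero]
    _ = mat a⁻¹ * (mat a * g) * flow (-t) := by rw [h]; simp only [mul_assoc]
    _ = g * flow (-t) := by rw [h1]

theorem mat_zpow_frame {a : Γ} {g : M3} {t : ℝ} (h : mat a * g = g * flow t) (k : ℤ) :
    mat (a ^ k) * g = g * flow (k * t) := by
  obtain ⟨n, rfl | rfl⟩ := k.eq_nat_or_neg
  · simpa using mat_pow_frame h n
  · have := mat_inv_frame (mat_pow_frame h n)
    simpa using this

theorem Good.noFix (h : Good Γ) {a : Γ} {p : V3} (hp : Hyp p) (hap : mat a *ᵥ p = p) : a = 1 := by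
  by_contra ha
  obtain ⟨g, t, hg, ht, hgt⟩ := h.frame ha
  have h1 := displacement hg hgt hp
  rw [hap, hp.1, neg_neg] at h1
  have h2 : 1 < Real.cosh t := Real.one_lt_cosh.mpr ht.ne'
  nlinarith [sq_nonneg (B (g *ᵥ e1) p)]

theorem Good.pow_ne (h : Good Γ) {a : Γ} (ha : a ≠ 1) {k : ℕ} (hk : 0 < k) : a ^ k ≠ 1 := by
  intro h1
  obtain ⟨g, t, hg, ht, hgt⟩ := h.frame ha
  have h2 := mat_pow_frame hgt k
  rw [h1, mat_one, one_mul] at h2
  have h3 : flow (k * t) = 1 := by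
    calc flow (k * t) = linv g * (g * flow (k * t)) := by
          rw [← mul_assoc, linv_mul hg.1, one_mul]
      _ = 1 := by rw [← h2, linv_mul hg.1]
  have h4 := congrFun (congrFun h3 2) 2
  have h5 : Real.cosh (k * t) = 1 := by simpa [flow] using h4
  have h6 : (k : ℝ) * t ≠ 0 := by positivity
  have h7 := Real.one_lt_cosh.mpr h6
  linarith

/-- Reduction modulo a translation. -/
theorem mod_axis {g : M3} (hg : IsLor g) {t : ℝ} (ht : 0 < t) (c : ℝ) :
    ∃ C : ℝ, ∀ x : M3, IsLor x → |B (x *ᵥ o) (g *ᵥ e1)| ≤ c →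
      ∃ k : ℤ, (g * flow (k * t) * linv g * x) 2 2 ≤ C := by
  refine ⟨3 * (g 2 2 * (Real.sqrt (1 + c ^ 2) * Real.cosh t)), fun x hx hc => ?_⟩
  set p := linv g *ᵥ (x *ᵥ o) with hp
  have hpH : Hyp p := hg.linv.hyp (hx.hyp hyp_o)
  have hp1 : p 1 = B (x *ᵥ o) (g *ᵥ e1) := by
    rw [← B_linv hg, ← hp]; simp [B, e1]
  rw [← hp1] at hc
  obtain ⟨a1, a2⟩ := hpH
  simp only [B] at a1
  set w := Real.sqrt (1 + p 1 ^ 2) with hw
  have hwpos : 0 < w := Real.sqrt_pos.mpr (by positivity)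
  have hw2 : w ^ 2 = 1 + p 1 ^ 2 := Real.sq_sqrt (by positivity)
  set s := Real.arsinh (p 0 / w) with hs
  have hsinh : Real.sinh s = p 0 / w := Real.sinh_arsinh _
  have hcosh : Real.cosh s = p 2 / w := by
    rw [hs, Real.cosh_arsinh, Real.sqrt_eq_iff_mul_self_eq_of_pos (by positivity)]
    field_simp
    nlinarith
  refine ⟨-⌊s / t⌋, ?_⟩
  have hk1 : (⌊s / t⌋ : ℝ) * t ≤ s := by
    have := Int.floor_le (s / t)
    rwa [le_div_iff₀ ht] at this
  have hk2 : s < ((⌊s / t⌋ : ℝ) + 1) * t := by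
    have := Int.lt_floor_add_one (s / t)
    rwa [div_lt_iff₀ ht] at this
  have hrange : |s + ((-⌊s / t⌋ : ℤ) : ℝ) * t| ≤ |t| := by
    rw [abs_of_nonneg (by push_cast; linarith), abs_of_pos ht]
    push_cast; linarith
  set k : ℤ := -⌊s / t⌋ with hk
  have h22 : (flow (k * t) * linv g * x) 2 2 = w * Real.cosh (s + k * t) := by
    rw [← mulVec_o_two (flow (k * t) * linv g * x), ← Matrix.mulVec_mulVec,
      ← Matrix.mulVec_mulVec, ← hp, flow_mulVec, Real.cosh_add, hsinh, hcosh]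
    simp
    field_simp
    ring
  have hle : (flow (k * t) * linv g * x) 2 2 ≤ Real.sqrt (1 + c ^ 2) * Real.cosh t := by
    rw [h22]
    refine mul_le_mul ?_ (Real.cosh_le_cosh.mpr hrange) (Real.cosh_pos _).le (Real.sqrt_nonneg _)
    apply Real.sqrt_le_sqrt
    have : p 1 ^ 2 ≤ c ^ 2 := by
      rw [← sq_abs]
      exact pow_le_pow_left₀ (abs_nonneg _) hc 2
    linarith
  have hlor : IsLor (flow (k * t) * linv g * x) := ((flow_lor _).mul hg.linv).mul hx
  calc (g * flow (k * t) * linv g * x) 2 2 = (g * (flow (k * t) * linv g * x)) 2 2 := by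
        simp only [mul_assoc]
    _ ≤ 3 * (g 2 2 * (flow (k * t) * linv g * x) 2 2) := mul22 hg hlor
    _ ≤ 3 * (g 2 2 * (Real.sqrt (1 + c ^ 2) * Real.cosh t)) := by
        have := hg.2.2
        have := mul_le_mul_of_nonneg_left hle this.le
        linarith

theorem Good.mod_axis (h : Good Γ) {a : Γ} {g : M3} (hg : IsLor g) {t : ℝ} (ht : 0 < t)
    (hag : mat a * g = g * flow t) (c : ℝ) :
    ∃ F : Set Γ, F.Finite ∧ ∀ x : Γ, |B (mat x *ᵥ o) (g *ᵥ e1)| ≤ c →
      ∃ k : ℤ, ∃ f ∈ F, x = a ^ k * f := by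
  obtain ⟨C, hC⟩ := Pool.Agent.J4.H97.Anosov.mod_axis hg ht c
  refine ⟨{y : Γ | mat y 2 2 ≤ C}, h.fin C, fun x hx => ?_⟩
  obtain ⟨k, hk⟩ := hC (mat x) (h.lor x) hx
  refine ⟨-k, a ^ k * x, ?_, ?_⟩
  · have h1 : mat (a ^ k) = g * flow (k * t) * linv g := by
      rw [← mat_zpow_frame hag, mul_assoc, mul_linv hg.1, mul_one]
    change mat (a ^ k * x) 2 2 ≤ C
    rw [mat_mul, h1]
    exact hk
  · group

end Pool.Agent.J4.H97.Anosov
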