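import Pool.Agent.J4.H97.Anosov.Arith

/-!
The level five congruence subgroup of the `(2,4,6)` triangle group.
-/

namespace Pool.Agent.J4.H97.Anosov

open Matrix Filter Topology

/-- Reflection matrices. -/
def R1 : MZ := !![0, 1, 0; 1, 0, 0; 0, 0, 1]
/-- Second reflection. -/
def R2 : MZ := !![1, 0, 0; 0, -1, 0; 0, 0, 1]
/-- Third reflection. -/
def R3 : MZ := !![-2, 0, 3; 0, 1, 0; -1, 0, 2]

theorem R1_sq : R1 * R1 = 1 := by decide
theorem R2_sq : R2 * R2 = 1 := by decide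
theorem R3_sq : R3 * R3 = 1 := by decide

/-- Units. -/
def r1 : MZˣ := ⟨R1, R1, R1_sq, R1_sq⟩
/-- Units. -/
def r2 : MZˣ := ⟨R2, R2, R2_sq, R2_sq⟩
/-- Units. -/
def r3 : MZˣ := ⟨R3, R3, R3_sq, R3_sq⟩

/-- The triangle group. -/
def W : Subgroup MZˣ := Subgroup.closure {r1, r2, r3}

theorem r1_mem : r1 ∈ W := Subgroup.subset_closure (by simp)
theorem r2_mem : r2 ∈ W := Subgroup.subset_closure (by simp)
theorem r3_mem : r3 ∈ W := Subgroup.subset_closure (by simp)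

theorem W_op {w : MZˣ} (hw : w ∈ W) : IsOp (cj (w : MZ)) := by
  unfold W at hw
  induction hw using Subgroup.closure_induction with
  | mem x hx =>
    simp only [Set.mem_insert_iff, Set.mem_singleton_iff] at hx
    rcases hx with rfl | rfl | rfl
    · refine ⟨form_cj (by change R1ᵀ * FZ * R1 = FZ; decide), ?_⟩
      rw [cj_22]; simp [r1, R1]
    · refine ⟨form_cj (by change R2ᵀ * FZ * R2 = FZ; decide), ?_⟩
      rw [cj_22]; simp [r2, R2]
    · refine ⟨form_cj (by change R3ᵀ * FZ * R3 = FZ; decide), ?_⟩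
      rw [cj_22]; simp [r3, R3]
  | one => exact ⟨by simp [cj_one], by simp [cj_one]⟩
  | mul x y _ _ hx hy =>
    rw [Units.val_mul, cj_mul]
    exact hx.mul hy
  | inv x _ hx =>
    have h1 : cj ((x⁻¹ : MZˣ) : MZ) * cj (x : MZ) = 1 := by
      rw [← cj_mul, ← Units.val_mul]; simp [cj_one]
    have h2 : cj ((x⁻¹ : MZˣ) : MZ) = linv (cj (x : MZ)) := by
      calc cj ((x⁻¹ : MZˣ) : MZ) = cj ((x⁻¹ : MZˣ) : MZ) * (cj (x : MZ) * linv (cj (x : MZ))) := by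
            rw [mul_linv hx.1, mul_one]
        _ = linv (cj (x : MZ)) := by rw [← mul_assoc, h1, one_mul]
    have h3 : cj (x : MZ) * cj ((x⁻¹ : MZˣ) : MZ) = 1 := mul_eq_one_comm.mp h1
    refine ⟨?_, ?_⟩
    · have e := hx.1
      calc (cj ((x⁻¹ : MZˣ) : MZ))ᵀ * J * cj ((x⁻¹ : MZˣ) : MZ)
          = (cj ((x⁻¹ : MZˣ) : MZ))ᵀ * ((cj (x : MZ))ᵀ * J * cj (x : MZ)) *
            cj ((x⁻¹ : MZˣ) : MZ) := by rw [e]
        _ = (cj (x : MZ) * cj ((x⁻¹ : MZˣ) : MZ))ᵀ * J * (cj (x : MZ) * cj ((x⁻¹ : MZˣ) : MZ)) := by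
            rw [Matrix.transpose_mul]; simp only [mul_assoc]
        _ = J := by rw [h3]; simp
    · rw [h2, linv22]; exact hx.2

theorem W_cj_inv {w : MZˣ} (hw : w ∈ W) : cj ((w⁻¹ : MZˣ) : MZ) = linv (cj (w : MZ)) := by
  have hx := W_op hw
  have h1 : cj ((w⁻¹ : MZˣ) : MZ) * cj (w : MZ) = 1 := by
    rw [← cj_mul, ← Units.val_mul]; simp [cj_one]
  calc cj ((w⁻¹ : MZˣ) : MZ) = cj ((w⁻¹ : MZˣ) : MZ) * (cj (w : MZ) * linv (cj (w : MZ))) := by
        rw [mul_linv hx.1, mul_one]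
    _ = linv (cj (w : MZ)) := by rw [← mul_assoc, h1, one_mul]

/-- Reduction mod 5 together with the determinant. -/
def piW : ↥W →* (Matrix (Fin 3) (Fin 3) (ZMod 5))ˣ × ℤˣ :=
  (MonoidHom.prod (Units.map ((Int.castRingHom (ZMod 5)).mapMatrix : MZ →+* _).toMonoidHom)
    (Units.map Matrix.detMonoidHom)).comp W.subtype

/-- The congruence subgroup. -/
def GZ : Subgroup ↥W := piW.ker

theorem GZ_det {γ : ↥W} (h : γ ∈ GZ) : ((γ : MZˣ) : MZ).det = 1 := by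
  have h1 : piW γ = 1 := h
  have h2 := congrArg (fun x => ((x.2 : ℤˣ) : ℤ)) h1
  simpa [piW] using h2

theorem GZ_mod {γ : ↥W} (h : γ ∈ GZ) :
    (Int.castRingHom (ZMod 5)).mapMatrix ((γ : MZˣ) : MZ) = 1 := by
  have h1 : piW γ = 1 := h
  have h2 := congrArg (fun x => ((x.1 : (Matrix (Fin 3) (Fin 3) (ZMod 5))ˣ) :
    Matrix (Fin 3) (Fin 3) (ZMod 5))) h1
  simpa [piW] using h2

theorem mem_GZ {γ : ↥W} (h1 : ((γ : MZˣ) : MZ).det = 1)
    (h2 : (Int.castRingHom (ZMod 5)).mapMatrix ((γ : MZˣ) : MZ) = 1) : γ ∈ GZ := by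
  change piW γ = 1
  refine Prod.ext ?_ ?_
  · apply Units.ext
    exact h2
  · apply Units.ext
    exact h1

/-- Embedding in `SL(3, ℝ)`. -/
noncomputable def embG : ↥GZ →* SL3 where
  toFun γ := ⟨cj (((γ : ↥W) : MZˣ) : MZ), by rw [det_cj, GZ_det γ.2]; simp⟩
  map_one' := by
    apply Subtype.ext
    simp [cj_one]
  map_mul' := by
    intro a b
    apply Subtype.ext
    simp [cj_mul]

theorem embG_inj : Function.Injective embG := by
  intro a b h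
  have h1 : cj (((a : ↥W) : MZˣ) : MZ) = cj (((b : ↥W) : MZˣ) : MZ) := congrArg Subtype.val h
  exact Subtype.ext (Subtype.ext (Units.ext (cj_inj h1)))

/-- The surface group. -/
noncomputable def Gam : Subgroup SL3 := embG.range

/-- The isomorphism. -/
noncomputable def eG : ↥GZ ≃* ↥Gam := MonoidHom.ofInjective embG_inj

theorem mat_eG (γ : ↥GZ) : mat (eG γ) = cj (((γ : ↥W) : MZˣ) : MZ) := rfl

/-- The integer matrix of an element. -/
noncomputable def wz (a : ↥Gam) : MZ := (((eG.symm a : ↥GZ) : ↥W) : MZˣ)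

theorem mat_wz (a : ↥Gam) : mat a = cj (wz a) := by
  have h1 : mat (eG (eG.symm a)) = cj (wz a) := mat_eG _
  rwa [MulEquiv.apply_symm_apply] at h1

theorem wz_inj : Function.Injective wz := by
  intro a b h
  apply mat_inj
  rw [mat_wz, mat_wz, h]

theorem wz_op (a : ↥Gam) : IsOp (cj (wz a)) := W_op (eG.symm a : ↥W).2

theorem wz_det (a : ↥Gam) : (wz a).det = 1 := GZ_det (eG.symm a).2

theorem gam_lor (a : ↥Gam) : IsLor (mat a) := by
  rw [mat_wz]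
  exact ⟨(wz_op a).1, by rw [det_cj, wz_det]; simp, (wz_op a).2⟩

theorem finite_MZ (N : ℝ) : {w : MZ | ∀ i j, |(w i j : ℝ)| ≤ N}.Finite := by
  have h1 : {x : ℤ | |(x : ℝ)| ≤ N}.Finite := by
    refine (Set.finite_Icc (-⌈N⌉) ⌈N⌉).subset ?_
    intro x hx
    change |(x : ℝ)| ≤ N at hx
    have h2 := abs_le.mp hx
    have h3 := Int.le_ceil N
    constructor
    · have : -(⌈N⌉ : ℝ) ≤ x := by linarith [h2.1]
      exact_mod_cast this
    · have : (x : ℝ) ≤ ⌈N⌉ := h2.2.trans h3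
      exact_mod_cast this
  have h2 := Set.Finite.pi' (fun _ : Fin 3 => Set.Finite.pi' (fun _ : Fin 3 => h1))
  exact h2.subset (fun w hw i j => hw i j)

theorem W_finite (C : ℝ) : {w : ↥W | cj ((w : MZˣ) : MZ) 2 2 ≤ C}.Finite := by
  refine Set.Finite.of_finite_image (f := fun w : ↥W => ((w : MZˣ) : MZ)) ?_ ?_
  · refine (finite_MZ (2 * C)).subset ?_
    rintro _ ⟨w, hw, rfl⟩ i j
    change cj ((w : MZˣ) : MZ) 2 2 ≤ C at hw
    refine (entry_le_two _ i j).trans ?_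
    have := (op_entry_le (W_op w.2) i j).trans hw
    linarith
  · intro a _ b _ h
    exact Subtype.ext (Units.ext h)

theorem gam_fin (C : ℝ) : {a : ↥Gam | mat a 2 2 ≤ C}.Finite := by
  refine Set.Finite.of_finite_image (f := fun a : ↥Gam => ((eG.symm a : ↥GZ) : ↥W)) ?_ ?_
  · refine (W_finite C).subset ?_
    rintro _ ⟨a, ha, rfl⟩
    change mat a 2 2 ≤ C at ha
    rw [mat_wz] at ha
    exact ha
  · intro a _ b _ h
    exact eG.symm.injective (Subtype.ext h)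

/-! ### The fundamental domain -/

theorem W_delta {x : V3} (hx : Hyp x) : ∃ w : ↥W, (cj ((w : MZˣ) : MZ) *ᵥ x) 2 ≤ 2 := by
  let f : ↥W → ℝ := fun w => (cj ((w : MZˣ) : MZ) *ᵥ x) 2
  have hfin : {w : ↥W | f w ≤ x 2}.Finite := by
    refine (W_finite (2 * (x 2 * x 2))).subset ?_
    intro w hw
    change f w ≤ x 2 at hw
    change cj ((w : MZˣ) : MZ) 2 2 ≤ _
    have hop := W_op w.2
    set g := cj ((w : MZˣ) : MZ)
    rw [← B_o_mulVec g]
    have hgx := hop.hyp hx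
    have t1 := tri hyp_o hgx (hop.hyp hyp_o)
    have e1 : B (g *ᵥ x) (g *ᵥ o) = B o x := by rw [B_pres hop.1, B_comm]
    have e2 : B o (g *ᵥ x) = - (g *ᵥ x) 2 := by simp [B, o]
    have e3 : B o x = - x 2 := by simp [B, o]
    rw [e1, e2, e3] at t1
    have hw' : (g *ᵥ x) 2 ≤ x 2 := hw
    have h2 := hx.2
    nlinarith
  obtain ⟨w0, hw0, hmin⟩ := Set.exists_min_image _ f hfin
    ⟨1, by
      change f 1 ≤ x 2
      simp [f, cj_one]⟩
  have hmin' : ∀ w : ↥W, f w0 ≤ f w := by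
    intro w
    by_cases hw : f w ≤ x 2
    · exact hmin w hw
    · exact le_trans hw0 (le_of_lt (not_le.mp hw))
  refine ⟨w0, ?_⟩
  set u := cj ((w0 : MZˣ) : MZ) *ᵥ x with hu
  have huH : Hyp u := (W_op w0.2).hyp hx
  have hmin'' : ∀ r : ↥W, u 2 ≤ (cj ((r : MZˣ) : MZ) *ᵥ u) 2 := by
    intro r
    have h1 := hmin' (r * w0)
    have h2 : f (r * w0) = (cj ((r : MZˣ) : MZ) *ᵥ u) 2 := by
      change (cj (((r * w0 : ↥W) : MZˣ) : MZ) *ᵥ x) 2 = _
      rw [Subgroup.coe_mul, Units.val_mul, cj_mul, ← Matrix.mulVec_mulVec]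
    rw [h2] at h1
    exact h1
  have key : ∀ (r : ↥W) (a b c : ℤ), (∀ j, ((r : MZˣ) : MZ) 2 j = ![a, b, c] j) →
      u 2 ≤ Real.sqrt 3 * a * u 0 + Real.sqrt 3 * b * u 1 + c * u 2 := by
    intro r a b c h
    have h1 := hmin'' r
    have h3 := s3pos.ne'
    have e : (cj ((r : MZˣ) : MZ) *ᵥ u) 2 =
        Real.sqrt 3 * a * u 0 + Real.sqrt 3 * b * u 1 + c * u 2 := by
      simp only [Matrix.mulVec, dotProduct, Fin.sum_univ_three, cj_apply, h, sc]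
      simp
    rwa [e] at h1
  have k1 := key ⟨r3, r3_mem⟩ (-1) 0 2 (by intro j; fin_cases j <;> rfl)
  have k2 := key ⟨r3 * r1, W.mul_mem r3_mem r1_mem⟩ 0 (-1) 2 (by
    intro j; change (R3 * R1) 2 j = _; fin_cases j <;> decide)
  have k3 := key ⟨r3 * (r1 * r2), W.mul_mem r3_mem (W.mul_mem r1_mem r2_mem)⟩ 0 1 2 (by
    intro j; change (R3 * (R1 * R2)) 2 j = _; fin_cases j <;> decide)
  have k4 := key ⟨r3 * (r1 * (r2 * r1)), W.mul_mem r3_mem (W.mul_mem r1_mem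
    (W.mul_mem r2_mem r1_mem))⟩ 1 0 2 (by
    intro j; change (R3 * (R1 * (R2 * R1))) 2 j = _; fin_cases j <;> decide)
  push_cast at k1 k2 k3 k4
  have hu2 := huH.2
  have hs := s3sq
  have a1 : 3 * u 0 ^ 2 ≤ u 2 ^ 2 := by
    have h1 : Real.sqrt 3 * u 0 ≤ u 2 := by linarith
    have h2 : -(Real.sqrt 3 * u 0) ≤ u 2 := by linarith
    have h3 : (Real.sqrt 3 * u 0) ^ 2 ≤ u 2 ^ 2 := sq_le_sq' (by linarith) h1
    calc 3 * u 0 ^ 2 = (Real.sqrt 3 * u 0) ^ 2 := by rw [mul_pow, pow_two (Real.sqrt 3), hs]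
      _ ≤ _ := h3
  have a2 : 3 * u 1 ^ 2 ≤ u 2 ^ 2 := by
    have h1 : Real.sqrt 3 * u 1 ≤ u 2 := by linarith
    have h2 : -(Real.sqrt 3 * u 1) ≤ u 2 := by linarith
    have h3 : (Real.sqrt 3 * u 1) ^ 2 ≤ u 2 ^ 2 := sq_le_sq' (by linarith) h1
    calc 3 * u 1 ^ 2 = (Real.sqrt 3 * u 1) ^ 2 := by rw [mul_pow, pow_two (Real.sqrt 3), hs]
      _ ≤ _ := h3
  have hb := huH.1
  simp only [B] at hb
  have hfin2 : u 2 ^ 2 ≤ 2 ^ 2 := by nlinarith
  exact le_of_sq_le_sq'' hfin2 (by norm_num)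
where
  le_of_sq_le_sq'' {x y : ℝ} (h : x ^ 2 ≤ y ^ 2) (hy : 0 ≤ y) : x ≤ y :=
    (le_abs_self x).trans (abs_le_of_sq_le_sq h hy)

instance : Finite (Matrix (Fin 3) (Fin 3) (ZMod 5))ˣ := by
  have : Finite (Matrix (Fin 3) (Fin 3) (ZMod 5)) := by
    unfold Matrix; infer_instance
  infer_instance

theorem gam_cocpt : ∃ C0 : ℝ, ∀ g, IsLor g → ∃ a : ↥Gam, (mat a * g) 2 2 ≤ C0 := by
  classical
  -- coset representatives
  let rep : (Matrix (Fin 3) (Fin 3) (ZMod 5))ˣ × ℤˣ → ↥W := fun q =>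
    if h : ∃ w, piW w = q then h.choose else 1
  have hrep : ∀ w, piW (rep (piW w)) = piW w := by
    intro w
    have h : ∃ w', piW w' = piW w := ⟨w, rfl⟩
    simp only [rep, dif_pos h]
    exact h.choose_spec
  obtain ⟨c, hc⟩ := (Set.finite_range fun q => cj (((rep q)⁻¹ : ↥W) : MZˣ) 2 2).bddAbove
  refine ⟨3 * (c * 2), fun g hg => ?_⟩
  obtain ⟨w, hw⟩ := W_delta (hg.hyp hyp_o)
  have hmem : (rep (piW w))⁻¹ * w ∈ GZ := by
    change piW ((rep (piW w))⁻¹ * w) = 1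
    rw [map_mul, map_inv, hrep, inv_mul_cancel]
  refine ⟨eG ⟨_, hmem⟩, ?_⟩
  have e1 : mat (eG ⟨(rep (piW w))⁻¹ * w, hmem⟩) = cj (((rep (piW w))⁻¹ : ↥W) : MZˣ) *
      cj ((w : MZˣ) : MZ) := by
    rw [mat_eG, ← cj_mul]; rfl
  rw [← mulVec_o_two (mat (eG ⟨(rep (piW w))⁻¹ * w, hmem⟩) * g), e1, ← Matrix.mulVec_mulVec,
    ← Matrix.mulVec_mulVec]
  have hop := W_op ((rep (piW w))⁻¹ : ↥W).2
  have hH : Hyp (cj ((w : MZˣ) : MZ) *ᵥ (g *ᵥ o)) := (W_op w.2).hyp (hg.hyp hyp_o)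
  refine (op_mulVec_le hop hH).trans ?_
  have h1 : cj (((rep (piW w))⁻¹ : ↥W) : MZˣ) 2 2 ≤ c := hc ⟨piW w, rfl⟩
  have h2 := hop.2
  have h3 := hH.2
  have h4 : cj (((rep (piW w))⁻¹ : ↥W) : MZˣ) 2 2 * (cj ((w : MZˣ) : MZ) *ᵥ (g *ᵥ o)) 2 ≤ c * 2 :=
    mul_le_mul h1 hw h3.le (by linarith)
  linarith

end Pool.Agent.J4.H97.Anosov
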