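import Pool.Agent.J4.H97.Anosov.Group

/-!
The congruence subgroup satisfies all axioms of `Good`, and is a surface group.
-/

namespace Pool.Agent.J4.H97.Anosov

open Matrix Filter Topology

theorem det_sub_one {g : M3} (hg : gᵀ * J * g = J) (hd : g.det = 1) : (g - 1).det = 0 := by
  have h1 : gᵀ * J * (g - 1) = (1 - g)ᵀ * J := by
    rw [mul_sub, hg, mul_one, Matrix.transpose_sub, sub_mul]; simp
  have h2 := congrArg Matrix.det h1
  rw [Matrix.det_mul, Matrix.det_mul, Matrix.det_mul, Matrix.det_transpose, Matrix.det_transpose,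
    hd, one_mul] at h2
  have hJ : J.det = -1 := by
    rw [Matrix.det_fin_three]; simp [J]
  have h3 : (1 - g).det = - (g - 1).det := by
    rw [← neg_sub, Matrix.det_neg]; simp
    ring
  rw [hJ, h3] at h2
  linarith

theorem cj_sub_one (w : MZ) : cj (w - 1) = cj w - 1 := by
  have h : toR (w - 1) = toR w - 1 := by
    rw [← toR_one]
    ext i j
    simp only [toR, Matrix.map_apply, Matrix.sub_apply]
    push_cast
    ring
  unfold cj
  rw [h, mul_sub, sub_mul, mul_one, Dm_mul]

theorem exists_fix {a : ↥Gam} (ha : a ≠ 1) : ∃ u : Fin 3 → ℤ, 0 < fz u u ∧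
    mat a *ᵥ em u = em u := by
  have hd : (wz a - 1).det = 0 := by
    have h1 := gam_lor a
    rw [mat_wz] at h1
    have h2 := det_sub_one h1.1 h1.2.1
    rw [← cj_sub_one, det_cj] at h2
    exact_mod_cast h2
  obtain ⟨u, hu0, hu⟩ := Matrix.exists_mulVec_eq_zero_iff.mpr hd
  have hwu : wz a *ᵥ u = u := by
    rw [Matrix.sub_mulVec, Matrix.one_mulVec, sub_eq_zero] at hu; exact hu
  have hfix : mat a *ᵥ em u = em u := by rw [mat_wz, cj_em, hwu]
  have hne : fz u u ≠ 0 := by
    intro h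
    apply hu0
    apply aniso
    unfold fz at h
    nlinarith
  rcases lt_or_gt_of_ne hne with hneg | hpos
  · exfalso
    -- a fixed point in the hyperbolic plane
    have hBneg : (fz u u : ℝ) < 0 := by exact_mod_cast hneg
    set r := Real.sqrt (-(fz u u : ℝ)) with hr
    have hrpos : 0 < r := Real.sqrt_pos.mpr (by linarith)
    have hr2 : r * r = -(fz u u : ℝ) := Real.mul_self_sqrt (by linarith)
    have hem2 : em u 2 ≠ 0 := by
      intro h0
      have h1 := B_em u u
      simp only [B, h0] at h1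
      nlinarith [mul_self_nonneg (em u 0), mul_self_nonneg (em u 1)]
    have key : ∀ s : ℝ, s * s = 1 → 0 < s * em u 2 → False := by
      intro s hs hs2
      have hH : Hyp ((s * r⁻¹) • em u) := by
        refine ⟨?_, ?_⟩
        · rw [B_smul_left, B_smul_right, B_em]
          have : s * r⁻¹ * (s * r⁻¹ * (fz u u : ℝ)) = (s * s) * ((fz u u : ℝ) / (r * r)) := by
            field_simp
          rw [this, hs, hr2]
          have h5 : (fz u u : ℝ) ≠ 0 := ne_of_lt hBneg
          field_simp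
        · simp only [Pi.smul_apply, smul_eq_mul]
          have : s * r⁻¹ * em u 2 = (s * em u 2) * r⁻¹ := by ring
          rw [this]; positivity
      have hpfix : mat a *ᵥ ((s * r⁻¹) • em u) = (s * r⁻¹) • em u := by
        rw [Matrix.mulVec_smul, hfix]
      obtain ⟨t1, t2, t3⟩ := rot_trace (gam_lor a) hH hpfix
      rw [mat_wz, trace_cj] at t1 t2 t3
      have hmod := GZ_mod (eG.symm a).2
      have hdiag : ∀ i, (5 : ℤ) ∣ wz a i i - 1 := by
        intro i
        have h1 := congrFun (congrFun hmod i) i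
        rw [Matrix.one_apply_eq] at h1
        have h2 : ((wz a i i : ℤ) : ZMod 5) = 1 := h1
        have h3 : (((wz a i i - 1 : ℤ)) : ZMod 5) = 0 := by
          push_cast; rw [h2]; ring
        exact (ZMod.intCast_zmod_eq_zero_iff_dvd _ 5).mp h3
      have htr : (wz a).trace = wz a 0 0 + wz a 1 1 + wz a 2 2 := by
        simp [Matrix.trace, Fin.sum_univ_three]
      have hd0 := hdiag 0
      have hd1 := hdiag 1
      have hd2 := hdiag 2
      have b1 : -1 ≤ (wz a).trace := by exact_mod_cast t1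
      have b2 : (wz a).trace ≤ 3 := by exact_mod_cast t2
      have b3 : (wz a).trace = 3 := by omega
      have hone := t3 (by rw [b3]; norm_num)
      apply ha
      apply mat_inj
      rw [mat_wz, hone, mat_one]
    rcases lt_or_gt_of_ne hem2 with h | h
    · exact key (-1) (by norm_num) (by linarith)
    · exact key 1 (by norm_num) (by linarith)
  · exact ⟨u, hpos, hfix⟩

theorem unit_em {u : Fin 3 → ℤ} (hu : 0 < fz u u) :
    B ((Real.sqrt (fz u u : ℝ))⁻¹ • em u) ((Real.sqrt (fz u u : ℝ))⁻¹ • em u) = 1 := by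
  have h0 : (0 : ℝ) < fz u u := by exact_mod_cast hu
  have h1 : 0 < Real.sqrt (fz u u : ℝ) := Real.sqrt_pos.mpr h0
  have h2 : Real.sqrt (fz u u : ℝ) * Real.sqrt (fz u u : ℝ) = fz u u := Real.mul_self_sqrt h0.le
  rw [B_smul_left, B_smul_right, B_em]
  have : (Real.sqrt (fz u u : ℝ))⁻¹ * ((Real.sqrt (fz u u : ℝ))⁻¹ * (fz u u : ℝ)) =
      (fz u u : ℝ) / (Real.sqrt (fz u u : ℝ) * Real.sqrt (fz u u : ℝ)) := by field_simp
  rw [this, h2, div_self h0.ne']

theorem mat_ne_one {a : ↥Gam} (ha : a ≠ 1) : mat a ≠ 1 := by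
  intro h
  apply ha
  apply mat_inj
  rw [h, mat_one]

theorem normal_scalar {a : ↥Gam} (ha : a ≠ 1) {u : Fin 3 → ℤ} (hu : 0 < fz u u)
    (hau : mat a *ᵥ em u = em u) {n : V3} (hn : B n n = 1) (han : mat a *ᵥ n = n) :
    ∃ s : ℝ, n = s • em u ∧ s * s * (fz u u : ℝ) = 1 := by
  have h1 := fixed_unique_mat (gam_lor a) (mat_ne_one ha) (unit_em hu) hn
    (by rw [Matrix.mulVec_smul, hau]) han
  have key : ∀ s : ℝ, n = s • em u → s * s * (fz u u : ℝ) = 1 := by
    intro s hs
    rw [hs, B_smul_left, B_smul_right, B_em] at hn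
    linarith
  rcases h1 with h | h
  · exact ⟨_, h, key _ h⟩
  · rw [← neg_smul] at h
    exact ⟨_, h, key _ h⟩

theorem fz_comm (u v : Fin 3 → ℤ) : fz u v = fz v u := by unfold fz; ring

theorem gam_sep (a b : ↥Gam) (ha : a ≠ 1) (hb : b ≠ 1) (n m : V3) (hn : B n n = 1)
    (hm : B m m = 1) (han : mat a *ᵥ n = n) (hbm : mat b *ᵥ m = m) (h : |B n m| = 1) :
    m = n ∨ m = -n := by
  obtain ⟨u, hu, hau⟩ := exists_fix ha
  obtain ⟨v, hv, hbv⟩ := exists_fix hb
  obtain ⟨s, hns, hs⟩ := normal_scalar ha hu hau hn han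
  obtain ⟨t, hmt, ht⟩ := normal_scalar hb hv hbv hm hbm
  have h1 : (B n m) ^ 2 = 1 := by rw [← sq_abs, h, one_pow]
  rw [hns, hmt, B_smul_left, B_smul_right, B_em] at h1
  have hu' : (0 : ℝ) < fz u u := by exact_mod_cast hu
  have hs0 : s ≠ 0 := by rintro rfl; norm_num at hs
  have ht0 : t ≠ 0 := by rintro rfl; norm_num at ht
  have h2 : (fz u v : ℝ) ^ 2 = fz u u * fz v v := by
    have h3 : (s * s * (t * t)) * ((fz u v : ℝ) ^ 2) = (s * s * (t * t)) * (fz u u * fz v v) := by
      calc (s * s * (t * t)) * ((fz u v : ℝ) ^ 2) = (s * (t * (fz u v : ℝ))) ^ 2 := by ring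
        _ = 1 := h1
        _ = (s * s * (fz u u : ℝ)) * (t * t * (fz v v : ℝ)) := by rw [hs, ht, one_mul]
        _ = _ := by ring
    exact mul_left_cancel₀ (by positivity) h3
  have h2' : (fz u v) ^ 2 = fz u u * fz v v := by exact_mod_cast h2
  have hw : (fun i => fz u v * u i - fz u u * v i) = (0 : Fin 3 → ℤ) := by
    apply aniso
    have e : (fz u v * u 0 - fz u u * v 0) ^ 2 + (fz u v * u 1 - fz u u * v 1) ^ 2 -
        3 * (fz u v * u 2 - fz u u * v 2) ^ 2 =
        (fz u v) ^ 2 * fz u u - 2 * (fz u v) * (fz u u) * (fz u v) + (fz u u) ^ 2 * fz v v := by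
      unfold fz; ring
    rw [e]
    linear_combination (-(fz u u)) * h2'
  have hvu : ∀ i, (fz u v : ℝ) * u i = fz u u * v i := by
    intro i
    have := congrFun hw i
    simp only [Pi.zero_apply] at this
    have h3 : fz u v * u i = fz u u * v i := by linarith
    exact_mod_cast h3
  have hem : em v = ((fz u v : ℝ) / fz u u) • em u := by
    have h0 := hvu 0
    have h1 := hvu 1
    have h2 := hvu 2
    ext i
    fin_cases i
    · change (v 0 : ℝ) = (fz u v : ℝ) / fz u u * (u 0 : ℝ)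
      field_simp; linarith
    · change (v 1 : ℝ) = (fz u v : ℝ) / fz u u * (u 1 : ℝ)
      field_simp; linarith
    · change Real.sqrt 3 * (v 2 : ℝ) = (fz u v : ℝ) / fz u u * (Real.sqrt 3 * (u 2 : ℝ))
      field_simp; linarith
  have hmn : m = (t * ((fz u v : ℝ) / fz u u) * s⁻¹) • n := by
    rw [hmt, hem, hns, smul_smul, smul_smul]
    congr 1
    field_simp
  set l := t * ((fz u v : ℝ) / fz u u) * s⁻¹ with hl
  have hll : l ^ 2 = 1 := by
    rw [hmn, B_smul_left, B_smul_right, hn] at hm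
    linarith
  rcases sq_eq_one_iff_of_side hll with h5 | h5
  · left; rw [hmn, h5, one_smul]
  · right; rw [hmn, h5, neg_smul, one_smul]

theorem gam_good : Good Gam where
  lor := gam_lor
  fin := gam_fin
  cocpt := gam_cocpt
  normal := by
    intro a ha
    obtain ⟨u, hu, hau⟩ := exists_fix ha
    exact ⟨_, unit_em hu, by rw [Matrix.mulVec_smul, hau]⟩
  sep := gam_sep

theorem gam_surface : IsSurfaceGroup Gam where
  lorentz := fun γ hγ => gam_lor ⟨γ, hγ⟩
  torsionFree := by
    intro γ hγ n hn h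
    by_contra h1
    have h2 : (⟨γ, hγ⟩ : ↥Gam) ≠ 1 := fun hc => h1 (congrArg Subtype.val hc)
    exact gam_good.pow_ne h2 hn (Subtype.ext h)
  discrete := by
    refine ⟨1 / 2, by norm_num, fun γ hγ h => ?_⟩
    have h1 : wz ⟨γ, hγ⟩ = 1 := by
      ext i j
      have h2 := h i j
      have h3 : (γ : M3) i j = cj (wz ⟨γ, hγ⟩) i j := by rw [← mat_wz]; rfl
      have h4 : (1 : M3) i j = cj 1 i j := by rw [cj_one]
      rw [h3, h4, cj_apply, cj_apply] at h2
      have hi := sc_pos i
      have hj := sc_pos j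
      have hr := sc_ratio i j
      have h5 : ((wz ⟨γ, hγ⟩ i j : ℝ) - ((1 : MZ) i j : ℝ)) =
          (sc j / sc i) * (sc i * (wz ⟨γ, hγ⟩ i j : ℝ) / sc j - sc i * ((1 : MZ) i j : ℝ) / sc j) := by
        field_simp
      have h6 : |((wz ⟨γ, hγ⟩ i j : ℝ) - ((1 : MZ) i j : ℝ))| < 1 := by
        rw [h5, abs_mul, abs_of_pos (by positivity : 0 < sc j / sc i)]
        calc _ < 2 * (1 / 2) := mul_lt_mul'' hr h2 (by positivity) (abs_nonneg _)
          _ = 1 := by norm_num
      have h7 : |wz ⟨γ, hγ⟩ i j - (1 : MZ) i j| < 1 := by exact_mod_cast h6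
      have := Int.abs_lt_one_iff.mp h7
      omega
    have h2 : (⟨γ, hγ⟩ : ↥Gam) = 1 := by
      apply mat_inj
      rw [mat_wz, h1, cj_one, mat_one]
    exact congrArg Subtype.val h2
  cocompact := by
    obtain ⟨C0, hC0⟩ := gam_cocpt
    refine ⟨{g : M3 | IsLor g ∧ g 2 2 ≤ C0}, isCompact_ball C0, fun g hg => ?_⟩
    obtain ⟨a, ha⟩ := hC0 g hg
    refine ⟨_, (a⁻¹).2, mat a * g, ⟨(gam_lor a).mul hg, ha⟩, ?_⟩
    change g = mat a⁻¹ * (mat a * g)
    rw [← mul_assoc, ← mat_mul, inv_mul_cancel, mat_one, one_mul]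

theorem gam_fg : ∃ S : Finset ↥Gam, Subgroup.closure (S : Set ↥Gam) = ⊤ := by
  have h1 : Group.FG ↥W := by
    rw [Group.fg_iff_subgroup_fg]
    exact ⟨{r1, r2, r3}, by simp [W]⟩
  have h2 : GZ.FiniteIndex := by
    unfold GZ
    exact Subgroup.finiteIndex_ker piW
  have h3 : Group.FG ↥GZ := inferInstance
  have h4 : Group.FG ↥Gam := Group.fg_of_surjective (f := eG.toMonoidHom) eG.surjective
  obtain ⟨S, hS⟩ := h4.out
  exact ⟨S, hS⟩

end Pool.Agent.J4.H97.Anosov
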