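import Pool.Agent.J4.H97.Anosov.KN2

/-!
The algebra map between the spans of two representations with the same character.
-/

namespace Pool.Agent.J4.H97.Anosov

open Matrix Filter Topology Polynomial

variable {G : Type*} [Group G] {d : ℕ}

theorem exists_theta (S : Finset G) (hS : Subgroup.closure (S : Set G) = ⊤)
    (ρ₀ ρ₁ : G →* SLd d) (htr : ∀ γ, (ρ₀ γ : Md d).trace = (ρ₁ γ : Md d).trace)
    (hmin : MinT S (mrep ρ₁)) :
    ∃ θ : Md d →ₗ[ℂ] Md d, (∀ γ, θ (ρ₀ γ : Md d) = (ρ₁ γ : Md d)) ∧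
      (∀ x ∈ spn ρ₀, ∀ y ∈ spn ρ₀, θ (x * y) = θ x * θ y) ∧
      (∀ x ∈ spn ρ₀, (θ x).trace = x.trace) := by
  let L₀ : (G →₀ ℂ) →ₗ[ℂ] Md d := Finsupp.linearCombination ℂ (mrep ρ₀)
  let L₁ : (G →₀ ℂ) →ₗ[ℂ] Md d := Finsupp.linearCombination ℂ (mrep ρ₁)
  have hL0 : ∀ c, L₀ c = c.sum fun γ a => a • (ρ₀ γ : Md d) := fun c => rfl
  have hL1 : ∀ c, L₁ c = c.sum fun γ a => a • (ρ₁ γ : Md d) := fun c => rfl
  have hker : ∀ c, L₀ c = 0 → L₁ c = 0 := by
    intro c hc
    refine radical_zero S hS ρ₁ hmin _ ?_ ?_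
    · rw [hL1]
      exact Submodule.sum_mem _ fun γ _ => Submodule.smul_mem _ _ (rep_mem_spn ρ₁ γ)
    · intro δ
      have h1 : (L₀ c * (ρ₀ δ : Md d)).trace = (L₁ c * (ρ₁ δ : Md d)).trace := by
        rw [hL0, hL1, Finsupp.sum, Finsupp.sum, Finset.sum_mul, Finset.sum_mul,
          Matrix.trace_sum, Matrix.trace_sum]
        refine Finset.sum_congr rfl fun γ _ => ?_
        rw [Matrix.smul_mul, Matrix.smul_mul, Matrix.trace_smul, Matrix.trace_smul]
        have h2 := htr (γ * δ)
        simp only [map_mul, Matrix.SpecialLinearGroup.coe_mul] at h2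
        rw [h2]
      rw [← h1, hc, zero_mul, Matrix.trace_zero]
  obtain ⟨s, hs⟩ := L₀.rangeRestrict.exists_rightInverse_of_surjective (LinearMap.range_rangeRestrict L₀)
  obtain ⟨θ, hθ⟩ := LinearMap.exists_extend (L₁.comp s)
  have hθL : ∀ c, θ (L₀ c) = L₁ c := by
    intro c
    have h1 : θ (L₀ c) = L₁ (s (L₀.rangeRestrict c)) := by
      have := LinearMap.congr_fun hθ (L₀.rangeRestrict c)
      simpa using this
    have h2 : L₀ (s (L₀.rangeRestrict c)) = L₀ c := by
      have := LinearMap.congr_fun hs (L₀.rangeRestrict c)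
      have h3 := congrArg Subtype.val this
      simpa using h3
    have h3 : L₁ (s (L₀.rangeRestrict c) - c) = 0 := hker _ (by rw [map_sub, h2, sub_self])
    rw [map_sub, sub_eq_zero] at h3
    rw [h1, h3]
  have hθρ : ∀ γ, θ (ρ₀ γ : Md d) = (ρ₁ γ : Md d) := by
    intro γ
    have h1 := hθL (Finsupp.single γ 1)
    simpa [L₀, L₁] using h1
  refine ⟨θ, hθρ, ?_, ?_⟩
  · intro x hx y hy
    unfold spn at hx hy
    induction hx using Submodule.span_induction with
    | mem x hx =>
      obtain ⟨a, rfl⟩ := hx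
      induction hy using Submodule.span_induction with
      | mem y hy =>
        obtain ⟨b, rfl⟩ := hy
        have := hθρ (a * b)
        simp only [map_mul, Matrix.SpecialLinearGroup.coe_mul] at this
        rw [mrep_apply, mrep_apply, this, hθρ, hθρ]
      | zero => simp
      | add y z _ _ hy hz => rw [mul_add, map_add, hy, hz, map_add, mul_add]
      | smul c y _ hy => rw [Matrix.mul_smul, map_smul, hy, map_smul, Matrix.mul_smul]
    | zero => simp
    | add y z _ _ hy hz => rw [add_mul, map_add, hy, hz, map_add, add_mul]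
    | smul c y _ hy => rw [Matrix.smul_mul, map_smul, hy, map_smul, Matrix.smul_mul]
  · intro x hx
    unfold spn at hx
    induction hx using Submodule.span_induction with
    | mem x hx =>
      obtain ⟨a, rfl⟩ := hx
      rw [mrep_apply, hθρ, htr]
    | zero => simp
    | add y z _ _ hy hz => rw [map_add, Matrix.trace_add, Matrix.trace_add, hy, hz]
    | smul c y _ hy => rw [map_smul, Matrix.trace_smul, Matrix.trace_smul, hy]

theorem aeval_comm (A R : Md d) (hAR : A * R = R * A) (p : ℂ[X]) :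
    aeval A p * R = R * aeval A p := by
  induction p using Polynomial.induction_on' with
  | add p q hp hq => rw [map_add, add_mul, mul_add, hp, hq]
  | monomial n c =>
    rw [Polynomial.aeval_monomial]
    have h1 : A ^ n * R = R * A ^ n := (Commute.pow_left (show Commute A R from hAR) n)
    rw [mul_assoc, h1, ← mul_assoc, ← mul_assoc, Algebra.commutes]

theorem ann_poly (A R : Md d) (hAR : A * R = R * A) (hR : R * R = R) :
    ∃ a : ℂ[X], aeval A a * R = 0 ∧ ∀ μ : ℂ, a.eval μ = 0 →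
      ∃ v : Fin d → ℂ, v ≠ 0 ∧ R *ᵥ v = v ∧ A *ᵥ v = μ • v := by
  let I : Ideal ℂ[X] :=
    { carrier := {p | aeval A p * R = 0}
      add_mem' := by
        intro p q hp hq
        simp only [Set.mem_ofPred_eq] at *
        rw [map_add, add_mul, hp, hq, add_zero]
      zero_mem' := by simp
      smul_mem' := by
        intro c p hp
        simp only [Set.mem_ofPred_eq, smul_eq_mul] at *
        rw [map_mul, mul_assoc, hp, mul_zero] }
  have hI : ∀ p, p ∈ I ↔ aeval A p * R = 0 := fun p => Iff.rfl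
  set a := Submodule.IsPrincipal.generator I with ha
  have haI : a ∈ I := Submodule.IsPrincipal.generator_mem I
  have hdvd : ∀ p ∈ I, a ∣ p := fun p hp => (Submodule.IsPrincipal.mem_iff_generator_dvd I).mp hp
  have ha0 : a ≠ 0 := by
    intro h0
    have h1 : A.charpoly ∈ I := by rw [hI, Matrix.aeval_self_charpoly, zero_mul]
    have h2 := hdvd _ h1
    rw [h0, zero_dvd_iff] at h2
    exact (Matrix.charpoly_monic A).ne_zero h2
  refine ⟨a, (hI a).mp haI, ?_⟩
  intro μ hμ
  obtain ⟨a', ha'⟩ := Polynomial.dvd_iff_isRoot.mpr hμ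
  have ha'I : a' ∉ I := by
    intro h
    obtain ⟨c, hc⟩ := hdvd a' h
    have h1 : a * 1 = a * ((X - C μ) * c) := by
      rw [mul_one]
      calc a = (X - C μ) * a' := ha'
        _ = (X - C μ) * (a * c) := by rw [← hc]
        _ = a * ((X - C μ) * c) := by ring
    have h2 := mul_left_cancel₀ ha0 h1
    exact Polynomial.not_isUnit_X_sub_C μ (IsUnit.of_mul_eq_one _ h2.symm)
  rw [hI] at ha'I
  obtain ⟨x, hx⟩ : ∃ x, (aeval A a' * R) *ᵥ x ≠ 0 := by
    by_contra hcon
    push Not at hcon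
    apply ha'I
    apply Matrix.mulVec_injective
    funext x
    rw [hcon x]; simp
  refine ⟨_, hx, ?_, ?_⟩
  · rw [Matrix.mulVec_mulVec, ← mul_assoc, ← aeval_comm A R hAR, mul_assoc, hR]
  · have h1 : aeval A (X - C μ) * (aeval A a' * R) = 0 := by
      rw [← mul_assoc, ← map_mul, ← ha']
      exact haI
    rw [map_sub, Polynomial.aeval_X, Polynomial.aeval_C, sub_mul, sub_eq_zero] at h1
    rw [Matrix.mulVec_mulVec, h1, ← Matrix.mulVec_mulVec, Algebra.algebraMap_eq_smul_one,
      Matrix.smul_mulVec, Matrix.one_mulVec]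

/-- If `A` commutes with the idempotent `P` and has no common eigenvalue on range and kernel,
then `P` is a polynomial in `A`. -/
theorem proj_poly (A P : Md d) (hAP : A * P = P * A) (hP : P * P = P)
    (hsep : ∀ (μ : ℂ) (v w : Fin d → ℂ), v ≠ 0 → w ≠ 0 → P *ᵥ v = v → P *ᵥ w = 0 →
      A *ᵥ v = μ • v → A *ᵥ w = μ • w → False) :
    ∃ b : ℂ[X], P = aeval A b := by
  obtain ⟨a, ha, ha'⟩ := ann_poly A P hAP hP
  obtain ⟨b, hb, hb'⟩ := ann_poly A (1 - P) (by rw [mul_sub, sub_mul, mul_one, one_mul, hAP])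
    (by rw [mul_sub, sub_mul, sub_mul, hP]; simp)
  have hcop : IsCoprime a b := by
    rw [Polynomial.isCoprime_iff_aeval_ne_zero_of_isAlgClosed ℂ ℂ]
    intro μ
    by_contra hcon
    push Not at hcon
    obtain ⟨h1, h2⟩ := hcon
    obtain ⟨v, hv0, hPv, hAv⟩ := ha' μ (by simpa [Polynomial.aeval_def] using h1)
    obtain ⟨w, hw0, hPw, hAw⟩ := hb' μ (by simpa [Polynomial.aeval_def] using h2)
    refine hsep μ v w hv0 hw0 hPv ?_ hAv hAw
    rw [Matrix.sub_mulVec, Matrix.one_mulVec] at hPw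
    have := sub_eq_self.mp hPw
    exact this
  obtain ⟨u, w, huw⟩ := hcop
  refine ⟨w * b, ?_⟩
  have h1 : aeval A (w * b) * (1 - P) = 0 := by rw [map_mul, mul_assoc, hb, mul_zero]
  have h2 : aeval A (u * a) * P = 0 := by rw [map_mul, mul_assoc, ha, mul_zero]
  have h3 : aeval A (u * a) + aeval A (w * b) = 1 := by rw [← map_add, huw, map_one]
  rw [mul_sub, mul_one, sub_eq_zero] at h1
  rw [h1]
  calc P = (aeval A (u * a) + aeval A (w * b)) * P := by rw [h3, one_mul]
    _ = aeval A (w * b) * P := by rw [add_mul, h2, zero_add]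

end Pool.Agent.J4.H97.Anosov
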