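import Pool.Agent.J4.H97.Anosov.Simple
import Pool.Agent.J4.H97.Anosov.Theta

/-!
Hermitian norms on compact sets.
-/

namespace Pool.Agent.J4.H97.Anosov

open Matrix Filter Topology Polynomial
open scoped ComplexOrder

variable {d : ℕ}

theorem hnorm_smul (A : Md d) (c : ℂ) (v : Fin d → ℂ) : hnorm A (c • v) = ‖c‖ * hnorm A v := by
  unfold hnorm
  have h1 : (star (c • v) ⬝ᵥ (A *ᵥ (c • v))) = ((‖c‖ ^ 2 : ℝ) : ℂ) * (star v ⬝ᵥ (A *ᵥ v)) := by
    rw [Matrix.mulVec_smul, star_smul, smul_dotProduct, dotProduct_smul, smul_eq_mul, smul_eq_mul,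
      ← mul_assoc]
    congr 1
    rw [← starRingEnd_apply, mul_comm, Complex.mul_conj, Complex.normSq_eq_norm_sq]
  rw [h1, Complex.re_ofReal_mul, Real.sqrt_mul (by positivity), Real.sqrt_sq (norm_nonneg _)]

theorem hnorm_pos {A : Md d} (hA : A.PosDef) {v : Fin d → ℂ} (hv : v ≠ 0) : 0 < hnorm A v := by
  unfold hnorm
  apply Real.sqrt_pos.mpr
  exact (Complex.pos_iff.mp (hA.dotProduct_mulVec_pos hv)).1

theorem hnorm_bounds {K : Set M3} (hK : IsCompact K) (H : M3 → Md d) (hH : ContinuousOn H K)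
    (hpos : ∀ g ∈ K, (H g).PosDef) :
    ∃ m M : ℝ, 0 < m ∧ 0 < M ∧ ∀ g ∈ K, ∀ v : Fin d → ℂ,
      m * ‖v‖ ≤ hnorm (H g) v ∧ hnorm (H g) v ≤ M * ‖v‖ := by
  let S : Set (Fin d → ℂ) := Metric.sphere 0 1
  have hS : IsCompact S := isCompact_sphere _ _
  have hKS : IsCompact (K ×ˢ S) := hK.prod hS
  let f : M3 × (Fin d → ℂ) → ℝ := fun p => hnorm (H p.1) p.2
  have hf : ContinuousOn f (K ×ˢ S) := by
    have h1 : Continuous fun q : Md d × (Fin d → ℂ) => hnorm q.1 q.2 := by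
      have hc1 : Continuous fun q : Md d × (Fin d → ℂ) => q.1 *ᵥ q.2 :=
        Continuous.matrix_mulVec continuous_fst continuous_snd
      have hc2 : Continuous fun q : Md d × (Fin d → ℂ) => star q.2 :=
        continuous_star.comp continuous_snd
      have hc3 : Continuous fun q : Md d × (Fin d → ℂ) => star q.2 ⬝ᵥ (q.1 *ᵥ q.2) :=
        Continuous.dotProduct hc2 hc1
      have hc4 : Continuous fun q : Md d × (Fin d → ℂ) => (star q.2 ⬝ᵥ (q.1 *ᵥ q.2)).re :=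
        Complex.continuous_re.comp hc3
      unfold hnorm
      exact hc4.sqrt
    have h2 : ContinuousOn (fun p : M3 × (Fin d → ℂ) => H p.1) (K ×ˢ S) :=
      hH.comp continuousOn_fst (fun p hp => hp.1)
    have h3 : ContinuousOn (fun p : M3 × (Fin d → ℂ) => (H p.1, p.2)) (K ×ˢ S) :=
      h2.prodMk continuousOn_snd
    have h4 := h1.comp_continuousOn h3
    exact h4
  have hscale : ∀ g (v : Fin d → ℂ), v ≠ 0 → hnorm (H g) v =
      ‖v‖ * f (g, ((‖v‖⁻¹ : ℝ) : ℂ) • v) := by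
    intro g v hv
    have hv' : 0 < ‖v‖ := norm_pos_iff.mpr hv
    change _ = ‖v‖ * hnorm (H g) _
    rw [hnorm_smul, Complex.norm_real, Real.norm_eq_abs, abs_of_pos (inv_pos.mpr hv'),
      ← mul_assoc, mul_inv_cancel₀ hv'.ne', one_mul]
  have hmem : ∀ v : Fin d → ℂ, v ≠ 0 → ((‖v‖⁻¹ : ℝ) : ℂ) • v ∈ S := by
    intro v hv
    have hv' : 0 < ‖v‖ := norm_pos_iff.mpr hv
    change _ ∈ Metric.sphere _ _
    rw [mem_sphere_zero_iff_norm, norm_smul, Complex.norm_real, Real.norm_eq_abs,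
      abs_of_pos (inv_pos.mpr hv'), inv_mul_cancel₀ hv'.ne']
  have hzero : ∀ g, hnorm (H g) (0 : Fin d → ℂ) = 0 := by
    intro g; unfold hnorm; simp
  by_cases hne : (K ×ˢ S).Nonempty
  · obtain ⟨p, hp, hpmin⟩ := hKS.exists_isMinOn hne hf
    obtain ⟨q, hq, hqmax⟩ := hKS.exists_isMaxOn hne hf
    have hfp : 0 < f p := by
      refine hnorm_pos (hpos _ hp.1) ?_
      intro h0
      have := hp.2
      change _ ∈ Metric.sphere _ _ at this
      rw [h0, mem_sphere_zero_iff_norm, norm_zero] at this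
      exact zero_ne_one this
    have hpq : f p ≤ f q := isMinOn_iff.mp hpmin q hq
    have hfq : 0 < f q := lt_of_lt_of_le hfp hpq
    refine ⟨f p, f q, hfp, hfq, fun g hg v => ?_⟩
    by_cases hv : v = 0
    · rw [hv, hzero]; simp
    · rw [hscale g v hv]
      have hv' : 0 < ‖v‖ := norm_pos_iff.mpr hv
      have hin : (g, ((‖v‖⁻¹ : ℝ) : ℂ) • v) ∈ K ×ˢ S := ⟨hg, hmem v hv⟩
      have h1 : f p ≤ f (g, ((‖v‖⁻¹ : ℝ) : ℂ) • v) := isMinOn_iff.mp hpmin _ hin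
      have h2 : f (g, ((‖v‖⁻¹ : ℝ) : ℂ) • v) ≤ f q := isMaxOn_iff.mp hqmax _ hin
      constructor
      · rw [mul_comm]; exact mul_le_mul_of_nonneg_left h1 hv'.le
      · rw [mul_comm (f q)]; exact mul_le_mul_of_nonneg_left h2 hv'.le
  · refine ⟨1, 1, one_pos, one_pos, fun g hg v => ?_⟩
    by_cases hv : v = 0
    · rw [hv, hzero]; simp
    · exact absurd ⟨(g, ((‖v‖⁻¹ : ℝ) : ℂ) • v), hg, hmem v hv⟩ hne

end Pool.Agent.J4.H97.Anosov
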