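import Pool.Agent.J4.H97.Anosov.Alg

/-!
Minimal vectors (Kempf-Ness) for tuples of matrices: existence, compactness, semisimplicity.
-/

namespace Pool.Agent.J4.H97.Anosov

open Matrix Filter Topology Polynomial

/-- The special linear group. -/
abbrev SLd (d : ℕ) := Matrix.SpecialLinearGroup (Fin d) ℂ

/-- Squared Frobenius norm. -/
noncomputable def fro {d : ℕ} (X : Md d) : ℝ := ∑ i, ∑ j, ‖X i j‖ ^ 2

theorem fro_nonneg {d : ℕ} (X : Md d) : 0 ≤ fro X :=
  Finset.sum_nonneg fun _ _ => Finset.sum_nonneg fun _ _ => sq_nonneg _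

theorem entry_le_fro {d : ℕ} (X : Md d) (i j : Fin d) : ‖X i j‖ ^ 2 ≤ fro X := by
  unfold fro
  refine le_trans ?_ (Finset.single_le_sum (f := fun i => ∑ j, ‖X i j‖ ^ 2)
    (fun i _ => Finset.sum_nonneg fun _ _ => sq_nonneg _) (Finset.mem_univ i))
  exact Finset.single_le_sum (f := fun j => ‖X i j‖ ^ 2) (fun _ _ => sq_nonneg _)
    (Finset.mem_univ j)

theorem fro_eq_zero {d : ℕ} (X : Md d) (h : fro X = 0) : X = 0 := by
  ext i j
  have := entry_le_fro X i j
  rw [h] at this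
  have h2 : ‖X i j‖ = 0 := by
    have := le_antisymm this (sq_nonneg _)
    exact pow_eq_zero_iff (two_ne_zero) |>.mp this
  simpa using h2

theorem fro_smul {d : ℕ} (c : ℂ) (X : Md d) : fro (c • X) = ‖c‖ ^ 2 * fro X := by
  unfold fro
  simp only [Matrix.smul_apply, smul_eq_mul, norm_mul, mul_pow, Finset.mul_sum]

theorem fro_eq_trace {d : ℕ} (X : Md d) : fro X = (Xᴴ * X).trace.re := by
  unfold fro
  simp only [Matrix.trace, Matrix.diag_apply, Matrix.mul_apply, Matrix.conjTranspose_apply,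
    Complex.re_sum]
  rw [Finset.sum_comm]
  refine Finset.sum_congr rfl fun i _ => Finset.sum_congr rfl fun j _ => ?_
  rw [← starRingEnd_apply, mul_comm, Complex.mul_conj, Complex.normSq_eq_norm_sq,
    Complex.ofReal_re]

theorem continuous_fro {d : ℕ} : Continuous (fro : Md d → ℝ) := by
  unfold fro
  refine continuous_finsetSum _ fun i _ => continuous_finsetSum _ fun j _ => ?_
  exact (continuous_norm.comp (continuous_id.matrix_elem i j)).pow 2

theorem fro_add {d : ℕ} (X Y : Md d) (h : (Xᴴ * Y).trace = 0) : fro (X + Y) = fro X + fro Y := by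
  have h2 : (Yᴴ * X).trace = 0 := by
    have : (Yᴴ * X) = (Xᴴ * Y)ᴴ := by simp
    rw [this, Matrix.trace_conjTranspose, h]; simp
  simp only [fro_eq_trace, Matrix.conjTranspose_add, add_mul, mul_add, Matrix.trace_add, h, h2,
    Complex.add_re]
  simp

/-- A tuple of matrices which minimises the Frobenius norm in its conjugation orbit. -/
def MinT {G : Type*} {d : ℕ} (S : Finset G) (A : G → Md d) : Prop :=
  ∀ g g' : Md d, g * g' = 1 → ∑ s ∈ S, fro (A s) ≤ ∑ s ∈ S, fro (g * A s * g')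

theorem fro_split {d : ℕ} (Q A : Md d) (hQ : Q * Q = Q) (hQs : Qᴴ = Q) (c : ℂ) : fro (Q * A * Q + c • (Q * A * (1 - Q)) + (1 - Q) * A * (1 - Q)) =
      fro (Q * A * Q) + ‖c‖ ^ 2 * fro (Q * A * (1 - Q)) + fro ((1 - Q) * A * (1 - Q)) := by
  have hQ' : (1 - Q) * Q = 0 := by rw [sub_mul, one_mul, hQ, sub_self]
  have hQ'' : Q * (1 - Q) = 0 := by rw [mul_sub, mul_one, hQ, sub_self]
  rw [fro_add, fro_add, fro_smul]
  · rw [Matrix.mul_smul, Matrix.trace_smul]
    have h1 : (Q * A * Q)ᴴ * (Q * A * (1 - Q)) = (Q * Aᴴ * Q * Q * A) * (1 - Q) := by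
      simp only [Matrix.conjTranspose_mul, hQs, mul_assoc]
    rw [h1, Matrix.trace_mul_comm]
    have h2 : (1 - Q) * (Q * Aᴴ * Q * Q * A) = ((1 - Q) * Q) * (Aᴴ * Q * Q * A) := by
      simp only [mul_assoc]
    rw [h2, hQ']; simp
  · have h1 : (Q * A * Q + c • (Q * A * (1 - Q)))ᴴ * ((1 - Q) * A * (1 - Q)) = 0 := by
      have h2 : Q * A * Q + c • (Q * A * (1 - Q)) = Q * (A * Q + c • (A * (1 - Q))) := by
        rw [mul_add, Matrix.mul_smul, mul_assoc, mul_assoc]
      rw [h2, Matrix.conjTranspose_mul, hQs]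
      have h3 : (A * Q + c • (A * (1 - Q)))ᴴ * Q * ((1 - Q) * A * (1 - Q)) =
        (A * Q + c • (A * (1 - Q)))ᴴ * (Q * (1 - Q)) * A * (1 - Q) := by
        simp only [mul_assoc]
      rw [h3, hQ'']; simp
    rw [h1]; simp

theorem MinT.red {G : Type*} {d : ℕ} {S : Finset G} {A : G → Md d} (h : MinT S A)
    (Q : Md d) (hQ : Q * Q = Q) (hQs : Qᴴ = Q) (hinv : ∀ s ∈ S, A s * Q = Q * A s * Q) :
    ∀ s ∈ S, Q * A s = Q * A s * Q := by
  have hQ' : (1 - Q) * Q = 0 := by rw [sub_mul, one_mul, hQ, sub_self]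
  have hQ'' : Q * (1 - Q) = 0 := by rw [mul_sub, mul_one, hQ, sub_self]
  have hQ3 : (1 - Q) * (1 - Q) = 1 - Q := by rw [mul_sub, mul_one, hQ', sub_zero]
  have key := h ((1 / 2 : ℂ) • Q + (1 - Q)) ((2 : ℂ) • Q + (1 - Q)) (by
    rw [add_mul, mul_add, mul_add, hQ3]
    simp only [Matrix.smul_mul, Matrix.mul_smul, hQ, hQ', hQ'', smul_zero, smul_smul]
    norm_num)
  have e1 : ∀ s ∈ S, fro (A s) = fro (Q * A s * Q) + fro (Q * A s * (1 - Q)) +
      fro ((1 - Q) * A s * (1 - Q)) := by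
    intro s hs
    have h1 := fro_split Q (A s) hQ hQs 1
    rw [norm_one, one_pow, one_mul, one_smul] at h1
    rw [← h1]
    congr 1
    have h2 : (1 - Q) * A s * Q = 0 := by
      rw [sub_mul, one_mul, sub_mul, ← hinv s hs, sub_self]
    have h3 : A s = Q * A s * Q + Q * A s * (1 - Q) + (1 - Q) * A s * (1 - Q)
        + (1 - Q) * A s * Q := by noncomm_ring
    rw [h2, add_zero] at h3
    exact h3
  have e2 : ∀ s ∈ S, fro (((1 / 2 : ℂ) • Q + (1 - Q)) * A s * ((2 : ℂ) • Q + (1 - Q))) =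
      fro (Q * A s * Q) + 1 / 4 * fro (Q * A s * (1 - Q)) +
      fro ((1 - Q) * A s * (1 - Q)) := by
    intro s hs
    have h1 := fro_split Q (A s) hQ hQs (1 / 2)
    have h4 : ‖(1 / 2 : ℂ)‖ ^ 2 = 1 / 4 := by norm_num
    rw [h4] at h1
    rw [← h1]
    congr 1
    have h2 : (1 - Q) * A s * Q = 0 := by
      rw [sub_mul, one_mul, sub_mul, ← hinv s hs, sub_self]
    rw [add_mul, add_mul, mul_add, mul_add]
    simp only [Matrix.smul_mul, Matrix.mul_smul, h2, smul_smul, smul_zero]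
    norm_num
  rw [Finset.sum_congr rfl e1, Finset.sum_congr rfl e2] at key
  simp only [Finset.sum_add_distrib] at key
  rw [← Finset.mul_sum] at key
  have h0 : ∑ s ∈ S, fro (Q * A s * (1 - Q)) ≤ 0 := by linarith
  have h1 : ∑ s ∈ S, fro (Q * A s * (1 - Q)) = 0 :=
    le_antisymm h0 (Finset.sum_nonneg fun _ _ => fro_nonneg _)
  rw [Finset.sum_eq_zero_iff_of_nonneg fun _ _ => fro_nonneg _] at h1
  intro s hs
  have h2 := fro_eq_zero _ (h1 s hs)
  rw [mul_sub, mul_one, sub_eq_zero] at h2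
  exact h2

/-- Ultrafilter limits of bounded families of matrices. -/
theorem exists_ulim {α : Type*} (𝒰 : Ultrafilter α) {d : ℕ} (f : α → Md d) (C : ℝ)
    (h : ∀ᶠ n in (𝒰 : Filter α), fro (f n) ≤ C) :
    ∃ X, Tendsto f (𝒰 : Filter α) (𝓝 X) := by
  have h1 : ∀ i j, ∃ x : ℂ, Tendsto (fun n => f n i j) (𝒰 : Filter α) (𝓝 x) := by
    intro i j
    have hc : IsCompact (Metric.closedBall (0 : ℂ) (Real.sqrt C)) := isCompact_closedBall _ _
    have hm : ∀ᶠ n in (𝒰 : Filter α), f n i j ∈ Metric.closedBall (0 : ℂ) (Real.sqrt C) := by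
      filter_upwards [h] with n hn
      rw [mem_closedBall_zero_iff]
      apply Real.le_sqrt_of_sq_le
      exact (entry_le_fro _ i j).trans hn
    obtain ⟨x, -, hx⟩ := hc.ultrafilter_le_nhds' (𝒰.map fun n => f n i j) hm
    exact ⟨x, hx⟩
  choose x hx using h1
  refine ⟨Matrix.of x, ?_⟩
  refine tendsto_pi_nhds.mpr fun i => ?_
  refine tendsto_pi_nhds.mpr fun j => ?_
  exact hx i j

/-- A homomorphism into `SL(d)` as a monoid homomorphism into matrices. -/
def mrep {G : Type*} [Group G] {d : ℕ} (ρ : G →* SLd d) : G →* Md d where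
  toFun γ := (ρ γ : Md d)
  map_one' := by simp
  map_mul' := by intro a b; simp

@[simp] theorem mrep_apply {G : Type*} [Group G] {d : ℕ} (ρ : G →* SLd d) (γ : G) :
    mrep ρ γ = (ρ γ : Md d) := rfl

/-- Ultralimits of representations which are bounded on generators. -/
theorem ulim_rep {G α : Type*} [Group G] (𝒰 : Ultrafilter α) {d : ℕ} (S : Finset G)
    (hS : Subgroup.closure (S : Set G) = ⊤) (r : α → G →* SLd d) (C : ℝ)
    (h : ∀ s ∈ S, ∀ᶠ n in (𝒰 : Filter α), fro (r n s : Md d) ≤ C) :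
    ∃ ρ : G →* SLd d, ∀ γ, Tendsto (fun n => (r n γ : Md d)) (𝒰 : Filter α) (𝓝 (ρ γ : Md d)) := by
  have h1 : ∀ γ : G, ∃ X : Md d, Tendsto (fun n => (r n γ : Md d)) (𝒰 : Filter α) (𝓝 X) := by
    intro γ
    have hγ : γ ∈ Subgroup.closure (S : Set G) := by rw [hS]; trivial
    induction hγ using Subgroup.closure_induction with
    | mem x hx => exact exists_ulim 𝒰 _ C (h x hx)
    | one =>
      refine ⟨1, ?_⟩
      simp only [map_one, Matrix.SpecialLinearGroup.coe_one]
      exact tendsto_const_nhds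
    | mul x y _ _ hx hy =>
      obtain ⟨X, hX⟩ := hx
      obtain ⟨Y, hY⟩ := hy
      refine ⟨X * Y, ?_⟩
      simp only [map_mul, Matrix.SpecialLinearGroup.coe_mul]
      exact hX.mul hY
    | inv x _ hx =>
      obtain ⟨X, hX⟩ := hx
      refine ⟨X.adjugate, ?_⟩
      simp only [map_inv, Matrix.SpecialLinearGroup.coe_inv]
      exact ((continuous_id.matrix_adjugate).tendsto X).comp hX
  choose X hX using h1
  have hdet : ∀ γ, (X γ).det = 1 := by
    intro γ
    have h2 : Tendsto (fun n => (r n γ : Md d).det) (𝒰 : Filter α) (𝓝 (X γ).det) :=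
      ((continuous_id.matrix_det).tendsto (X γ)).comp (hX γ)
    have h3 : (fun n => (r n γ : Md d).det) = fun _ => (1 : ℂ) := by
      funext n; exact (r n γ).2
    rw [h3] at h2
    exact tendsto_nhds_unique h2 tendsto_const_nhds
  refine ⟨{ toFun := fun γ => ⟨X γ, hdet γ⟩, map_one' := ?_, map_mul' := ?_ }, ?_⟩
  · apply Subtype.ext
    have h2 := hX 1
    simp only [map_one, Matrix.SpecialLinearGroup.coe_one] at h2
    exact tendsto_nhds_unique h2 tendsto_const_nhds
  · intro a b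
    apply Subtype.ext
    have h2 := hX (a * b)
    simp only [map_mul, Matrix.SpecialLinearGroup.coe_mul] at h2
    exact tendsto_nhds_unique h2 ((hX a).mul (hX b))
  · intro γ
    exact hX γ

/-- Conjugate of a representation. -/
def conjRep {G : Type*} [Group G] {d : ℕ} (ρ : G →* SLd d) (g g' : Md d) (h : g * g' = 1) :
    G →* SLd d where
  toFun γ := ⟨g * (ρ γ : Md d) * g', by
    rw [Matrix.det_mul, Matrix.det_mul, (ρ γ).2, mul_one, ← Matrix.det_mul, h, Matrix.det_one]⟩
  map_one' := by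
    apply Subtype.ext
    simp [h]
  map_mul' := by
    intro a b
    apply Subtype.ext
    have h' : g' * g = 1 := mul_eq_one_comm.mp h
    simp only [map_mul, Matrix.SpecialLinearGroup.coe_mul]
    calc g * ((ρ a : Md d) * (ρ b : Md d)) * g' = g * (ρ a : Md d) * 1 * (ρ b : Md d) * g' := by
          noncomm_ring
      _ = g * (ρ a : Md d) * (g' * g) * (ρ b : Md d) * g' := by rw [h']
      _ = g * (ρ a : Md d) * g' * (g * (ρ b : Md d) * g') := by noncomm_ring

theorem conjRep_apply {G : Type*} [Group G] {d : ℕ} (ρ : G →* SLd d) (g g' : Md d)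
    (h : g * g' = 1) (γ : G) : (conjRep ρ g g' h γ : Md d) = g * (ρ γ : Md d) * g' := rfl

theorem conjRep_trace {G : Type*} [Group G] {d : ℕ} (ρ : G →* SLd d) (g g' : Md d)
    (h : g * g' = 1) (γ : G) : (conjRep ρ g g' h γ : Md d).trace = (ρ γ : Md d).trace := by
  rw [conjRep_apply, Matrix.trace_mul_comm, ← mul_assoc, mul_eq_one_comm.mp h, one_mul]

/-- Every representation has the same character as a minimal one. -/
theorem exists_min {G : Type*} [Group G] {d : ℕ} (S : Finset G)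
    (hS : Subgroup.closure (S : Set G) = ⊤) (ρ : G →* SLd d) :
    ∃ ρ' : G →* SLd d, (∀ γ, (ρ' γ : Md d).trace = (ρ γ : Md d).trace) ∧ MinT S (mrep ρ') := by
  let E : {p : Md d × Md d // p.1 * p.2 = 1} → ℝ := fun p => ∑ s ∈ S, fro (p.1.1 * (ρ s : Md d) * p.1.2)
  have hE0 : ∀ p, 0 ≤ E p := fun p => Finset.sum_nonneg fun _ _ => fro_nonneg _
  have hne : (Set.range E).Nonempty := ⟨_, ⟨(1, 1), by simp⟩, rfl⟩
  have hbdd : BddBelow (Set.range E) := ⟨0, by rintro _ ⟨p, rfl⟩; exact hE0 p⟩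
  obtain ⟨u, -, hu, hur⟩ := exists_seq_tendsto_sInf hne hbdd
  choose p hp using hur
  set m := sInf (Set.range E) with hm
  have hmE : ∀ q, m ≤ E q := fun q => csInf_le hbdd ⟨q, rfl⟩
  let 𝒰 : Ultrafilter ℕ := Filter.hyperfilter ℕ
  have hu' : Tendsto (fun n => E (p n)) (𝒰 : Filter ℕ) (𝓝 m) := by
    have : (fun n => E (p n)) = u := funext hp
    rw [this]
    exact hu.mono_left Nat.hyperfilter_le_atTop
  let r : ℕ → G →* SLd d := fun n => conjRep ρ (p n).1.1 (p n).1.2 (p n).2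
  obtain ⟨ρ', hρ'⟩ := ulim_rep 𝒰 S hS r (m + 1) (by
    intro s hs
    filter_upwards [hu'.eventually (gt_mem_nhds (show m < m + 1 by linarith))] with n hn
    refine le_trans ?_ hn.le
    exact Finset.single_le_sum (f := fun s => fro ((p n).1.1 * (ρ s : Md d) * (p n).1.2))
      (fun _ _ => fro_nonneg _) hs)
  refine ⟨ρ', ?_, ?_⟩
  · intro γ
    have h1 : Tendsto (fun n => (r n γ : Md d).trace) (𝒰 : Filter ℕ) (𝓝 (ρ' γ : Md d).trace) :=
      ((continuous_id.matrix_trace).tendsto _).comp (hρ' γ)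
    have h2 : (fun n => (r n γ : Md d).trace) = fun _ => (ρ γ : Md d).trace := by
      funext n; exact conjRep_trace _ _ _ _ _
    rw [h2] at h1
    exact (tendsto_nhds_unique h1 tendsto_const_nhds)
  · have hlim : ∀ g g' : Md d, Tendsto (fun n => ∑ s ∈ S, fro (g * (r n s : Md d) * g'))
        (𝒰 : Filter ℕ) (𝓝 (∑ s ∈ S, fro (g * (ρ' s : Md d) * g'))) := by
      intro g g'
      refine tendsto_finsetSum _ fun s _ => ?_
      have hc : Continuous fun X : Md d => fro (g * X * g') :=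
        continuous_fro.comp ((continuous_const.mul continuous_id).mul continuous_const)
      exact (hc.tendsto _).comp (hρ' s)
    have hm' : ∑ s ∈ S, fro (ρ' s : Md d) = m := by
      have h1 := hlim 1 1
      simp only [one_mul, mul_one] at h1
      exact tendsto_nhds_unique h1 hu'
    intro g g' hg
    simp only [mrep_apply]
    rw [hm']
    refine ge_of_tendsto (hlim g g') (Eventually.of_forall fun n => ?_)
    have hgp : (g * (p n).1.1) * ((p n).1.2 * g') = 1 := by
      calc (g * (p n).1.1) * ((p n).1.2 * g') = g * ((p n).1.1 * (p n).1.2) * g' := by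
            noncomm_ring
        _ = 1 := by rw [(p n).2, mul_one, hg]
    have h2 := hmE ⟨(g * (p n).1.1, (p n).1.2 * g'), hgp⟩
    refine h2.trans (le_of_eq ?_)
    refine Finset.sum_congr rfl fun s _ => ?_
    congr 1
    change g * (p n).1.1 * (ρ s : Md d) * ((p n).1.2 * g') = g * ((p n).1.1 * (ρ s : Md d) * (p n).1.2) * g'
    noncomm_ring

end Pool.Agent.J4.H97.Anosov
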