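import Pool.Agent.J4.H97.Anosov.KN

/-!
Minimal representations: zero trace radical, compactness.
-/

namespace Pool.Agent.J4.H97.Anosov

open Matrix Filter Topology Polynomial

variable {G : Type*} [Group G] {d : ℕ}

/-- The span of the image of a representation. -/
def spn (ρ : G →* SLd d) : Submodule ℂ (Md d) := Submodule.span ℂ (Set.range (mrep ρ))

theorem rep_mem_spn (ρ : G →* SLd d) (γ : G) : (ρ γ : Md d) ∈ spn ρ :=
  Submodule.subset_span ⟨γ, rfl⟩

theorem one_mem_spn (ρ : G →* SLd d) : (1 : Md d) ∈ spn ρ := by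
  have := rep_mem_spn ρ 1
  simpa using this

theorem mul_mem_spn (ρ : G →* SLd d) {x y : Md d} (hx : x ∈ spn ρ) (hy : y ∈ spn ρ) :
    x * y ∈ spn ρ := by
  unfold spn at *
  induction hx using Submodule.span_induction with
  | mem x hx =>
    obtain ⟨a, rfl⟩ := hx
    induction hy using Submodule.span_induction with
    | mem y hy =>
      obtain ⟨b, rfl⟩ := hy
      rw [← map_mul]
      exact Submodule.subset_span ⟨a * b, rfl⟩
    | zero => rw [mul_zero]; exact Submodule.zero_mem _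
    | add y z _ _ hy hz => rw [mul_add]; exact Submodule.add_mem _ hy hz
    | smul c y _ hy => rw [Matrix.mul_smul]; exact Submodule.smul_mem _ c hy
  | zero => rw [zero_mul]; exact Submodule.zero_mem _
  | add y z _ _ hy hz => rw [add_mul]; exact Submodule.add_mem _ hy hz
  | smul c y _ hy => rw [Matrix.smul_mul]; exact Submodule.smul_mem _ c hy

theorem pow_mem_spn (ρ : G →* SLd d) {x : Md d} (hx : x ∈ spn ρ) (n : ℕ) : x ^ n ∈ spn ρ := by
  induction n with
  | zero => rw [pow_zero]; exact one_mem_spn ρ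
  | succ n ih => rw [pow_succ]; exact mul_mem_spn ρ ih hx

theorem trace_mul_spn (ρ : G →* SLd d) (x : Md d) (h : ∀ γ, (x * (ρ γ : Md d)).trace = 0)
    {y : Md d} (hy : y ∈ spn ρ) : (x * y).trace = 0 := by
  unfold spn at hy
  induction hy using Submodule.span_induction with
  | mem y hy =>
    obtain ⟨b, rfl⟩ := hy
    exact h b
  | zero => simp
  | add y z _ _ hy hz => rw [mul_add, Matrix.trace_add, hy, hz, add_zero]
  | smul c y _ hy => rw [Matrix.mul_smul, Matrix.trace_smul, hy, smul_zero]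

theorem spn_inv (ρ : G →* SLd d) (Q : Md d) (hQ : ∀ a ∈ Set.range (mrep ρ), a * Q = Q * a * Q)
    {x : Md d} (hx : x ∈ spn ρ) : x * Q = Q * x * Q := by
  unfold spn at hx
  induction hx using Submodule.span_induction with
  | mem y hy => exact hQ y hy
  | zero => simp
  | add y z _ _ hy hz => rw [add_mul, mul_add, add_mul, hy, hz]
  | smul c y _ hy => rw [Matrix.smul_mul, Matrix.mul_smul, Matrix.smul_mul, ← hy]

theorem min_commute (S : Finset G) (hS : Subgroup.closure (S : Set G) = ⊤) (ρ : G →* SLd d)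
    (hmin : MinT S (mrep ρ)) (Q : Md d) (hQQ : Q * Q = Q) (hQs : Qᴴ = Q)
    (hinv : ∀ a ∈ Set.range (mrep ρ), a * Q = Q * a * Q) :
    ∀ a ∈ Set.range (mrep ρ), Q * a = Q * a * Q := by
  have h1 := hmin.red Q hQQ hQs (fun s _ => hinv _ ⟨s, rfl⟩)
  have hcomm : ∀ γ : G, Q * mrep ρ γ = mrep ρ γ * Q := by
    intro γ
    have hγ : γ ∈ Subgroup.closure (S : Set G) := by rw [hS]; trivial
    induction hγ using Subgroup.closure_induction with
    | mem x hx => rw [h1 x hx, ← hinv _ ⟨x, rfl⟩]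
    | one => simp
    | mul x y _ _ hx hy => rw [map_mul, ← mul_assoc, hx, mul_assoc, hy, mul_assoc]
    | inv x _ hx =>
      have e1 : mrep ρ x * mrep ρ x⁻¹ = 1 := by rw [← map_mul]; simp
      have e2 : mrep ρ x⁻¹ * mrep ρ x = 1 := by rw [← map_mul]; simp
      calc Q * mrep ρ x⁻¹ = (mrep ρ x⁻¹ * mrep ρ x) * Q * mrep ρ x⁻¹ := by rw [e2, one_mul]
        _ = mrep ρ x⁻¹ * (mrep ρ x * Q) * mrep ρ x⁻¹ := by noncomm_ring
        _ = mrep ρ x⁻¹ * (Q * mrep ρ x) * mrep ρ x⁻¹ := by rw [hx]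
        _ = mrep ρ x⁻¹ * Q * (mrep ρ x * mrep ρ x⁻¹) := by noncomm_ring
        _ = mrep ρ x⁻¹ * Q := by rw [e1, mul_one]
  rintro _ ⟨γ, rfl⟩
  rw [hcomm γ, mul_assoc, hQQ]

theorem radical_zero (S : Finset G) (hS : Subgroup.closure (S : Set G) = ⊤) (ρ : G →* SLd d)
    (hmin : MinT S (mrep ρ)) (x : Md d) (hx : x ∈ spn ρ)
    (h : ∀ γ, (x * (ρ γ : Md d)).trace = 0) : x = 0 := by
  let N : Submodule ℂ (Md d) :=
    { carrier := {x | x ∈ spn ρ ∧ ∀ γ, (x * (ρ γ : Md d)).trace = 0}
      add_mem' := by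
        rintro a b ⟨ha, ha'⟩ ⟨hb, hb'⟩
        refine ⟨Submodule.add_mem _ ha hb, fun γ => ?_⟩
        rw [add_mul, Matrix.trace_add, ha', hb', add_zero]
      zero_mem' := ⟨Submodule.zero_mem _, by intro γ; simp⟩
      smul_mem' := by
        rintro c a ⟨ha, ha'⟩
        refine ⟨Submodule.smul_mem _ c ha, fun γ => ?_⟩
        rw [Matrix.smul_mul, Matrix.trace_smul, ha', smul_zero] }
  have hN : ∀ x, x ∈ N ↔ x ∈ spn ρ ∧ ∀ γ, (x * (ρ γ : Md d)).trace = 0 := fun x => Iff.rfl
  refine nil_zero (Set.range (mrep ρ)) N ?_ ?_ ?_ ?_ ?_ x ⟨hx, h⟩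
  · rintro a ⟨ha, ha'⟩ b ⟨hb, hb'⟩
    refine ⟨mul_mem_spn ρ ha hb, fun γ => ?_⟩
    rw [mul_assoc]
    exact trace_mul_spn ρ a ha' (mul_mem_spn ρ hb (rep_mem_spn ρ γ))
  · rintro a ⟨ha, ha'⟩ v hv
    refine fix_zero_of_trace a (fun n hn => ?_) v hv
    obtain ⟨m, rfl⟩ : ∃ m, n = m + 1 := ⟨n - 1, by omega⟩
    rw [pow_succ']
    exact trace_mul_spn ρ a ha' (pow_mem_spn ρ ha m)
  · intro Q hQQ hQs hinv
    exact min_commute S hS ρ hmin Q hQQ hQs hinv
  · rintro n ⟨hn, hn'⟩ _ ⟨γ, rfl⟩
    refine ⟨mul_mem_spn ρ hn (rep_mem_spn ρ γ), fun δ => ?_⟩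
    rw [mrep_apply, mul_assoc]
    exact trace_mul_spn ρ n hn' (mul_mem_spn ρ (rep_mem_spn ρ γ) (rep_mem_spn ρ δ))
  · rintro n ⟨hn, -⟩ Q hQ
    exact spn_inv ρ Q hQ hn

omit [Group G] in
/-- The tuple version: a minimal tuple all of whose word traces vanish is zero. -/
theorem min_words_zero (S : Finset G) (A : G → Md d) (hmin : MinT S A)
    (N : Submodule ℂ (Md d)) (hAN : ∀ s ∈ S, A s ∈ N)
    (hmul : ∀ a ∈ N, ∀ b ∈ N, a * b ∈ N) (htr : ∀ a ∈ N, a.trace = 0)
    (hNA : ∀ n ∈ N, ∀ Q : Md d, (∀ s ∈ S, A s * Q = Q * A s * Q) → n * Q = Q * n * Q) :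
    ∀ s ∈ S, A s = 0 := by
  have h := nil_zero (A '' S) N hmul ?_ ?_ ?_ ?_
  · intro s hs
    exact h _ (hAN s hs)
  · intro a ha v hv
    refine fix_zero_of_trace a (fun n hn => ?_) v hv
    obtain ⟨m, rfl⟩ : ∃ m, n = m + 1 := ⟨n - 1, by omega⟩
    apply htr
    clear hn
    induction m with
    | zero => simpa using ha
    | succ m ih => rw [pow_succ]; exact hmul _ ih _ ha
  · intro Q hQQ hQs hinv
    rintro _ ⟨s, hs, rfl⟩
    exact hmin.red Q hQQ hQs (fun s hs => hinv _ ⟨s, hs, rfl⟩) s hs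
  · rintro n hn _ ⟨s, hs, rfl⟩
    exact hmul _ hn _ (hAN s hs)
  · intro n hn Q hQ
    exact hNA n hn Q (fun s hs => hQ _ ⟨s, hs, rfl⟩)

/-- Compactness: minimal representations with convergent characters converge. -/
theorem kn_limit {α : Type*} (𝒰 : Ultrafilter α) (S : Finset G)
    (hS : Subgroup.closure (S : Set G) = ⊤) (r : α → G →* SLd d) (hmin : ∀ n, MinT S (mrep (r n)))
    (χ : G → ℂ)
    (hχ : ∀ γ, Tendsto (fun n => (r n γ : Md d).trace) (𝒰 : Filter α) (𝓝 (χ γ))) :
    ∃ ρ : G →* SLd d, (∀ γ, Tendsto (fun n => (r n γ : Md d)) (𝒰 : Filter α) (𝓝 (ρ γ : Md d))) ∧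
      MinT S (mrep ρ) ∧ ∀ γ, (ρ γ : Md d).trace = χ γ := by
  have hlimmin : ∀ (c : α → ℂ) (A : G → Md d),
      (∀ s ∈ S, Tendsto (fun n => c n • (r n s : Md d)) (𝒰 : Filter α) (𝓝 (A s))) →
      MinT S A := by
    intro c A hA g g' hg
    have hlim : ∀ g g' : Md d, Tendsto (fun n => ∑ s ∈ S, fro (g * (c n • (r n s : Md d)) * g'))
        (𝒰 : Filter α) (𝓝 (∑ s ∈ S, fro (g * (A s : Md d) * g'))) := by
      intro g g'
      refine tendsto_finsetSum _ fun s hs => ?_
      have hc : Continuous fun X : Md d => fro (g * X * g') :=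
        continuous_fro.comp ((continuous_const.mul continuous_id).mul continuous_const)
      exact (hc.tendsto _).comp (hA s hs)
    have h1 := hlim 1 1
    simp only [one_mul, mul_one] at h1
    refine le_of_tendsto_of_tendsto' h1 (hlim g g') fun n => ?_
    have h2 := hmin n g g' hg
    simp only [mrep_apply] at h2
    simp only [Matrix.mul_smul, Matrix.smul_mul, fro_smul, ← Finset.mul_sum]
    exact mul_le_mul_of_nonneg_left h2 (by positivity)
  by_cases hb : ∃ C : ℝ, ∀ᶠ n in (𝒰 : Filter α), ∑ s ∈ S, fro (r n s : Md d) ≤ C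
  · obtain ⟨C, hC⟩ := hb
    obtain ⟨ρ, hρ⟩ := ulim_rep 𝒰 S hS r C (by
      intro s hs
      filter_upwards [hC] with n hn
      refine le_trans ?_ hn
      exact Finset.single_le_sum (f := fun s => fro (r n s : Md d)) (fun _ _ => fro_nonneg _) hs)
    refine ⟨ρ, hρ, ?_, ?_⟩
    · refine hlimmin (fun _ => 1) _ fun s _ => ?_
      simpa using hρ s
    · intro γ
      have h1 : Tendsto (fun n => (r n γ : Md d).trace) (𝒰 : Filter α) (𝓝 (ρ γ : Md d).trace) :=
        ((continuous_id.matrix_trace).tendsto _).comp (hρ γ)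
      exact tendsto_nhds_unique h1 (hχ γ)
  · exfalso
    push Not at hb
    have hb' : ∀ C : ℝ, ∀ᶠ n in (𝒰 : Filter α), C < ∑ s ∈ S, fro (r n s : Md d) := by
      intro C
      exact hb C
    set E : α → ℝ := fun n => ∑ s ∈ S, fro (r n s : Md d) with hE
    have hEt : Tendsto E (𝒰 : Filter α) atTop := by
      rw [tendsto_atTop]
      intro C
      filter_upwards [hb' C] with n hn using hn.le
    set c : α → ℂ := fun n => (((Real.sqrt (E n))⁻¹ : ℝ) : ℂ) with hc
    have hc0 : Tendsto c (𝒰 : Filter α) (𝓝 0) := by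
      have h1 : Tendsto (fun n => (Real.sqrt (E n))⁻¹) (𝒰 : Filter α) (𝓝 0) :=
        tendsto_inv_atTop_zero.comp (Real.tendsto_sqrt_atTop.comp hEt)
      have h2 := (Complex.continuous_ofReal.tendsto 0).comp h1
      rw [Complex.ofReal_zero] at h2
      exact h2
    have hcE : ∀ᶠ n in (𝒰 : Filter α), ∑ s ∈ S, fro (c n • (r n s : Md d)) = 1 := by
      filter_upwards [hb' 0] with n hn
      simp only [fro_smul, ← Finset.mul_sum]
      have h1 : ‖c n‖ ^ 2 = (E n)⁻¹ := by
        rw [hc]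
        simp only [Complex.norm_real, Real.norm_eq_abs, sq_abs, inv_pow]
        rw [Real.sq_sqrt hn.le]
      rw [h1]
      exact inv_mul_cancel₀ (ne_of_gt hn)
    have hlim : ∀ s ∈ S, ∃ X : Md d, Tendsto (fun n => c n • (r n s : Md d)) (𝒰 : Filter α) (𝓝 X) := by
      intro s hs
      refine exists_ulim 𝒰 _ 1 ?_
      filter_upwards [hcE] with n hn
      rw [← hn]
      exact Finset.single_le_sum (f := fun s => fro (c n • (r n s : Md d)))
        (fun _ _ => fro_nonneg _) hs
    classical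
    have hlim' : ∀ s : G, ∃ X : Md d, s ∈ S →
        Tendsto (fun n => c n • (r n s : Md d)) (𝒰 : Filter α) (𝓝 X) := by
      intro s
      by_cases hs : s ∈ S
      · obtain ⟨X, hX⟩ := hlim s hs
        exact ⟨X, fun _ => hX⟩
      · exact ⟨0, fun h => absurd h hs⟩
    choose A hA using hlim'
    have hAmin : MinT S A := hlimmin c A hA
    -- the algebra generated by the `A s`
    let W : Set (Md d) := {X | ∃ k : ℕ, 1 ≤ k ∧ ∃ γ : G,
      Tendsto (fun n => (c n) ^ k • (r n γ : Md d)) (𝒰 : Filter α) (𝓝 X) ∧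
      ∀ Q : Md d, (∀ s ∈ S, A s * Q = Q * A s * Q) → X * Q = Q * X * Q}
    have hWmul : ∀ X ∈ W, ∀ Y ∈ W, X * Y ∈ W := by
      rintro X ⟨k, hk, γ, hγ, hX⟩ Y ⟨l, hl, δ, hδ, hY⟩
      refine ⟨k + l, by omega, γ * δ, ?_, ?_⟩
      · have h1 := hγ.mul hδ
        refine h1.congr fun n => ?_
        rw [map_mul, Matrix.SpecialLinearGroup.coe_mul, Matrix.smul_mul, Matrix.mul_smul, smul_smul,
          pow_add]
      · intro Q hQ
        have hX' := hX Q hQ
        have hY' := hY Q hQ
        calc X * Y * Q = X * (Y * Q) := by rw [mul_assoc]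
          _ = X * (Q * Y * Q) := by rw [hY']
          _ = (X * Q) * Y * Q := by noncomm_ring
          _ = (Q * X * Q) * Y * Q := by rw [hX']
          _ = Q * X * (Q * Y * Q) := by noncomm_ring
          _ = Q * X * (Y * Q) := by rw [← hY']
          _ = Q * (X * Y) * Q := by noncomm_ring
    have hWtr : ∀ X ∈ W, X.trace = 0 := by
      rintro X ⟨k, hk, γ, hγ, -⟩
      have h1 : Tendsto (fun n => ((c n) ^ k • (r n γ : Md d)).trace) (𝒰 : Filter α)
          (𝓝 X.trace) := ((continuous_id.matrix_trace).tendsto _).comp hγ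
      have h2 : Tendsto (fun n => ((c n) ^ k • (r n γ : Md d)).trace) (𝒰 : Filter α)
          (𝓝 (0 ^ k * χ γ)) := by
        simp only [Matrix.trace_smul, smul_eq_mul]
        exact (hc0.pow k).mul (hχ γ)
      rw [zero_pow (by omega), zero_mul] at h2
      exact tendsto_nhds_unique h1 h2
    have hzero := min_words_zero S A hAmin (Submodule.span ℂ W) ?_ ?_ ?_ ?_
    · -- contradiction
      have h1 : Tendsto (fun n => ∑ s ∈ S, fro (c n • (r n s : Md d))) (𝒰 : Filter α)
          (𝓝 (∑ s ∈ S, fro (A s))) := by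
        refine tendsto_finsetSum _ fun s hs => ?_
        exact (continuous_fro.tendsto _).comp (hA s hs)
      have h2 : ∑ s ∈ S, fro (A s) = 0 := by
        refine Finset.sum_eq_zero fun s hs => ?_
        rw [hzero s hs]
        simp [fro]
      rw [h2] at h1
      have h3 : Tendsto (fun n => ∑ s ∈ S, fro (c n • (r n s : Md d))) (𝒰 : Filter α) (𝓝 1) :=
        tendsto_const_nhds.congr' (by
          filter_upwards [hcE] with n hn using hn.symm)
      exact zero_ne_one (tendsto_nhds_unique h1 h3)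
    · intro s hs
      apply Submodule.subset_span
      refine ⟨1, le_rfl, s, ?_, ?_⟩
      · simpa using hA s hs
      · intro Q hQ; exact hQ s hs
    · intro a ha b hb
      induction ha using Submodule.span_induction with
      | mem x hx =>
        induction hb using Submodule.span_induction with
        | mem y hy => exact Submodule.subset_span (hWmul x hx y hy)
        | zero => rw [mul_zero]; exact Submodule.zero_mem _
        | add y z _ _ hy hz => rw [mul_add]; exact Submodule.add_mem _ hy hz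
        | smul c y _ hy => rw [Matrix.mul_smul]; exact Submodule.smul_mem _ c hy
      | zero => rw [zero_mul]; exact Submodule.zero_mem _
      | add y z _ _ hy hz => rw [add_mul]; exact Submodule.add_mem _ hy hz
      | smul c y _ hy => rw [Matrix.smul_mul]; exact Submodule.smul_mem _ c hy
    · intro a ha
      induction ha using Submodule.span_induction with
      | mem x hx => exact hWtr x hx
      | zero => simp
      | add y z _ _ hy hz => rw [Matrix.trace_add, hy, hz, add_zero]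
      | smul c y _ hy => rw [Matrix.trace_smul, hy, smul_zero]
    · intro a ha Q hQ
      induction ha using Submodule.span_induction with
      | mem x hx => obtain ⟨k, hk, γ, hγ, hX⟩ := hx; exact hX Q hQ
      | zero => simp
      | add y z _ _ hy hz => rw [add_mul, mul_add, add_mul, hy, hz]
      | smul c y _ hy => rw [Matrix.smul_mul, Matrix.mul_smul, Matrix.smul_mul, ← hy]

end Pool.Agent.J4.H97.Anosov
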