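import Pool.Agent.J4.H97.Anosov.Defs

/-!
Geometry of the hyperboloid model.
-/

namespace Pool.Agent.J4.H97.Anosov

open Matrix Filter Topology

/-- The Lorentz form. -/
def B (x y : V3) : ℝ := x 0 * y 0 + x 1 * y 1 - x 2 * y 2

/-- Base point. -/
def o : V3 := ![0, 0, 1]
/-- The standard normal. -/
def e1 : V3 := ![0, 1, 0]
/-- The standard direction. -/
def e0 : V3 := ![1, 0, 0]

theorem B_eq (x y : V3) : B x y = x ⬝ᵥ (J *ᵥ y) := by
  simp [B, J, Matrix.mulVec, dotProduct, Fin.sum_univ_three]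
  ring

theorem B_comm (x y : V3) : B x y = B y x := by unfold B; ring
theorem B_add_left (x y z : V3) : B (x + y) z = B x z + B y z := by
  simp only [B, Pi.add_apply]; ring
theorem B_add_right (x y z : V3) : B x (y + z) = B x y + B x z := by
  simp only [B, Pi.add_apply]; ring
theorem B_smul_left (c : ℝ) (x y : V3) : B (c • x) y = c * B x y := by
  simp only [B, Pi.smul_apply, smul_eq_mul]; ring
theorem B_smul_right (c : ℝ) (x y : V3) : B x (c • y) = c * B x y := by
  simp only [B, Pi.smul_apply, smul_eq_mul]; ring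
theorem B_neg_left (x y : V3) : B (-x) y = - B x y := by
  simp only [B, Pi.neg_apply]; ring
theorem B_neg_right (x y : V3) : B x (-y) = - B x y := by
  simp only [B, Pi.neg_apply]; ring

theorem JJ : J * J = 1 := by
  ext i j; fin_cases i <;> fin_cases j <;> simp [J, Matrix.mul_apply, Fin.sum_univ_three]

theorem JT : Jᵀ = J := by
  ext i j; fin_cases i <;> fin_cases j <;> simp [J]

/-- `g` preserves the form. -/
theorem B_pres {g : M3} (hg : gᵀ * J * g = J) (x y : V3) : B (g *ᵥ x) (g *ᵥ y) = B x y := by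
  rw [B_eq, B_eq, Matrix.dotProduct_mulVec, Matrix.dotProduct_mulVec, Matrix.dotProduct_mulVec,
    ← Matrix.vecMul_transpose, Matrix.vecMul_vecMul, Matrix.vecMul_vecMul, ← mul_assoc, hg]

theorem IsLor.B {g : M3} (hg : IsLor g) (x y : V3) :
    Pool.Agent.J4.H97.Anosov.B (g *ᵥ x) (g *ᵥ y) = Pool.Agent.J4.H97.Anosov.B x y :=
  B_pres hg.1 x y

/-- The Lorentz inverse. -/
def linv (g : M3) : M3 := J * gᵀ * J

theorem linv_mul {g : M3} (hg : gᵀ * J * g = J) : linv g * g = 1 := by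
  unfold linv
  calc J * gᵀ * J * g = J * (gᵀ * J * g) := by simp only [mul_assoc]
    _ = 1 := by rw [hg, JJ]

theorem mul_linv {g : M3} (hg : gᵀ * J * g = J) : g * linv g = 1 :=
  mul_eq_one_comm.mp (linv_mul hg)

theorem rows {g : M3} (hg : gᵀ * J * g = J) : g * J * gᵀ = J := by
  have h := mul_linv hg
  unfold linv at h
  have : g * J * gᵀ * J = 1 := by rw [← h]; simp only [mul_assoc]
  calc g * J * gᵀ = g * J * gᵀ * (J * J) := by rw [JJ, mul_one]
    _ = (g * J * gᵀ * J) * J := by simp only [mul_assoc]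
    _ = J := by rw [this, one_mul]

/-- Points of the hyperbolic plane. -/
def Hyp (x : V3) : Prop := Pool.Agent.J4.H97.Anosov.B x x = -1 ∧ 0 < x 2

theorem hyp_o : Hyp o := by simp [Hyp, B, o]

theorem B_le {x y : V3} (hx : Hyp x) (hy : Hyp y) : B x y ≤ -1 := by
  obtain ⟨hx1, hx2⟩ := hx
  obtain ⟨hy1, hy2⟩ := hy
  unfold B at *
  by_contra hcon
  push Not at hcon
  have h1 : x 2 * y 2 < 1 + x 0 * y 0 + x 1 * y 1 := by linarith
  have h2 : 0 < x 2 * y 2 := mul_pos hx2 hy2
  have h3 : (x 2 * y 2) ^ 2 < (1 + x 0 * y 0 + x 1 * y 1) ^ 2 := by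
    apply pow_lt_pow_left₀ h1 h2.le two_ne_zero
  have h4 : (x 2 * y 2) ^ 2 = (1 + x 0 ^ 2 + x 1 ^ 2) * (1 + y 0 ^ 2 + y 1 ^ 2) := by
    have e1 : x 2 ^ 2 = 1 + x 0 ^ 2 + x 1 ^ 2 := by linarith
    have e2 : y 2 ^ 2 = 1 + y 0 ^ 2 + y 1 ^ 2 := by linarith
    rw [mul_pow, e1, e2]
  nlinarith [sq_nonneg (x 0 - y 0), sq_nonneg (x 1 - y 1), sq_nonneg (x 0 * y 1 - x 1 * y 0)]

theorem col_eqs {g : M3} (hg : gᵀ * J * g = J) (i j : Fin 3) :
    g 0 i * g 0 j + g 1 i * g 1 j - g 2 i * g 2 j = J i j := by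
  have := congrFun (congrFun hg i) j
  rw [← this]
  simp [J, Matrix.mul_apply, Fin.sum_univ_three]
  ring

theorem row_eqs {g : M3} (hg : gᵀ * J * g = J) (i j : Fin 3) :
    g i 0 * g j 0 + g i 1 * g j 1 - g i 2 * g j 2 = J i j := by
  have := congrFun (congrFun (rows hg) i) j
  rw [← this]
  simp [J, Matrix.mul_apply, Fin.sum_univ_three]
  ring

theorem linv_eq (g : M3) : linv g = !![g 0 0, g 1 0, - g 2 0; g 0 1, g 1 1, - g 2 1;
    - g 0 2, - g 1 2, g 2 2] := by
  ext i j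
  fin_cases i <;> fin_cases j <;>
    simp [linv, J, Matrix.mul_apply, Matrix.vecMul, dotProduct, Fin.sum_univ_three]

theorem linv_o_hyp {g : M3} (hg : IsLor g) : Hyp (linv g *ᵥ o) := by
  have h := row_eqs hg.1 2 2
  have h22 := hg.2.2
  have e : linv g *ᵥ o = ![- g 2 0, - g 2 1, g 2 2] := by
    rw [linv_eq]
    ext i; fin_cases i <;>
      simp [o, Matrix.mulVec, dotProduct, Fin.sum_univ_three]
  rw [e]
  simp [J] at h
  refine ⟨?_, ?_⟩
  · simp [B]; linarith
  · simpa using h22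

theorem IsLor.hyp {g : M3} (hg : IsLor g) {x : V3} (hx : Hyp x) : Hyp (g *ᵥ x) := by
  refine ⟨by rw [hg.B]; exact hx.1, ?_⟩
  have h1 : Pool.Agent.J4.H97.Anosov.B (g *ᵥ x) o =
      Pool.Agent.J4.H97.Anosov.B x (linv g *ᵥ o) := by
    rw [← hg.B x (linv g *ᵥ o), Matrix.mulVec_mulVec, mul_linv hg.1, Matrix.one_mulVec]
  have h2 := B_le hx (linv_o_hyp hg)
  rw [← h1] at h2
  simp [Pool.Agent.J4.H97.Anosov.B, o] at h2
  linarith

theorem IsLor.mul {g h : M3} (hg : IsLor g) (hh : IsLor h) : IsLor (g * h) := by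
  refine ⟨?_, ?_, ?_⟩
  · rw [Matrix.transpose_mul]
    calc hᵀ * gᵀ * J * (g * h) = hᵀ * (gᵀ * J * g) * h := by simp only [mul_assoc]
      _ = J := by rw [hg.1, hh.1]
  · rw [Matrix.det_mul, hg.2.1, hh.2.1, mul_one]
  · have h1 := (hg.hyp (hh.hyp hyp_o)).2
    rw [Matrix.mulVec_mulVec] at h1
    have : ((g * h) *ᵥ o) 2 = (g * h) 2 2 := by
      simp [Matrix.mulVec, o, dotProduct, Fin.sum_univ_three]
    rwa [this] at h1

theorem isLor_one : IsLor (1 : M3) := ⟨by simp, by simp, by simp⟩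

theorem IsLor.linv {g : M3} (hg : IsLor g) : IsLor (linv g) := by
  refine ⟨?_, ?_, ?_⟩
  · unfold Pool.Agent.J4.H97.Anosov.linv
    simp only [Matrix.transpose_mul, Matrix.transpose_transpose, JT]
    calc J * (g * J) * J * (J * gᵀ * J) = J * g * (J * (J * J)) * gᵀ * J := by
          simp only [mul_assoc]
      _ = J * (g * J * gᵀ) * J := by rw [JJ, mul_one]; simp only [mul_assoc]
      _ = J := by rw [rows hg.1, JJ, one_mul]
  · have h1 := congrArg Matrix.det (linv_mul hg.1)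
    rw [Matrix.det_mul, hg.2.1, mul_one, Matrix.det_one] at h1
    exact h1
  · have h1 := (linv_o_hyp hg).2
    have : (Pool.Agent.J4.H97.Anosov.linv g *ᵥ o) 2 = (Pool.Agent.J4.H97.Anosov.linv g) 2 2 := by
      simp [Matrix.mulVec, o, dotProduct, Fin.sum_univ_three]
    rwa [this] at h1

/-- Third column and base point. -/
theorem mulVec_o_two (g : M3) : (g *ᵥ o) 2 = g 2 2 := by
  simp [Matrix.mulVec, o, dotProduct, Fin.sum_univ_three]

theorem one_le_22 {g : M3} (hg : IsLor g) : 1 ≤ g 2 2 := by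
  have h := col_eqs hg.1 2 2
  simp [J] at h
  have h22 := hg.2.2
  nlinarith [sq_nonneg (g 0 2), sq_nonneg (g 1 2)]

theorem entry_le {g : M3} (hg : IsLor g) (i j : Fin 3) : |g i j| ≤ g 2 2 := by
  have h22 := hg.2.2
  apply abs_le_of_sq_le_sq _ h22.le
  have c2 := col_eqs hg.1 2 2
  have r2 := row_eqs hg.1 2 2
  have r0 := row_eqs hg.1 0 0
  have r1 := row_eqs hg.1 1 1
  simp [J] at c2 r2 r0 r1
  fin_cases i <;> fin_cases j <;> simp <;>
    nlinarith [sq_nonneg (g 0 2), sq_nonneg (g 1 2), sq_nonneg (g 0 0), sq_nonneg (g 0 1),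
      sq_nonneg (g 1 0), sq_nonneg (g 1 1), sq_nonneg (g 2 0), sq_nonneg (g 2 1)]

/-! ### The flow -/

theorem flow_lor (t : ℝ) : IsLor (flow t) := by
  refine ⟨?_, ?_, ?_⟩
  · ext i j
    have h := Real.cosh_sq t
    fin_cases i <;> fin_cases j <;>
      simp [flow, J, Matrix.mul_apply, Fin.sum_univ_three] <;> nlinarith
  · have h := Real.cosh_sq t
    simp [flow, Matrix.det_fin_three]
    nlinarith
  · simp [flow, Real.cosh_pos]

theorem flow_add (s t : ℝ) : flow s * flow t = flow (s + t) := by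
  ext i j
  fin_cases i <;> fin_cases j <;>
    simp [flow, Matrix.mul_apply, Fin.sum_univ_three, Real.cosh_add, Real.sinh_add] <;> ring

theorem flow_zero : flow 0 = 1 := by
  ext i j
  fin_cases i <;> fin_cases j <;> simp [flow]

theorem flow_pow (t : ℝ) (n : ℕ) : flow t ^ n = flow (n * t) := by
  induction n with
  | zero => simp [flow_zero]
  | succ n ih => rw [pow_succ, ih, flow_add]; congr 1; push_cast; ring

theorem continuous_flow : Continuous flow := by
  refine continuous_pi fun i => continuous_pi fun j => ?_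
  fin_cases i <;> fin_cases j <;>
    simp [flow, Real.continuous_cosh, Real.continuous_sinh, continuous_const]

theorem flow_e1 (t : ℝ) : flow t *ᵥ e1 = e1 := by
  ext i
  fin_cases i <;> simp [flow, e1, Matrix.mulVec, dotProduct, Fin.sum_univ_three]

theorem flow_o (t : ℝ) : flow t *ᵥ o = ![Real.sinh t, 0, Real.cosh t] := by
  ext i
  fin_cases i <;> simp [flow, o, Matrix.mulVec, dotProduct, Fin.sum_univ_three]

end Pool.Agent.J4.H97.Anosov
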