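import Pool.Agent.J4.H97.Anosov.Lor

/-!
Frames, lines and normals in the hyperboloid model.
-/

namespace Pool.Agent.J4.H97.Anosov

open Matrix Filter Topology

/-- The frame with normal `n` and base point `x`. -/
def frame (n x : V3) : M3 :=
  !![n 1 * x 2 - n 2 * x 1, n 0, x 0;
     n 2 * x 0 - n 0 * x 2, n 1, x 1;
     -(n 0 * x 1 - n 1 * x 0), n 2, x 2]

theorem frame_lor {n x : V3} (hn : B n n = 1) (hx : Hyp x) (h : B n x = 0) :
    IsLor (frame n x) := by
  obtain ⟨hx1, hx2⟩ := hx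
  have hcc : (n 1 * x 2 - n 2 * x 1) * (n 1 * x 2 - n 2 * x 1) +
      (n 2 * x 0 - n 0 * x 2) * (n 2 * x 0 - n 0 * x 2) -
      (n 0 * x 1 - n 1 * x 0) * (n 0 * x 1 - n 1 * x 0) = 1 := by
    unfold B at *
    linear_combination (-(x 0 * x 0 + x 1 * x 1 - x 2 * x 2)) * hn - hx1 +
      (n 0 * x 0 + n 1 * x 1 - n 2 * x 2) * h
  unfold B at *
  refine ⟨?_, ?_, ?_⟩
  · ext i j
    fin_cases i <;> fin_cases j <;>
      simp [frame, J, Matrix.mul_apply, Fin.sum_univ_three, Matrix.transpose_apply] <;>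
      first
        | linear_combination hcc
        | linear_combination hn
        | linear_combination hx1
        | linear_combination h
        | ring
  · rw [Matrix.det_fin_three]
    simp [frame]
    linear_combination hcc
  · simpa [frame] using hx2

theorem frame_e1 (n x : V3) : frame n x *ᵥ e1 = n := by
  ext i; fin_cases i <;> simp [frame, e1, Matrix.mulVec, dotProduct, Fin.sum_univ_three]

theorem frame_o (n x : V3) : frame n x *ᵥ o = x := by
  ext i; fin_cases i <;> simp [frame, o, Matrix.mulVec, dotProduct, Fin.sum_univ_three]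

theorem exists_pt {n : V3} (hn : B n n = 1) : ∃ x, Hyp x ∧ B n x = 0 := by
  unfold B at hn
  set r := Real.sqrt (n 0 ^ 2 + n 1 ^ 2) with hr
  have hr0 : 0 < n 0 ^ 2 + n 1 ^ 2 := by nlinarith [sq_nonneg (n 2)]
  have hrpos : 0 < r := Real.sqrt_pos.mpr hr0
  have hr2 : r ^ 2 = n 0 ^ 2 + n 1 ^ 2 := Real.sq_sqrt hr0.le
  refine ⟨![n 0 * n 2 / r, n 1 * n 2 / r, r], ⟨?_, by simpa using hrpos⟩, ?_⟩
  · simp [B]
    field_simp
    nlinarith
  · simp [B]
    field_simp
    rw [hr2]; ring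

theorem exists_normal {p : V3} (hp : Hyp p) : ∃ n, B n n = 1 ∧ B n p = 0 := by
  obtain ⟨h1, h2⟩ := hp
  unfold B at h1
  have hr0 : 0 < p 2 ^ 2 - p 1 ^ 2 := by nlinarith [sq_nonneg (p 0)]
  set r := Real.sqrt (p 2 ^ 2 - p 1 ^ 2) with hr
  have hrpos : 0 < r := Real.sqrt_pos.mpr hr0
  have hr2 : r ^ 2 = p 2 ^ 2 - p 1 ^ 2 := Real.sq_sqrt hr0.le
  refine ⟨![0, p 2 / r, p 1 / r], ?_, ?_⟩
  · simp [B]
    field_simp
    nlinarith
  · simp [B]
    field_simp
    ring

theorem exists_frame_n {n : V3} (hn : B n n = 1) : ∃ g, IsLor g ∧ g *ᵥ e1 = n := by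
  obtain ⟨x, hx, hnx⟩ := exists_pt hn
  exact ⟨frame n x, frame_lor hn hx hnx, frame_e1 n x⟩

theorem exists_frame_p {p : V3} (hp : Hyp p) : ∃ g, IsLor g ∧ g *ᵥ o = p := by
  obtain ⟨n, hn, hnp⟩ := exists_normal hp
  exact ⟨frame n p, frame_lor hn hp hnp, frame_o n p⟩

theorem lin_lin {g : M3} (hg : IsLor g) (v : V3) : g *ᵥ (linv g *ᵥ v) = v := by
  rw [Matrix.mulVec_mulVec, mul_linv hg.1, Matrix.one_mulVec]

theorem lin_lin' {g : M3} (hg : IsLor g) (v : V3) : linv g *ᵥ (g *ᵥ v) = v := by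
  rw [Matrix.mulVec_mulVec, linv_mul hg.1, Matrix.one_mulVec]

theorem B_linv {g : M3} (hg : IsLor g) (v w : V3) : B (linv g *ᵥ v) w = B v (g *ᵥ w) := by
  rw [← hg.B (linv g *ᵥ v) w, lin_lin hg]

theorem B_linv' {g : M3} (hg : IsLor g) (v w : V3) : B v (linv g *ᵥ w) = B (g *ᵥ v) w := by
  rw [← hg.B v (linv g *ᵥ w), lin_lin hg]

theorem sq_eq_one_iff_of_side {x : ℝ} (h : x ^ 2 = 1) : x = 1 ∨ x = -1 := by
  have : (x - 1) * (x + 1) = 0 := by linear_combination h
  rcases mul_eq_zero.mp this with h | h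
  · left; linarith
  · right; linarith

/-- Unit vectors orthogonal to a point of the hyperboloid. -/
theorem perp_le {p n m : V3} (hp : Hyp p) (hn : B n n = 1) (hm : B m m = 1) (hnp : B n p = 0)
    (hmp : B m p = 0) : |B n m| ≤ 1 ∧ (|B n m| = 1 → m = n ∨ m = -n) := by
  obtain ⟨g, hg, rfl⟩ := exists_frame_p hp
  set n' := linv g *ᵥ n with hn'
  set m' := linv g *ᵥ m with hm'
  have hn2 : n' 2 = 0 := by
    have h1 : B n' o = 0 := by rw [hn', B_linv hg, hnp]
    simpa [B, o] using h1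
  have hm2 : m' 2 = 0 := by
    have h1 : B m' o = 0 := by rw [hm', B_linv hg, hmp]
    simpa [B, o] using h1
  have h1 : n = g *ᵥ n' := (lin_lin hg n).symm
  have h2 : m = g *ᵥ m' := (lin_lin hg m).symm
  rw [h1, hg.B] at hn
  rw [h2, hg.B] at hm
  have h3 : B n m = B n' m' := by rw [h1, h2, hg.B]
  rw [h3]
  simp only [B, hn2, hm2, mul_zero, sub_zero] at hn hm ⊢
  have hcs : (n' 0 * m' 0 + n' 1 * m' 1) ^ 2 + (n' 0 * m' 1 - n' 1 * m' 0) ^ 2 = 1 := by
    calc _ = (n' 0 * n' 0 + n' 1 * n' 1) * (m' 0 * m' 0 + m' 1 * m' 1) := by ring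
      _ = 1 := by rw [hn, hm, one_mul]
  refine ⟨?_, ?_⟩
  · apply abs_le_one_iff_mul_self_le_one.mpr
    nlinarith [sq_nonneg (n' 0 * m' 1 - n' 1 * m' 0)]
  · intro habs
    have hsq : (n' 0 * m' 0 + n' 1 * m' 1) ^ 2 = 1 := by rw [← sq_abs, habs, one_pow]
    have hz : n' 0 * m' 1 - n' 1 * m' 0 = 0 := by
      have : (n' 0 * m' 1 - n' 1 * m' 0) ^ 2 = 0 := by linarith
      exact pow_eq_zero_iff two_ne_zero |>.mp this
    have key : ∀ s : ℝ, n' 0 * m' 0 + n' 1 * m' 1 = s → m' = s • n' := by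
      intro s hs
      ext i
      fin_cases i
      · simp only [Fin.zero_eta, Pi.smul_apply, smul_eq_mul]
        linear_combination (- m' 0) * hn + (n' 0) * hs - (n' 1) * hz
      · simp only [Fin.mk_one, Pi.smul_apply, smul_eq_mul]
        linear_combination (- m' 1) * hn + (n' 1) * hs + (n' 0) * hz
      · simp [hn2, hm2]
    rcases sq_eq_one_iff_of_side hsq with h | h
    · left
      rw [h1, h2, key 1 h, one_smul]
    · right
      rw [h1, h2, key (-1) h, neg_smul, one_smul, Matrix.mulVec_neg]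

theorem fix_e1 {k : M3} (hk : IsLor k) (h : k *ᵥ e1 = e1) : ∃ t, k = flow t := by
  have h01 : k 0 1 = 0 := by
    have := congrFun h 0; simpa [e1, Matrix.mulVec, dotProduct, Fin.sum_univ_three] using this
  have h11 : k 1 1 = 1 := by
    have := congrFun h 1; simpa [e1, Matrix.mulVec, dotProduct, Fin.sum_univ_three] using this
  have h21 : k 2 1 = 0 := by
    have := congrFun h 2; simpa [e1, Matrix.mulVec, dotProduct, Fin.sum_univ_three] using this
  have c10 := col_eqs hk.1 1 0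
  have c12 := col_eqs hk.1 1 2
  have c00 := col_eqs hk.1 0 0
  have c02 := col_eqs hk.1 0 2
  have c22 := col_eqs hk.1 2 2
  simp [J, h01, h11, h21] at c10 c12
  simp [J, h21, c10, c12] at c00 c02 c22
  have hdet := hk.2.1
  rw [Matrix.det_fin_three] at hdet
  simp [h01, h11, h21, c10, c12] at hdet
  have h22 := hk.2.2
  refine ⟨Real.arsinh (k 0 2), ?_⟩
  have hs : Real.sinh (Real.arsinh (k 0 2)) = k 0 2 := Real.sinh_arsinh _
  have hc : Real.cosh (Real.arsinh (k 0 2)) = k 2 2 := by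
    rw [Real.cosh_arsinh, Real.sqrt_eq_iff_mul_self_eq_of_pos h22]
    nlinarith
  have h20 : k 2 0 = k 0 2 := by
    -- from det and orthogonality
    have e : k 2 0 * (k 2 2 * k 2 2 - k 0 2 * k 0 2) = k 0 2 * (k 0 0 * k 2 2 - k 0 2 * k 2 0) := by
      linear_combination (-k 2 2) * c02
    have e1 : k 2 2 * k 2 2 - k 0 2 * k 0 2 = 1 := by linarith
    rw [e1, hdet] at e
    linarith
  have h00 : k 0 0 = k 2 2 := by
    have e : k 0 0 * (k 2 2 * k 2 2 - k 0 2 * k 0 2) = k 2 2 * (k 0 0 * k 2 2 - k 0 2 * k 2 0) := by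
      linear_combination (-k 0 2) * c02
    have e1 : k 2 2 * k 2 2 - k 0 2 * k 0 2 = 1 := by linarith
    rw [e1, hdet] at e
    linarith
  ext i j
  fin_cases i <;> fin_cases j <;> simp [flow, hs, hc, h20, h00, h01, h11, h21, c10, c12]

theorem mem_line {g : M3} (hg : IsLor g) (x : V3) :
    x ∈ line g ↔ Hyp x ∧ B x (g *ᵥ e1) = 0 := by
  unfold line
  constructor
  · rintro ⟨t, rfl⟩
    have ho : (![0, 0, 1] : V3) = o := rfl
    simp only [ho]
    rw [← Matrix.mulVec_mulVec]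
    refine ⟨hg.hyp ((flow_lor t).hyp hyp_o), ?_⟩
    rw [hg.B, flow_o]
    simp [B, e1]
  · rintro ⟨hx, hB⟩
    set y := linv g *ᵥ x with hy
    have hyH : Hyp y := hg.linv.hyp hx
    have hy1 : y 1 = 0 := by
      have h1 : B y e1 = 0 := by rw [hy, B_linv hg, hB]
      simpa [B, e1] using h1
    refine ⟨Real.arsinh (y 0), ?_⟩
    have ho : (![0, 0, 1] : V3) = o := rfl
    simp only [ho]
    rw [← Matrix.mulVec_mulVec, flow_o]
    have h2 : Real.cosh (Real.arsinh (y 0)) = y 2 := by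
      rw [Real.cosh_arsinh, Real.sqrt_eq_iff_mul_self_eq_of_pos hyH.2]
      have := hyH.1
      simp [B, hy1] at this
      nlinarith
    have h3 : (![Real.sinh (Real.arsinh (y 0)), 0, Real.cosh (Real.arsinh (y 0))] : V3) = y := by
      ext i; fin_cases i <;> simp [h2, hy1, Real.sinh_arsinh]
    rw [h3, hy, lin_lin hg]

/-- Lines with unit normals `n`, `m` with `|B n m| < 1` meet. -/
theorem exists_meet {n m : V3} (hn : B n n = 1) (hm : B m m = 1) (h : |B n m| < 1) :
    ∃ x, Hyp x ∧ B x n = 0 ∧ B x m = 0 := by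
  set c : V3 := ![n 1 * m 2 - n 2 * m 1, n 2 * m 0 - n 0 * m 2, -(n 0 * m 1 - n 1 * m 0)] with hc
  have hcc : B c c = -(1 - (B n m) ^ 2) := by
    have : B c c = -(B n n * B m m - (B n m) ^ 2) := by simp [hc, B]; ring
    rw [this, hn, hm]; ring
  have hcn : B c n = 0 := by simp [hc, B]; ring
  have hcm : B c m = 0 := by simp [hc, B]; ring
  have hpos : 0 < 1 - (B n m) ^ 2 := by
    have := (sq_lt_one_iff_abs_lt_one (B n m)).mpr h
    linarith
  set r := Real.sqrt (1 - (B n m) ^ 2) with hr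
  have hrpos : 0 < r := Real.sqrt_pos.mpr hpos
  have hr2 : r ^ 2 = 1 - (B n m) ^ 2 := Real.sq_sqrt hpos.le
  have hc2 : c 2 ≠ 0 := by
    intro h0
    have : 0 ≤ B c c := by simp only [B, h0]; nlinarith [sq_nonneg (c 0), sq_nonneg (c 1)]
    rw [hcc] at this; linarith
  rcases lt_or_gt_of_ne hc2 with hneg | hpos'
  · refine ⟨(-r⁻¹) • c, ⟨?_, ?_⟩, ?_, ?_⟩
    · rw [B_smul_left, B_smul_right, hcc, ← hr2]; field_simp
    · simp only [Pi.smul_apply, smul_eq_mul]
      have : 0 < r⁻¹ := inv_pos.mpr hrpos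
      nlinarith
    · rw [B_smul_left, hcn, mul_zero]
    · rw [B_smul_left, hcm, mul_zero]
  · refine ⟨r⁻¹ • c, ⟨?_, ?_⟩, ?_, ?_⟩
    · rw [B_smul_left, B_smul_right, hcc, ← hr2]; field_simp
    · simp only [Pi.smul_apply, smul_eq_mul]
      have : 0 < r⁻¹ := inv_pos.mpr hrpos
      positivity
    · rw [B_smul_left, hcn, mul_zero]
    · rw [B_smul_left, hcm, mul_zero]

theorem unit_e1 {g : M3} (hg : IsLor g) : B (g *ᵥ e1) (g *ᵥ e1) = 1 := by
  rw [hg.B]; simp [B, e1]

theorem line_iff {g h : M3} (hg : IsLor g) (hh : IsLor h) :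
    (line h = line g ∨ Disjoint (line h) (line g)) ↔ 1 ≤ |B (h *ᵥ e1) (g *ᵥ e1)| := by
  have hn := unit_e1 hg
  have hm := unit_e1 hh
  constructor
  · intro H
    by_contra hcon
    push Not at hcon
    obtain ⟨x, hx, hx1, hx2⟩ := exists_meet hm hn hcon
    have hxh : x ∈ line h := (mem_line hh x).mpr ⟨hx, hx1⟩
    have hxg : x ∈ line g := (mem_line hg x).mpr ⟨hx, hx2⟩
    rcases H with H | H
    · -- all points of `line g` are orthogonal to `h e1`
      have key : ∀ t : ℝ, B (flow t *ᵥ o) (linv g *ᵥ (h *ᵥ e1)) = 0 := by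
        intro t
        have h1 : g *ᵥ (flow t *ᵥ o) ∈ line g := by
          rw [Matrix.mulVec_mulVec]; exact ⟨t, rfl⟩
        rw [← H, mem_line hh] at h1
        rw [B_linv' hg]; exact h1.2
      set w := linv g *ᵥ (h *ᵥ e1) with hw
      have k0 := key 0
      have k1 := key 1
      rw [flow_o] at k0 k1
      simp [B] at k0 k1
      have hw2 : w 2 = 0 := k0
      rw [hw2, mul_zero, sub_zero] at k1
      have hw0 : w 0 = 0 := by
        rcases mul_eq_zero.mp k1 with h | h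
        · exact absurd h (by simp)
        · exact h
      have hww : B w w = 1 := by rw [hw, hg.linv.B, hm]
      simp [B, hw0, hw2] at hww
      have hBw : B (h *ᵥ e1) (g *ᵥ e1) = w 1 := by
        rw [B_comm, ← B_linv' hg, ← hw]
        simp [B, e1]
      rw [hBw] at hcon
      have := (sq_lt_one_iff_abs_lt_one (w 1)).mpr hcon
      nlinarith
    · exact Set.disjoint_left.mp H hxh hxg
  · intro H
    by_cases hd : Disjoint (line h) (line g)
    · exact Or.inr hd
    · left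
      rw [Set.not_disjoint_iff] at hd
      obtain ⟨x, hxh, hxg⟩ := hd
      rw [mem_line hh] at hxh
      rw [mem_line hg] at hxg
      have h1 := perp_le hxh.1 hm hn (by rw [B_comm]; exact hxh.2) (by rw [B_comm]; exact hxg.2)
      rcases h1.2 (le_antisymm h1.1 H) with h2 | h2
      · ext y
        rw [mem_line hh, mem_line hg, h2]
      · ext y
        rw [mem_line hh, mem_line hg, h2, B_neg_right, neg_eq_zero]

end Pool.Agent.J4.H97.Anosov
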