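import Pool.Agent.J4.H97.Anosov.Lor2

/-!
Translations, displacement and asymptotics.
-/

namespace Pool.Agent.J4.H97.Anosov

open Matrix Filter Topology

theorem axis_form {y g : M3} (hy : IsLor y) (hg : IsLor g) (h : y *ᵥ (g *ᵥ e1) = g *ᵥ e1) :
    ∃ t, y * g = g * flow t := by
  have h1 : IsLor (linv g * y * g) := (hg.linv.mul hy).mul hg
  have h2 : (linv g * y * g) *ᵥ e1 = e1 := by
    rw [← Matrix.mulVec_mulVec, ← Matrix.mulVec_mulVec, h, lin_lin' hg]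
  obtain ⟨t, ht⟩ := fix_e1 h1 h2
  refine ⟨t, ?_⟩
  rw [← ht, mul_assoc, ← mul_assoc g (linv g), mul_linv hg.1, one_mul]

theorem trace_form {y g : M3} (hg : IsLor g) {t : ℝ} (h : y * g = g * flow t) :
    y.trace = 1 + 2 * Real.cosh t := by
  have h1 : y = g * flow t * linv g := by
    rw [← h, mul_assoc, mul_linv hg.1, mul_one]
  rw [h1, Matrix.trace_mul_comm, ← mul_assoc, linv_mul hg.1, one_mul]
  simp [Matrix.trace, flow, Fin.sum_univ_three]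
  ring

/-- Coordinates of a point. -/
theorem flow_mulVec (t : ℝ) (p : V3) : flow t *ᵥ p =
    ![p 0 * Real.cosh t + p 2 * Real.sinh t, p 1, p 0 * Real.sinh t + p 2 * Real.cosh t] := by
  ext i
  fin_cases i <;> simp [flow, Matrix.mulVec, dotProduct, Fin.sum_univ_three] <;> ring


/-- Displacement of a point by a translation. -/
theorem displacement {y g : M3} (hg : IsLor g) {t : ℝ} (h : y * g = g * flow t) {p : V3}
    (hp : Hyp p) : - B p (y *ᵥ p) = (1 + (B (g *ᵥ e1) p) ^ 2) * Real.cosh t - (B (g *ᵥ e1) p) ^ 2 := by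
  set q := linv g *ᵥ p with hq
  have hpq : p = g *ᵥ q := (lin_lin hg p).symm
  have hqH : Hyp q := hg.linv.hyp hp
  have h1 : y *ᵥ p = g *ᵥ (flow t *ᵥ q) := by
    rw [hpq, Matrix.mulVec_mulVec, h, ← Matrix.mulVec_mulVec]
  have h2 : B p (y *ᵥ p) = B q (flow t *ᵥ q) := by rw [h1, hpq, hg.B]
  have h3 : B (g *ᵥ e1) p = q 1 := by rw [hpq, hg.B]; simp [B, e1]
  rw [h2, h3, flow_mulVec]
  have h4 := hqH.1
  simp [B] at h4 ⊢
  linear_combination (-(Real.cosh t)) * h4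

theorem B_o_mulVec (y : M3) : - B o (y *ᵥ o) = y 2 2 := by
  simp [B, o, Matrix.mulVec, dotProduct, Fin.sum_univ_three]

theorem mul22 {g h : M3} (hg : IsLor g) (hh : IsLor h) : (g * h) 2 2 ≤ 3 * (g 2 2 * h 2 2) := by
  have h1 : (g * h) 2 2 = g 2 0 * h 0 2 + g 2 1 * h 1 2 + g 2 2 * h 2 2 := by
    simp [Matrix.mul_apply, Fin.sum_univ_three]
  have h2 : ∀ i, g 2 i * h i 2 ≤ g 2 2 * h 2 2 := by
    intro i
    calc g 2 i * h i 2 ≤ |g 2 i * h i 2| := le_abs_self _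
      _ = |g 2 i| * |h i 2| := abs_mul _ _
      _ ≤ g 2 2 * h 2 2 := mul_le_mul (entry_le hg 2 i) (entry_le hh i 2) (abs_nonneg _)
          hg.2.2.le
  have := h2 0
  have := h2 1
  rw [h1]; linarith

theorem linv22 (g : M3) : (linv g) 2 2 = g 2 2 := by rw [linv_eq]; simp

/-- Triangle-type inequality. -/
theorem tri {p q r : V3} (hp : Hyp p) (hq : Hyp q) (hr : Hyp r) :
    - B p r ≤ 2 * (B p q * B q r) := by
  obtain ⟨g, hg, rfl⟩ := exists_frame_p hq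
  set p' := linv g *ᵥ p with hp'
  set r' := linv g *ᵥ r with hr'
  have hpH : Hyp p' := hg.linv.hyp hp
  have hrH : Hyp r' := hg.linv.hyp hr
  have e1 : p = g *ᵥ p' := (lin_lin hg p).symm
  have e2 : r = g *ᵥ r' := (lin_lin hg r).symm
  rw [e1, e2, hg.B, hg.B, hg.B]
  obtain ⟨a1, a2⟩ := hpH
  obtain ⟨b1, b2⟩ := hrH
  simp [B, o] at a1 b1 ⊢
  have hpr : 0 < p' 2 * r' 2 := mul_pos a2 b2
  have h2 : (p' 0 * r' 0 + p' 1 * r' 1) ^ 2 ≤ (p' 2 * r' 2) ^ 2 := by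
    have e1 : p' 2 ^ 2 = 1 + p' 0 ^ 2 + p' 1 ^ 2 := by linarith
    have e2 : r' 2 ^ 2 = 1 + r' 0 ^ 2 + r' 1 ^ 2 := by linarith
    rw [mul_pow, e1, e2]
    nlinarith [sq_nonneg (p' 0), sq_nonneg (p' 1), sq_nonneg (r' 0), sq_nonneg (r' 1),
      sq_nonneg (p' 0 * r' 1 - p' 1 * r' 0)]
  have h3 := abs_le_of_sq_le_sq h2 hpr.le
  have h4 := (abs_le.mp h3).1
  linarith

/-- Comparison of distances to a line. -/
theorem B_normal_le {p q n : V3} (hp : Hyp p) (hq : Hyp q) (hn : B n n = 1) :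
    |B q n| ≤ (- B p q) * (1 + 2 * |B p n|) := by
  obtain ⟨g, hg, rfl⟩ := exists_frame_p hp
  set q' := linv g *ᵥ q with hq'
  set n' := linv g *ᵥ n with hn'
  have hqH : Hyp q' := hg.linv.hyp hq
  have e1 : q = g *ᵥ q' := (lin_lin hg q).symm
  have e2 : n = g *ᵥ n' := (lin_lin hg n).symm
  rw [e2, hg.B] at hn
  rw [e1, e2, hg.B, hg.B, hg.B]
  obtain ⟨a1, a2⟩ := hqH
  have hon : B o n' = - n' 2 := by simp [B, o]
  have hoq : B o q' = - q' 2 := by simp [B, o]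
  rw [hon, hoq, neg_neg, abs_neg]
  simp only [B] at a1 hn ⊢
  have k1 : |q' 0 * n' 0 + q' 1 * n' 1| ≤ q' 2 * (1 + |n' 2|) := by
    apply abs_le_of_sq_le_sq _ (by positivity)
    have h1 : (q' 0 * n' 0 + q' 1 * n' 1) ^ 2 ≤ (q' 0 ^ 2 + q' 1 ^ 2) * (n' 0 ^ 2 + n' 1 ^ 2) := by
      nlinarith [sq_nonneg (q' 0 * n' 1 - q' 1 * n' 0)]
    have h2 : q' 0 ^ 2 + q' 1 ^ 2 ≤ q' 2 ^ 2 := by nlinarith
    have h3 : n' 0 ^ 2 + n' 1 ^ 2 ≤ (1 + |n' 2|) ^ 2 := by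
      have := sq_abs (n' 2)
      nlinarith [abs_nonneg (n' 2)]
    calc _ ≤ (q' 0 ^ 2 + q' 1 ^ 2) * (n' 0 ^ 2 + n' 1 ^ 2) := h1
      _ ≤ q' 2 ^ 2 * (1 + |n' 2|) ^ 2 := mul_le_mul h2 h3 (by positivity) (by positivity)
      _ = _ := by ring
  calc |q' 0 * n' 0 + q' 1 * n' 1 - q' 2 * n' 2|
      ≤ |q' 0 * n' 0 + q' 1 * n' 1| + |q' 2 * n' 2| := abs_sub _ _
    _ ≤ q' 2 * (1 + |n' 2|) + q' 2 * |n' 2| := by
        rw [abs_mul, abs_of_pos a2]; linarith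
    _ = q' 2 * (1 + 2 * |n' 2|) := by ring

/-- If `p` and `q` are on different sides of the line of `n` then `p` is close to the line. -/
theorem side_bound {p q n : V3} (hp : Hyp p) (hq : Hyp q) (hn : B n n = 1) (h1 : 0 < B p n)
    (h2 : B q n ≤ 0) : |B p n| ≤ - B p q := by
  obtain ⟨g, hg, rfl⟩ := exists_frame_p hp
  set q' := linv g *ᵥ q with hq'
  set n' := linv g *ᵥ n with hn'
  have hqH : Hyp q' := hg.linv.hyp hq
  have e1 : q = g *ᵥ q' := (lin_lin hg q).symm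
  have e2 : n = g *ᵥ n' := (lin_lin hg n).symm
  rw [e2, hg.B] at hn
  rw [e1, e2, hg.B] at h2
  rw [e2, hg.B] at h1
  rw [e1, e2, hg.B, hg.B]
  obtain ⟨a1, a2⟩ := hqH
  have hon : B o n' = - n' 2 := by simp [B, o]
  have hoq : B o q' = - q' 2 := by simp [B, o]
  rw [hon] at h1
  rw [hon, hoq, neg_neg, abs_neg, abs_of_neg (by linarith : n' 2 < 0)]
  simp only [B] at a1 hn h2
  -- q2 (-n2) ≤ -(q0 n0 + q1 n1)
  have k0 : 0 < q' 2 * (-n' 2) := mul_pos a2 h1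
  have k1 : q' 2 * (-n' 2) ≤ -(q' 0 * n' 0 + q' 1 * n' 1) := by linarith
  have k2 : (q' 2 * (-n' 2)) ^ 2 ≤ (q' 0 * n' 0 + q' 1 * n' 1) ^ 2 := by
    have := pow_le_pow_left₀ k0.le k1 2
    rwa [neg_sq] at this
  have h3 : (q' 0 * n' 0 + q' 1 * n' 1) ^ 2 ≤ (q' 0 ^ 2 + q' 1 ^ 2) * (n' 0 ^ 2 + n' 1 ^ 2) := by
    nlinarith [sq_nonneg (q' 0 * n' 1 - q' 1 * n' 0)]
  have h4 : q' 0 ^ 2 + q' 1 ^ 2 = q' 2 ^ 2 - 1 := by linarith
  have h5 : n' 0 ^ 2 + n' 1 ^ 2 = 1 + n' 2 ^ 2 := by linarith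
  rw [h4, h5] at h3
  have h6 : (-n' 2) ^ 2 ≤ (q' 2) ^ 2 := by nlinarith
  exact le_of_sq_le_sq' h6 a2.le
where
  le_of_sq_le_sq' {x y : ℝ} (h : x ^ 2 ≤ y ^ 2) (hy : 0 ≤ y) : x ≤ y :=
    (le_abs_self x).trans (abs_le_of_sq_le_sq h hy)

/-- The height function along a flow line. -/
theorem height_formula {h : M3} (hh : IsLor h) (q n : V3) (t : ℝ) :
    B ((h * flow t) *ᵥ (linv h *ᵥ q)) n =
      Real.exp t / 2 * (((linv h *ᵥ q) 0 + (linv h *ᵥ q) 2) * ((linv h *ᵥ n) 0 - (linv h *ᵥ n) 2))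
      + Real.exp (-t) / 2 * (((linv h *ᵥ q) 0 - (linv h *ᵥ q) 2) *
        ((linv h *ᵥ n) 0 + (linv h *ᵥ n) 2))
      + (linv h *ᵥ n) 1 * (linv h *ᵥ q) 1 := by
  set q' := linv h *ᵥ q
  have e2 : n = h *ᵥ (linv h *ᵥ n) := (lin_lin hh n).symm
  set n' := linv h *ᵥ n
  rw [e2, ← Matrix.mulVec_mulVec, hh.B, flow_mulVec]
  simp [B, Real.cosh_eq, Real.sinh_eq]
  ring

theorem hyp_abs_lt {q : V3} (hq : Hyp q) : |q 0| < q 2 := by
  obtain ⟨h1, h2⟩ := hq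
  simp only [B] at h1
  apply abs_lt_of_sq_lt_sq _ h2.le
  nlinarith [sq_nonneg (q 1)]

/-- Asymptotics of the height at `+∞`. -/
theorem height_top {h : M3} (hh : IsLor h) {q n : V3} (hq : Hyp q)
    (hn : (linv h *ᵥ n) 2 < (linv h *ᵥ n) 0) :
    Tendsto (fun t : ℝ => B ((h * flow t) *ᵥ (linv h *ᵥ q)) n) atTop atTop := by
  simp only [height_formula hh]
  have hq' := hyp_abs_lt (hh.linv.hyp hq)
  have h0 := abs_lt.mp hq'
  have hc : 0 < ((linv h *ᵥ q) 0 + (linv h *ᵥ q) 2) * ((linv h *ᵥ n) 0 - (linv h *ᵥ n) 2) :=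
    mul_pos (by linarith) (by linarith)
  apply tendsto_atTop_add_const_right
  have l1 : Tendsto (fun t : ℝ => Real.exp t / 2 *
      (((linv h *ᵥ q) 0 + (linv h *ᵥ q) 2) * ((linv h *ᵥ n) 0 - (linv h *ᵥ n) 2))) atTop atTop :=
    (Real.tendsto_exp_atTop.atTop_div_const (by norm_num)).atTop_mul_const hc
  have l2 : Tendsto (fun t : ℝ => Real.exp (-t) / 2 *
      (((linv h *ᵥ q) 0 - (linv h *ᵥ q) 2) * ((linv h *ᵥ n) 0 + (linv h *ᵥ n) 2))) atTop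
      (𝓝 (0 / 2 * (((linv h *ᵥ q) 0 - (linv h *ᵥ q) 2) * ((linv h *ᵥ n) 0 + (linv h *ᵥ n) 2)))) :=
    ((Real.tendsto_exp_neg_atTop_nhds_zero).div_const 2).mul_const _
  exact l1.atTop_add l2

theorem height_bot {h : M3} (hh : IsLor h) {q n : V3} (hq : Hyp q)
    (hn : (linv h *ᵥ n) 0 + (linv h *ᵥ n) 2 < 0) :
    Tendsto (fun t : ℝ => B ((h * flow (-t)) *ᵥ (linv h *ᵥ q)) n) atTop atTop := by
  simp only [height_formula hh, neg_neg]
  have hq' := hyp_abs_lt (hh.linv.hyp hq)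
  have h0 := abs_lt.mp hq'
  have hc : 0 < ((linv h *ᵥ q) 0 - (linv h *ᵥ q) 2) * ((linv h *ᵥ n) 0 + (linv h *ᵥ n) 2) :=
    mul_pos_of_neg_of_neg (by linarith) hn
  apply tendsto_atTop_add_const_right
  have l1 : Tendsto (fun t : ℝ => Real.exp t / 2 *
      (((linv h *ᵥ q) 0 - (linv h *ᵥ q) 2) * ((linv h *ᵥ n) 0 + (linv h *ᵥ n) 2))) atTop atTop :=
    (Real.tendsto_exp_atTop.atTop_div_const (by norm_num)).atTop_mul_const hc
  have l2 : Tendsto (fun t : ℝ => Real.exp (-t) / 2 *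
      (((linv h *ᵥ q) 0 + (linv h *ᵥ q) 2) * ((linv h *ᵥ n) 0 - (linv h *ᵥ n) 2))) atTop
      (𝓝 (0 / 2 * (((linv h *ᵥ q) 0 + (linv h *ᵥ q) 2) * ((linv h *ᵥ n) 0 - (linv h *ᵥ n) 2)))) :=
    ((Real.tendsto_exp_neg_atTop_nhds_zero).div_const 2).mul_const _
  exact l2.add_atTop l1

end Pool.Agent.J4.H97.Anosov
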