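import Pool.Agent.J4.H97.Anosov.Geo

/-!
The domain `Om`: characters near which the eigenvalue gap of simple elements tends to infinity.
-/

namespace Pool.Agent.J4.H97.Anosov

open Matrix Filter Topology Polynomial

variable {Γ : Subgroup SL3}

/-- The eigenvalue ratio of `a` is at most `R`. -/
def SmallGap (χ : Γ → ℂ) (d : ℕ) (a : Γ) (R : ℝ) : Prop :=
  ∃ ρ : Γ →* SLd d, character ρ = χ ∧ ∀ (μ ν : ℂ) (v w : Fin d → ℂ), v ≠ 0 → w ≠ 0 →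
    (ρ a : Md d) *ᵥ v = μ • v → (ρ a : Md d) *ᵥ w = ν • w → ‖μ‖ ≤ R * ‖ν‖

/-- An open set on which the gap tends to infinity uniformly. -/
def GoodNbhd (d : ℕ) (U : Set (Γ → ℂ)) : Prop :=
  IsOpen U ∧ ∀ R : ℝ, {c : ConjClasses Γ | ∃ a : Γ, ConjClasses.mk a = c ∧ SimpleElt a ∧
    ∃ χ ∈ U, SmallGap χ d a R}.Finite

/-- The domain. -/
def Om (Γ : Subgroup SL3) (d : ℕ) : Set (Γ → ℂ) :=
  {χ | χ ∈ CharVar Γ d ∧ ∃ U, GoodNbhd d U ∧ χ ∈ U}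

theorem om_open (d : ℕ) : ∃ U : Set (Γ → ℂ), IsOpen U ∧ Om Γ d = U ∩ CharVar Γ d := by
  refine ⟨⋃₀ {U | GoodNbhd d U}, isOpen_sUnion fun U hU => hU.1, ?_⟩
  ext χ
  constructor
  · rintro ⟨h1, U, hU, hχ⟩
    exact ⟨⟨U, hU, hχ⟩, h1⟩
  · rintro ⟨⟨U, hU, hχ⟩, h1⟩
    exact ⟨h1, U, hU, hχ⟩

theorem om_subset (d : ℕ) : Om Γ d ⊆ CharVar Γ d := fun _ h => h.1

theorem SmallGap.map {χ : Γ → ℂ} {d : ℕ} {a : Γ} {R : ℝ} (h : SmallGap χ d a R)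
    (φ : MulAut Γ) : SmallGap (fun x => χ (φ x)) d (φ⁻¹ a) R := by
  obtain ⟨ρ, hρ, h2⟩ := h
  refine ⟨ρ.comp φ.toMonoidHom, ?_, ?_⟩
  · funext x
    rw [← hρ]; rfl
  · intro μ ν v w hv hw h3 h4
    refine h2 μ ν v w hv hw ?_ ?_
    · have : ((ρ.comp φ.toMonoidHom) (φ⁻¹ a)) = ρ a := by
        change ρ (φ (φ⁻¹ a)) = ρ a
        rw [MulAut.apply_inv_self]
      rw [this] at h3; exact h3
    · have : ((ρ.comp φ.toMonoidHom) (φ⁻¹ a)) = ρ a := by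
        change ρ (φ (φ⁻¹ a)) = ρ a
        rw [MulAut.apply_inv_self]
      rw [this] at h4; exact h4

theorem charVar_inv (d : ℕ) (φ : MulAut Γ) {χ : Γ → ℂ} (h : χ ∈ CharVar Γ d) :
    modAct φ χ ∈ CharVar Γ d := by
  obtain ⟨ρ, hρ⟩ := h
  refine ⟨ρ.comp (φ⁻¹).toMonoidHom, ?_⟩
  funext x
  change character ρ (φ⁻¹ x) = χ (φ⁻¹ x)
  rw [hρ]

theorem om_inv (d : ℕ) (φ : MulAut Γ) {χ : Γ → ℂ} (h : χ ∈ Om Γ d) : modAct φ χ ∈ Om Γ d := by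
  obtain ⟨h1, U, ⟨hU, hfin⟩, hχ⟩ := h
  have hc : Continuous fun χ : Γ → ℂ => (fun x => χ (φ x)) :=
    continuous_pi fun x => continuous_apply _
  refine ⟨charVar_inv d φ h1, (fun χ : Γ → ℂ => (fun x => χ (φ x))) ⁻¹' U,
    ⟨hU.preimage hc, fun R => ?_⟩, ?_⟩
  · refine ((hfin R).image (ConjClasses.map φ.toMonoidHom)).subset ?_
    rintro _ ⟨a, rfl, ha, χ', hχ', hgap⟩
    refine ⟨ConjClasses.mk (φ⁻¹ a), ⟨φ⁻¹ a, rfl, ha.map φ⁻¹, _, hχ', hgap.map φ⟩, ?_⟩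
    change ConjClasses.mk (φ (φ⁻¹ a)) = ConjClasses.mk a
    rw [MulAut.apply_inv_self]
  · have : (fun x => modAct φ χ (φ x)) = χ := by
      funext x
      change χ (φ⁻¹ (φ x)) = χ x
      rw [MulAut.inv_apply_self]
    change (fun x => modAct φ χ (φ x)) ∈ U
    rw [this]; exact hχ

theorem Good.countable (hG : Good Γ) : Countable Γ := by
  have h1 : (Set.univ : Set Γ) = ⋃ n : ℕ, {a : Γ | mat a 2 2 ≤ n} := by
    ext a
    simp only [Set.mem_univ, Set.mem_iUnion, true_iff]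
    obtain ⟨n, hn⟩ := exists_nat_ge (mat a 2 2)
    exact ⟨n, hn⟩
  rw [← Set.countable_univ_iff, h1]
  exact Set.countable_iUnion fun n => (hG.fin n).countable

theorem trace_pow_eq {d : ℕ} {ρ ρ' : Γ →* SLd d}
    (h : ∀ γ, (ρ γ : Md d).trace = (ρ' γ : Md d).trace) (a : Γ) (n : ℕ) :
    ((ρ a : Md d) ^ n).trace = ((ρ' a : Md d) ^ n).trace := by
  have h1 := h (a ^ n)
  simpa using h1

open scoped Matrix.Norms.Operator in
theorem norm_lim {d : ℕ} {α : Type*} {𝒰 : Filter α} {f : α → Md d} {X : Md d}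
    (h : Tendsto f 𝒰 (𝓝 X)) {δ : ℝ} (hδ : 0 < δ) : ∀ᶠ n in 𝒰, ‖f n - X‖ ≤ δ := by
  have h1 := tendsto_iff_norm_sub_tendsto_zero.mp h
  filter_upwards [h1.eventually (gt_mem_nhds hδ)] with n hn using hn.le

theorem contain (hG : Good Γ) (S : Finset Γ) (hS : Subgroup.closure (S : Set Γ) = ⊤) {d k : ℕ}
    (hk : 1 ≤ k) (hkd : k < d) : SimpleAnosovDomain Γ d k ⊆ Om Γ d := by
  rintro χ₀ ⟨ρ₀, hρ₀, hχ₀⟩
  by_contra hcon
  have hmem : χ₀ ∈ CharVar Γ d := ⟨ρ₀, hχ₀⟩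
  have hbad : ∀ U : Set (Γ → ℂ), IsOpen U → χ₀ ∈ U → ∃ R : ℝ,
      {c : ConjClasses Γ | ∃ a : Γ, ConjClasses.mk a = c ∧ SimpleElt a ∧
        ∃ χ ∈ U, SmallGap χ d a R}.Infinite := by
    intro U hU hχ
    by_contra h
    push Not at h
    exact hcon ⟨hmem, U, ⟨hU, fun R => by
      have := h R
      simpa [Set.not_infinite] using this⟩, hχ⟩
  obtain ⟨C0, hC0⟩ := hG.cocpt
  obtain ⟨P, C, c, M, hD, hspan⟩ := dom_of_anosov hG hk hkd ρ₀ hρ₀ C0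
  have := hG.countable
  obtain ⟨V, hV⟩ := (𝓝 χ₀).exists_antitone_basis
  -- a bad sequence
  have hseq : ∀ n : ℕ, ∃ (R : ℝ) (a : Γ) (χ : Γ → ℂ), SimpleElt a ∧ χ ∈ V n ∧ SmallGap χ d a R ∧
      ∀ g t, IsLor g → 0 < t → mat a * g = g * flow t → n * (|R| + 1) < t := by
    intro n
    obtain ⟨R, hR⟩ := hbad (interior (V n)) isOpen_interior
      (mem_interior_iff_mem_nhds.mpr (hV.mem n))
    obtain ⟨cl, hcl, hcl'⟩ := (hR.sdiff (len_finite hG (n * (|R| + 1)))).nonempty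
    obtain ⟨a, hac, ha, χ, hχ, hgap⟩ := hcl
    refine ⟨R, a, χ, ha, interior_subset hχ, hgap, fun g t hg ht hag => ?_⟩
    by_contra hle
    push Not at hle
    exact hcl' ⟨a, hac, g, t, hg, ht, hle, hag⟩
  choose R a χ ha hχV hgap hlen using hseq
  choose ρ hρχ hρgap using hgap
  have hmin : ∀ n, ∃ r : Γ →* SLd d, (∀ γ, (r γ : Md d).trace = (ρ n γ : Md d).trace) ∧
      MinT S (mrep r) := fun n => exists_min S hS (ρ n)
  choose r hr hrmin using hmin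
  let 𝒰 : Ultrafilter ℕ := Filter.hyperfilter ℕ
  have hχlim : Tendsto χ (𝒰 : Filter ℕ) (𝓝 χ₀) :=
    (hV.tendsto hχV).mono_left Nat.hyperfilter_le_atTop
  have hlim : ∀ γ, Tendsto (fun n => (r n γ : Md d).trace) (𝒰 : Filter ℕ) (𝓝 (χ₀ γ)) := by
    intro γ
    have h1 := (tendsto_pi_nhds.mp hχlim) γ
    refine h1.congr fun n => ?_
    rw [hr n γ, ← hρχ n]; rfl
  obtain ⟨ρ₁, hρ₁, hρ₁min, hρ₁tr⟩ := kn_limit 𝒰 S hS r hrmin χ₀ hlim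
  obtain ⟨P', C', M', hD'⟩ := dom_transfer S hS ρ₀ ρ₁ (fun γ => by
    rw [hρ₁tr γ, ← hχ₀]; rfl) hρ₁min hD hspan
  obtain ⟨T, hT, S', hS', δ, hδ, hmain⟩ := geo_gap hG hC0 ρ₁ hD'
  have hclose : ∀ᶠ n in (𝒰 : Filter ℕ), ∀ s ∈ S',
      (by
        letI := Matrix.linftyOpNormedAddCommGroup (m := Fin d) (n := Fin d) (α := ℂ)
        exact ‖(r n s⁻¹ : Md d) - (ρ₁ s⁻¹ : Md d)‖ ≤ δ) := by
    rw [Filter.eventually_all_finite hS']
    intro s _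
    exact norm_lim (hρ₁ s⁻¹) hδ
  have hlarge : ∀ᶠ n : ℕ in (𝒰 : Filter ℕ), T ≤ (n : ℝ) := by
    have h1 : ∀ᶠ n : ℕ in atTop, T ≤ (n : ℝ) := by
      obtain ⟨N, hN⟩ := exists_nat_ge T
      filter_upwards [eventually_ge_atTop N] with n hn
      exact hN.trans (by exact_mod_cast hn)
    exact Nat.hyperfilter_le_atTop h1
  obtain ⟨n, hn1, hn2⟩ := (hclose.and hlarge).exists
  obtain ⟨g, t, hg, ht, hag⟩ := hG.frame (ha n).1
  have hsimple := (ha n).frame hG hg ht hag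
  have hlt := hlen n g t hg ht hag
  have hnpos : (0 : ℝ) < n := lt_of_lt_of_le hT hn2
  have hR0 := abs_nonneg (R n)
  have hTt : T * (|R n| + 1) < t := lt_of_le_of_lt
    (mul_le_mul_of_nonneg_right hn2 (by linarith)) hlt
  have hTt' : T ≤ t := by nlinarith
  obtain ⟨μ, ν, v, w, hv, hw, hμ, hν, hμν⟩ := hmain (r n) hn1 (a n) g t (subset_closure hsimple)
    hTt' hag
  obtain ⟨v', hv', hμ'⟩ := eig_of_trace _ (ρ n (a n) : Md d)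
    (trace_pow_eq (hr n) (a n)) μ v hv hμ
  obtain ⟨w', hw', hν'⟩ := eig_of_trace _ (ρ n (a n) : Md d)
    (trace_pow_eq (hr n) (a n)) ν w hw hν
  have hle := hρgap n μ ν v' w' hv' hw' hμ' hν'
  have hν0 : 0 < ‖ν‖ := norm_pos_iff.mpr (eig_ne_zero (r n) (a n) hw hν)
  have h3 : 2 ^ ⌊t / T⌋₊ * ‖ν‖ ≤ R n * ‖ν‖ := hμν.trans hle
  have h4 : (2 : ℝ) ^ ⌊t / T⌋₊ ≤ R n := le_of_mul_le_mul_right h3 hν0
  have h5 : |R n| + 1 < t / T := by rw [lt_div_iff₀ hT]; linarith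
  have h6 : t / T < ⌊t / T⌋₊ + 1 := Nat.lt_floor_add_one _
  have h7 : ((⌊t / T⌋₊ : ℕ) : ℝ) < 2 ^ ⌊t / T⌋₊ := by
    exact_mod_cast Nat.lt_two_pow_self
  have h8 := le_abs_self (R n)
  linarith

end Pool.Agent.J4.H97.Anosov
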