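import Pool.Agent.J4.H97.Anosov.Cross

/-!
Simple elements and the Birman-Series set.
-/

namespace Pool.Agent.J4.H97.Anosov

open Matrix Filter Topology

variable {Γ : Subgroup SL3}

theorem simple_iff (hG : Good Γ) (g : M3) : IsSimpleClosed Γ g ↔ IsLor g ∧
    (∃ γ : Γ, ∃ L : ℝ, 0 < L ∧ mat γ * g = g * flow L) ∧
    ∀ δ : Γ, 1 ≤ |B (mat δ *ᵥ (g *ᵥ e1)) (g *ᵥ e1)| := by
  unfold IsSimpleClosed
  constructor
  · rintro ⟨hg, ⟨γ, hγ, L, hL, h⟩, h2⟩
    refine ⟨hg, ⟨⟨γ, hγ⟩, L, hL, h⟩, fun δ => ?_⟩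
    have h3 := (line_iff hg ((hG.lor δ).mul hg)).mp (h2 δ δ.2)
    rwa [← Matrix.mulVec_mulVec] at h3
  · rintro ⟨hg, ⟨γ, L, hL, h⟩, h2⟩
    refine ⟨hg, ⟨γ, γ.2, L, hL, h⟩, fun δ hδ => ?_⟩
    have h3 := h2 ⟨δ, hδ⟩
    rw [Matrix.mulVec_mulVec] at h3
    exact (line_iff hg ((hG.lor ⟨δ, hδ⟩).mul hg)).mpr h3

/-- Simple elements, algebraically. -/
def SimpleElt (a : Γ) : Prop := a ≠ 1 ∧ ∀ δ : Γ, ¬ CrossAlg a (δ * a * δ⁻¹)

theorem SimpleElt.map {a : Γ} (h : SimpleElt a) (φ : MulAut Γ) : SimpleElt (φ a) := by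
  obtain ⟨h1, h2⟩ := h
  refine ⟨fun hc => h1 (by simpa using hc), fun δ hc => h2 (φ⁻¹ δ) ?_⟩
  have h3 := hc.map φ⁻¹
  simpa [map_mul, map_inv] using h3

theorem SimpleElt.frame (hG : Good Γ) {a : Γ} (h : SimpleElt a) {g : M3} (hg : IsLor g) {t : ℝ}
    (ht : 0 < t) (hag : mat a * g = g * flow t) : IsSimpleClosed Γ g := by
  rw [simple_iff hG]
  refine ⟨hg, ⟨a, t, ht, hag⟩, fun δ => ?_⟩
  by_contra hcon
  push Not at hcon
  have hn := unit_e1 hg
  have hane : mat a *ᵥ (g *ᵥ e1) = g *ᵥ e1 := by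
    rw [Matrix.mulVec_mulVec, hag, ← Matrix.mulVec_mulVec, flow_e1]
  have h1 : δ * a * δ⁻¹ ≠ 1 := by
    intro hc
    apply h.1
    have := congrArg (fun x => δ⁻¹ * x * δ) hc
    simpa [mul_assoc] using this
  refine h.2 δ (cross_imp hG h.1 h1 hn (m := mat δ *ᵥ (g *ᵥ e1)) ?_ hane ?_ ?_)
  · rw [(hG.lor δ).B, hn]
  · rw [mat_mul, mat_mul, ← Matrix.mulVec_mulVec, ← Matrix.mulVec_mulVec, hG.mat_inv,
      lin_lin' (hG.lor δ), hane]
  · rw [B_comm]; exact hcon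

theorem SimpleElt.of_frame (hG : Good Γ) {a : Γ} {g : M3} {t : ℝ} (ht : 0 < t)
    (hag : mat a * g = g * flow t) (h : IsSimpleClosed Γ g) : SimpleElt a := by
  rw [simple_iff hG] at h
  obtain ⟨hg, -, h2⟩ := h
  have hane : mat a *ᵥ (g *ᵥ e1) = g *ᵥ e1 := by
    rw [Matrix.mulVec_mulVec, hag, ← Matrix.mulVec_mulVec, flow_e1]
  have ha1 : a ≠ 1 := by
    intro h1
    rw [h1, mat_one, one_mul] at hag
    have h3 : flow t = 1 := by
      calc flow t = linv g * (g * flow t) := by rw [← mul_assoc, linv_mul hg.1, one_mul]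
        _ = 1 := by rw [← hag, linv_mul hg.1]
    have h4 := congrFun (congrFun h3 2) 2
    have h5 : Real.cosh t = 1 := by simpa [flow] using h4
    have h7 := Real.one_lt_cosh.mpr ht.ne'
    linarith
  refine ⟨ha1, fun δ hc => ?_⟩
  have h1 : δ * a * δ⁻¹ ≠ 1 := by
    intro hc
    apply ha1
    have := congrArg (fun x => δ⁻¹ * x * δ) hc
    simpa [mul_assoc] using this
  have h3 := imp_cross hG ha1 h1 (unit_e1 hg) (m := mat δ *ᵥ (g *ᵥ e1))
    (by rw [(hG.lor δ).B, unit_e1 hg]) hane (by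
      rw [mat_mul, mat_mul, ← Matrix.mulVec_mulVec, ← Matrix.mulVec_mulVec, hG.mat_inv,
        lin_lin' (hG.lor δ), hane]) hc
  rw [B_comm] at h3
  exact absurd (h2 δ) (not_le.mpr h3)

/-! ### Closedness and compactness -/

theorem isClosed_lor : IsClosed {g : M3 | IsLor g} := by
  have h : {g : M3 | IsLor g} = {g : M3 | gᵀ * J * g = J} ∩ {g : M3 | g.det = 1} ∩
      {g : M3 | 1 ≤ g 2 2} := by
    ext g
    constructor
    · intro hg
      exact ⟨⟨hg.1, hg.2.1⟩, one_le_22 hg⟩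
    · rintro ⟨⟨h1, h2⟩, h3⟩
      exact ⟨h1, h2, lt_of_lt_of_le one_pos h3⟩
  rw [h]
  refine IsClosed.inter (IsClosed.inter ?_ ?_) ?_
  · exact isClosed_eq ((continuous_id.matrix_transpose.mul continuous_const).mul continuous_id)
      continuous_const
  · exact isClosed_eq continuous_id.matrix_det continuous_const
  · exact isClosed_le continuous_const (continuous_id.matrix_elem 2 2)

theorem isCompact_ball (C : ℝ) : IsCompact {g : M3 | IsLor g ∧ g 2 2 ≤ C} := by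
  have hcl : IsClosed {g : M3 | IsLor g ∧ g 2 2 ≤ C} :=
    isClosed_lor.inter (isClosed_le (continuous_id.matrix_elem 2 2) continuous_const)
  have hc : IsCompact (Set.univ.pi fun _ : Fin 3 => Set.univ.pi fun _ : Fin 3 => Set.Icc (-C) C) :=
    isCompact_univ_pi fun _ => isCompact_univ_pi fun _ => isCompact_Icc
  refine hc.of_isClosed_subset hcl ?_
  rintro g ⟨hg, hgC⟩ i - j -
  exact abs_le.mp ((entry_le hg i j).trans hgC)

theorem F0_lor {g : M3} (hg : g ∈ F0 Γ) : IsLor g := by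
  have h : closure {g | IsSimpleClosed Γ g} ⊆ {g : M3 | IsLor g} :=
    closure_minimal (fun g hg => hg.1) isClosed_lor
  exact h hg

theorem F0_closed : IsClosed (F0 Γ) := isClosed_closure

theorem F0_act (hG : Good Γ) {g : M3} (hg : g ∈ F0 Γ) (a : Γ) : mat a * g ∈ F0 Γ := by
  have hc : Continuous fun g : M3 => mat a * g := continuous_const.mul continuous_id
  refine map_mem_closure hc hg ?_
  intro g hg
  replace hg : IsSimpleClosed Γ g := hg
  change IsSimpleClosed Γ _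
  rw [simple_iff hG] at hg ⊢
  obtain ⟨h1, ⟨γ, L, hL, hγ⟩, h3⟩ := hg
  refine ⟨(hG.lor a).mul h1, ⟨a * γ * a⁻¹, L, hL, ?_⟩, fun δ => ?_⟩
  · have e : mat a⁻¹ * mat a = 1 := by rw [← mat_mul]; simp [mat_one]
    calc mat (a * γ * a⁻¹) * (mat a * g) = mat a * (mat γ * ((mat a⁻¹ * mat a) * g)) := by
          rw [mat_mul, mat_mul]; simp only [mul_assoc]
      _ = mat a * g * flow L := by rw [e, one_mul, hγ]; simp only [mul_assoc]
  · have h4 := h3 (a⁻¹ * δ * a)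
    have e : B (mat δ *ᵥ ((mat a * g) *ᵥ e1)) ((mat a * g) *ᵥ e1) =
        B (mat (a⁻¹ * δ * a) *ᵥ (g *ᵥ e1)) (g *ᵥ e1) := by
      rw [mat_mul, mat_mul, hG.mat_inv]
      simp only [← Matrix.mulVec_mulVec]
      rw [B_linv (hG.lor a)]
    rw [e]; exact h4

theorem F0_flow (hG : Good Γ) {g : M3} (hg : g ∈ F0 Γ) (t : ℝ) : g * flow t ∈ F0 Γ := by
  have hc : Continuous fun g : M3 => g * flow t := continuous_id.mul continuous_const
  refine map_mem_closure (f := fun g : M3 => g * flow t) hc hg ?_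
  intro g hg
  replace hg : IsSimpleClosed Γ g := hg
  change IsSimpleClosed Γ _
  rw [simple_iff hG] at hg ⊢
  obtain ⟨h1, ⟨γ, L, hL, hγ⟩, h3⟩ := hg
  have e : (g * flow t) *ᵥ e1 = g *ᵥ e1 := by rw [← Matrix.mulVec_mulVec, flow_e1]
  refine ⟨h1.mul (flow_lor t), ⟨γ, L, hL, ?_⟩, fun δ => ?_⟩
  · rw [← mul_assoc, hγ, mul_assoc, mul_assoc, flow_add, flow_add, add_comm]
  · rw [e]; exact h3 δ

/-- Finitely many classes have bounded translation length. -/
theorem len_finite (hG : Good Γ) (ℓ : ℝ) : {c : ConjClasses Γ | ∃ a : Γ, ConjClasses.mk a = c ∧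
    ∃ g t, IsLor g ∧ 0 < t ∧ t ≤ ℓ ∧ mat a * g = g * flow t}.Finite := by
  obtain ⟨C0, hC0⟩ := hG.cocpt
  refine ((hG.fin (3 * (3 * (C0 * Real.cosh ℓ) * C0))).image ConjClasses.mk).subset ?_
  rintro _ ⟨a, rfl, g, t, hg, ht, htℓ, hag⟩
  obtain ⟨δ, hδ⟩ := hC0 g hg
  refine ⟨δ * a * δ⁻¹, ?_, ?_⟩
  · set k := mat δ * g with hk
    have hkl : IsLor k := (hG.lor δ).mul hg
    have h1 : mat (δ * a * δ⁻¹) = k * flow t * linv k := by
      have e : mat δ⁻¹ * mat δ = 1 := by rw [← mat_mul]; simp [mat_one]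
      have h2 : mat (δ * a * δ⁻¹) * k = k * flow t := by
        calc mat (δ * a * δ⁻¹) * (mat δ * g) = mat δ * (mat a * ((mat δ⁻¹ * mat δ) * g)) := by
              rw [mat_mul, mat_mul]; simp only [mul_assoc]
          _ = mat δ * g * flow t := by rw [e, one_mul, hag]; simp only [mul_assoc]
      rw [← h2, mul_assoc (mat (δ * a * δ⁻¹)) k (linv k), mul_linv hkl.1, mul_one]
    change mat (δ * a * δ⁻¹) 2 2 ≤ _
    rw [h1]
    have hfl : (flow t) 2 2 = Real.cosh t := by simp [flow]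
    have h3 : (k * flow t * linv k) 2 2 ≤ 3 * ((k * flow t) 2 2 * (linv k) 2 2) :=
      mul22 (hkl.mul (flow_lor t)) hkl.linv
    have h4 : (k * flow t) 2 2 ≤ 3 * (k 2 2 * (flow t) 2 2) := mul22 hkl (flow_lor t)
    rw [hfl] at h4
    rw [linv22] at h3
    have h5 : Real.cosh t ≤ Real.cosh ℓ := Real.cosh_le_cosh.mpr (by
      rw [abs_of_pos ht, abs_of_pos (by linarith)]; exact htℓ)
    have hk22 := hkl.2.2
    have hch := Real.cosh_pos t
    have h6 : k 2 2 * Real.cosh t ≤ C0 * Real.cosh ℓ :=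
      mul_le_mul hδ h5 hch.le (by linarith)
    have h7 : (k * flow t) 2 2 * k 2 2 ≤ 3 * (C0 * Real.cosh ℓ) * C0 := by
      refine mul_le_mul (by linarith) hδ hk22.le ?_
      have : 0 ≤ C0 * Real.cosh ℓ := le_trans (by positivity) h6
      linarith
    linarith
  · rw [ConjClasses.mk_eq_mk_iff_isConj]
    exact (isConj_iff.mpr ⟨δ, rfl⟩).symm

end Pool.Agent.J4.H97.Anosov
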