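import Pool.Agent.J4.H97.Anosov.Dom

/-!
A simple `1`-Anosov representation which is not simple `k`-Anosov for `2 ≤ k ≤ d - 2`.
-/

namespace Pool.Agent.J4.H97.Anosov

open Matrix Filter Topology Polynomial
open scoped ComplexOrder

variable {Γ : Subgroup SL3} {d : ℕ}

theorem idem_rank (e : Md d) (he : e * e = e) : (e.rank : ℂ) = e.trace := by
  have h1 : IsIdempotentElem (Matrix.toLin' e) := by
    unfold IsIdempotentElem
    rw [Module.End.mul_eq_comp, ← Matrix.toLin'_mul, he]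
  have h2 := (LinearMap.IsIdempotentElem.isProj_range _ h1).trace
  rw [Matrix.trace_toLin'_eq] at h2
  rw [h2]
  rfl

/-- Strict separation of eigenvalues on a closed simple geodesic. -/
theorem strict_sep {k : ℕ} (ρ : Γ →* SLd d) {P H : M3 → Md d}
    (hPH : ∀ g ∈ F0 Γ, P g * P g = P g ∧ (P g).rank = k ∧ (H g).PosDef)
    (hHe : ∀ g ∈ F0 Γ, ∀ γ : Γ, ∀ v : Fin d → ℂ,
      hnorm (H (((γ : SL3) : M3) * g)) ((ρ γ : Md d) *ᵥ v) = hnorm (H g) v)
    {C c : ℝ} (hc : 0 < c)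
    (hdom : ∀ g ∈ F0 Γ, ∀ v w : Fin d → ℂ, v ≠ 0 → w ≠ 0 →
      P g *ᵥ v = v → P g *ᵥ w = 0 → ∀ t : ℝ, 0 ≤ t →
        hnorm (H (g * flow t)) w / hnorm (H g) w ≤
          C * Real.exp (-(c * t)) * (hnorm (H (g * flow t)) v / hnorm (H g) v))
    {g : M3} (hg : g ∈ F0 Γ) {γ : Γ} {L : ℝ} (hL : 0 < L) (hγ : mat γ * g = g * flow L)
    {μ ν : ℂ} {v w : Fin d → ℂ} (hv : v ≠ 0) (hw : w ≠ 0) (hPv : P g *ᵥ v = v)
    (hPw : P g *ᵥ w = 0) (hAv : (ρ γ : Md d) *ᵥ v = μ • v) (hAw : (ρ γ : Md d) *ᵥ w = ν • w)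
    (hμ0 : μ ≠ 0) (hν0 : ν ≠ 0) : ‖μ‖ < ‖ν‖ := by
  by_contra hcon
  push Not at hcon
  have hpow : ∀ (μ : ℂ), μ ≠ 0 → ∀ (j : ℕ) (u : Fin d → ℂ), (ρ γ : Md d) *ᵥ u = μ • u →
      hnorm (H (g * flow (j * L))) u = ‖μ⁻¹‖ ^ j * hnorm (H g) u := by
    intro μ hμ0 j u hu
    have h2 : ∀ j : ℕ, (ρ (γ ^ j) : Md d) *ᵥ u = μ ^ j • u := by
      intro j
      induction j with
      | zero => simp
      | succ j ih =>
        rw [pow_succ, map_mul, Matrix.SpecialLinearGroup.coe_mul, ← Matrix.mulVec_mulVec, hu,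
          Matrix.mulVec_smul, ih, smul_smul, pow_succ, mul_comm]
    have h3 := hHe g hg (γ ^ j) ((μ⁻¹) ^ j • u)
    change hnorm (H (mat (γ ^ j) * g)) _ = _ at h3
    rw [mat_pow_frame hγ, Matrix.mulVec_smul, h2, smul_smul, ← mul_pow,
      inv_mul_cancel₀ hμ0, one_pow, one_smul, hnorm_smul, norm_pow] at h3
    exact h3
  have hhw : 0 < hnorm (H g) w := hnorm_pos (hPH g hg).2.2 hw
  have hhv : 0 < hnorm (H g) v := hnorm_pos (hPH g hg).2.2 hv
  have hμ' : 0 < ‖μ⁻¹‖ := norm_pos_iff.mpr (inv_ne_zero hμ0)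
  have hν' : 0 < ‖ν⁻¹‖ := norm_pos_iff.mpr (inv_ne_zero hν0)
  have hle : ‖μ⁻¹‖ ≤ ‖ν⁻¹‖ := by
    rw [norm_inv, norm_inv]
    exact inv_anti₀ (norm_pos_iff.mpr hν0) hcon
  have hineq : ∀ j : ℕ, 1 ≤ C * Real.exp (-(c * (j * L))) := by
    intro j
    have h4 := hdom g hg v w hv hw hPv hPw (j * L) (by positivity)
    rw [hpow μ hμ0 j v hAv, hpow ν hν0 j w hAw, mul_div_assoc, mul_div_assoc, div_self hhw.ne',
      div_self hhv.ne', mul_one, mul_one] at h4
    have h5 : 0 < ‖μ⁻¹‖ ^ j := by positivity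
    have h7 : ‖μ⁻¹‖ ^ j ≤ ‖ν⁻¹‖ ^ j := pow_le_pow_left₀ hμ'.le hle j
    have h6 : 1 * ‖μ⁻¹‖ ^ j ≤ C * Real.exp (-(c * (j * L))) * ‖μ⁻¹‖ ^ j := by
      rw [one_mul]; exact h7.trans h4
    exact le_of_mul_le_mul_right h6 h5
  have hlim : Tendsto (fun j : ℕ => C * Real.exp (-(c * (j * L)))) atTop (𝓝 (C * 0)) := by
    have h7 := Real.tendsto_exp_neg_atTop_nhds_zero.comp
      ((tendsto_nat_mul hL).const_mul_atTop hc)
    exact h7.const_mul C
  rw [mul_zero] at hlim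
  obtain ⟨j, hj⟩ := (hlim.eventually (gt_mem_nhds (zero_lt_one))).exists
  exact absurd (hineq j) (not_le.mpr hj)

/-- Eigenvalue list `eᵗ, e⁻ᵗ, 1, …, 1`. -/
noncomputable def ev (f : ℕ) (t : ℝ) : Fin (f + 2) → ℂ :=
  Fin.cons (Complex.exp t) (Fin.cons (Complex.exp (-t)) (fun _ => 1))

theorem sum_ev (f : ℕ) (t : ℝ) (F : ℂ → ℂ) :
    ∑ i, F (ev f t i) = F (Complex.exp t) + F (Complex.exp (-t)) + f * F 1 := by
  rw [Fin.sum_univ_succ, Fin.sum_univ_succ]
  simp [ev]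
  ring

theorem not_anosov {f : ℕ} {k : ℕ} (hk : 2 ≤ k) (hkd : k ≤ f)
    (ρ : Γ →* SLd (f + 2)) (h : IsSimpleAnosov Γ k ρ) {g : M3} (hg : g ∈ F0 Γ) {γ : Γ} {L : ℝ}
    (hL : 0 < L) (hγ : mat γ * g = g * flow L)
    (htr : ∀ n : ℕ, (ρ (γ ^ n) : Md (f + 2)).trace = Complex.exp (L) ^ n +
      Complex.exp (-(L : ℂ)) ^ n + f) : False := by
  obtain ⟨P, H, hPc, hHc, hPH, hPf, hPe, hHe, C, c, hC, hc, hdom⟩ := h
  set N : Md (f + 2) := (ρ γ : Md (f + 2)) with hN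
  have hcomm : N * P g = P g * N := by
    have h1 := hPe g hg γ
    change P (mat γ * g) = _ at h1
    rw [hγ, hPf g hg] at h1
    calc (ρ γ : Md _) * P g = (ρ γ : Md _) * P g * ((ρ γ⁻¹ : Md _) * (ρ γ : Md _)) := by
          rw [rep_inv_mul, mul_one]
      _ = ((ρ γ : Md _) * P g * (ρ γ⁻¹ : Md _)) * (ρ γ : Md _) := by
          simp only [mul_assoc]
      _ = P g * (ρ γ : Md _) := by rw [← h1]
  have hne0 : ∀ (μ : ℂ) (v : Fin (f + 2) → ℂ), v ≠ 0 → N *ᵥ v = μ • v → μ ≠ 0 := by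
    intro μ v hv hAv h0
    rw [h0, zero_smul] at hAv
    apply hv
    have : (ρ γ⁻¹ : Md _) *ᵥ ((ρ γ : Md _) *ᵥ v) = v := by
      rw [Matrix.mulVec_mulVec, rep_inv_mul, Matrix.one_mulVec]
    rw [← this]
    change (ρ γ⁻¹ : Md _) *ᵥ (N *ᵥ v) = 0
    rw [hAv, Matrix.mulVec_zero]
  have hsep : ∀ (μ ν : ℂ) (v w : Fin (f + 2) → ℂ), v ≠ 0 → w ≠ 0 → P g *ᵥ v = v →
      P g *ᵥ w = 0 → N *ᵥ v = μ • v → N *ᵥ w = ν • w → ‖μ‖ < ‖ν‖ := by
    intro μ ν v w hv hw hPv hPw hAv hAw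
    exact strict_sep ρ hPH hHe hc hdom hg hL hγ hv hw hPv hPw hAv hAw (hne0 μ v hv hAv)
      (hne0 ν w hw hAw)
  obtain ⟨b, hb⟩ := proj_poly N (P g) hcomm (hPH g hg).1 (by
    intro μ v w hv hw hPv hPw hAv hAw
    exact lt_irrefl _ (hsep μ μ v w hv hw hPv hPw hAv hAw))
  -- power traces
  have hpow : ∀ n : ℕ, (N ^ n).trace = ∑ i, (ev f L i) ^ n := by
    intro n
    have h1 := htr n
    rw [map_pow, Matrix.SpecialLinearGroup.coe_pow] at h1
    rw [h1, sum_ev f L (fun x => x ^ n)]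
    simp
  have hdiag : ∀ n : ℕ, ((Matrix.diagonal (ev f L) : Md (f + 2)) ^ n).trace = (N ^ n).trace := by
    intro n
    rw [hpow, Matrix.diagonal_pow, Matrix.trace_diagonal]
    rfl
  have heig : ∀ i, ∃ w : Fin (f + 2) → ℂ, w ≠ 0 ∧ N *ᵥ w = ev f L i • w := by
    intro i
    refine eig_of_trace (Matrix.diagonal (ev f L)) N hdiag (ev f L i) (Pi.single i 1) ?_ ?_
    · intro h0
      have := congrFun h0 i
      simp at this
    · ext j
      rw [Matrix.mulVec_diagonal]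
      by_cases hji : j = i
      · subst hji; simp
      · simp [Pi.single_eq_of_ne hji]
  -- the trace of `P g`
  have htrP : (k : ℂ) = ∑ i, b.eval (ev f L i) := by
    have h1 := idem_rank (P g) (hPH g hg).1
    rw [(hPH g hg).2.1] at h1
    rw [h1, hb, Polynomial.aeval_eq_sum_range, Matrix.trace_sum]
    simp only [Matrix.trace_smul, hpow, smul_eq_mul, Finset.mul_sum]
    rw [Finset.sum_comm]
    refine Finset.sum_congr rfl fun i _ => ?_
    rw [Polynomial.eval_eq_sum_range]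
  rw [sum_ev f L (fun x => b.eval x)] at htrP
  -- values of `b` at eigenvalues
  have hval : ∀ (μ : ℂ) (w : Fin (f + 2) → ℂ), w ≠ 0 → N *ᵥ w = μ • w →
      P g *ᵥ w = b.eval μ • w ∧ (b.eval μ = 0 ∨ b.eval μ = 1) := by
    intro μ w hw hNw
    have h1 : P g *ᵥ w = b.eval μ • w := by
      rw [hb]; exact aeval_mulVec N μ w hNw b
    refine ⟨h1, ?_⟩
    have h2 : P g *ᵥ (P g *ᵥ w) = P g *ᵥ w := by rw [Matrix.mulVec_mulVec, (hPH g hg).1]
    rw [h1, Matrix.mulVec_smul, h1, smul_smul] at h2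
    have h3 : (b.eval μ * b.eval μ - b.eval μ) • w = 0 := by rw [sub_smul, h2, sub_self]
    have h4 := (smul_eq_zero.mp h3).resolve_right hw
    have h5 : b.eval μ * (b.eval μ - 1) = 0 := by linear_combination h4
    rcases mul_eq_zero.mp h5 with h | h
    · left; exact h
    · right; linear_combination h
  obtain ⟨wp, hwp, hNp⟩ := heig 0
  obtain ⟨wm, hwm, hNm⟩ := heig 1
  have hf : 2 ≤ f := by omega
  obtain ⟨w1, hw1, hN1⟩ := heig ⟨2, by omega⟩
  have e0 : ev f L 0 = Complex.exp L := rfl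
  have e1 : ev f L 1 = Complex.exp (-L) := rfl
  have e2 : ev f L ⟨2, by omega⟩ = 1 := by
    change (Fin.cons (Complex.exp L) (Fin.cons (Complex.exp (-L)) (fun _ => 1)) :
      Fin (f + 2) → ℂ) (Fin.succ (Fin.succ (⟨0, by omega⟩ : Fin f))) = 1
    rw [Fin.cons_succ, Fin.cons_succ]
  rw [e0] at hNp
  rw [e1] at hNm
  rw [e2] at hN1
  obtain ⟨hPp, hbp⟩ := hval _ wp hwp hNp
  obtain ⟨hPm, hbm⟩ := hval _ wm hwm hNm
  obtain ⟨hP1, hb1⟩ := hval _ w1 hw1 hN1
  have nE : ‖Complex.exp (L : ℂ)‖ = Real.exp L := by rw [Complex.norm_exp]; simp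
  have nE' : ‖Complex.exp (-(L : ℂ))‖ = Real.exp (-L) := by rw [Complex.norm_exp]; simp
  have hE1 : 1 < Real.exp L := Real.one_lt_exp_iff.mpr hL
  have hE2 : Real.exp (-L) < 1 := by
    have := Real.exp_lt_exp.mpr (show -L < 0 by linarith)
    simpa using this
  rcases hb1 with h1 | h1
  · -- `1` on the kernel side
    have hbp1 : b.eval (Complex.exp L) = 1 := by
      rcases hbp with h | h
      · exfalso
        rw [h1, h] at htrP
        rcases hbm with h' | h' <;> rw [h'] at htrP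
        · norm_num at htrP; omega
        · norm_num at htrP
          have : k = 1 := by exact_mod_cast htrP
          omega
      · exact h
    rw [hbp1, one_smul] at hPp
    rw [h1, zero_smul] at hP1
    have := hsep _ _ wp w1 hwp hw1 hPp hP1 hNp hN1
    rw [nE, norm_one] at this
    linarith
  · -- `1` on the range side
    have hbm0 : b.eval (Complex.exp (-L)) = 0 := by
      rcases hbm with h | h
      · exact h
      · exfalso
        rw [h1, h] at htrP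
        rcases hbp with h' | h' <;> rw [h'] at htrP
        · have h3 : ((k : ℕ) : ℂ) = ((1 + f : ℕ) : ℂ) := by push_cast; rw [htrP]; ring
          have : k = 1 + f := by exact_mod_cast h3
          omega
        · have h3 : ((k : ℕ) : ℂ) = ((2 + f : ℕ) : ℂ) := by push_cast; rw [htrP]; ring
          have : k = 2 + f := by exact_mod_cast h3
          omega
    rw [hbm0, zero_smul] at hPm
    rw [h1, one_smul] at hP1
    have := hsep _ _ w1 wm hw1 hwm hP1 hPm hN1 hNm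
    rw [nE', norm_one] at this
    linarith

end Pool.Agent.J4.H97.Anosov
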