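import Pool.Agent.J4.H97.Anosov.Group2
import Mathlib.Algebra.Group.Subgroup.Pointwise

/-!
Simple elements along the walls of the triangle group.
-/

namespace Pool.Agent.J4.H97.Anosov

open Matrix Filter Topology

/-- Translation along the first wall. -/
def T1 : MZ := !![3, 2, 6; 2, 3, 6; 2, 2, 5]
/-- Translation along the second wall. -/
def T2 : MZ := !![2, 0, 3; 0, 1, 0; 1, 0, 2]
/-- Translation along the third wall. -/
def T3 : MZ := !![0, 2, 3; -2, 3, 6; -1, 2, 4]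

/-- Twelfth power. -/
def X1 : MZ := !![221322261601, 221322261600, 542126609640; 221322261600, 221322261601,
  542126609640; 180708869880, 180708869880, 442644523201]
/-- Twelfth power. -/
def X2 : MZ := !![3650401, 0, 6322680; 0, 1, 0; 2107560, 0, 3650401]
/-- Twelfth power. -/
def X3 : MZ := !![-384199199, 543339720, 1152597600; -543339720, 768398401, 1630019160;
  -384199200, 543339720, 1152597601]

theorem T1_pow : T1 ^ 12 = X1 := by
  have h2 : T1 * T1 = !![25, 24, 60; 24, 25, 60; 20, 20, 49] := by decide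
  have h4 : (!![25, 24, 60; 24, 25, 60; 20, 20, 49] : MZ) * !![25, 24, 60; 24, 25, 60; 20, 20, 49]
      = !![2401, 2400, 5880; 2400, 2401, 5880; 1960, 1960, 4801] := by decide
  have h8 : (!![2401, 2400, 5880; 2400, 2401, 5880; 1960, 1960, 4801] : MZ) *
      !![2401, 2400, 5880; 2400, 2401, 5880; 1960, 1960, 4801] =
      !![23049601, 23049600, 56459760; 23049600, 23049601, 56459760;
        18819920, 18819920, 46099201] := by decide
  have h12 : (!![23049601, 23049600, 56459760; 23049600, 23049601, 56459760;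
        18819920, 18819920, 46099201] : MZ) *
        !![2401, 2400, 5880; 2400, 2401, 5880; 1960, 1960, 4801] = X1 := by decide
  calc T1 ^ 12 = ((T1 * T1) * (T1 * T1)) * ((T1 * T1) * (T1 * T1)) * ((T1 * T1) * (T1 * T1)) := by
        noncomm_ring
    _ = X1 := by rw [h2, h4, h8, h12]

theorem T2_pow : T2 ^ 12 = X2 := by
  have h2 : T2 * T2 = !![7, 0, 12; 0, 1, 0; 4, 0, 7] := by decide
  have h4 : (!![7, 0, 12; 0, 1, 0; 4, 0, 7] : MZ) * !![7, 0, 12; 0, 1, 0; 4, 0, 7]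
      = !![97, 0, 168; 0, 1, 0; 56, 0, 97] := by decide
  have h8 : (!![97, 0, 168; 0, 1, 0; 56, 0, 97] : MZ) *
      !![97, 0, 168; 0, 1, 0; 56, 0, 97] =
      !![18817, 0, 32592; 0, 1, 0; 10864, 0, 18817] := by decide
  have h12 : (!![18817, 0, 32592; 0, 1, 0; 10864, 0, 18817] : MZ) *
        !![97, 0, 168; 0, 1, 0; 56, 0, 97] = X2 := by decide
  calc T2 ^ 12 = ((T2 * T2) * (T2 * T2)) * ((T2 * T2) * (T2 * T2)) * ((T2 * T2) * (T2 * T2)) := by
        noncomm_ring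
    _ = X2 := by rw [h2, h4, h8, h12]

theorem T3_pow : T3 ^ 12 = X3 := by
  have h2 : T3 * T3 = !![-7, 12, 24; -12, 17, 36; -8, 12, 25] := by decide
  have h4 : (!![-7, 12, 24; -12, 17, 36; -8, 12, 25] : MZ) * !![-7, 12, 24; -12, 17, 36; -8, 12, 25]
      = !![-287, 408, 864; -408, 577, 1224; -288, 408, 865] := by decide
  have h8 : (!![-287, 408, 864; -408, 577, 1224; -288, 408, 865] : MZ) *
      !![-287, 408, 864; -408, 577, 1224; -288, 408, 865] =
      !![-332927, 470832, 998784; -470832, 665857, 1412496; -332928, 470832, 998785] := by decide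
  have h12 : (!![-332927, 470832, 998784; -470832, 665857, 1412496;
        -332928, 470832, 998785] : MZ) *
        !![-287, 408, 864; -408, 577, 1224; -288, 408, 865] = X3 := by decide
  calc T3 ^ 12 = ((T3 * T3) * (T3 * T3)) * ((T3 * T3) * (T3 * T3)) * ((T3 * T3) * (T3 * T3)) := by
        noncomm_ring
    _ = X3 := by rw [h2, h4, h8, h12]

/-- Unit. -/
def t1 : MZˣ := r3 * (r1 * (r3 * (r1 * (r2 * (r3 * (r1 * r2))))))
/-- Unit. -/
def t2 : MZˣ := r3 * (r1 * (r2 * r1))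
/-- Unit. -/
def t3 : MZˣ := r1 * (r3 * (r1 * (r3 * (r1 * r2))))

theorem t1_val : (t1 : MZ) = T1 := by
  change R3 * (R1 * (R3 * (R1 * (R2 * (R3 * (R1 * R2)))))) = T1
  decide
theorem t2_val : (t2 : MZ) = T2 := by
  change R3 * (R1 * (R2 * R1)) = T2
  decide
theorem t3_val : (t3 : MZ) = T3 := by
  change R1 * (R3 * (R1 * (R3 * (R1 * R2)))) = T3
  decide

theorem t1_mem : t1 ∈ W := W.mul_mem r3_mem (W.mul_mem r1_mem (W.mul_mem r3_mem
  (W.mul_mem r1_mem (W.mul_mem r2_mem (W.mul_mem r3_mem (W.mul_mem r1_mem r2_mem))))))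
theorem t2_mem : t2 ∈ W := W.mul_mem r3_mem (W.mul_mem r1_mem (W.mul_mem r2_mem r1_mem))
theorem t3_mem : t3 ∈ W := W.mul_mem r1_mem (W.mul_mem r3_mem (W.mul_mem r1_mem
  (W.mul_mem r3_mem (W.mul_mem r1_mem r2_mem))))

theorem X1_det : X1.det = 1 := by rw [Matrix.det_fin_three]; simp [X1]
theorem X2_det : X2.det = 1 := by rw [Matrix.det_fin_three]; simp [X2]
theorem X3_det : X3.det = 1 := by rw [Matrix.det_fin_three]; simp [X3]

theorem X1_mod : (Int.castRingHom (ZMod 5)).mapMatrix X1 = 1 := by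
  ext i j
  fin_cases i <;> fin_cases j <;> (simp [X1]; decide)
theorem X2_mod : (Int.castRingHom (ZMod 5)).mapMatrix X2 = 1 := by
  ext i j
  fin_cases i <;> fin_cases j <;> (simp [X2]; try decide)
theorem X3_mod : (Int.castRingHom (ZMod 5)).mapMatrix X3 = 1 := by
  ext i j
  fin_cases i <;> fin_cases j <;> (simp [X3]; try decide)

/-- The elements of the congruence subgroup. -/
def xz1 : ↥GZ := ⟨⟨t1 ^ 12, W.pow_mem t1_mem 12⟩, mem_GZ
  (by change ((t1 ^ 12 : MZˣ) : MZ).det = 1; rw [Units.val_pow_eq_pow_val, t1_val, T1_pow, X1_det])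
  (by
    change (Int.castRingHom (ZMod 5)).mapMatrix ((t1 ^ 12 : MZˣ) : MZ) = 1
    rw [Units.val_pow_eq_pow_val, t1_val, T1_pow, X1_mod])⟩
/-- The elements of the congruence subgroup. -/
def xz2 : ↥GZ := ⟨⟨t2 ^ 12, W.pow_mem t2_mem 12⟩, mem_GZ
  (by change ((t2 ^ 12 : MZˣ) : MZ).det = 1; rw [Units.val_pow_eq_pow_val, t2_val, T2_pow, X2_det])
  (by
    change (Int.castRingHom (ZMod 5)).mapMatrix ((t2 ^ 12 : MZˣ) : MZ) = 1
    rw [Units.val_pow_eq_pow_val, t2_val, T2_pow, X2_mod])⟩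
/-- The elements of the congruence subgroup. -/
def xz3 : ↥GZ := ⟨⟨t3 ^ 12, W.pow_mem t3_mem 12⟩, mem_GZ
  (by change ((t3 ^ 12 : MZˣ) : MZ).det = 1; rw [Units.val_pow_eq_pow_val, t3_val, T3_pow, X3_det])
  (by
    change (Int.castRingHom (ZMod 5)).mapMatrix ((t3 ^ 12 : MZˣ) : MZ) = 1
    rw [Units.val_pow_eq_pow_val, t3_val, T3_pow, X3_mod])⟩

/-- Wall elements. -/
noncomputable def x1 : ↥Gam := eG xz1
/-- Wall elements. -/
noncomputable def x2 : ↥Gam := eG xz2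
/-- Wall elements. -/
noncomputable def x3 : ↥Gam := eG xz3

theorem wz_eG (γ : ↥GZ) : wz (eG γ) = (((γ : ↥W) : MZˣ) : MZ) := by
  unfold wz; rw [MulEquiv.symm_apply_apply]

theorem wz_x1 : wz x1 = X1 := by
  unfold x1; rw [wz_eG]
  change ((t1 ^ 12 : MZˣ) : MZ) = X1
  rw [Units.val_pow_eq_pow_val, t1_val, T1_pow]
theorem wz_x2 : wz x2 = X2 := by
  unfold x2; rw [wz_eG]
  change ((t2 ^ 12 : MZˣ) : MZ) = X2
  rw [Units.val_pow_eq_pow_val, t2_val, T2_pow]
theorem wz_x3 : wz x3 = X3 := by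
  unfold x3; rw [wz_eG]
  change ((t3 ^ 12 : MZˣ) : MZ) = X3
  rw [Units.val_pow_eq_pow_val, t3_val, T3_pow]

theorem wz_mul (a b : ↥Gam) : wz (a * b) = wz a * wz b := by
  unfold wz
  rw [map_mul]; rfl

theorem wz_one : wz 1 = 1 := by
  unfold wz
  rw [map_one]; rfl

instance : GZ.Normal := by unfold GZ; infer_instance

/-- Conjugation by elements of the triangle group. -/
noncomputable def act : ↥W →* MulAut ↥Gam :=
  (MulAut.congr eG).toMonoidHom.comp MulAut.conjNormal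

theorem wz_act (w : ↥W) (a : ↥Gam) : wz (act w a) =
    ((w : MZˣ) : MZ) * wz a * (((w⁻¹ : ↥W) : MZˣ) : MZ) := by
  have h1 : act w a = eG (MulAut.conjNormal w (eG.symm a)) := rfl
  rw [h1, wz_eG]
  have h2 : ((MulAut.conjNormal w (eG.symm a) : ↥GZ) : ↥W) = w * (eG.symm a : ↥GZ) * w⁻¹ :=
    MulAut.conjNormal_apply _ _
  rw [h2]; rfl

/-- Reflections as elements of `W`. -/
def s1 : ↥W := ⟨r1, r1_mem⟩
/-- Reflections as elements of `W`. -/
def s2 : ↥W := ⟨r2, r2_mem⟩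
/-- Reflections as elements of `W`. -/
def s3 : ↥W := ⟨r3, r3_mem⟩

theorem wz_act1 (a : ↥Gam) : wz (act s1 a) = R1 * wz a * R1 := wz_act s1 a
theorem wz_act2 (a : ↥Gam) : wz (act s2 a) = R2 * wz a * R2 := wz_act s2 a
theorem wz_act3 (a : ↥Gam) : wz (act s3 a) = R3 * wz a * R3 := wz_act s3 a

/-- Wall normals. -/
def v1 : Fin 3 → ℤ := ![1, -1, 0]
/-- Wall normals. -/
def v2 : Fin 3 → ℤ := ![0, 1, 0]
/-- Wall normals. -/
def v3 : Fin 3 → ℤ := ![-3, 0, -1]

theorem cross_z {a b : ↥Gam} (ha : a ≠ 1) (hb : b ≠ 1) (u v : Fin 3 → ℤ) (hu : 0 < fz u u)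
    (hv : 0 < fz v v) (hau : wz a *ᵥ u = u) (hbv : wz b *ᵥ v = v)
    (h : fz u v * fz u v < fz u u * fz v v) : CrossAlg a b := by
  have e1 : mat a *ᵥ em u = em u := by rw [mat_wz, cj_em, hau]
  have e2 : mat b *ᵥ em v = em v := by rw [mat_wz, cj_em, hbv]
  refine cross_imp gam_good ha hb (unit_em hu) (unit_em hv) (by rw [Matrix.mulVec_smul, e1])
    (by rw [Matrix.mulVec_smul, e2]) ?_
  have hu' : (0 : ℝ) < fz u u := by exact_mod_cast hu
  have hv' : (0 : ℝ) < fz v v := by exact_mod_cast hv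
  have h' : (fz u v : ℝ) * fz u v < fz u u * fz v v := by exact_mod_cast h
  rw [B_smul_left, B_smul_right, B_em, ← sq_lt_one_iff_abs_lt_one]
  have q1 := Real.mul_self_sqrt hu'.le
  have q2 := Real.mul_self_sqrt hv'.le
  have p1 : 0 < Real.sqrt (fz u u : ℝ) := Real.sqrt_pos.mpr hu'
  have p2 : 0 < Real.sqrt (fz v v : ℝ) := Real.sqrt_pos.mpr hv'
  have e3 : ((Real.sqrt (fz u u : ℝ))⁻¹ * ((Real.sqrt (fz v v : ℝ))⁻¹ * (fz u v : ℝ))) ^ 2 =
      ((fz u v : ℝ) * fz u v) / ((Real.sqrt (fz u u : ℝ) * Real.sqrt (fz u u : ℝ)) *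
        (Real.sqrt (fz v v : ℝ) * Real.sqrt (fz v v : ℝ))) := by
    field_simp
  rw [e3, q1, q2, div_lt_one (by positivity)]
  exact h'

/-- Wall elements are simple. -/
theorem wall_simple (w : ↥W) (v : Fin 3 → ℤ) (hv : 0 < fz v v)
    (hrefl : ∀ y : V3, cj ((w : MZˣ) : MZ) *ᵥ y = y - (2 * B y (em v) / fz v v) • em v)
    {x : ↥Gam} (hx : x ≠ 1) (hxv : wz x *ᵥ v = v) : SimpleElt x := by
  have hG := gam_good
  refine ⟨hx, fun δ hc => ?_⟩
  have hv' : (0 : ℝ) < fz v v := by exact_mod_cast hv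
  have hxe : mat x *ᵥ em v = em v := by rw [mat_wz, cj_em, hxv]
  set n := (Real.sqrt (fz v v : ℝ))⁻¹ • em v with hn
  have hnn : B n n = 1 := unit_em hv
  have hxn : mat x *ᵥ n = n := by rw [hn, Matrix.mulVec_smul, hxe]
  have hy1 : δ * x * δ⁻¹ ≠ 1 := by
    intro hc
    apply hx
    have := congrArg (fun z => δ⁻¹ * z * δ) hc
    simpa [mul_assoc] using this
  have hym : mat (δ * x * δ⁻¹) *ᵥ (mat δ *ᵥ n) = mat δ *ᵥ n := by
    rw [mat_mul, mat_mul, hG.mat_inv, ← Matrix.mulVec_mulVec, ← Matrix.mulVec_mulVec,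
      lin_lin' (hG.lor δ), hxn]
  have hmm : B (mat δ *ᵥ n) (mat δ *ᵥ n) = 1 := by rw [(hG.lor δ).B, hnn]
  have hlt := imp_cross hG hx hy1 hnn hmm hxn hym hc
  obtain ⟨p, hp, hpn, hpm⟩ := exists_meet hnn hmm hlt
  -- the reflection fixes vectors orthogonal to `n`
  have hsq : (0 : ℝ) < (Real.sqrt (fz v v : ℝ))⁻¹ := inv_pos.mpr (Real.sqrt_pos.mpr hv')
  have horth : ∀ y : V3, B y n = 0 → cj ((w : MZˣ) : MZ) *ᵥ y = y := by
    intro y hy
    rw [hn, B_smul_right] at hy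
    have h0 : B y (em v) = 0 := (mul_eq_zero.mp hy).resolve_left hsq.ne'
    rw [hrefl, h0]; simp
  have hinv : ∀ y : V3, cj ((w : MZˣ) : MZ) *ᵥ y = y → cj (((w⁻¹ : ↥W) : MZˣ) : MZ) *ᵥ y = y := by
    intro y hy
    have h1 : cj (((w⁻¹ : ↥W) : MZˣ) : MZ) *ᵥ (cj ((w : MZˣ) : MZ) *ᵥ y) = y := by
      rw [Matrix.mulVec_mulVec, ← cj_mul]
      have : ((((w⁻¹ : ↥W) : MZˣ) : MZ)) * ((w : MZˣ) : MZ) = 1 := by
        rw [← Units.val_mul, ← Subgroup.coe_mul]; simp
      rw [this, cj_one, Matrix.one_mulVec]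
    rw [hy] at h1; exact h1
  -- the commutator
  set κ : ↥Gam := act w δ * δ⁻¹ with hκ
  have hmatκ : mat κ = cj ((w : MZˣ) : MZ) * mat δ * cj (((w⁻¹ : ↥W) : MZˣ) : MZ) *
      linv (mat δ) := by
    rw [hκ, mat_mul, hG.mat_inv, mat_wz (act w δ), wz_act, cj_mul, cj_mul, ← mat_wz]
  set q := linv (mat δ) *ᵥ p with hq
  have hqn : B q n = 0 := by rw [hq, B_linv (hG.lor δ), hpm]
  have hκp : mat κ *ᵥ p = p := by
    rw [hmatκ]
    simp only [← Matrix.mulVec_mulVec]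
    rw [← hq, hinv q (horth q hqn), hq, lin_lin (hG.lor δ), horth p hpn]
  have hκ1 : κ = 1 := hG.noFix hp hκp
  have hcomm : act w δ = δ := by
    rw [hκ] at hκ1
    exact mul_inv_eq_one.mp hκ1
  have hmat : cj ((w : MZˣ) : MZ) * mat δ = mat δ * cj ((w : MZˣ) : MZ) := by
    have h1 := congrArg mat hcomm
    rw [mat_wz (act w δ), wz_act, cj_mul, cj_mul, ← mat_wz] at h1
    have h2 : cj (((w⁻¹ : ↥W) : MZˣ) : MZ) * cj ((w : MZˣ) : MZ) = 1 := by
      rw [← cj_mul]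
      have : ((((w⁻¹ : ↥W) : MZˣ) : MZ)) * ((w : MZˣ) : MZ) = 1 := by
        rw [← Units.val_mul, ← Subgroup.coe_mul]; simp
      rw [this, cj_one]
    calc cj ((w : MZˣ) : MZ) * mat δ = cj ((w : MZˣ) : MZ) * mat δ *
          (cj (((w⁻¹ : ↥W) : MZˣ) : MZ) * cj ((w : MZˣ) : MZ)) := by rw [h2, mul_one]
      _ = (cj ((w : MZˣ) : MZ) * mat δ * cj (((w⁻¹ : ↥W) : MZˣ) : MZ)) * cj ((w : MZˣ) : MZ) := by
          simp only [mul_assoc]
      _ = mat δ * cj ((w : MZˣ) : MZ) := by rw [h1]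
  have hneg : cj ((w : MZˣ) : MZ) *ᵥ em v = - em v := by
    rw [hrefl, B_em, mul_div_assoc, div_self hv'.ne', mul_one, two_smul]
    abel
  set z := mat δ *ᵥ em v with hz
  have hz1 : cj ((w : MZˣ) : MZ) *ᵥ z = - z := by
    rw [hz, Matrix.mulVec_mulVec, hmat, ← Matrix.mulVec_mulVec, hneg, Matrix.mulVec_neg]
  rw [hrefl] at hz1
  have hz2 : z = (B z (em v) / fz v v) • em v := by
    have h3 : (2 : ℝ) • z = (2 * B z (em v) / fz v v) • em v := by
      rw [two_smul]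
      have := sub_eq_iff_eq_add.mp hz1
      nth_rewrite 1 [this]
      abel
    calc z = (1 / 2 : ℝ) • ((2 : ℝ) • z) := by rw [smul_smul]; norm_num
      _ = (1 / 2 : ℝ) • ((2 * B z (em v) / fz v v) • em v) :=
          congrArg (fun y => (1 / 2 : ℝ) • y) h3
      _ = (B z (em v) / fz v v) • em v := by
          rw [smul_smul]; congr 1; ring
  have hzz : B z z = fz v v := by rw [hz, (hG.lor δ).B, B_em]
  set b := B z (em v) with hb
  have hbb : b * b = (fz v v : ℝ) * fz v v := by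
    rw [hz2, B_smul_left, B_smul_right, B_em] at hzz
    field_simp at hzz
    nlinarith
  have habs : |B n (mat δ *ᵥ n)| = 1 := by
    have h5 : B n (mat δ *ᵥ n) = ((Real.sqrt (fz v v : ℝ))⁻¹ * (Real.sqrt (fz v v : ℝ))⁻¹) * b := by
      rw [hn, Matrix.mulVec_smul, B_smul_left, B_smul_right, hb, hz, B_comm (em v)]; ring
    have h6 : (B n (mat δ *ᵥ n)) ^ 2 = 1 := by
      have q1 := Real.mul_self_sqrt hv'.le
      rw [h5]
      have : ((Real.sqrt (fz v v : ℝ))⁻¹ * (Real.sqrt (fz v v : ℝ))⁻¹ * b) ^ 2 =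
          (b * b) / ((Real.sqrt (fz v v : ℝ) * Real.sqrt (fz v v : ℝ)) *
            (Real.sqrt (fz v v : ℝ) * Real.sqrt (fz v v : ℝ))) := by
        have := Real.sqrt_pos.mpr hv'
        field_simp
      rw [this, q1, hbb, div_self (by positivity)]
    rcases sq_eq_one_iff_of_side h6 with h | h
    · rw [h]; simp
    · rw [h]; simp
  linarith

end Pool.Agent.J4.H97.Anosov
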